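import Pool.Agent.K1H54.RC.Ker2

/-!
# Bounds of the two parts of the flux
-/

open Set ComplexConjugate MeasureTheory Finset

namespace Pool.Agent.K1H54.RC

open Pool.Agent.H356R3.NS hiding Sol
open Pool.Agent.K1H29.SH (nn nn_nonneg nn_neg one_le_nn nn_eq_zero tri mem_tri conv1 conv2 conv3)
open Pool.Agent.K1H29.NC (Tr n2 cl nn_le_cl cl_le_nn Tr_tri)
open Pool.Agent.K1H29.RD (bx card_bx)

/-- trilinear forms bounded by the energy and a Sobolev norm -/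
def Fbd (M : K → K → ℝ) (s : ℕ) (b : ℝ) : Prop := ∃ C, 0 ≤ C ∧ ∀ (B : Finset K) (x y z : K → ℂ)
  (F : K → ℝ), (∀ k, k ∉ B → F k = 0) → F 0 = 0 → (∀ k, ‖x k‖ ≤ F k) → (∀ k, ‖y k‖ ≤ F k) →
  (∀ k, ‖z k‖ ≤ F k) →
  ‖Tr M B x y z‖ ≤ C * (√(∑ k ∈ B, F k ^ 2) * ∑ k ∈ B, nn k ^ (2 * (s + b)) * F k ^ 2)

lemma norm_mw {e : ℝ} {x : K → ℂ} {F : K → ℝ} (h : ∀ k, ‖x k‖ ≤ F k) (k : K) :
    ‖mw e x k‖ ≤ nn k ^ e * F k := by
  unfold mw
  have h1 : 0 ≤ nn k ^ e := Real.rpow_nonneg (nn_nonneg k) _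
  rw [norm_mul, Complex.norm_real, Real.norm_of_nonneg h1]
  exact mul_le_mul_of_nonneg_left (h k) h1

lemma mw_zero {e : ℝ} {x : K → ℂ} {F : K → ℝ} (h : ∀ k, ‖x k‖ ≤ F k) {k : K} (hF : F k = 0) :
    mw e x k = 0 := by
  have := norm_mw (e := e) h k
  rw [hF, mul_zero] at this
  exact norm_le_zero_iff.1 this

lemma wd_mw {δ a : ℝ} {B : Finset K} {x : K → ℂ} {F : K → ℝ} (hF0 : F 0 = 0) (h : ∀ k, ‖x k‖ ≤ F k) :
    wd δ B (mw a x) ≤ √(∑ k ∈ B, nn k ^ (2 * (δ + a)) * F k ^ 2) := by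
  unfold wd
  apply Real.sqrt_le_sqrt
  refine Finset.sum_le_sum fun k _ => ?_
  by_cases hk : k = 0
  · subst hk
    rw [mw_zero h hF0, hF0]; simp
  have h1 : 0 < nn k := lt_of_lt_of_le one_pos (one_le_nn hk)
  have h2 := norm_mw (e := a) h k
  have h3 : ‖mw a x k‖ ^ 2 ≤ (nn k ^ a * F k) ^ 2 := pow_le_pow_left₀ (norm_nonneg _) h2 2
  calc nn k ^ (2 * δ) * ‖mw a x k‖ ^ 2 ≤ nn k ^ (2 * δ) * (nn k ^ a * F k) ^ 2 :=
        mul_le_mul_of_nonneg_left h3 (Real.rpow_nonneg h1.le _)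
    _ = (nn k ^ (2 * δ) * (nn k ^ a) ^ 2) * F k ^ 2 := by ring
    _ = _ := by
        congr 1
        rw [← Real.rpow_natCast (nn k ^ a) 2, ← Real.rpow_mul h1.le, ← Real.rpow_add h1]
        congr 1
        push_cast
        ring

lemma sum_pow_zero {B : Finset K} {F : K → ℝ} : ∑ k ∈ B, nn k ^ (2 * (0 : ℝ)) * F k ^ 2 = ∑ k ∈ B, F k ^ 2 := by
  simp

/-- the random part -/
theorem rand_bd {s : ℕ} {j : Fin 3} {δ : ℝ} (hδ : 0 < δ) {M : K → K → ℝ}
    (h : ∀ r, ∃ C, 0 ≤ C ∧ Blog (fun l k => cc s j δ 0 r l k * M l k) C) :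
    Fbd (fun l k => kap s j l k * M l k) s (1 / 2 + 3 / 2 * δ) := by
  choose C hC0 hC using h
  choose C' hC'0 hC' using fun r => wbound (hC0 r) (hC r) hδ
  refine ⟨∑ r, Kc s δ 0 * C' r, Finset.sum_nonneg fun r _ => mul_nonneg (Kc_pos _ _ _).le (hC'0 r), ?_⟩
  intro B x y z F hF hF0 hx hy hz
  have v0 : ∀ {w : K → ℂ}, (∀ k, ‖w k‖ ≤ F k) → w 0 = 0 := fun hw =>
    norm_le_zero_iff.1 ((hw 0).trans (le_of_eq hF0))
  rw [Tr_dec s j δ 0 M B (v0 hx) (v0 hy) (v0 hz)]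
  refine (norm_sum_le _ _).trans ?_
  rw [Finset.sum_mul]
  refine Finset.sum_le_sum fun r _ => ?_
  rw [norm_mul, Complex.norm_real, Real.norm_of_nonneg (Kc_pos _ _ _).le, mul_assoc]
  apply mul_le_mul_of_nonneg_left _ (Kc_pos _ _ _).le
  have e0 : (fun l k => cc s j δ 0 r l k * (hi l k ^ (0 : ℝ) * M l k))
      = fun l k => cc s j δ 0 r l k * M l k := by
    funext l k; rw [Real.rpow_zero, one_mul]
  rw [e0]
  have h1 := hC' r B (mw (wx s δ 0 r 0) x) (mw (wx s δ 0 r 1) y) (mw (wx s δ 0 r 2) z)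
    (fun k hk => mw_zero hx (hF k hk)) (fun k hk => mw_zero hy (hF k hk))
    (fun k hk => mw_zero hz (hF k hk)) (mw_zero hx hF0) (mw_zero hy hF0) (mw_zero hz hF0)
  refine h1.trans ?_
  apply mul_le_mul_of_nonneg_left _ (hC'0 r)
  set N0 := √(∑ k ∈ B, F k ^ 2) with hN0
  set S := ∑ k ∈ B, nn k ^ (2 * ((s : ℝ) + (1 / 2 + 3 / 2 * δ))) * F k ^ 2 with hS
  have hS0 : 0 ≤ S := Finset.sum_nonneg fun k _ => mul_nonneg (Real.rpow_nonneg (nn_nonneg k) _) (sq_nonneg _)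
  have low : ∀ {w : K → ℂ}, (∀ k, ‖w k‖ ≤ F k) → wd δ B (mw (-δ) w) ≤ N0 := by
    intro w hw
    have := wd_mw (δ := δ) (a := -δ) (B := B) hF0 hw
    rwa [show δ + -δ = 0 by ring, sum_pow_zero] at this
  have high : ∀ {w : K → ℂ}, (∀ k, ‖w k‖ ≤ F k) → wd δ B (mw (xp s δ 0) w) ≤ √S := by
    intro w hw
    have := wd_mw (δ := δ) (a := xp s δ 0) (B := B) hF0 hw
    rwa [show δ + xp s δ 0 = (s : ℝ) + (1 / 2 + 3 / 2 * δ) by unfold xp; ring] at this
  have hSS : √S * √S = S := Real.mul_self_sqrt hS0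
  have p : ∀ w : K → ℂ, 0 ≤ wd δ B w := wd_nonneg δ B
  have q := Real.sqrt_nonneg S
  have q0 : 0 ≤ N0 := Real.sqrt_nonneg _
  fin_cases r
  · have e1 : wx s δ 0 0 0 = -δ := by simp [wx]
    have e2 : wx s δ 0 0 1 = xp s δ 0 := by simp [wx]
    have e3 : wx s δ 0 0 2 = xp s δ 0 := by simp [wx]
    simp only [Fin.zero_eta, e1, e2, e3]
    calc _ ≤ N0 * √S * √S := mul_le_mul (mul_le_mul (low hx) (high hy) (p _) q0) (high hz) (p _)
          (mul_nonneg q0 q)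
      _ = _ := by rw [mul_assoc, hSS]
  · have e1 : wx s δ 0 1 0 = xp s δ 0 := by simp [wx]
    have e2 : wx s δ 0 1 1 = -δ := by simp [wx]
    have e3 : wx s δ 0 1 2 = xp s δ 0 := by simp [wx]
    simp only [Fin.mk_one, e1, e2, e3]
    calc _ ≤ √S * N0 * √S := mul_le_mul (mul_le_mul (high hx) (low hy) (p _) q) (high hz) (p _)
          (mul_nonneg q q0)
      _ = _ := by rw [mul_comm (√S) N0, mul_assoc, hSS]
  · have e1 : wx s δ 0 2 0 = xp s δ 0 := by simp [wx]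
    have e2 : wx s δ 0 2 1 = xp s δ 0 := by simp [wx]
    have e3 : wx s δ 0 2 2 = -δ := by simp [wx]
    simp only [Fin.reduceFinMk, e1, e2, e3]
    calc _ ≤ √S * √S * N0 := mul_le_mul (mul_le_mul (high hx) (high hy) (p _) q) (low hz) (p _)
          (mul_nonneg q q)
      _ = _ := by rw [hSS, mul_comm]

/-! ### absolutely convergent part -/

/-- the weighted `ℓ¹` norm -/
lemma l1w {d : ℝ} (hd : 3 / 2 < d) : ∃ C, 0 ≤ C ∧ ∀ (B : Finset K) (F : K → ℝ), F 0 = 0 →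
    ∑ k ∈ B, nn k ^ (-d) * F k ≤ C * √(∑ k ∈ B, F k ^ 2) := by
  have hr1 : (8 : ℝ) * 4 ^ (-d) < 1 := by
    have h1 : (4 : ℝ) ^ (-d) < 4 ^ (-(3 / 2 : ℝ)) := Real.rpow_lt_rpow_of_exponent_lt (by norm_num) (by linarith)
    have h2 : (4 : ℝ) ^ (-(3 / 2 : ℝ)) = 1 / 8 := by
      rw [show (4 : ℝ) = 2 ^ (2 : ℝ) by norm_num, ← Real.rpow_mul (by norm_num),
        show (2 : ℝ) * -(3 / 2) = -3 by norm_num, Real.rpow_neg (by norm_num)]
      norm_num
    linarith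
  have hr0 : (0 : ℝ) < 4 ^ (-d) := by positivity
  have hsum : Summable fun a : ℕ => ((8 : ℝ) * 4 ^ (-d)) ^ a :=
    summable_geometric_of_lt_one (by positivity) hr1
  set A := ∑' a : ℕ, ((8 : ℝ) * 4 ^ (-d)) ^ a with hA
  have hA0 : 0 ≤ A := tsum_nonneg fun a => by positivity
  refine ⟨√(27 * (4 : ℝ) ^ d * A), Real.sqrt_nonneg _, fun B F hF0 => ?_⟩
  set w : K → ℝ := fun k => if k = 0 then 0 else nn k ^ (-d) with hw
  have h1 : ∑ k ∈ B, nn k ^ (-d) * F k = ∑ k ∈ B, w k * F k := by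
    refine Finset.sum_congr rfl fun k _ => ?_
    simp only [hw]
    split_ifs with h
    · rw [h, hF0]; simp
    · rfl
  rw [h1]
  refine (Real.sum_mul_le_sqrt_mul_sqrt _ _ _).trans ?_
  apply mul_le_mul_of_nonneg_right _ (Real.sqrt_nonneg _)
  apply Real.sqrt_le_sqrt
  set N := B.sup cl + 1 with hN
  have hNlt : ∀ k ∈ B, cl k < N := fun k hk => Nat.lt_succ_of_le (Finset.le_sup (f := cl) hk)
  have h2 : ∀ k ∈ B, w k ^ 2 ≤ ∑ a ∈ range N, if cl k = a ∧ k ≠ 0 then (4 : ℝ) ^ d * ((4 : ℝ) ^ (-d)) ^ a else 0 := by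
    intro k hk
    by_cases hk0 : k = 0
    · simp [hw, hk0]
    have h3 : ∀ a, (if cl k = a ∧ k ≠ 0 then (4 : ℝ) ^ d * ((4 : ℝ) ^ (-d)) ^ a else 0)
        = if cl k = a then (4 : ℝ) ^ d * ((4 : ℝ) ^ (-d)) ^ a else 0 := by
      intro a; simp [hk0]
    simp only [h3]
    rw [Finset.sum_ite_eq, if_pos (Finset.mem_range.2 (hNlt k hk))]
    simp only [hw, if_neg hk0]
    have h4 := cl_le_nn hk0
    have h5 : 0 < nn k := lt_of_lt_of_le one_pos (one_le_nn hk0)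
    have h6 : (2 : ℝ) ^ cl k / 2 ≤ nn k := by linarith
    have h7 : nn k ^ (-d) ≤ ((2 : ℝ) ^ cl k / 2) ^ (-d) :=
      Real.rpow_le_rpow_of_nonpos (by positivity) h6 (by linarith)
    have h8 : (nn k ^ (-d)) ^ 2 ≤ (((2 : ℝ) ^ cl k / 2) ^ (-d)) ^ 2 :=
      pow_le_pow_left₀ (Real.rpow_nonneg h5.le _) h7 2
    refine h8.trans (le_of_eq ?_)
    rw [Real.div_rpow (by positivity) (by norm_num), ← Real.rpow_natCast 2 (cl k),
      ← Real.rpow_natCast ((4 : ℝ) ^ (-d)) (cl k), show (4 : ℝ) = 2 ^ (2 : ℝ) by norm_num,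
      ← Real.rpow_mul (by norm_num), ← Real.rpow_mul (by norm_num), ← Real.rpow_mul (by norm_num),
      ← Real.rpow_mul (by norm_num), div_pow, ← Real.rpow_natCast _ 2, ← Real.rpow_natCast _ 2,
      ← Real.rpow_mul (by norm_num), ← Real.rpow_mul (by norm_num), div_eq_mul_inv,
      ← Real.rpow_neg (by norm_num), ← Real.rpow_add (by norm_num), ← Real.rpow_add (by norm_num)]
    congr 1
    push_cast
    ring
  calc ∑ k ∈ B, w k ^ 2 ≤ ∑ k ∈ B, ∑ a ∈ range N,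
        (if cl k = a ∧ k ≠ 0 then (4 : ℝ) ^ d * ((4 : ℝ) ^ (-d)) ^ a else 0) := Finset.sum_le_sum h2
    _ = ∑ a ∈ range N, ∑ k ∈ B,
        (if cl k = a ∧ k ≠ 0 then (4 : ℝ) ^ d * ((4 : ℝ) ^ (-d)) ^ a else 0) := Finset.sum_comm
    _ ≤ ∑ a ∈ range N, 27 * (4 : ℝ) ^ d * ((8 : ℝ) * 4 ^ (-d)) ^ a := by
        refine Finset.sum_le_sum fun a _ => ?_
        rw [← Finset.sum_filter, Finset.sum_const, nsmul_eq_mul]
        have h3 : B.filter (fun k => cl k = a ∧ k ≠ 0) ⊆ bx a := by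
          intro k hk
          rw [mem_bx]
          refine (nn_le_cl k).trans ?_
          rw [(Finset.mem_filter.1 hk).2.1]
        have h4 : ((B.filter (fun k => cl k = a ∧ k ≠ 0)).card : ℝ) ≤ 27 * 8 ^ a := by
          refine le_trans ?_ (card_bx a)
          exact_mod_cast Finset.card_le_card h3
        calc _ ≤ (27 * 8 ^ a) * ((4 : ℝ) ^ d * ((4 : ℝ) ^ (-d)) ^ a) :=
              mul_le_mul_of_nonneg_right h4 (by positivity)
          _ = _ := by rw [mul_pow]; ring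
    _ ≤ _ := by
        rw [← Finset.mul_sum]
        exact mul_le_mul_of_nonneg_left (hsum.sum_le_tsum _ fun a _ => by positivity) (by positivity)

/-- the part with bounded coefficients -/
theorem abs_bd {s : ℕ} {j : Fin 3} {d g : ℝ} (hd : 3 / 2 < d) (he : 0 ≤ xp s d g) {M : K → K → ℝ} {A : ℝ}
    (hM : ∀ l k, l ≠ 0 → k - l ≠ 0 → k ≠ 0 → |hi l k ^ g * M l k| ≤ A) :
    Fbd (fun l k => kap s j l k * M l k) s (xp s d g - s) := by
  obtain ⟨C1, hC1, hl1⟩ := l1w hd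
  have hA0 : 0 ≤ A := by
    have h1 := hM (fun _ => 1) (fun _ => 2) (fun h => by have := congrFun h 0; simp at this)
      (fun h => by have := congrFun h 0; simp at this) (fun h => by have := congrFun h 0; simp at this)
    exact (abs_nonneg _).trans h1
  refine ⟨∑ r : Fin 3, Kc s d g * (A * C1), Finset.sum_nonneg fun r _ => mul_nonneg (Kc_pos _ _ _).le
    (mul_nonneg hA0 hC1), ?_⟩
  intro B x y z F hF hF0 hx hy hz
  have v0 : ∀ {w : K → ℂ}, (∀ k, ‖w k‖ ≤ F k) → w 0 = 0 := fun hw =>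
    norm_le_zero_iff.1 ((hw 0).trans (le_of_eq hF0))
  have hFn : ∀ k, 0 ≤ F k := fun k => (norm_nonneg _).trans (hx k)
  rw [Tr_dec s j d g M B (v0 hx) (v0 hy) (v0 hz)]
  refine (norm_sum_le _ _).trans ?_
  rw [Finset.sum_mul]
  refine Finset.sum_le_sum fun r _ => ?_
  rw [norm_mul, Complex.norm_real, Real.norm_of_nonneg (Kc_pos _ _ _).le, mul_assoc]
  apply mul_le_mul_of_nonneg_left _ (Kc_pos _ _ _).le
  set S := ∑ k ∈ B, nn k ^ (2 * ((s : ℝ) + (xp s d g - s))) * F k ^ 2 with hS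
  set N0 := √(∑ k ∈ B, F k ^ 2) with hN0
  set f : K → ℝ := fun k => nn k ^ (-d) * F k with hf
  set G : K → ℝ := fun k => nn k ^ (xp s d g) * F k with hG
  have hf0 : ∀ k, 0 ≤ f k := fun k => mul_nonneg (Real.rpow_nonneg (nn_nonneg k) _) (hFn k)
  have hG0 : ∀ k, 0 ≤ G k := fun k => mul_nonneg (Real.rpow_nonneg (nn_nonneg k) _) (hFn k)
  have hGS : ∑ k ∈ B, G k ^ 2 ≤ S := by
    refine Finset.sum_le_sum fun k _ => ?_
    by_cases hk : k = 0
    · subst hk; simp [hG, hF0]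
    have h1 : 0 < nn k := lt_of_lt_of_le one_pos (one_le_nn hk)
    simp only [hG]
    rw [mul_pow, ← Real.rpow_natCast (nn k ^ _) 2, ← Real.rpow_mul h1.le,
      show xp s d g * ((2 : ℕ) : ℝ) = 2 * ((s : ℝ) + (xp s d g - s)) by push_cast; ring]
  have hG2 : 0 ≤ ∑ k ∈ B, G k ^ 2 := Finset.sum_nonneg fun k _ => sq_nonneg _
  have hfl : ∑ k ∈ B, f k ≤ C1 * N0 := hl1 B F hF0
  -- the triads
  have hy' : ∀ k, k ∉ B → mw (wx s d g r 1) y k = 0 := fun k hk => mw_zero hy (hF k hk)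
  rw [Tr_tri hy']
  have hterm : ∀ p ∈ tri B, ‖((cc s j d g r p.2 p.1 * (hi p.2 p.1 ^ g * M p.2 p.1) : ℝ) : ℂ) *
      (mw (wx s d g r 0) x p.2 * mw (wx s d g r 1) y (p.1 - p.2) * conj (mw (wx s d g r 2) z p.1))‖ ≤
      A * ((nn p.2 ^ wx s d g r 0 * F p.2) * (nn (p.1 - p.2) ^ wx s d g r 1 * F (p.1 - p.2)) *
        (nn p.1 ^ wx s d g r 2 * F p.1)) := by
    intro p _
    have n1 := norm_mw (e := wx s d g r 0) hx p.2
    have n2 := norm_mw (e := wx s d g r 1) hy (p.1 - p.2)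
    have n3 := norm_mw (e := wx s d g r 2) hz p.1
    by_cases hz1 : p.2 = 0 ∨ p.1 - p.2 = 0 ∨ p.1 = 0
    · have e : ‖((cc s j d g r p.2 p.1 * (hi p.2 p.1 ^ g * M p.2 p.1) : ℝ) : ℂ) *
          (mw (wx s d g r 0) x p.2 * mw (wx s d g r 1) y (p.1 - p.2) * conj (mw (wx s d g r 2) z p.1))‖ = 0 := by
        rcases hz1 with h | h | h
        · rw [h, mw_zero hx hF0]; simp
        · rw [h, mw_zero hy hF0]; simp
        · rw [h, mw_zero hz hF0]; simp
      rw [e]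
      have p1 := (norm_nonneg _).trans n1
      have p2 := (norm_nonneg _).trans n2
      have p3 := (norm_nonneg _).trans n3
      positivity
    · push Not at hz1
      have h1 := hM p.2 p.1 hz1.1 hz1.2.1 hz1.2.2
      have h2 := cc_le (s := s) (d := d) (g := g) (by linarith) he j r p.2 p.1
      rw [norm_mul, norm_mul, norm_mul, Complex.norm_conj, Complex.norm_real, Real.norm_eq_abs, abs_mul]
      have p1 := (norm_nonneg _).trans n1
      have p2 := (norm_nonneg _).trans n2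
      calc _ ≤ (1 * A) * ((nn p.2 ^ wx s d g r 0 * F p.2) * (nn (p.1 - p.2) ^ wx s d g r 1 * F (p.1 - p.2)) *
            (nn p.1 ^ wx s d g r 2 * F p.1)) := by
            apply mul_le_mul (mul_le_mul h2 h1 (abs_nonneg _) zero_le_one) _ (by positivity) (by linarith)
            exact mul_le_mul (mul_le_mul n1 n2 (norm_nonneg _) p1) n3 (norm_nonneg _) (mul_nonneg p1 p2)
        _ = _ := by rw [one_mul]
  refine (norm_sum_le _ _).trans ((Finset.sum_le_sum hterm).trans ?_)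
  rw [← Finset.mul_sum, mul_assoc A C1]
  apply mul_le_mul_of_nonneg_left _ hA0
  have fin : (∑ k ∈ B, f k) * ∑ k ∈ B, G k ^ 2 ≤ C1 * (N0 * S) := by
    calc _ ≤ (C1 * N0) * S := mul_le_mul hfl hGS hG2 (mul_nonneg hC1 (Real.sqrt_nonneg _))
      _ = _ := by ring
  fin_cases r
  · have e1 : wx s d g 0 0 = -d := by simp [wx]
    have e2 : wx s d g 0 1 = xp s d g := by simp [wx]
    have e3 : wx s d g 0 2 = xp s d g := by simp [wx]
    simp only [Fin.zero_eta, e1, e2, e3]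
    refine le_trans (le_of_eq ?_) ((conv1 B (f := f) (g := G) hf0).trans fin)
    exact Finset.sum_congr rfl fun p _ => by simp only [hf, hG]; ring
  · have e1 : wx s d g 1 0 = xp s d g := by simp [wx]
    have e2 : wx s d g 1 1 = -d := by simp [wx]
    have e3 : wx s d g 1 2 = xp s d g := by simp [wx]
    simp only [Fin.mk_one, e1, e2, e3]
    refine le_trans (le_of_eq ?_) ((conv2 B (f := f) (g := G) hf0).trans fin)
    exact Finset.sum_congr rfl fun p _ => by simp only [hf, hG]; ring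
  · have e1 : wx s d g 2 0 = xp s d g := by simp [wx]
    have e2 : wx s d g 2 1 = xp s d g := by simp [wx]
    have e3 : wx s d g 2 2 = -d := by simp [wx]
    simp only [Fin.reduceFinMk, e1, e2, e3]
    refine le_trans (le_of_eq ?_) ((conv3 B (f := f) (g := G) hf0).trans fin)
    exact Finset.sum_congr rfl fun p _ => by simp only [hf, hG]; ring

end Pool.Agent.K1H54.RC
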