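import Pool.Agent.K1H54.RC.Ker3
import Pool.Agent.K1H54.RC.Bd

/-!
# Bounds of the trilinear forms with one high frequency
-/

open Set ComplexConjugate MeasureTheory Finset

namespace Pool.Agent.K1H54.RC

open Pool.Agent.H356R3.NS hiding Sol
open Pool.Agent.K1H29.SH (nn nn_nonneg nn_neg one_le_nn nn_eq_zero tri mem_tri)
open Pool.Agent.K1H29.NC (Tr n2 cl nn_le_cl cl_le_nn Tr_tri conv_a conv_b)
open Pool.Agent.K1H29.RD (bx)

/-- the part above `N / 2` -/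
noncomputable def Sh (N a : ℝ) (B : Finset K) (F : K → ℝ) : ℝ :=
  ∑ k ∈ B, if N / 2 < nn k then nn k ^ (2 * a) * F k ^ 2 else 0

lemma Sh_nonneg (N a : ℝ) (B : Finset K) (F : K → ℝ) : 0 ≤ Sh N a B F :=
  Finset.sum_nonneg fun k _ => by
    split_ifs
    · exact mul_nonneg (Real.rpow_nonneg (nn_nonneg k) _) (sq_nonneg _)
    · exact le_rfl

/-- trilinear forms with one frequency above `N` -/
def Gbd (M : K → K → ℝ) (s : ℕ) (b : ℝ) : Prop := ∃ C, 0 ≤ C ∧ ∀ (N : ℝ) (B : Finset K) (x y z : K → ℂ)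
  (F : K → ℝ), 0 ≤ N → (∀ k, k ∉ B → F k = 0) → F 0 = 0 → (∀ k, ‖x k‖ ≤ F k) → (∀ k, ‖y k‖ ≤ F k) →
  (∀ k, ‖z k‖ ≤ F k) → (∀ k, nn k ≤ N → z k = 0) →
  ‖Tr M B x y z‖ ≤ C * (√(∑ k ∈ B, F k ^ 2) * Sh N (s + b) B F)

/-- the high part of the majorant -/
noncomputable def hpF (N : ℝ) (F : K → ℝ) (k : K) : ℝ := if N / 2 < nn k then F k else 0

lemma norm_hp {N : ℝ} {x : K → ℂ} {F : K → ℝ} (h : ∀ k, ‖x k‖ ≤ F k) (k : K) :
    ‖hp (N / 2) x k‖ ≤ hpF N F k := by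
  unfold hp hpF
  split_ifs
  · exact h k
  · simp

lemma wd_hF {δ a N : ℝ} {B : Finset K} {x : K → ℂ} {F : K → ℝ} (hF0 : F 0 = 0) (h : ∀ k, ‖x k‖ ≤ F k) :
    wd δ B (mw a (hp (N / 2) x)) ≤ √(Sh N (δ + a) B F) := by
  have h0 : hpF N F 0 = 0 := by unfold hpF; simp [hF0]
  refine (wd_mw (F := hpF N F) h0 (norm_hp h)).trans (le_of_eq ?_)
  unfold Sh
  congr 1
  refine Finset.sum_congr rfl fun k _ => ?_
  unfold hpF
  split_ifs <;> simp

lemma mwz {e : ℝ} {x : K → ℂ} {k : K} (h : x k = 0) : mw e x k = 0 := by unfold mw; rw [h, mul_zero]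

lemma pjz {N : ℝ} {r i : Fin 3} {x : K → ℂ} {k : K} (h : x k = 0) : pj N r i x k = 0 := by
  unfold pj hp
  split_ifs <;> simp [h]

/-- the random part -/
theorem rand_bd3 {κ : K → K → ℝ} {s : ℕ} {δ : ℝ} (hδ : 0 < δ) {M : K → K → ℝ}
    (h : ∀ r, ∃ C, 0 ≤ C ∧ Blog (fun l k => cg κ s δ 0 r l k * M l k) C) :
    Gbd (fun l k => κ l k * M l k) s (1 / 2 + 3 / 2 * δ) := by
  choose C hC0 hC using h
  choose C' hC'0 hC' using fun r => wbound (hC0 r) (hC r) hδ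
  have hK0 : (0 : ℝ) ≤ (2 : ℝ) ^ xp s δ 0 := by positivity
  refine ⟨∑ r, (2 : ℝ) ^ xp s δ 0 * C' r, Finset.sum_nonneg fun r _ => mul_nonneg hK0 (hC'0 r), ?_⟩
  intro N B x y z F hN hF hF0 hx hy hz hzN
  have v : ∀ {w : K → ℂ}, (∀ k, ‖w k‖ ≤ F k) → ∀ k, F k = 0 → w k = 0 := fun hw k hk =>
    norm_le_zero_iff.1 ((hw k).trans (le_of_eq hk))
  rw [Tr_dec3 κ s δ 0 M B (v hx 0 hF0) (v hy 0 hF0) hN hzN]
  refine (norm_sum_le _ _).trans ?_
  rw [Finset.sum_mul]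
  refine Finset.sum_le_sum fun r _ => ?_
  rw [norm_mul, Complex.norm_real, Real.norm_of_nonneg hK0, mul_assoc]
  apply mul_le_mul_of_nonneg_left _ hK0
  have e0 : (fun l k => cg κ s δ 0 r l k * (hi l k ^ (0 : ℝ) * M l k))
      = fun l k => cg κ s δ 0 r l k * M l k := by
    funext l k; rw [Real.rpow_zero, one_mul]
  rw [e0]
  have h1 := hC' r B (mw (wx s δ 0 r 0) (pj N r 0 x)) (mw (wx s δ 0 r 1) (pj N r 1 y))
    (mw (wx s δ 0 r 2) (pj N r 2 z))
    (fun k hk => mwz (pjz (v hx k (hF k hk)))) (fun k hk => mwz (pjz (v hy k (hF k hk))))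
    (fun k hk => mwz (pjz (v hz k (hF k hk)))) (mwz (pjz (v hx 0 hF0))) (mwz (pjz (v hy 0 hF0)))
    (mwz (pjz (v hz 0 hF0)))
  refine h1.trans ?_
  apply mul_le_mul_of_nonneg_left _ (hC'0 r)
  set N0 := √(∑ k ∈ B, F k ^ 2) with hN0
  set S := Sh N ((s : ℝ) + (1 / 2 + 3 / 2 * δ)) B F with hS
  have hS0 : 0 ≤ S := Sh_nonneg _ _ _ _
  have low : ∀ {w : K → ℂ}, (∀ k, ‖w k‖ ≤ F k) → ∀ i, wd δ B (mw (wx s δ 0 i i) (pj N i i w)) ≤ N0 := by
    intro w hw i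
    have e1 : wx s δ 0 i i = -δ := by simp [wx]
    have e2 : pj N i i w = w := by unfold pj; rw [if_pos rfl]
    rw [e1, e2]
    have := wd_mw (δ := δ) (a := -δ) (B := B) hF0 hw
    rwa [show δ + -δ = 0 by ring, sum_pow_zero] at this
  have high : ∀ {w : K → ℂ}, (∀ k, ‖w k‖ ≤ F k) → ∀ r i, i ≠ r →
      wd δ B (mw (wx s δ 0 r i) (pj N r i w)) ≤ √S := by
    intro w hw r i hri
    have e1 : wx s δ 0 r i = xp s δ 0 := by simp [wx, hri]
    have e2 : pj N r i w = hp (N / 2) w := by unfold pj; rw [if_neg hri]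
    rw [e1, e2]
    have := wd_hF (δ := δ) (a := xp s δ 0) (N := N) (B := B) hF0 hw
    rwa [show δ + xp s δ 0 = (s : ℝ) + (1 / 2 + 3 / 2 * δ) by unfold xp; ring] at this
  have hSS : √S * √S = S := Real.mul_self_sqrt hS0
  have p : ∀ w : K → ℂ, 0 ≤ wd δ B w := wd_nonneg δ B
  have q := Real.sqrt_nonneg S
  have q0 : 0 ≤ N0 := Real.sqrt_nonneg _
  fin_cases r
  · calc _ ≤ N0 * √S * √S := mul_le_mul (mul_le_mul (low hx 0) (high hy 0 1 (by decide)) (p _) q0)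
          (high hz 0 2 (by decide)) (p _) (mul_nonneg q0 q)
      _ = _ := by rw [mul_assoc, hSS]
  · calc _ ≤ √S * N0 * √S := mul_le_mul (mul_le_mul (high hx 1 0 (by decide)) (low hy 1) (p _) q)
          (high hz 1 2 (by decide)) (p _) (mul_nonneg q q0)
      _ = _ := by rw [mul_comm (√S) N0, mul_assoc, hSS]
  · calc _ ≤ √S * √S * N0 := mul_le_mul (mul_le_mul (high hx 2 0 (by decide)) (high hy 2 1 (by decide))
          (p _) q) (low hz 2) (p _) (mul_nonneg q q)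
      _ = _ := by rw [hSS, mul_comm]

/-- convolution with three different functions -/
lemma conv_c (B : Finset K) {f g h : K → ℝ} (hf : ∀ k, 0 ≤ f k) :
    ∑ p ∈ tri B, f p.1 * (g p.2 * h (p.1 - p.2)) ≤
      (∑ l ∈ B, f l) * (√(∑ l ∈ B, g l ^ 2) * √(∑ l ∈ B, h l ^ 2)) := by
  classical
  rw [Pool.Agent.K1H29.SH.sum_tri_eq B (fun k l => f k * (g l * h (k - l))), Finset.sum_mul]
  refine Finset.sum_le_sum fun k _ => ?_
  rw [← Finset.mul_sum]
  apply mul_le_mul_of_nonneg_left _ (hf k)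
  refine (Real.sum_mul_le_sqrt_mul_sqrt _ _ _).trans ?_
  apply mul_le_mul _ _ (Real.sqrt_nonneg _) (Real.sqrt_nonneg _)
  · apply Real.sqrt_le_sqrt
    exact Finset.sum_le_sum_of_subset_of_nonneg (Finset.filter_subset _ _) fun _ _ _ => sq_nonneg _
  · apply Real.sqrt_le_sqrt
    exact Pool.Agent.K1H29.SH.sum_shift_le B (f := fun l => h l ^ 2) (fun k => sq_nonneg _) (fun l => k - l)
      (fun a b h => sub_right_injective h)

/-- the part with bounded coefficients -/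
theorem abs_bd3 {κ : K → K → ℝ} {s : ℕ} (hκ : Ord κ s) {d g : ℝ} (hd : 3 / 2 < d) (he : 0 ≤ xp s d g)
    {M : K → K → ℝ} {A : ℝ} (hA0 : 0 ≤ A)
    (hM : ∀ l k, l ≠ 0 → k - l ≠ 0 → k ≠ 0 → |hi l k ^ g * M l k| ≤ A) :
    Gbd (fun l k => κ l k * M l k) s (xp s d g - s) := by
  obtain ⟨C1, hC1, hl1⟩ := l1w hd
  have hK0 : (0 : ℝ) ≤ (2 : ℝ) ^ xp s d g := by positivity
  refine ⟨∑ r : Fin 3, (2 : ℝ) ^ xp s d g * (A * C1), Finset.sum_nonneg fun r _ => mul_nonneg hK0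
    (mul_nonneg hA0 hC1), ?_⟩
  intro N B x y z F hN hF hF0 hx hy hz hzN
  have v : ∀ {w : K → ℂ}, (∀ k, ‖w k‖ ≤ F k) → ∀ k, F k = 0 → w k = 0 := fun hw k hk =>
    norm_le_zero_iff.1 ((hw k).trans (le_of_eq hk))
  have hFn : ∀ k, 0 ≤ F k := fun k => (norm_nonneg _).trans (hx k)
  rw [Tr_dec3 κ s d g M B (v hx 0 hF0) (v hy 0 hF0) hN hzN]
  refine (norm_sum_le _ _).trans ?_
  rw [Finset.sum_mul]
  refine Finset.sum_le_sum fun r _ => ?_
  rw [norm_mul, Complex.norm_real, Real.norm_of_nonneg hK0, mul_assoc]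
  apply mul_le_mul_of_nonneg_left _ hK0
  set S := Sh N ((s : ℝ) + (xp s d g - s)) B F with hS
  have hS0 : 0 ≤ S := Sh_nonneg _ _ _ _
  set N0 := √(∑ k ∈ B, F k ^ 2) with hN0
  -- the majorants of the three functions
  set Q : Fin 3 → K → ℝ := fun i k => nn k ^ wx s d g r i * (if i = r then F k else hpF N F k) with hQ
  have hpj : ∀ (i : Fin 3) {w : K → ℂ}, (∀ k, ‖w k‖ ≤ F k) → ∀ k, ‖mw (wx s d g r i) (pj N r i w) k‖ ≤ Q i k := by
    intro i w hw k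
    refine norm_mw (F := fun k => if i = r then F k else hpF N F k) (fun k => ?_) k
    unfold pj
    by_cases hir : i = r
    · rw [if_pos hir]; simp only [if_pos hir]; exact hw k
    · rw [if_neg hir]; simp only [if_neg hir]; exact norm_hp hw k
  have hFn' : ∀ k, 0 ≤ hpF N F k := fun k => by unfold hpF; split_ifs; exacts [hFn k, le_rfl]
  have hQn : ∀ i k, 0 ≤ Q i k := fun i k => by
    simp only [hQ]
    apply mul_nonneg (Real.rpow_nonneg (nn_nonneg k) _)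
    split_ifs
    · exact hFn k
    · exact hFn' k
  have hlow : ∑ k ∈ B, Q r k ≤ C1 * N0 := by
    have e1 : ∀ k, Q r k = nn k ^ (-d) * F k := fun k => by
      simp only [hQ, if_true]
      rw [show wx s d g r r = -d by simp [wx]]
    simp only [e1]
    exact hl1 B F hF0
  have hhigh : ∀ i, i ≠ r → √(∑ k ∈ B, Q i k ^ 2) ≤ √S := by
    intro i hir
    apply Real.sqrt_le_sqrt
    refine Finset.sum_le_sum fun k _ => ?_
    simp only [hQ, if_neg hir]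
    rw [show wx s d g r i = xp s d g by simp [wx, hir]]
    unfold hpF
    split_ifs with h1
    · by_cases hk : k = 0
      · subst hk; simp [hF0]
      have h2 : 0 < nn k := lt_of_lt_of_le one_pos (one_le_nn hk)
      rw [mul_pow, ← Real.rpow_natCast (nn k ^ _) 2, ← Real.rpow_mul h2.le,
        show xp s d g * ((2 : ℕ) : ℝ) = 2 * ((s : ℝ) + (xp s d g - s)) by push_cast; ring]
    · simp
  have hSS : √S * √S = S := Real.mul_self_sqrt hS0
  -- the triads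
  have hy' : ∀ k, k ∉ B → mw (wx s d g r 1) (pj N r 1 y) k = 0 := fun k hk => mwz (pjz (v hy k (hF k hk)))
  rw [Tr_tri hy']
  have hterm : ∀ p ∈ tri B, ‖((cg κ s d g r p.2 p.1 * (hi p.2 p.1 ^ g * M p.2 p.1) : ℝ) : ℂ) *
      (mw (wx s d g r 0) (pj N r 0 x) p.2 * mw (wx s d g r 1) (pj N r 1 y) (p.1 - p.2) *
        conj (mw (wx s d g r 2) (pj N r 2 z) p.1))‖ ≤ A * (Q 0 p.2 * Q 1 (p.1 - p.2) * Q 2 p.1) := by
    intro p _
    have n1 := hpj 0 hx p.2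
    have n2 := hpj 1 hy (p.1 - p.2)
    have n3 := hpj 2 hz p.1
    have p1 := hQn 0 p.2
    have p2 := hQn 1 (p.1 - p.2)
    have p3 := hQn 2 p.1
    by_cases hz1 : p.2 = 0 ∨ p.1 - p.2 = 0 ∨ p.1 = 0
    · have e : ‖((cg κ s d g r p.2 p.1 * (hi p.2 p.1 ^ g * M p.2 p.1) : ℝ) : ℂ) *
          (mw (wx s d g r 0) (pj N r 0 x) p.2 * mw (wx s d g r 1) (pj N r 1 y) (p.1 - p.2) *
          conj (mw (wx s d g r 2) (pj N r 2 z) p.1))‖ = 0 := by
        rcases hz1 with h | h | h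
        · rw [h, mwz (pjz (v hx 0 hF0))]; simp
        · rw [h, mwz (pjz (v hy 0 hF0))]; simp
        · rw [h, mwz (pjz (v hz 0 hF0))]; simp
      rw [e]
      positivity
    · push Not at hz1
      have h1 := hM p.2 p.1 hz1.1 hz1.2.1 hz1.2.2
      have h2 := cg_le (κ := κ) (s := s) hκ (d := d) (g := g) (by linarith) he r p.2 p.1
      rw [norm_mul, norm_mul, norm_mul, Complex.norm_conj, Complex.norm_real, Real.norm_eq_abs, abs_mul]
      calc _ ≤ (1 * A) * (Q 0 p.2 * Q 1 (p.1 - p.2) * Q 2 p.1) := by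
            apply mul_le_mul (mul_le_mul h2 h1 (abs_nonneg _) zero_le_one) _ (by positivity) (by linarith)
            exact mul_le_mul (mul_le_mul n1 n2 (norm_nonneg _) p1) n3 (norm_nonneg _) (mul_nonneg p1 p2)
        _ = _ := by rw [one_mul]
  refine (norm_sum_le _ _).trans ((Finset.sum_le_sum hterm).trans ?_)
  rw [← Finset.mul_sum, mul_assoc A C1]
  apply mul_le_mul_of_nonneg_left _ hA0
  have q0 : 0 ≤ C1 * N0 := mul_nonneg hC1 (Real.sqrt_nonneg _)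
  have fin : ∀ {q X Y : ℝ}, q ≤ C1 * N0 → 0 ≤ q → X ≤ √S → Y ≤ √S → 0 ≤ X → 0 ≤ Y →
      q * (X * Y) ≤ C1 * (N0 * S) := by
    intro q X Y h1 h2 h3 h4 h5 h6
    calc q * (X * Y) ≤ (C1 * N0) * (√S * √S) :=
          mul_le_mul h1 (mul_le_mul h3 h4 h6 (Real.sqrt_nonneg _)) (mul_nonneg h5 h6) q0
      _ = _ := by rw [hSS]; ring
  have hsum : 0 ≤ ∑ k ∈ B, Q r k := Finset.sum_nonneg fun k _ => hQn r k
  fin_cases r
  · refine le_trans (le_of_eq ?_) ((conv_a B (f := Q 0) (g := Q 1) (h := Q 2) (hQn 0)).trans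
      (fin hlow hsum (hhigh 1 (by decide)) (hhigh 2 (by decide)) (Real.sqrt_nonneg _) (Real.sqrt_nonneg _)))
    exact Finset.sum_congr rfl fun p _ => by ring
  · refine le_trans (le_of_eq ?_) ((conv_b B (f := Q 1) (g := Q 0) (h := Q 2) (hQn 1)).trans
      (fin hlow hsum (hhigh 0 (by decide)) (hhigh 2 (by decide)) (Real.sqrt_nonneg _) (Real.sqrt_nonneg _)))
    exact Finset.sum_congr rfl fun p _ => by ring
  · refine le_trans (le_of_eq ?_) ((conv_c B (f := Q 2) (g := Q 0) (h := Q 1) (hQn 2)).trans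
      (fin hlow hsum (hhigh 0 (by decide)) (hhigh 1 (by decide)) (Real.sqrt_nonneg _) (Real.sqrt_nonneg _)))
    exact Finset.sum_congr rfl fun p _ => by ring

end Pool.Agent.K1H54.RC
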