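import Pool.Agent.K1H54.RC.Defs
import Pool.Agent.K1H29.NC.TriDefs

/-!
# The weights given by coupling constants
-/

open Set MeasureTheory

namespace Pool.Agent.K1H54.RC

open Pool.Agent.H356R3.NS (K)
open Pool.Agent.K1H29.NC (Wt)

lemma ms12 (a b c : K) : ({a, b, c} : Multiset K) = {b, a, c} := Multiset.cons_swap a b {c}

lemma ms23 (a b c : K) : ({a, b, c} : Multiset K) = {a, c, b} :=
  congrArg (fun s => a ::ₘ s) (Multiset.pair_comm b c)

lemma ms13 (a b c : K) : ({a, b, c} : Multiset K) = {c, b, a} := by
  rw [ms12, ms23, ms12]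

lemma trd_neg (l k : K) : trd (-l) (-k) = trd l k := by
  unfold trd
  rw [Sym2.eq_swap, show -k - -l = l - k by abel, show - -l = l by abel, show -l - -k = k - l by abel,
    show - -k = k by abel]

lemma trd_swap (l k : K) : trd (k - l) k = trd l k := by
  unfold trd
  rw [show k - (k - l) = l by abel, show -(k - l) = l - k by abel, show k - l - k = -l by abel,
    ms12 (k - l), ms12 (l - k)]

lemma trd_sym (l k : K) : trd k l = trd l k := by
  unfold trd
  rw [Sym2.eq_swap, ms13 (-k), ms13 k]

lemma cpl_Wt {x : Sym2 (Multiset K) → ℝ} (hx : ∀ t, |x t| ≤ 1) : Wt (cpl x) where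
  bd l k := by
    unfold cpl
    split_ifs
    · simp
    · exact hx _
  zero k := by simp [cpl]
  neg l k := by
    unfold cpl
    rw [trd_neg]
    have e : (-l = 0 ∨ -k - -l = 0 ∨ -k = 0) ↔ (l = 0 ∨ k - l = 0 ∨ k = 0) := by
      rw [neg_eq_zero, neg_eq_zero, show -k - -l = -(k - l) by abel, neg_eq_zero]
    simp only [e]
  swap l k := by
    unfold cpl
    rw [trd_swap]
    have e : (k - l = 0 ∨ k - (k - l) = 0 ∨ k = 0) ↔ (l = 0 ∨ k - l = 0 ∨ k = 0) := by
      rw [show k - (k - l) = l by abel]; tauto
    simp only [e]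
  sym l k := by
    unfold cpl
    rw [trd_sym]
    have e : (k = 0 ∨ l - k = 0 ∨ l = 0) ↔ (l = 0 ∨ k - l = 0 ∨ k = 0) := by
      rw [← neg_sub k l, neg_eq_zero]; tauto
    simp only [e]

/-- each triad has few representations -/
lemma trd_fib (t : Sym2 (Multiset K)) :
    ∃ F : Finset (K × K), F.card ≤ 36 ∧ ∀ l k, trd l k = t → (l, k) ∈ F := by
  classical
  induction t using Sym2.ind with
  | _ A B =>
    let G : Multiset K → Finset (K × K) := fun A =>
      if A.card = 3 then (A.toFinset ×ˢ A.toFinset).image (fun p => (p.1, -p.2)) else ∅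
    have hG : ∀ A, (G A).card ≤ 9 := by
      intro A
      simp only [G]
      split_ifs with h
      · refine Finset.card_image_le.trans ?_
        rw [Finset.card_product]
        have := A.toFinset_card_le
        rw [h] at this
        nlinarith
      · simp
    have hm : ∀ A l k, ({l, k - l, -k} : Multiset K) = A → (l, k) ∈ G A := by
      intro A l k h
      subst h
      simp only [G]
      rw [if_pos (by simp)]
      refine Finset.mem_image.2 ⟨(l, -k), ?_, by simp⟩
      simp
    refine ⟨G A ∪ G B, (Finset.card_union_le _ _).trans (by have := hG A; have := hG B; omega), ?_⟩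
    intro l k h
    unfold trd at h
    rw [Sym2.eq_iff] at h
    rw [Finset.mem_union]
    rcases h with h | h
    · exact Or.inl (hm A l k h.1)
    · exact Or.inr (hm B l k h.1)

end Pool.Agent.K1H54.RC
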