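import Pool.Agent.K1H29.NC.Defs

/-!
# The Navier-Stokes equations with random couplings: definitions
-/

open Set MeasureTheory
open scoped ContDiff

namespace Pool.Agent.K1H54.RC

open Pool.Agent.H356R3.NS (R3 pd)
open Pool.Agent.K1H29.NC (four prod Data)

/-- The triad `{l, k-l, -k}` of three frequencies with sum zero, up to a change of sign. -/
def trd (l k : Fin 3 → ℤ) : Sym2 (Multiset (Fin 3 → ℤ)) := s({l, k - l, -k}, {-l, l - k, k})

/-- The weights given by one coupling constant `x τ` for each triad `τ`; the interactions with the mean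
are not changed. -/
noncomputable def cpl (x : Sym2 (Multiset (Fin 3 → ℤ)) → ℝ) (l k : Fin 3 → ℤ) : ℝ :=
  if l = 0 ∨ k - l = 0 ∨ k = 0 then 1 else x (trd l k)

/-- The Fourier multiplier `d(D)`: the function `∑_k d(k) f^(k) exp(2πi k·x)`. -/
noncomputable def mult (d : (Fin 3 → ℤ) → ℝ) (f : R3 → ℝ) (x : R3) : ℝ :=
  (∑' k : Fin 3 → ℤ, (d k : ℂ) * four f k *
    Complex.exp (2 * Real.pi * Complex.I * ∑ j, (k j : ℂ) * (x j : ℂ))).re

/-- `(u, p)` is a smooth periodic solution of the Navier-Stokes equations in which the products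
`u_j ∂_j u_i` are replaced by `prod φ u_j (∂_j u_i)` and the dissipation by `d(D) u_i`. -/
structure SolD (φ : (Fin 3 → ℤ) → (Fin 3 → ℤ) → ℝ) (d : (Fin 3 → ℤ) → ℝ) (v : R3 → R3)
    (u : ℝ → R3 → R3) (p : ℝ → R3 → ℝ) : Prop where
  smooth_u : ContDiffOn ℝ ∞ (fun z : ℝ × R3 => u z.1 z.2) (Ici 0 ×ˢ univ)
  smooth_p : ContDiffOn ℝ ∞ (fun z : ℝ × R3 => p z.1 z.2) (Ici 0 ×ˢ univ)
  periodic_u : ∀ t, 0 ≤ t → ∀ x j, u t (x + Pi.single j 1) = u t x
  periodic_p : ∀ t, 0 ≤ t → ∀ x j, p t (x + Pi.single j 1) = p t x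
  momentum : ∀ t, 0 ≤ t → ∀ x i,
    derivWithin (fun s => u s x i) (Ici 0) t
        + ∑ j, prod φ (fun y => u t y j) (pd j fun y => u t y i) x
      = -mult d (fun y => u t y i) x - pd i (p t) x
  divFree : ∀ t, 0 ≤ t → ∀ x, ∑ i, pd i (fun y => u t y i) x = 0
  initial : u 0 = v

end Pool.Agent.K1H54.RC
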