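import Pool.Agent.K1H54.RC.Bd

/-!
# The flux of the Sobolev norms for random couplings
-/

open Set ComplexConjugate MeasureTheory ProbabilityTheory Finset

namespace Pool.Agent.K1H54.RC

open Pool.Agent.H356R3.NS hiding Sol
open Pool.Agent.K1H29.SH (nn nn_nonneg nn_neg one_le_nn nn_eq_zero abs_le_nn nn_le_iff nn_sub_le' ipc en en_nonneg
  norm_sq_le_en)
open Pool.Agent.K1H29.NC (Tr n2 Wt Bw)

lemma Fbd.mono {M : K → K → ℝ} {s : ℕ} {b b' : ℝ} (h : Fbd M s b) (hb : b ≤ b') : Fbd M s b' := by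
  obtain ⟨C, hC, h⟩ := h
  refine ⟨C, hC, fun B x y z F hF hF0 hx hy hz => (h B x y z F hF hF0 hx hy hz).trans ?_⟩
  apply mul_le_mul_of_nonneg_left _ hC
  apply mul_le_mul_of_nonneg_left _ (Real.sqrt_nonneg _)
  refine Finset.sum_le_sum fun k _ => ?_
  by_cases hk : k = 0
  · subst hk; simp [hF0]
  · apply mul_le_mul_of_nonneg_right _ (sq_nonneg _)
    exact Real.rpow_le_rpow_of_exponent_le (one_le_nn hk) (by linarith)

lemma Fbd.congr {M M' : K → K → ℝ} {s : ℕ} {b : ℝ} (h : Fbd M s b)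
    (e : ∀ l k, l ≠ 0 → k - l ≠ 0 → k ≠ 0 → M l k = M' l k) : Fbd M' s b := by
  obtain ⟨C, hC, h⟩ := h
  refine ⟨C, hC, fun B x y z F hF hF0 hx hy hz => ?_⟩
  have v0 : ∀ {w : K → ℂ}, (∀ k, ‖w k‖ ≤ F k) → w 0 = 0 := fun hw =>
    norm_le_zero_iff.1 ((hw 0).trans (le_of_eq hF0))
  have h1 : Tr M' B x y z = Tr M B x y z := by
    unfold Tr
    refine Finset.sum_congr rfl fun k _ => Finset.sum_congr rfl fun l _ => ?_
    by_cases hl : l = 0
    · rw [hl, v0 hx]; simp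
    by_cases hkl : k - l = 0
    · rw [hkl, v0 hy]; simp
    by_cases hk : k = 0
    · rw [hk, v0 hz]; simp
    rw [e l k hl hkl hk]
  rw [h1]
  exact h B x y z F hF hF0 hx hy hz

lemma Fbd.add {M M' : K → K → ℝ} {s : ℕ} {b : ℝ} (h : Fbd M s b) (h' : Fbd M' s b) :
    Fbd (fun l k => M l k + M' l k) s b := by
  obtain ⟨C, hC, h⟩ := h
  obtain ⟨C', hC', h'⟩ := h'
  refine ⟨C + C', by positivity, fun B x y z F hF hF0 hx hy hz => ?_⟩
  have h1 : Tr (fun l k => M l k + M' l k) B x y z = Tr M B x y z + Tr M' B x y z := by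
    unfold Tr
    simp only [← Finset.sum_add_distrib]
    refine Finset.sum_congr rfl fun k _ => Finset.sum_congr rfl fun l _ => ?_
    push_cast
    ring
  rw [h1, add_mul]
  exact (norm_add_le _ _).trans (add_le_add (h B x y z F hF hF0 hx hy hz) (h' B x y z F hF hF0 hx hy hz))

/-- the flux of the Sobolev norms is controlled by the energy and a Sobolev norm of order `b` more -/
def FluxB (φ : K → K → ℝ) (b : ℝ) : Prop := ∀ s : ℕ, ∃ C, 0 ≤ C ∧ ∀ (B : Finset K) (u : K → C3),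
  (∀ k ∈ B, -k ∈ B) → (∀ k, k ∉ B → u k = 0) → Sym u → (∀ k, dt k (u k) = 0) → u 0 = 0 →
  |∑ k ∈ B, nn k ^ (2 * s) * (2 * (ipc (Bw φ u u k) (u k)).re)| ≤
    C * (√(∑ k ∈ B, en (u k)) * ∑ k ∈ B, nn k ^ (2 * ((s : ℝ) + b)) * en (u k))

theorem fluxB_of {φ : K → K → ℝ} (hφ : Wt φ) {b : ℝ}
    (h : ∀ s j, Fbd (fun l k => kap s j l k * φ l k) s b) : FluxB φ b := by
  intro s
  choose C hC0 hC using h s
  refine ⟨2 * Real.pi * ∑ j : Fin 3, ∑ _i : Fin 3, C j, by
    have := Real.pi_pos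
    exact mul_nonneg (by positivity) (Finset.sum_nonneg fun j _ => Finset.sum_nonneg fun i _ => hC0 j), ?_⟩
  intro B u hB hs hsym hdiv hu0
  rw [flux_kap hφ hB hs hsym hdiv s]
  refine (Complex.abs_re_le_norm _).trans ?_
  rw [norm_mul]
  have h7 : ‖-(2 * (Real.pi : ℂ) * Complex.I)‖ = 2 * Real.pi := by
    rw [norm_neg, norm_mul, norm_mul, Complex.norm_I, Complex.norm_real]
    simp [abs_of_pos Real.pi_pos]
  rw [h7, mul_assoc (2 * Real.pi) (∑ j : Fin 3, ∑ _i : Fin 3, C j)]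
  apply mul_le_mul_of_nonneg_left _ (by have := Real.pi_pos; positivity)
  rw [Finset.sum_mul]
  refine (norm_sum_le _ _).trans (Finset.sum_le_sum fun j _ => ?_)
  rw [Finset.sum_mul]
  refine (norm_sum_le _ _).trans (Finset.sum_le_sum fun i _ => ?_)
  have h1 := hC j B (fun k => u k j) (fun k => u k i) (fun k => u k i) (fun k => ‖u k‖)
    (fun k hk => by simp [hs k hk]) (by simp [hu0]) (fun k => norm_le_pi_norm _ j)
    (fun k => norm_le_pi_norm _ i) (fun k => norm_le_pi_norm _ i)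
  refine h1.trans ?_
  apply mul_le_mul_of_nonneg_left _ (hC0 j)
  apply mul_le_mul
  · apply Real.sqrt_le_sqrt
    exact Finset.sum_le_sum fun k _ => norm_sq_le_en _
  · exact Finset.sum_le_sum fun k _ => mul_le_mul_of_nonneg_left (norm_sq_le_en _)
      (Real.rpow_nonneg (nn_nonneg k) _)
  · exact Finset.sum_nonneg fun k _ => mul_nonneg (Real.rpow_nonneg (nn_nonneg k) _) (sq_nonneg _)
  · exact Real.sqrt_nonneg _

lemma nn_eq_norm (k : K) : nn k = ‖k‖ := by
  apply le_antisymm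
  · have h1 : nn k ≤ (⌊‖k‖⌋₊ : ℕ) := by
      rw [nn_le_iff]
      intro j
      have h2 : ((k j).natAbs : ℝ) ≤ ‖k‖ := by
        rw [Nat.cast_natAbs, Int.cast_abs]
        exact norm_le_pi_norm k j
      have h3 : (k j).natAbs ≤ ⌊‖k‖⌋₊ := Nat.le_floor h2
      rw [Int.abs_eq_natAbs]
      exact_mod_cast h3
    exact h1.trans (Nat.floor_le (norm_nonneg _))
  · rw [pi_norm_le_iff_of_nonneg (nn_nonneg k)]
    intro j
    exact abs_le_nn k j

section prob

variable {Ω : Type*} [MeasurableSpace Ω] {P : Measure Ω} [IsProbabilityMeasure P]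
  {X : Sym2 (Multiset K) → Ω → ℝ}

theorem ae_fluxB (hX : ∀ t, Measurable (X t)) (hb : ∀ t ω, |X t ω| ≤ 1) (hI : iIndepFun X P)
    {γ C : ℝ} (hγ : 0 ≤ γ)
    (hE : ∀ l k, |∫ ω, X (trd l k) ω ∂P| ≤ C * (1 + ‖l‖ + ‖k‖) ^ (-γ)) :
    ∀ᵐ ω ∂P, ∀ b : ℝ, 1 / 2 < b → 5 / 4 - γ / 2 < b → FluxB (cpl fun t => X t ω) b := by
  have h1 : ∀ᵐ ω ∂P, ∀ (n s : ℕ) (j r : Fin 3), ∃ C, 0 ≤ C ∧
      Blog (Mr P X trd (cc s j (1 / ((n : ℝ) + 1)) 0 r) ω) C := by
    rw [ae_all_iff]; intro n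
    rw [ae_all_iff]; intro s
    rw [ae_all_iff]; intro j
    rw [ae_all_iff]; intro r
    have hδ : 0 ≤ 1 / ((n : ℝ) + 1) := by positivity
    have hxp : 0 ≤ xp s (1 / ((n : ℝ) + 1)) 0 := by
      unfold xp
      have : (0 : ℝ) ≤ s := Nat.cast_nonneg s
      linarith
    exact ae_blog hX hb hI (fun l k => cc_le hδ hxp j r l k) trd_fib
  filter_upwards [h1] with ω hω b hb1 hb2
  refine fluxB_of (cpl_Wt fun t => hb t ω) fun s j => ?_
  -- choice of the parameters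
  set g := min γ (3 / 2) with hg
  have hg0 : 0 ≤ g := le_min hγ (by norm_num)
  have hbg : 5 / 4 - g / 2 < b := by
    rcases min_choice γ (3 / 2) with h | h
    · rw [hg, h]; exact hb2
    · rw [hg, h]; linarith
  obtain ⟨n, hn⟩ := exists_nat_one_div_lt (show 0 < min ((b - 1 / 2) / 2) (b - (5 / 4 - g / 2)) from
    lt_min (by linarith) (by linarith))
  set δ : ℝ := 1 / ((n : ℝ) + 1) with hδ
  have hδ0 : 0 < δ := by positivity
  have hδ1 : δ < (b - 1 / 2) / 2 := hn.trans_le (min_le_left _ _)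
  have hδ2 : δ < b - (5 / 4 - g / 2) := hn.trans_le (min_le_right _ _)
  -- the random part
  have r1 : Fbd (fun l k => kap s j l k * Yc P X (trd l k) ω) s (1 / 2 + 3 / 2 * δ) :=
    rand_bd hδ0 fun r => hω n s j r
  have r2 := r1.mono (b' := b) (by linarith)
  -- the mean part
  have hC0 : 0 ≤ C := by
    have h2 := (abs_nonneg _).trans (hE 0 0)
    simpa using h2
  have hxp : 0 ≤ xp s (3 / 2 + δ) g := by
    unfold xp
    have : g ≤ 3 / 2 := min_le_right _ _
    have hs : (0 : ℝ) ≤ s := Nat.cast_nonneg s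
    linarith
  have m1 : Fbd (fun l k => kap s j l k * ∫ ω', X (trd l k) ω' ∂P) s (xp s (3 / 2 + δ) g - s) := by
    refine abs_bd (A := C) (by linarith) hxp fun l k hl hkl hk => ?_
    have h2 := hE l k
    have h3 : 1 ≤ hi l k := (one_le_nn hl).trans (le_max_left _ _)
    have h4 : hi l k ≤ 1 + ‖l‖ + ‖k‖ := by
      rw [← nn_eq_norm, ← nn_eq_norm]
      have a1 := nn_nonneg l
      have a2 := nn_nonneg k
      have a3 := nn_sub_le' k l
      unfold hi
      exact max_le (by linarith) (max_le (by linarith) (by linarith))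
    rw [abs_mul, abs_of_nonneg (Real.rpow_nonneg (hi_nonneg l k) _)]
    have h5 : (1 + ‖l‖ + ‖k‖) ^ (-γ) ≤ hi l k ^ (-γ) :=
      Real.rpow_le_rpow_of_nonpos (by linarith) h4 (by linarith)
    have h6 : hi l k ^ g * hi l k ^ (-γ) ≤ 1 := by
      rw [← Real.rpow_add (by linarith)]
      exact Real.rpow_le_one_of_one_le_of_nonpos h3 (by linarith [min_le_left γ (3 / 2)])
    have p1 : 0 ≤ hi l k ^ g := Real.rpow_nonneg (hi_nonneg l k) _
    calc hi l k ^ g * |∫ ω', X (trd l k) ω' ∂P| ≤ hi l k ^ g * (C * hi l k ^ (-γ)) := by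
          apply mul_le_mul_of_nonneg_left _ p1
          exact h2.trans (mul_le_mul_of_nonneg_left h5 hC0)
      _ = C * (hi l k ^ g * hi l k ^ (-γ)) := by ring
      _ ≤ C * 1 := mul_le_mul_of_nonneg_left h6 hC0
      _ = C := mul_one C
  have m2 := m1.mono (b' := b) (by unfold xp; linarith)
  refine (r2.add m2).congr fun l k hl hkl hk => ?_
  unfold cpl Yc
  rw [if_neg (by tauto)]
  ring

end prob

end Pool.Agent.K1H54.RC
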