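import Pool.Agent.K1H54.RC.Bd3

/-!
# The flux of the Sobolev norms of the high frequencies
-/

open Set ComplexConjugate MeasureTheory Finset

namespace Pool.Agent.K1H54.RC

open Pool.Agent.H356R3.NS hiding Sol
open Pool.Agent.K1H29.SH (nn nn_nonneg nn_neg one_le_nn nn_eq_zero abs_le_nn tri mem_tri conv1 conv2 conv3
  ipc en en_nonneg norm_sq_le_en norm_ipc_le norm_dt_le dt_sub)
open Pool.Agent.K1H29.NC (Tr n2 Wt Bw TT' Tr_tri flux_eq flux_two)

variable {φ : K → K → ℝ} {B : Finset K} {u : K → C3}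

/-- the weight of the high frequencies -/
noncomputable def wN (N : ℝ) (s : ℕ) (k : K) : ℝ := if N < nn k then nn k ^ (2 * s) else 0

lemma wN_nonneg (N : ℝ) (s : ℕ) (k : K) : 0 ≤ wN N s k := by
  unfold wN
  split_ifs
  · exact pow_nonneg (nn_nonneg k) _
  · exact le_rfl

/-- the kernel -/
noncomputable def kl (s : ℕ) (j : Fin 3) (_l k : K) : ℝ := nn k ^ (2 * s) * (k j : ℝ)

lemma kl_ord (s : ℕ) (j : Fin 3) : Ord (kl s j) s := by
  intro l k
  unfold kl
  have h1 : nn k ≤ hi l k := (le_max_right _ _).trans (le_max_right _ _)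
  have h2 := nn_nonneg k
  rw [abs_mul, abs_of_nonneg (pow_nonneg h2 _)]
  calc nn k ^ (2 * s) * |(k j : ℝ)| ≤ nn k ^ (2 * s) * nn k :=
        mul_le_mul_of_nonneg_left (abs_le_nn k j) (pow_nonneg h2 _)
    _ = nn k ^ (2 * s + 1) := by ring
    _ ≤ _ := pow_le_pow_left₀ h2 h1 _

/-- the low part of a field -/
noncomputable def um (M : ℝ) (u : K → C3) (k : K) : C3 := if nn k ≤ M then u k else 0

lemma um_supp {M : ℝ} (hs : ∀ k, k ∉ B → u k = 0) : ∀ k, k ∉ B → um M u k = 0 := by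
  intro k hk
  unfold um
  split_ifs
  · exact hs k hk
  · rfl

lemma um_sym {M : ℝ} (h : Sym u) : Sym (um M u) := by
  intro k i
  unfold um
  rw [nn_neg]
  split_ifs
  · exact h k i
  · simp

lemma um_div {M : ℝ} (h : ∀ k, dt k (u k) = 0) : ∀ k, dt k (um M u k) = 0 := by
  intro k
  unfold um
  split_ifs
  · exact h k
  · simp [dt]

lemma low_id (hs : ∀ k, k ∉ B → u k = 0) (hdiv : ∀ k, dt k (u k) = 0) (N : ℝ) (s : ℕ) :
    ∑ k ∈ B, wN N s k * (2 * (ipc (Bw φ u u k) (u k)).re)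
      = (-(4 * Real.pi * Complex.I) * ∑ j, ∑ i, Tr (fun l k => kl s j l k * φ l k) B
          (fun k => u k j) (fun k => u k i) (hp N fun k => u k i)).re := by
  rw [flux_eq hs hdiv]
  congr 2
  have hg : ∀ i, ∀ k, k ∉ B → (fun k => u k i) k = 0 := fun i k hk => by simp [hs k hk]
  have e2 : ∀ j i, Tr (fun l k => kl s j l k * φ l k) B (fun k => u k j) (fun k => u k i)
      (hp N fun k => u k i) = ∑ p ∈ tri B, ((kl s j p.2 p.1 * φ p.2 p.1 : ℝ) : ℂ) *
        (u p.2 j * u (p.1 - p.2) i * conj (hp N (fun k => u k i) p.1)) := by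
    intro j i
    rw [Tr_tri (hg i)]
  simp only [e2]
  have e3 : ∀ j, ∑ i, ∑ p ∈ tri B, ((kl s j p.2 p.1 * φ p.2 p.1 : ℝ) : ℂ) *
        (u p.2 j * u (p.1 - p.2) i * conj (hp N (fun k => u k i) p.1))
      = ∑ p ∈ tri B, ∑ i, ((kl s j p.2 p.1 * φ p.2 p.1 : ℝ) : ℂ) *
        (u p.2 j * u (p.1 - p.2) i * conj (hp N (fun k => u k i) p.1)) := fun j => Finset.sum_comm
  simp only [e3]
  rw [Finset.sum_comm]
  refine Finset.sum_congr rfl fun p _ => ?_
  obtain ⟨k, l⟩ := p
  simp only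
  unfold wN hp TT'
  by_cases hk : N < nn k
  · simp only [if_pos hk]
    unfold kl ipc
    have h4 : ∑ j, ∑ i, ((nn k ^ (2 * s) * (k j : ℝ) * φ l k : ℝ) : ℂ) * (u l j * u (k - l) i * conj (u k i))
        = (∑ j, ((nn k ^ (2 * s) * (k j : ℝ) : ℝ) : ℂ) * u l j) *
          ((φ l k : ℂ) * ∑ i, u (k - l) i * conj (u k i)) := by
      rw [Finset.mul_sum, Finset.sum_mul_sum]
      refine Finset.sum_congr rfl fun j _ => Finset.sum_congr rfl fun i _ => ?_
      push_cast
      ring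
    rw [h4]
    have h5 : ∑ j, ((nn k ^ (2 * s) * (k j : ℝ) : ℝ) : ℂ) * u l j
        = ((nn k ^ (2 * s) : ℝ) : ℂ) * dt k (u l) := by
      unfold dt
      rw [Finset.mul_sum]
      refine Finset.sum_congr rfl fun j _ => ?_
      push_cast
      ring
    rw [h5]
    ring
  · simp [if_neg hk]

/-! ### the triads with a frequency larger than `M` -/

/-- all three frequencies are at most `M` -/
def All (M : ℝ) (p : K × K) : Prop := nn p.1 ≤ M ∧ nn p.2 ≤ M ∧ nn (p.1 - p.2) ≤ M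

open Classical in
lemma TT_um {M : ℝ} (k l : K) : TT' φ (um M u) k l = if All M (k, l) then TT' φ u k l else 0 := by
  have hA : All M (k, l) ↔ (nn k ≤ M ∧ nn l ≤ M ∧ nn (k - l) ≤ M) := Iff.rfl
  unfold TT' um
  by_cases h1 : nn k ≤ M
  · by_cases h2 : nn l ≤ M
    · by_cases h3 : nn (k - l) ≤ M
      · rw [if_pos h1, if_pos h2, if_pos h3, if_pos (hA.2 ⟨h1, h2, h3⟩)]
      · have h4 : ¬ All M (k, l) := fun h => h3 (hA.1 h).2.2
        rw [if_neg h3, if_neg h4]
        simp [ipc]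
    · have h4 : ¬ All M (k, l) := fun h => h2 (hA.1 h).2.1
      rw [if_neg h2, if_neg h4]
      simp [dt]
  · have h4 : ¬ All M (k, l) := fun h => h1 (hA.1 h).1
    rw [if_neg h1, if_neg h4]
    simp [ipc]

open Classical in
lemma diff_id (hφ : Wt φ) (hB : ∀ k ∈ B, -k ∈ B) (hs : ∀ k, k ∉ B → u k = 0) (hsym : Sym u)
    (hdiv : ∀ k, dt k (u k) = 0) (N M : ℝ) (s : ℕ) :
    ∑ k ∈ B, wN N s k * (2 * (ipc (Bw φ u u k) (u k)).re)
      - ∑ k ∈ B, wN N s k * (2 * (ipc (Bw φ (um M u) (um M u) k) (um M u k)).re)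
      = (-(2 * Real.pi * Complex.I) * ∑ p ∈ tri B, if All M p then 0 else
        ((wN N s p.1 - wN N s (p.1 - p.2) : ℝ) : ℂ) * TT' φ u p.1 p.2).re := by
  have hw : ∀ k, wN N s (-k) = wN N s k := fun k => by unfold wN; rw [nn_neg]
  rw [flux_eq hs hdiv, flux_eq (um_supp hs) (um_div hdiv)]
  have h2 := flux_two hφ hB hsym hdiv hw
  have h3 := flux_two hφ hB (um_sym (M := M) hsym) (um_div hdiv) hw
  have e1 : ∀ S : ℂ, -(4 * Real.pi * Complex.I) * S = -(2 * Real.pi * Complex.I) * (2 * S) := by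
    intro S; ring
  rw [e1, e1, h2, h3, ← Complex.sub_re, ← mul_sub, ← Finset.sum_sub_distrib]
  congr 2
  refine Finset.sum_congr rfl fun p _ => ?_
  rw [TT_um]
  split_ifs <;> simp

lemma pow_diff {a b c : ℝ} (ha : 0 ≤ a) (hb : 0 ≤ b) (hc : 0 ≤ c) (h1 : c ≤ a + b) (h2 : b ≤ c + a)
    (s : ℕ) : |c ^ (2 * s) - b ^ (2 * s)| * min b c ≤
      2 * s * (min a (min b c) * max a (max b c) ^ (2 * s)) := by
  have hhi : max b c ≤ max a (max b c) := le_max_right _ _
  have hhi0 : 0 ≤ max b c := hb.trans (le_max_left _ _)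
  have hminmax : min b c ≤ max b c := min_le_max
  have hmin0 : 0 ≤ min b c := le_min hb hc
  rcases Nat.eq_zero_or_pos s with hs | hs
  · subst hs; simp
  obtain ⟨n, rfl⟩ : ∃ n, s = n + 1 := ⟨s - 1, by omega⟩
  have h4 := abs_pow_sub_pow_le c b (2 * (n + 1))
  rw [abs_of_nonneg hc, abs_of_nonneg hb, max_comm] at h4
  have h5 : |c - b| ≤ a := by rw [abs_le]; constructor <;> linarith
  have h6 : |c ^ (2 * (n + 1)) - b ^ (2 * (n + 1))| ≤ a * (2 * ((n : ℝ) + 1)) * max b c ^ (2 * n + 1) := by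
    refine h4.trans ?_
    rw [show 2 * (n + 1) - 1 = 2 * n + 1 by omega]
    push_cast
    gcongr
  have h7 : a * min b c ≤ min a (min b c) * max a (max b c) := by
    rcases le_total a (min b c) with h | h
    · rw [min_eq_left h]
      exact mul_le_mul_of_nonneg_left (hminmax.trans (le_max_right _ _)) ha
    · rw [min_eq_right h, mul_comm]
      exact mul_le_mul_of_nonneg_left (le_max_left _ _) hmin0
  have hlo0 : 0 ≤ min a (min b c) := le_min ha (le_min hb hc)
  have h8 : 0 ≤ max a (max b c) := ha.trans (le_max_left _ _)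
  calc |c ^ (2 * (n + 1)) - b ^ (2 * (n + 1))| * min b c
      ≤ (a * (2 * ((n : ℝ) + 1)) * max b c ^ (2 * n + 1)) * min b c :=
        mul_le_mul_of_nonneg_right h6 hmin0
    _ = 2 * ((n : ℝ) + 1) * max b c ^ (2 * n + 1) * (a * min b c) := by ring
    _ ≤ 2 * ((n : ℝ) + 1) * max a (max b c) ^ (2 * n + 1) * (min a (min b c) * max a (max b c)) := by
        have h9 : 0 ≤ 2 * ((n : ℝ) + 1) * max a (max b c) ^ (2 * n + 1) := by positivity
        gcongr
    _ = _ := by push_cast; ring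

/-- the difference of the weights in a triad with a very high frequency -/
lemma w_diff {N M : ℝ} (hNM : 2 * N ≤ M) (s : ℕ) {k l : K} (h : ¬ All M (k, l)) :
    |wN N s k - wN N s (k - l)| * min (nn (k - l)) (nn k) ≤
      (2 * s + 1) * (lo l k * hi l k ^ (2 * s)) := by
  obtain ⟨t1, t2, t3⟩ := tri_ineqs l k
  have ha0 := nn_nonneg l
  have hb0 := nn_nonneg (k - l)
  have hc0 := nn_nonneg k
  have h' : ¬ (nn k ≤ M ∧ nn l ≤ M ∧ nn (k - l) ≤ M) := h
  set a := nn l with ha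
  set b := nn (k - l) with hb
  set c := nn k with hc
  have hlo : lo l k = min a (min b c) := rfl
  have hhi : hi l k = max a (max b c) := rfl
  have hlo0 : 0 ≤ min a (min b c) := le_min ha0 (le_min hb0 hc0)
  have hhi0 : 0 ≤ max a (max b c) := ha0.trans (le_max_left _ _)
  rw [hlo, hhi]
  have hp0 : 0 ≤ min a (min b c) * max a (max b c) ^ (2 * s) := mul_nonneg hlo0 (pow_nonneg hhi0 _)
  have hs0 : (0 : ℝ) ≤ s := Nat.cast_nonneg s
  unfold wN
  rw [← hb, ← hc]
  by_cases h1 : N < c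
  · by_cases h2 : N < b
    · rw [if_pos h1, if_pos h2]
      refine (pow_diff ha0 hb0 hc0 t1 t2 s).trans ?_
      nlinarith
    · rw [if_pos h1, if_neg h2, sub_zero, abs_of_nonneg (pow_nonneg hc0 _)]
      rw [not_lt] at h2
      -- `b ≤ N < c`
      have hba : b ≤ a := by
        by_contra h3
        rw [not_le] at h3
        exact h' ⟨by linarith, by linarith, by linarith⟩
      have hbc : b ≤ c := by linarith
      rw [min_eq_left hbc, min_eq_right hba]
      have h4 : c ^ (2 * s) ≤ max a (max b c) ^ (2 * s) :=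
        pow_le_pow_left₀ hc0 ((le_max_right _ _).trans (le_max_right _ _)) _
      have h5 : c ^ (2 * s) * b ≤ b * max a (max b c) ^ (2 * s) := by
        rw [mul_comm]; exact mul_le_mul_of_nonneg_left h4 hb0
      have h6 : 0 ≤ b * max a (max b c) ^ (2 * s) := mul_nonneg hb0 (pow_nonneg hhi0 _)
      nlinarith
  · by_cases h2 : N < b
    · rw [if_neg h1, if_pos h2, zero_sub, abs_neg, abs_of_nonneg (pow_nonneg hb0 _)]
      rw [not_lt] at h1
      have hca : c ≤ a := by
        by_contra h3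
        rw [not_le] at h3
        exact h' ⟨by linarith, by linarith, by linarith⟩
      have hcb : c ≤ b := by linarith
      rw [min_eq_right hcb, min_eq_right hca]
      have h4 : b ^ (2 * s) ≤ max a (max b c) ^ (2 * s) :=
        pow_le_pow_left₀ hb0 ((le_max_left _ _).trans (le_max_right _ _)) _
      have h5 : b ^ (2 * s) * c ≤ c * max a (max b c) ^ (2 * s) := by
        rw [mul_comm]; exact mul_le_mul_of_nonneg_left h4 hc0
      have h6 : 0 ≤ c * max a (max b c) ^ (2 * s) := mul_nonneg hc0 (pow_nonneg hhi0 _)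
      nlinarith
    · rw [if_neg h1, if_neg h2, sub_zero, abs_zero, zero_mul]
      positivity

lemma norm_TT (hφ : Wt φ) (hdiv : ∀ k, dt k (u k) = 0) (k l : K) :
    ‖TT' φ u k l‖ ≤ 9 * (min (nn (k - l)) (nn k) * (‖u l‖ * (‖u (k - l)‖ * ‖u k‖))) := by
  unfold TT'
  rw [norm_mul, norm_mul]
  have h1 : ‖dt k (u l)‖ ≤ 3 * min (nn (k - l)) (nn k) * ‖u l‖ := by
    rcases le_total (nn (k - l)) (nn k) with h | h
    · rw [min_eq_left h]
      have h4 : dt k (u l) = dt (k - l) (u l) := by rw [dt_sub, hdiv l, sub_zero]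
      rw [h4]
      exact norm_dt_le (k - l) (u l)
    · rw [min_eq_right h]
      exact norm_dt_le k (u l)
  have h2 := norm_ipc_le (u (k - l)) (u k)
  have h3 : 0 ≤ min (nn (k - l)) (nn k) := le_min (nn_nonneg _) (nn_nonneg _)
  calc ‖(φ l k : ℂ)‖ * (‖dt k (u l)‖ * ‖ipc (u (k - l)) (u k)‖)
      ≤ 1 * ((3 * min (nn (k - l)) (nn k) * ‖u l‖) * (3 * (‖u (k - l)‖ * ‖u k‖))) := by
        apply mul_le_mul (hφ.nm l k) _ (by positivity) zero_le_one
        exact mul_le_mul h1 h2 (norm_nonneg _) (by positivity)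
    _ = _ := by ring

/-- the three products of a triad with a very high frequency -/
lemma triple {M : ℝ} (hM : 0 ≤ M) (s : ℕ) {k l : K} (h : ¬ All M (k, l)) {F : K → ℝ} (hF : ∀ k, 0 ≤ F k)
    {f g : K → ℝ} (hf : ∀ k, f k = nn k * F k) (hg : ∀ k, g k = if M / 2 < nn k then nn k ^ s * F k else 0) :
    lo l k * hi l k ^ (2 * s) * (F l * (F (k - l) * F k)) ≤
      2 ^ s * (f l * (g k * g (k - l)) + f (k - l) * (g k * g l) + f k * (g (k - l) * g l)) := by
  obtain ⟨t1, t2, t3⟩ := tri_ineqs l k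
  have ha0 := nn_nonneg l
  have hb0 := nn_nonneg (k - l)
  have hc0 := nn_nonneg k
  have h' : ¬ (nn k ≤ M ∧ nn l ≤ M ∧ nn (k - l) ≤ M) := h
  have hlo : lo l k = min (nn l) (min (nn (k - l)) (nn k)) := rfl
  have hhi : hi l k = max (nn l) (max (nn (k - l)) (nn k)) := rfl
  have f0 : ∀ k, 0 ≤ f k := fun k => by rw [hf]; exact mul_nonneg (nn_nonneg k) (hF k)
  have g0 : ∀ k, 0 ≤ g k := fun k => by
    rw [hg]
    split_ifs
    · exact mul_nonneg (pow_nonneg (nn_nonneg k) _) (hF k)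
    · exact le_rfl
  have hMhi : M < hi l k := by
    by_contra h1
    rw [not_lt, hhi] at h1
    exact h' ⟨((le_max_right _ _).trans (le_max_right _ _)).trans h1, (le_max_left _ _).trans h1,
      ((le_max_left _ _).trans (le_max_right _ _)).trans h1⟩
  -- one case
  have key : ∀ x y z : K, lo l k = nn x → nn x ≤ nn y → nn x ≤ nn z → hi l k = max (nn y) (nn z) →
      nn y ≤ nn x + nn z → nn z ≤ nn x + nn y →
      lo l k * hi l k ^ (2 * s) * (F x * (F y * F z)) ≤ 2 ^ s * (f x * (g y * g z)) := by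
    intro x y z e1 e2 e3 e4 e5 e6
    have hx0 := nn_nonneg x
    have hy0 := nn_nonneg y
    have hz0 := nn_nonneg z
    have hmax : max (nn y) (nn z) ≤ 2 * nn y ∧ max (nn y) (nn z) ≤ 2 * nn z :=
      ⟨max_le (by linarith) (by linarith), max_le (by linarith) (by linarith)⟩
    rw [e4] at hMhi
    rw [hf, hg, hg, if_pos (by linarith [hmax.1]), if_pos (by linarith [hmax.2]), e1, e4]
    have h9 : max (nn y) (nn z) ^ (2 * s) ≤ 2 ^ s * (nn y ^ s * nn z ^ s) := by
      have : max (nn y) (nn z) ^ 2 ≤ 2 * (nn y * nn z) := by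
        rcases le_total (nn y) (nn z) with h3 | h3
        · rw [max_eq_right h3]
          nlinarith
        · rw [max_eq_left h3]
          nlinarith
      calc max (nn y) (nn z) ^ (2 * s) = (max (nn y) (nn z) ^ 2) ^ s := by rw [pow_mul]
        _ ≤ (2 * (nn y * nn z)) ^ s := pow_le_pow_left₀ (sq_nonneg _) this s
        _ = _ := by rw [mul_pow, mul_pow]
    have p1 : 0 ≤ nn x * (F x * (F y * F z)) :=
      mul_nonneg hx0 (mul_nonneg (hF x) (mul_nonneg (hF y) (hF z)))
    calc nn x * max (nn y) (nn z) ^ (2 * s) * (F x * (F y * F z))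
        = max (nn y) (nn z) ^ (2 * s) * (nn x * (F x * (F y * F z))) := by ring
      _ ≤ 2 ^ s * (nn y ^ s * nn z ^ s) * (nn x * (F x * (F y * F z))) :=
          mul_le_mul_of_nonneg_right h9 p1
      _ = _ := by ring
  have q1 : 0 ≤ f l * (g k * g (k - l)) := mul_nonneg (f0 _) (mul_nonneg (g0 _) (g0 _))
  have q2 : 0 ≤ f (k - l) * (g k * g l) := mul_nonneg (f0 _) (mul_nonneg (g0 _) (g0 _))
  have q3 : 0 ≤ f k * (g (k - l) * g l) := mul_nonneg (f0 _) (mul_nonneg (g0 _) (g0 _))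
  have q0 : (0 : ℝ) ≤ 2 ^ s := by positivity
  by_cases c1 : nn l ≤ nn (k - l) ∧ nn l ≤ nn k
  · have := key l (k - l) k (by rw [hlo, min_eq_left (le_min c1.1 c1.2)]) c1.1 c1.2
      (by rw [hhi, max_eq_right (c1.1.trans (le_max_left _ _))]) (by linarith) (by linarith)
    nlinarith
  · by_cases c2 : nn (k - l) ≤ nn k
    · have hba : nn (k - l) ≤ nn l := by
        by_contra h3
        exact c1 ⟨(not_le.1 h3).le, (not_le.1 h3).le.trans c2⟩
      have := key (k - l) l k (by rw [hlo, min_eq_left c2, min_eq_right hba]) hba c2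
        (by rw [hhi, max_eq_right c2]) (by linarith) (by linarith)
      have e : F (k - l) * (F l * F k) = F l * (F (k - l) * F k) := by ring
      rw [e] at this
      nlinarith
    · have hcb : nn k ≤ nn (k - l) := (not_le.1 c2).le
      have hca : nn k ≤ nn l := by
        by_contra h3
        exact c1 ⟨(not_le.1 h3).le.trans hcb, (not_le.1 h3).le⟩
      have := key k l (k - l) (by rw [hlo, min_eq_right hcb, min_eq_right hca]) hca hcb
        (by rw [hhi, max_eq_left hcb]) (by linarith) (by linarith)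
      have e : F k * (F l * F (k - l)) = F l * (F (k - l) * F k) := by ring
      rw [e] at this
      nlinarith

/-- the weighted `ℓ¹` norm of the gradient -/
lemma f_sum {s : ℕ} (hs : 3 ≤ s) {δ : ℝ} (hδ : 0 < δ) (hδ' : δ ≤ 1 / 2) : ∃ C, 0 ≤ C ∧
    ∀ (N : ℝ) (B : Finset K) (F : K → ℝ), 1 ≤ N → F 0 = 0 → (∀ k, 0 ≤ F k) →
    ∑ k ∈ B, nn k * F k ≤ C * (N ^ (5 / 2 + δ) * √(∑ k ∈ B, F k ^ 2)
      + N ^ (5 / 2 + δ - s) * √(∑ k ∈ B, if N < nn k then nn k ^ (2 * s) * F k ^ 2 else 0)) := by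
  obtain ⟨C, hC, h⟩ := l1w (show 3 / 2 < 3 / 2 + δ by linarith)
  refine ⟨C, hC, fun N B F hN hF0 hF => ?_⟩
  have hN0 : 0 < N := by linarith
  set F1 : K → ℝ := fun k => if N < nn k then 0 else F k with hF1
  set F2 : K → ℝ := fun k => if N < nn k then nn k ^ s * F k else 0 with hF2
  have hs' : (3 : ℝ) ≤ s := by exact_mod_cast hs
  have h1 : ∀ k ∈ B, nn k * F k ≤ N ^ (5 / 2 + δ) * (nn k ^ (-(3 / 2 + δ)) * F1 k)
      + N ^ (5 / 2 + δ - s) * (nn k ^ (-(3 / 2 + δ)) * F2 k) := by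
    intro k _
    by_cases hk0 : k = 0
    · subst hk0
      simp [hF1, hF2, hF0]
    have hk1 := one_le_nn hk0
    have hk : 0 < nn k := by linarith
    simp only [hF1, hF2]
    split_ifs with h2
    · rw [mul_zero, mul_zero, zero_add]
      have e1 : nn k * F k = (nn k ^ (5 / 2 + δ - s)) * (nn k ^ (-(3 / 2 + δ)) * (nn k ^ s * F k)) := by
        have : nn k = nn k ^ (5 / 2 + δ - s) * nn k ^ (-(3 / 2 + δ)) * nn k ^ s := by
          rw [← Real.rpow_natCast (nn k) s, ← Real.rpow_add hk, ← Real.rpow_add hk]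
          ring_nf
          simp
        calc nn k * F k = (nn k ^ (5 / 2 + δ - s) * nn k ^ (-(3 / 2 + δ)) * nn k ^ s) * F k := by
              rw [← this]
          _ = _ := by ring
      rw [e1]
      apply mul_le_mul_of_nonneg_right _ (mul_nonneg (Real.rpow_nonneg hk.le _)
        (mul_nonneg (pow_nonneg hk.le _) (hF k)))
      exact Real.rpow_le_rpow_of_nonpos hN0 h2.le (by linarith)
    · rw [mul_zero, mul_zero, add_zero]
      rw [not_lt] at h2
      have e1 : nn k * F k = (nn k ^ (5 / 2 + δ)) * (nn k ^ (-(3 / 2 + δ)) * F k) := by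
        have : nn k = nn k ^ (5 / 2 + δ) * nn k ^ (-(3 / 2 + δ)) := by
          rw [← Real.rpow_add hk]
          ring_nf
          simp
        calc nn k * F k = (nn k ^ (5 / 2 + δ) * nn k ^ (-(3 / 2 + δ))) * F k := by rw [← this]
          _ = _ := by ring
      rw [e1]
      apply mul_le_mul_of_nonneg_right _ (mul_nonneg (Real.rpow_nonneg hk.le _) (hF k))
      exact Real.rpow_le_rpow hk.le h2 (by linarith)
  have a1 := h B F1 (by simp only [hF1]; rw [nn_eq_zero.2 rfl, if_neg (by linarith), hF0])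
  have a2 := h B F2 (by simp only [hF2]; rw [nn_eq_zero.2 rfl, if_neg (by linarith)])
  have a3 : √(∑ k ∈ B, F1 k ^ 2) ≤ √(∑ k ∈ B, F k ^ 2) := by
    apply Real.sqrt_le_sqrt
    refine Finset.sum_le_sum fun k _ => ?_
    simp only [hF1]
    split_ifs
    · simpa using sq_nonneg (F k)
    · exact le_rfl
  have a4 : √(∑ k ∈ B, F2 k ^ 2) = √(∑ k ∈ B, if N < nn k then nn k ^ (2 * s) * F k ^ 2 else 0) := by
    congr 1
    refine Finset.sum_congr rfl fun k _ => ?_
    simp only [hF2]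
    split_ifs
    · rw [mul_pow, ← pow_mul, mul_comm s 2]
    · simp
  rw [a4] at a2
  have p1 : 0 ≤ N ^ (5 / 2 + δ) := by positivity
  have p2 : 0 ≤ N ^ (5 / 2 + δ - s) := by positivity
  calc ∑ k ∈ B, nn k * F k ≤ ∑ k ∈ B, (N ^ (5 / 2 + δ) * (nn k ^ (-(3 / 2 + δ)) * F1 k)
      + N ^ (5 / 2 + δ - s) * (nn k ^ (-(3 / 2 + δ)) * F2 k)) := Finset.sum_le_sum h1
    _ = N ^ (5 / 2 + δ) * ∑ k ∈ B, nn k ^ (-(3 / 2 + δ)) * F1 k
      + N ^ (5 / 2 + δ - s) * ∑ k ∈ B, nn k ^ (-(3 / 2 + δ)) * F2 k := by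
        rw [Finset.sum_add_distrib, Finset.mul_sum, Finset.mul_sum]
    _ ≤ N ^ (5 / 2 + δ) * (C * √(∑ k ∈ B, F k ^ 2)) + N ^ (5 / 2 + δ - s) *
        (C * √(∑ k ∈ B, if N < nn k then nn k ^ (2 * s) * F k ^ 2 else 0)) := by
        apply add_le_add
        · exact mul_le_mul_of_nonneg_left (a1.trans (mul_le_mul_of_nonneg_left a3 hC)) p1
        · exact mul_le_mul_of_nonneg_left a2 p2
    _ = _ := by ring

end Pool.Agent.K1H54.RC
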