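import Pool.Agent.K1H54.RC.Flx3

/-!
# The flux through a good band
-/

open Set ComplexConjugate MeasureTheory Finset

namespace Pool.Agent.K1H54.RC

open Pool.Agent.H356R3.NS hiding Sol
open Pool.Agent.K1H29.SH (nn nn_nonneg nn_neg one_le_nn nn_eq_zero abs_le_nn tri mem_tri conv1 conv2 conv3
  ipc en en_nonneg norm_sq_le_en)
open Pool.Agent.K1H29.NC (Tr n2 Wt Bw TT')

variable {φ : K → K → ℝ}

/-- the condition on the bands -/
def BandB (φ : K → K → ℝ) (S : Set ℕ) (p b : ℝ) : Prop := ∀ (s : ℕ) (j : Fin 3), ∃ C, 0 ≤ C ∧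
  ∀ N ∈ S, ∀ (B : Finset K) (x y z : K → ℂ) (F : K → ℝ), (∀ k, k ∉ B → F k = 0) → F 0 = 0 →
    (∀ k, (N : ℝ) ^ p < nn k → F k = 0) → (∀ k, ‖x k‖ ≤ F k) → (∀ k, ‖y k‖ ≤ F k) →
    (∀ k, ‖z k‖ ≤ F k) → (∀ k, nn k ≤ N → z k = 0) →
    ‖Tr (fun l k => kl s j l k * φ l k) B x y z‖ ≤ C * (√(∑ k ∈ B, F k ^ 2) * Sh N (s + b) B F)

/-- the energy near and above `N` in a Sobolev norm -/
noncomputable def Ge (N a : ℝ) (B : Finset K) (u : K → C3) : ℝ :=
  ∑ k ∈ B, if N / 2 < nn k then nn k ^ (2 * a) * en (u k) else 0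

lemma Ge_nonneg (N a : ℝ) (B : Finset K) (u : K → C3) : 0 ≤ Ge N a B u :=
  Finset.sum_nonneg fun k _ => by
    split_ifs
    · exact mul_nonneg (Real.rpow_nonneg (nn_nonneg k) _) (en_nonneg _)
    · exact le_rfl

/-- the Sobolev norm of the high frequencies -/
noncomputable def Rh (N : ℝ) (s : ℕ) (B : Finset K) (u : K → C3) : ℝ := ∑ k ∈ B, wN N s k * en (u k)

lemma Rh_nonneg (N : ℝ) (s : ℕ) (B : Finset K) (u : K → C3) : 0 ≤ Rh N s B u :=
  Finset.sum_nonneg fun k _ => mul_nonneg (wN_nonneg N s k) (en_nonneg _)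

theorem flux_band (hφ : Wt φ) {S : Set ℕ} {p b : ℝ} (hBd : BandB φ S p b) {s : ℕ} (hs3 : 3 ≤ s) {δ : ℝ}
    (hδ : 0 < δ) (hδ' : δ ≤ 1 / 2) : ∃ C, 0 ≤ C ∧ ∀ N ∈ S, 1 ≤ N → 2 * (N : ℝ) ≤ (N : ℝ) ^ p →
    ∀ (B : Finset K) (u : K → C3), (∀ k ∈ B, -k ∈ B) → (∀ k, k ∉ B → u k = 0) → Sym u →
    (∀ k, dt k (u k) = 0) → u 0 = 0 →
    |∑ k ∈ B, wN N s k * (2 * (ipc (Bw φ u u k) (u k)).re)| ≤
      C * (√(∑ k ∈ B, en (u k)) * Ge N (s + b) B u
        + ((N : ℝ) ^ (5 / 2 + δ) * √(∑ k ∈ B, en (u k)) + (N : ℝ) ^ (5 / 2 + δ - s) * √(Rh N s B u))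
          * Rh ((N : ℝ) ^ p / 2) s B u) := by
  classical
  choose C1 hC1 hC1' using hBd s
  obtain ⟨C2, hC2, hC2'⟩ := f_sum hs3 hδ hδ'
  have hpi := Real.pi_pos
  set D1 : ℝ := 4 * Real.pi * ∑ j : Fin 3, ∑ _i : Fin 3, C1 j with hD1
  set D2 : ℝ := 54 * Real.pi * (2 * s + 1) * 2 ^ s * C2 with hD2
  have hD10 : 0 ≤ D1 := mul_nonneg (by positivity)
    (Finset.sum_nonneg fun j _ => Finset.sum_nonneg fun i _ => hC1 j)
  have hD20 : 0 ≤ D2 := by positivity
  refine ⟨D1 + D2, by positivity, ?_⟩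
  intro N hN hN1 hNp B u hB hs hsym hdiv hu0
  have hN1' : (1 : ℝ) ≤ N := by exact_mod_cast hN1
  set M : ℝ := (N : ℝ) ^ p with hM
  have hM0 : 0 ≤ M := by linarith
  set E := ∑ k ∈ B, en (u k) with hE
  have hFE : ∑ k ∈ B, ‖u k‖ ^ 2 ≤ E := Finset.sum_le_sum fun k _ => norm_sq_le_en _
  -- the low part
  have low : |∑ k ∈ B, wN N s k * (2 * (ipc (Bw φ (um M u) (um M u) k) (um M u k)).re)| ≤
      D1 * (√E * Ge N (s + b) B u) := by
    rw [low_id (um_supp hs) (um_div hdiv)]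
    refine (Complex.abs_re_le_norm _).trans ?_
    rw [norm_mul]
    have h7 : ‖-(4 * (Real.pi : ℂ) * Complex.I)‖ = 4 * Real.pi := by
      rw [norm_neg, norm_mul, norm_mul, Complex.norm_I, Complex.norm_real]
      simp [abs_of_pos Real.pi_pos]
    rw [h7, hD1, mul_assoc (4 * Real.pi) (∑ j : Fin 3, ∑ _i : Fin 3, C1 j)]
    apply mul_le_mul_of_nonneg_left _ (by positivity)
    rw [Finset.sum_mul]
    refine (norm_sum_le _ _).trans (Finset.sum_le_sum fun j _ => ?_)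
    rw [Finset.sum_mul]
    refine (norm_sum_le _ _).trans (Finset.sum_le_sum fun i _ => ?_)
    have h1 := hC1' j N hN B (fun k => um M u k j) (fun k => um M u k i) (hp N fun k => um M u k i)
      (fun k => ‖um M u k‖) (fun k hk => by simp [um_supp hs k hk]) (by unfold um; simp [hu0])
      (fun k hk => by unfold um; rw [if_neg (not_le.2 hk), norm_zero]) (fun k => norm_le_pi_norm _ j)
      (fun k => norm_le_pi_norm _ i) (fun k => by
        unfold hp
        split_ifs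
        · exact norm_le_pi_norm _ i
        · simp) (fun k hk => by unfold hp; rw [if_neg (not_lt.2 hk)])
    refine h1.trans ?_
    apply mul_le_mul_of_nonneg_left _ (hC1 j)
    have hum : ∀ k, ‖um M u k‖ ^ 2 ≤ en (u k) := by
      intro k
      unfold um
      split_ifs
      · exact norm_sq_le_en _
      · simpa using en_nonneg (u k)
    apply mul_le_mul
    · exact Real.sqrt_le_sqrt (Finset.sum_le_sum fun k _ => hum k)
    · unfold Sh Ge
      refine Finset.sum_le_sum fun k _ => ?_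
      split_ifs
      · exact mul_le_mul_of_nonneg_left (hum k) (Real.rpow_nonneg (nn_nonneg k) _)
      · exact le_rfl
    · exact Sh_nonneg _ _ _ _
    · exact Real.sqrt_nonneg _
  -- the high part
  set F : K → ℝ := fun k => ‖u k‖ with hF
  set f : K → ℝ := fun k => nn k * F k with hf
  set g : K → ℝ := fun k => if M / 2 < nn k then nn k ^ s * F k else 0 with hg
  have hF0 : ∀ k, 0 ≤ F k := fun k => norm_nonneg _
  have hf0 : ∀ k, 0 ≤ f k := fun k => mul_nonneg (nn_nonneg k) (hF0 k)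
  have hg2 : ∑ k ∈ B, g k ^ 2 ≤ Rh (M / 2) s B u := by
    unfold Rh wN
    refine Finset.sum_le_sum fun k _ => ?_
    simp only [hg, hF]
    split_ifs
    · rw [mul_pow, ← pow_mul, mul_comm s 2]
      exact mul_le_mul_of_nonneg_left (norm_sq_le_en _) (pow_nonneg (nn_nonneg k) _)
    · simp
  have hfs : ∑ k ∈ B, f k ≤ C2 * ((N : ℝ) ^ (5 / 2 + δ) * √E + (N : ℝ) ^ (5 / 2 + δ - s) * √(Rh N s B u)) := by
    refine (hC2' N B F hN1' (by simp [hF, hu0]) hF0).trans ?_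
    apply mul_le_mul_of_nonneg_left _ hC2
    apply add_le_add
    · exact mul_le_mul_of_nonneg_left (Real.sqrt_le_sqrt hFE) (by positivity)
    · apply mul_le_mul_of_nonneg_left _ (by positivity)
      apply Real.sqrt_le_sqrt
      unfold Rh wN
      refine Finset.sum_le_sum fun k _ => ?_
      split_ifs
      · exact mul_le_mul_of_nonneg_left (norm_sq_le_en _) (pow_nonneg (nn_nonneg k) _)
      · simp
  have high : |∑ k ∈ B, wN N s k * (2 * (ipc (Bw φ u u k) (u k)).re)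
      - ∑ k ∈ B, wN N s k * (2 * (ipc (Bw φ (um M u) (um M u) k) (um M u k)).re)| ≤
      D2 * (((N : ℝ) ^ (5 / 2 + δ) * √E + (N : ℝ) ^ (5 / 2 + δ - s) * √(Rh N s B u)) * Rh (M / 2) s B u) := by
    rw [diff_id hφ hB hs hsym hdiv]
    refine (Complex.abs_re_le_norm _).trans ?_
    rw [norm_mul]
    have h7 : ‖-(2 * (Real.pi : ℂ) * Complex.I)‖ = 2 * Real.pi := by
      rw [norm_neg, norm_mul, norm_mul, Complex.norm_I, Complex.norm_real]
      simp [abs_of_pos Real.pi_pos]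
    rw [h7]
    have h8 : ∀ q ∈ tri B, ‖if All M q then (0 : ℂ) else
        ((wN N s q.1 - wN N s (q.1 - q.2) : ℝ) : ℂ) * TT' φ u q.1 q.2‖ ≤
        9 * (2 * s + 1) * 2 ^ s * (f q.2 * (g q.1 * g (q.1 - q.2)) + f (q.1 - q.2) * (g q.1 * g q.2)
          + f q.1 * (g (q.1 - q.2) * g q.2)) := by
      rintro ⟨k, l⟩ _
      have g0 : ∀ k, 0 ≤ g k := fun k => by
        simp only [hg]
        split_ifs
        · exact mul_nonneg (pow_nonneg (nn_nonneg k) _) (hF0 k)
        · exact le_rfl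
      split_ifs with hA
      · rw [norm_zero]
        have q1 : 0 ≤ f l * (g k * g (k - l)) := mul_nonneg (hf0 _) (mul_nonneg (g0 _) (g0 _))
        have q2 : 0 ≤ f (k - l) * (g k * g l) := mul_nonneg (hf0 _) (mul_nonneg (g0 _) (g0 _))
        have q3 : 0 ≤ f k * (g (k - l) * g l) := mul_nonneg (hf0 _) (mul_nonneg (g0 _) (g0 _))
        simp only
        positivity
      · have a1 := w_diff hNp s hA
        have a2 := norm_TT hφ hdiv (u := u) k l
        have a3 := triple hM0 s hA hF0 (f := f) (g := g) (fun k => rfl) (fun k => rfl)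
        rw [norm_mul, Complex.norm_real, Real.norm_eq_abs]
        have p0 : 0 ≤ F l * (F (k - l) * F k) := mul_nonneg (hF0 _) (mul_nonneg (hF0 _) (hF0 _))
        calc |wN N s k - wN N s (k - l)| * ‖TT' φ u k l‖
            ≤ |wN N s k - wN N s (k - l)| * (9 * (min (nn (k - l)) (nn k) * (F l * (F (k - l) * F k)))) :=
              mul_le_mul_of_nonneg_left a2 (abs_nonneg _)
          _ = 9 * ((|wN N s k - wN N s (k - l)| * min (nn (k - l)) (nn k)) * (F l * (F (k - l) * F k))) := by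
              ring
          _ ≤ 9 * (((2 * s + 1) * (lo l k * hi l k ^ (2 * s))) * (F l * (F (k - l) * F k))) := by
              apply mul_le_mul_of_nonneg_left _ (by norm_num)
              exact mul_le_mul_of_nonneg_right a1 p0
          _ = 9 * (2 * s + 1) * (lo l k * hi l k ^ (2 * s) * (F l * (F (k - l) * F k))) := by ring
          _ ≤ 9 * (2 * s + 1) * (2 ^ s * (f l * (g k * g (k - l)) + f (k - l) * (g k * g l)
              + f k * (g (k - l) * g l))) := mul_le_mul_of_nonneg_left a3 (by positivity)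
          _ = _ := by ring
    have h9 : ∑ q ∈ tri B, (f q.2 * (g q.1 * g (q.1 - q.2)) + f (q.1 - q.2) * (g q.1 * g q.2)
          + f q.1 * (g (q.1 - q.2) * g q.2)) ≤ 3 * ((∑ l ∈ B, f l) * ∑ l ∈ B, g l ^ 2) := by
      rw [Finset.sum_add_distrib, Finset.sum_add_distrib]
      have c1 := conv1 B (f := f) (g := g) hf0
      have c2 := conv2 B (f := f) (g := g) hf0
      have c3 := conv3 B (f := f) (g := g) hf0
      linarith
    have hg20 : 0 ≤ ∑ l ∈ B, g l ^ 2 := Finset.sum_nonneg fun _ _ => sq_nonneg _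
    have hfs0 : 0 ≤ ∑ k ∈ B, f k := Finset.sum_nonneg fun k _ => hf0 k
    calc 2 * Real.pi * ‖_‖ ≤ 2 * Real.pi * ∑ q ∈ tri B, 9 * (2 * s + 1) * 2 ^ s *
          (f q.2 * (g q.1 * g (q.1 - q.2)) + f (q.1 - q.2) * (g q.1 * g q.2)
          + f q.1 * (g (q.1 - q.2) * g q.2)) :=
          mul_le_mul_of_nonneg_left ((norm_sum_le _ _).trans (Finset.sum_le_sum h8)) (by positivity)
      _ = 18 * Real.pi * (2 * s + 1) * 2 ^ s * ∑ q ∈ tri B,
          (f q.2 * (g q.1 * g (q.1 - q.2)) + f (q.1 - q.2) * (g q.1 * g q.2)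
          + f q.1 * (g (q.1 - q.2) * g q.2)) := by rw [← Finset.mul_sum]; ring
      _ ≤ 18 * Real.pi * (2 * s + 1) * 2 ^ s * (3 * ((∑ l ∈ B, f l) * ∑ l ∈ B, g l ^ 2)) :=
          mul_le_mul_of_nonneg_left h9 (by positivity)
      _ ≤ 18 * Real.pi * (2 * s + 1) * 2 ^ s * (3 * ((C2 * ((N : ℝ) ^ (5 / 2 + δ) * √E
          + (N : ℝ) ^ (5 / 2 + δ - s) * √(Rh N s B u))) * Rh (M / 2) s B u)) := by
          apply mul_le_mul_of_nonneg_left _ (by positivity)
          apply mul_le_mul_of_nonneg_left _ (by norm_num)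
          exact mul_le_mul hfs hg2 hg20 (hfs0.trans hfs)
      _ = _ := by rw [hD2]; ring
  have hG0 := Ge_nonneg N (s + b) B u
  have hR0 := Rh_nonneg (M / 2) s B u
  have hR1 := Rh_nonneg N s B u
  have hX : 0 ≤ √E * Ge N (s + b) B u := mul_nonneg (Real.sqrt_nonneg _) hG0
  have hY : 0 ≤ ((N : ℝ) ^ (5 / 2 + δ) * √E + (N : ℝ) ^ (5 / 2 + δ - s) * √(Rh N s B u)) * Rh (M / 2) s B u := by
    positivity
  set X := √E * Ge N (s + b) B u
  set Y := ((N : ℝ) ^ (5 / 2 + δ) * √E + (N : ℝ) ^ (5 / 2 + δ - s) * √(Rh N s B u)) * Rh (M / 2) s B u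
  set a := ∑ k ∈ B, wN N s k * (2 * (ipc (Bw φ u u k) (u k)).re)
  set a' := ∑ k ∈ B, wN N s k * (2 * (ipc (Bw φ (um M u) (um M u) k) (um M u k)).re)
  have h1 : |a| ≤ |a - a'| + |a'| := by
    have := abs_add_le (a - a') a'
    rwa [sub_add_cancel] at this
  nlinarith [mul_nonneg hD10 hY, mul_nonneg hD20 hX]

end Pool.Agent.K1H54.RC
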