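import Pool.Agent.K1H54.RC.Loc

/-!
# The flux when only the local triads of the band are good
-/

open Set ComplexConjugate MeasureTheory Finset

namespace Pool.Agent.K1H54.RC

open Pool.Agent.H356R3.NS hiding Sol
open Pool.Agent.K1H29.SH (nn nn_nonneg nn_neg one_le_nn nn_eq_zero abs_le_nn tri mem_tri conv1 conv2 conv3
  ipc en en_nonneg norm_sq_le_en)
open Pool.Agent.K1H29.NC (Tr n2 Wt Bw TT' Tr_tri flux_eq flux_two)

variable {φ : K → K → ℝ} {B : Finset K} {u : K → C3}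

/-- the condition on the local triads of the bands -/
def BandL (φ : K → K → ℝ) (S : Set ℕ) (p a b : ℝ) : Prop := ∀ (s : ℕ) (j : Fin 3), ∃ C, 0 ≤ C ∧
  ∀ N ∈ S, ∀ (B : Finset K) (x y z : K → ℂ) (F : K → ℝ), (∀ k, k ∉ B → F k = 0) → F 0 = 0 →
    (∀ k, ‖x k‖ ≤ F k) → (∀ k, ‖y k‖ ≤ F k) → (∀ k, ‖z k‖ ≤ F k) → (∀ k, nn k ≤ N → z k = 0) →
    ‖Tr (fun l k => kl s j l k * ph a ((N : ℝ) ^ p) φ l k) B x y z‖ ≤
      C * (√(∑ k ∈ B, F k ^ 2) * Sh N (s + b) B F)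

open Classical in
lemma diff2_id (hφ : Wt φ) (hB : ∀ k ∈ B, -k ∈ B) (hs : ∀ k, k ∉ B → u k = 0) (hsym : Sym u)
    (hdiv : ∀ k, dt k (u k) = 0) (N a M : ℝ) (s : ℕ) :
    ∑ k ∈ B, w2 N s k * (2 * (ipc (Bw φ u u k) (u k)).re)
      - ∑ k ∈ B, w2 N s k * (2 * (ipc (Bw (ph a M φ) u u k) (u k)).re)
      = (-(2 * Real.pi * Complex.I) * ∑ p ∈ tri B,
        if p.2 = 0 ∨ p.1 - p.2 = 0 ∨ p.1 = 0 ∨ lc a M p.2 p.1 then 0 else
        ((w2 N s p.1 - w2 N s (p.1 - p.2) : ℝ) : ℂ) * TT' φ u p.1 p.2).re := by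
  rw [flux_eq hs hdiv, flux_eq hs hdiv]
  have h2 := flux_two hφ hB hsym hdiv (w2_neg N s)
  have h3 := flux_two (ph_Wt hφ a M) hB hsym hdiv (w2_neg N s)
  have e1 : ∀ S : ℂ, -(4 * Real.pi * Complex.I) * S = -(2 * Real.pi * Complex.I) * (2 * S) := by
    intro S; ring
  rw [e1, e1, h2, h3, ← Complex.sub_re, ← mul_sub, ← Finset.sum_sub_distrib]
  congr 2
  refine Finset.sum_congr rfl fun p _ => ?_
  unfold TT' ph
  split_ifs <;> simp

/-- the flux through the local triads -/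
lemma loc_flux {S : Set ℕ} {p a b : ℝ} (hBd : BandL φ S p a b) (s : ℕ) : ∃ C, 0 ≤ C ∧
    ∀ N ∈ S, 1 ≤ N → ∀ (B : Finset K) (u : K → C3), (∀ k, k ∉ B → u k = 0) → (∀ k, dt k (u k) = 0) →
    u 0 = 0 → |∑ k ∈ B, w2 N s k * (2 * (ipc (Bw (ph a ((N : ℝ) ^ p) φ) u u k) (u k)).re)| ≤
      C * (√(∑ k ∈ B, en (u k)) * Ge N (s + b) B u) := by
  have h1 : ∀ r : ℕ, ∃ C, 0 ≤ C ∧ ∀ N ∈ S, ∀ (B : Finset K) (u : K → C3), (∀ k, k ∉ B → u k = 0) →
      (∀ k, dt k (u k) = 0) → u 0 = 0 →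
      |∑ k ∈ B, wN N r k * (2 * (ipc (Bw (ph a ((N : ℝ) ^ p) φ) u u k) (u k)).re)| ≤
      C * (√(∑ k ∈ B, en (u k)) * Ge N (r + b) B u) := by
    intro r
    choose C1 hC1 hC1' using hBd r
    refine ⟨4 * Real.pi * ∑ j : Fin 3, ∑ _i : Fin 3, C1 j, mul_nonneg (by positivity)
      (Finset.sum_nonneg fun j _ => Finset.sum_nonneg fun i _ => hC1 j), ?_⟩
    intro N hN B u hs hdiv hu0
    rw [low_id hs hdiv]
    refine (Complex.abs_re_le_norm _).trans ?_
    rw [norm_mul]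
    have h7 : ‖-(4 * (Real.pi : ℂ) * Complex.I)‖ = 4 * Real.pi := by
      rw [norm_neg, norm_mul, norm_mul, Complex.norm_I, Complex.norm_real]
      simp [abs_of_pos Real.pi_pos]
    rw [h7, mul_assoc (4 * Real.pi) (∑ j : Fin 3, ∑ _i : Fin 3, C1 j)]
    apply mul_le_mul_of_nonneg_left _ (by positivity)
    rw [Finset.sum_mul]
    refine (norm_sum_le _ _).trans (Finset.sum_le_sum fun j _ => ?_)
    rw [Finset.sum_mul]
    refine (norm_sum_le _ _).trans (Finset.sum_le_sum fun i _ => ?_)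
    have h1 := hC1' j N hN B (fun k => u k j) (fun k => u k i) (hp N fun k => u k i)
      (fun k => ‖u k‖) (fun k hk => by simp [hs k hk]) (by simp [hu0])
      (fun k => norm_le_pi_norm _ j) (fun k => norm_le_pi_norm _ i) (fun k => by
        unfold hp
        split_ifs
        · exact norm_le_pi_norm _ i
        · simp) (fun k hk => by unfold hp; rw [if_neg (not_lt.2 hk)])
    refine h1.trans ?_
    apply mul_le_mul_of_nonneg_left _ (hC1 j)
    apply mul_le_mul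
    · exact Real.sqrt_le_sqrt (Finset.sum_le_sum fun k _ => norm_sq_le_en _)
    · unfold Sh Ge
      refine Finset.sum_le_sum fun k _ => ?_
      split_ifs
      · exact mul_le_mul_of_nonneg_left (norm_sq_le_en _) (Real.rpow_nonneg (nn_nonneg k) _)
      · exact le_rfl
    · exact Sh_nonneg _ _ _ _
    · exact Real.sqrt_nonneg _
  obtain ⟨C, hC, hs'⟩ := h1 s
  obtain ⟨C', hC', h0'⟩ := h1 0
  refine ⟨C + C' * 2 ^ (2 * s), by positivity, ?_⟩
  intro N hN hN1 B u hs hdiv hu0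
  have hN0 : (0 : ℝ) < N := by exact_mod_cast hN1
  have g1 := hs' N hN B u hs hdiv hu0
  have g2 := h0' N hN B u hs hdiv hu0
  set X : K → ℝ := fun k => 2 * (ipc (Bw (ph a ((N : ℝ) ^ p) φ) u u k) (u k)).re with hX
  have e : ∑ k ∈ B, w2 N s k * X k = ∑ k ∈ B, wN N s k * X k - (N : ℝ) ^ (2 * s) * ∑ k ∈ B, wN N 0 k * X k := by
    rw [Finset.mul_sum, ← Finset.sum_sub_distrib]
    refine Finset.sum_congr rfl fun k _ => ?_
    rw [w2_eq]; ring
  have hG : (N : ℝ) ^ (2 * s) * Ge N (((0 : ℕ) : ℝ) + b) B u ≤ 2 ^ (2 * s) * Ge N (s + b) B u := by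
    unfold Ge
    rw [Finset.mul_sum, Finset.mul_sum]
    refine Finset.sum_le_sum fun k _ => ?_
    split_ifs with h
    · have hk : 0 < nn k := by linarith
      have e1 : nn k ^ (2 * ((s : ℝ) + b)) = nn k ^ (2 * s) * nn k ^ (2 * b) := by
        rw [← Real.rpow_natCast (nn k) (2 * s), ← Real.rpow_add hk]
        congr 1
        push_cast
        ring
      rw [e1, Nat.cast_zero, zero_add]
      have h2 : (N : ℝ) ^ (2 * s) ≤ 2 ^ (2 * s) * nn k ^ (2 * s) := by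
        rw [← mul_pow]
        exact pow_le_pow_left₀ hN0.le (by linarith) _
      have p2 : 0 ≤ nn k ^ (2 * b) * en (u k) := mul_nonneg (Real.rpow_nonneg hk.le _) (en_nonneg _)
      calc (N : ℝ) ^ (2 * s) * (nn k ^ (2 * b) * en (u k))
          ≤ (2 ^ (2 * s) * nn k ^ (2 * s)) * (nn k ^ (2 * b) * en (u k)) :=
            mul_le_mul_of_nonneg_right h2 p2
        _ = _ := by ring
    · simp
  have p0 : 0 ≤ √(∑ k ∈ B, en (u k)) := Real.sqrt_nonneg _
  calc |∑ k ∈ B, w2 N s k * X k| ≤ |∑ k ∈ B, wN N s k * X k| + (N : ℝ) ^ (2 * s) * |∑ k ∈ B, wN N 0 k * X k| := by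
        rw [e]
        refine (abs_sub _ _).trans ?_
        rw [abs_mul, abs_of_nonneg (show 0 ≤ (N : ℝ) ^ (2 * s) by positivity)]
    _ ≤ C * (√(∑ k ∈ B, en (u k)) * Ge N (s + b) B u)
        + (N : ℝ) ^ (2 * s) * (C' * (√(∑ k ∈ B, en (u k)) * Ge N (((0 : ℕ) : ℝ) + b) B u)) :=
        add_le_add g1 (mul_le_mul_of_nonneg_left g2 (by positivity))
    _ = C * (√(∑ k ∈ B, en (u k)) * Ge N (s + b) B u)
        + C' * (√(∑ k ∈ B, en (u k)) * ((N : ℝ) ^ (2 * s) * Ge N (((0 : ℕ) : ℝ) + b) B u)) := by ring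
    _ ≤ C * (√(∑ k ∈ B, en (u k)) * Ge N (s + b) B u)
        + C' * (√(∑ k ∈ B, en (u k)) * (2 ^ (2 * s) * Ge N (s + b) B u)) := by
        apply add_le_add le_rfl
        apply mul_le_mul_of_nonneg_left _ hC'
        exact mul_le_mul_of_nonneg_left hG p0
    _ = _ := by ring

theorem flux_band2 (hφ : Wt φ) {S : Set ℕ} {p a b : ℝ} (hBd : BandL φ S p a b)
    (ha : 0 ≤ a) (hab : a * (5 / 4) < b) {s : ℕ} (hs3 : 3 ≤ s) {δ : ℝ} (hδ : 0 < δ) (hδ' : δ ≤ 1 / 2) :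
    ∃ C, 0 ≤ C ∧ ∀ N ∈ S, 1 ≤ N → 2 * (N : ℝ) ≤ (N : ℝ) ^ p →
    ∀ (B : Finset K) (u : K → C3), (∀ k ∈ B, -k ∈ B) → (∀ k, k ∉ B → u k = 0) → Sym u →
    (∀ k, dt k (u k) = 0) → u 0 = 0 →
    |∑ k ∈ B, w2 N s k * (2 * (ipc (Bw φ u u k) (u k)).re)| ≤
      C * (√(∑ k ∈ B, en (u k)) * Ge N (s + b) B u
        + ((N : ℝ) ^ (5 / 2 + δ) * √(∑ k ∈ B, en (u k)) + (N : ℝ) ^ (5 / 2 + δ - s) * √(Rh N s B u))
          * Rh ((N : ℝ) ^ p / 2) s B u) := by
  classical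
  obtain ⟨C1, hC1, hC1'⟩ := loc_flux hBd s
  obtain ⟨C2, hC2, hC2'⟩ := f_sum hs3 hδ hδ'
  -- the exponent of the nonlocal part
  obtain ⟨d, hd, hdb⟩ : ∃ d : ℝ, 3 / 2 < d ∧ a * (1 + d) / 2 ≤ b := by
    rcases eq_or_lt_of_le ha with h | h
    · exact ⟨2, by norm_num, by rw [← h]; linarith⟩
    · refine ⟨2 * b / a - 1, ?_, le_of_eq (by field_simp; ring)⟩
      have : 5 / 4 < b / a := by rw [lt_div_iff₀ h]; linarith
      have e : 2 * b / a = 2 * (b / a) := by ring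
      rw [e]; linarith
  obtain ⟨C3, hC3, hC3'⟩ := l1w hd
  have hpi := Real.pi_pos
  set D2 : ℝ := 108 * Real.pi * s * 2 ^ s * C2 with hD2
  set c2 : ℝ := 2 ^ ((s : ℝ) + a * (1 + d) / 2) with hc2
  have hc20 : 0 ≤ c2 := by positivity
  set D3 : ℝ := 108 * Real.pi * s * c2 * C3 with hD3
  have hD20 : 0 ≤ D2 := by positivity
  have hD30 : 0 ≤ D3 := by positivity
  refine ⟨C1 + D2 + D3, by positivity, ?_⟩
  intro N hN hN1 hNp B u hB hs hsym hdiv hu0
  have hN1' : (1 : ℝ) ≤ N := by exact_mod_cast hN1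
  have hN0 : (0 : ℝ) < N := by linarith
  set M : ℝ := (N : ℝ) ^ p with hM
  have hM0 : 0 ≤ M := by linarith
  set E := ∑ k ∈ B, en (u k) with hE
  have hFE : ∑ k ∈ B, ‖u k‖ ^ 2 ≤ E := Finset.sum_le_sum fun k _ => norm_sq_le_en _
  have low := hC1' N hN hN1 B u hs hdiv hu0
  rw [← hM, ← hE] at low
  -- the other triads
  set F : K → ℝ := fun k => ‖u k‖ with hF
  set f : K → ℝ := fun k => nn k * F k with hf
  set g : K → ℝ := fun k => if M / 2 < nn k then nn k ^ s * F k else 0 with hg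
  set f2 : K → ℝ := fun k => nn k ^ (-d) * F k with hf2
  set g2 : K → ℝ := fun k => if (N : ℝ) / 2 < nn k then nn k ^ ((s : ℝ) + a * (1 + d) / 2) * F k else 0
    with hg2
  have hF0 : ∀ k, 0 ≤ F k := fun k => norm_nonneg _
  have hf0 : ∀ k, 0 ≤ f k := fun k => mul_nonneg (nn_nonneg k) (hF0 k)
  have hf20 : ∀ k, 0 ≤ f2 k := fun k => mul_nonneg (Real.rpow_nonneg (nn_nonneg k) _) (hF0 k)
  have g0 : ∀ k, 0 ≤ g k := fun k => by
    simp only [hg]
    split_ifs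
    · exact mul_nonneg (pow_nonneg (nn_nonneg k) _) (hF0 k)
    · exact le_rfl
  have g20 : ∀ k, 0 ≤ g2 k := fun k => by
    simp only [hg2]
    split_ifs
    · exact mul_nonneg (Real.rpow_nonneg (nn_nonneg k) _) (hF0 k)
    · exact le_rfl
  have hgR : ∑ k ∈ B, g k ^ 2 ≤ Rh (M / 2) s B u := by
    unfold Rh wN
    refine Finset.sum_le_sum fun k _ => ?_
    simp only [hg, hF]
    split_ifs
    · rw [mul_pow, ← pow_mul, mul_comm s 2]
      exact mul_le_mul_of_nonneg_left (norm_sq_le_en _) (pow_nonneg (nn_nonneg k) _)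
    · simp
  have hgG : ∑ k ∈ B, g2 k ^ 2 ≤ Ge N (s + b) B u := by
    unfold Ge
    refine Finset.sum_le_sum fun k _ => ?_
    simp only [hg2, hF]
    split_ifs with h
    · by_cases hk0 : k = 0
      · subst hk0
        rw [nn_eq_zero.2 rfl] at h
        linarith
      have hk := one_le_nn hk0
      have e1 : (nn k ^ ((s : ℝ) + a * (1 + d) / 2)) ^ 2 = nn k ^ (2 * ((s : ℝ) + a * (1 + d) / 2)) := by
        rw [← Real.rpow_natCast (nn k ^ _) 2, ← Real.rpow_mul (by linarith)]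
        congr 1
        push_cast
        ring
      rw [mul_pow, e1]
      apply mul_le_mul _ (norm_sq_le_en _) (sq_nonneg _) (Real.rpow_nonneg (nn_nonneg k) _)
      exact Real.rpow_le_rpow_of_exponent_le hk (by linarith)
    · simp
  have hfs : ∑ k ∈ B, f k ≤ C2 * ((N : ℝ) ^ (5 / 2 + δ) * √E + (N : ℝ) ^ (5 / 2 + δ - s) * √(Rh N s B u)) := by
    refine (hC2' N B F hN1' (by simp [hF, hu0]) hF0).trans ?_
    apply mul_le_mul_of_nonneg_left _ hC2
    apply add_le_add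
    · exact mul_le_mul_of_nonneg_left (Real.sqrt_le_sqrt hFE) (by positivity)
    · apply mul_le_mul_of_nonneg_left _ (by positivity)
      apply Real.sqrt_le_sqrt
      unfold Rh wN
      refine Finset.sum_le_sum fun k _ => ?_
      split_ifs
      · exact mul_le_mul_of_nonneg_left (norm_sq_le_en _) (pow_nonneg (nn_nonneg k) _)
      · simp
  have hf2s : ∑ k ∈ B, f2 k ≤ C3 * √E := by
    refine (hC3' B F (by simp [hF, hu0])).trans ?_
    exact mul_le_mul_of_nonneg_left (Real.sqrt_le_sqrt hFE) hC3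
  have high : |∑ k ∈ B, w2 N s k * (2 * (ipc (Bw φ u u k) (u k)).re)
      - ∑ k ∈ B, w2 N s k * (2 * (ipc (Bw (ph a M φ) u u k) (u k)).re)| ≤
      D2 * (((N : ℝ) ^ (5 / 2 + δ) * √E + (N : ℝ) ^ (5 / 2 + δ - s) * √(Rh N s B u)) * Rh (M / 2) s B u)
        + D3 * (√E * Ge N (s + b) B u) := by
    rw [diff2_id hφ hB hs hsym hdiv]
    refine (Complex.abs_re_le_norm _).trans ?_
    rw [norm_mul]
    have h7 : ‖-(2 * (Real.pi : ℂ) * Complex.I)‖ = 2 * Real.pi := by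
      rw [norm_neg, norm_mul, norm_mul, Complex.norm_I, Complex.norm_real]
      simp [abs_of_pos Real.pi_pos]
    rw [h7]
    have h8 : ∀ q ∈ tri B, ‖if q.2 = 0 ∨ q.1 - q.2 = 0 ∨ q.1 = 0 ∨ lc a M q.2 q.1 then (0 : ℂ) else
        ((w2 N s q.1 - w2 N s (q.1 - q.2) : ℝ) : ℂ) * TT' φ u q.1 q.2‖ ≤
        18 * s * 2 ^ s * (f q.2 * (g q.1 * g (q.1 - q.2)) + f (q.1 - q.2) * (g q.1 * g q.2)
          + f q.1 * (g (q.1 - q.2) * g q.2))
        + 18 * s * c2 * (f2 q.2 * (g2 q.1 * g2 (q.1 - q.2)) + f2 (q.1 - q.2) * (g2 q.1 * g2 q.2)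
          + f2 q.1 * (g2 (q.1 - q.2) * g2 q.2)) := by
      rintro ⟨k, l⟩ _
      have q1 : 0 ≤ f l * (g k * g (k - l)) := mul_nonneg (hf0 _) (mul_nonneg (g0 _) (g0 _))
      have q2 : 0 ≤ f (k - l) * (g k * g l) := mul_nonneg (hf0 _) (mul_nonneg (g0 _) (g0 _))
      have q3 : 0 ≤ f k * (g (k - l) * g l) := mul_nonneg (hf0 _) (mul_nonneg (g0 _) (g0 _))
      have r1 : 0 ≤ f2 l * (g2 k * g2 (k - l)) := mul_nonneg (hf20 _) (mul_nonneg (g20 _) (g20 _))
      have r2 : 0 ≤ f2 (k - l) * (g2 k * g2 l) := mul_nonneg (hf20 _) (mul_nonneg (g20 _) (g20 _))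
      have r3 : 0 ≤ f2 k * (g2 (k - l) * g2 l) := mul_nonneg (hf20 _) (mul_nonneg (g20 _) (g20 _))
      have z1 : 0 ≤ 18 * (s : ℝ) * 2 ^ s * (f l * (g k * g (k - l)) + f (k - l) * (g k * g l)
          + f k * (g (k - l) * g l)) := by positivity
      have z2 : 0 ≤ 18 * (s : ℝ) * c2 * (f2 l * (g2 k * g2 (k - l)) + f2 (k - l) * (g2 k * g2 l)
          + f2 k * (g2 (k - l) * g2 l)) := by positivity
      simp only
      split_ifs with hA
      · rw [norm_zero]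
        linarith
      · push Not at hA
        obtain ⟨hl, hkl, hk, hlc⟩ := hA
        rw [norm_mul, Complex.norm_real, Real.norm_eq_abs]
        by_cases hNh : hi l k ≤ N
        · rw [w2_low s hNh, abs_zero, zero_mul]
          linarith
        rw [not_le] at hNh
        have a1 := w2_diff hN0.le s k l
        have a2 := Pool.Agent.K1H54.RC.norm_TT hφ hdiv (u := u) k l
        have p0 : 0 ≤ F l * (F (k - l) * F k) := mul_nonneg (hF0 _) (mul_nonneg (hF0 _) (hF0 _))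
        have a4 : |w2 N s k - w2 N s (k - l)| * ‖TT' φ u k l‖ ≤
            18 * s * (lo l k * hi l k ^ (2 * s) * (F l * (F (k - l) * F k))) := by
          calc |w2 N s k - w2 N s (k - l)| * ‖TT' φ u k l‖
            ≤ |w2 N s k - w2 N s (k - l)| * (9 * (min (nn (k - l)) (nn k) * (F l * (F (k - l) * F k)))) :=
              mul_le_mul_of_nonneg_left a2 (abs_nonneg _)
          _ = 9 * ((|w2 N s k - w2 N s (k - l)| * min (nn (k - l)) (nn k)) * (F l * (F (k - l) * F k))) := by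
              ring
          _ ≤ 9 * ((2 * s * (lo l k * hi l k ^ (2 * s))) * (F l * (F (k - l) * F k))) := by
              apply mul_le_mul_of_nonneg_left _ (by norm_num)
              exact mul_le_mul_of_nonneg_right a1 p0
          _ = _ := by ring
        refine a4.trans ?_
        by_cases hMh : hi l k ≤ M
        · have hlo : lo l k ≤ hi l k ^ a := by
            by_contra h
            exact hlc ⟨hMh, not_le.1 h⟩
          have a3 := triple2 (N := N) (d := d) (a := a) (by linarith) ha s hl hkl hk hNh hlo hF0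
            (f := f2) (g := g2) (fun k => rfl) (fun k => rfl)
          calc _ ≤ 18 * s * (c2 * (f2 l * (g2 k * g2 (k - l)) + f2 (k - l) * (g2 k * g2 l)
                + f2 k * (g2 (k - l) * g2 l))) := mul_le_mul_of_nonneg_left a3 (by positivity)
            _ = 18 * s * c2 * (f2 l * (g2 k * g2 (k - l)) + f2 (k - l) * (g2 k * g2 l)
                + f2 k * (g2 (k - l) * g2 l)) := by ring
            _ ≤ _ := by linarith
        · have hAll : ¬ All M (k, l) := by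
            intro h
            exact hMh (max_le h.2.1 (max_le h.2.2 h.1))
          have a3 := triple hM0 s hAll hF0 (f := f) (g := g) (fun k => rfl) (fun k => rfl)
          calc _ ≤ 18 * s * (2 ^ s * (f l * (g k * g (k - l)) + f (k - l) * (g k * g l)
                + f k * (g (k - l) * g l))) := mul_le_mul_of_nonneg_left a3 (by positivity)
            _ = 18 * s * 2 ^ s * (f l * (g k * g (k - l)) + f (k - l) * (g k * g l)
                + f k * (g (k - l) * g l)) := by ring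
            _ ≤ _ := by linarith
    have h9 : ∀ {f g : K → ℝ}, (∀ k, 0 ≤ f k) →
          ∑ q ∈ tri B, (f q.2 * (g q.1 * g (q.1 - q.2)) + f (q.1 - q.2) * (g q.1 * g q.2)
          + f q.1 * (g (q.1 - q.2) * g q.2)) ≤ 3 * ((∑ l ∈ B, f l) * ∑ l ∈ B, g l ^ 2) := by
      intro f g hf0
      rw [Finset.sum_add_distrib, Finset.sum_add_distrib]
      have c1 := conv1 B (f := f) (g := g) hf0
      have c2 := conv2 B (f := f) (g := g) hf0
      have c3 := conv3 B (f := f) (g := g) hf0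
      linarith
    have hgs0 : 0 ≤ ∑ l ∈ B, g l ^ 2 := Finset.sum_nonneg fun _ _ => sq_nonneg _
    have hgs20 : 0 ≤ ∑ l ∈ B, g2 l ^ 2 := Finset.sum_nonneg fun _ _ => sq_nonneg _
    have hfs0 : 0 ≤ ∑ k ∈ B, f k := Finset.sum_nonneg fun k _ => hf0 k
    have hfs20 : 0 ≤ ∑ k ∈ B, f2 k := Finset.sum_nonneg fun k _ => hf20 k
    have hs0 : (0 : ℝ) ≤ s := Nat.cast_nonneg s
    have t1 : 18 * (s : ℝ) * 2 ^ s * ∑ q ∈ tri B, (f q.2 * (g q.1 * g (q.1 - q.2))
        + f (q.1 - q.2) * (g q.1 * g q.2) + f q.1 * (g (q.1 - q.2) * g q.2)) ≤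
        18 * s * 2 ^ s * (3 * ((C2 * ((N : ℝ) ^ (5 / 2 + δ) * √E
          + (N : ℝ) ^ (5 / 2 + δ - s) * √(Rh N s B u))) * Rh (M / 2) s B u)) := by
      apply mul_le_mul_of_nonneg_left _ (by positivity)
      refine (h9 hf0).trans ?_
      apply mul_le_mul_of_nonneg_left _ (by norm_num)
      exact mul_le_mul hfs hgR hgs0 (hfs0.trans hfs)
    have t2 : 18 * (s : ℝ) * c2 * ∑ q ∈ tri B, (f2 q.2 * (g2 q.1 * g2 (q.1 - q.2))
        + f2 (q.1 - q.2) * (g2 q.1 * g2 q.2) + f2 q.1 * (g2 (q.1 - q.2) * g2 q.2)) ≤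
        18 * s * c2 * (3 * ((C3 * √E) * Ge N (s + b) B u)) := by
      apply mul_le_mul_of_nonneg_left _ (by positivity)
      refine (h9 hf20).trans ?_
      apply mul_le_mul_of_nonneg_left _ (by norm_num)
      exact mul_le_mul hf2s hgG hgs20 (hfs20.trans hf2s)
    calc 2 * Real.pi * ‖_‖ ≤ 2 * Real.pi * ∑ q ∈ tri B,
          (18 * s * 2 ^ s * (f q.2 * (g q.1 * g (q.1 - q.2)) + f (q.1 - q.2) * (g q.1 * g q.2)
          + f q.1 * (g (q.1 - q.2) * g q.2))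
        + 18 * s * c2 * (f2 q.2 * (g2 q.1 * g2 (q.1 - q.2)) + f2 (q.1 - q.2) * (g2 q.1 * g2 q.2)
          + f2 q.1 * (g2 (q.1 - q.2) * g2 q.2))) :=
          mul_le_mul_of_nonneg_left ((norm_sum_le _ _).trans (Finset.sum_le_sum h8)) (by positivity)
      _ = 2 * Real.pi * (18 * (s : ℝ) * 2 ^ s * ∑ q ∈ tri B, (f q.2 * (g q.1 * g (q.1 - q.2))
        + f (q.1 - q.2) * (g q.1 * g q.2) + f q.1 * (g (q.1 - q.2) * g q.2))
        + 18 * (s : ℝ) * c2 * ∑ q ∈ tri B, (f2 q.2 * (g2 q.1 * g2 (q.1 - q.2))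
        + f2 (q.1 - q.2) * (g2 q.1 * g2 q.2) + f2 q.1 * (g2 (q.1 - q.2) * g2 q.2))) := by
          rw [Finset.sum_add_distrib, Finset.mul_sum (s := tri B) (a := 18 * (s : ℝ) * 2 ^ s),
            Finset.mul_sum (s := tri B) (a := 18 * (s : ℝ) * c2)]
      _ ≤ 2 * Real.pi * (18 * s * 2 ^ s * (3 * ((C2 * ((N : ℝ) ^ (5 / 2 + δ) * √E
          + (N : ℝ) ^ (5 / 2 + δ - s) * √(Rh N s B u))) * Rh (M / 2) s B u))
          + 18 * s * c2 * (3 * ((C3 * √E) * Ge N (s + b) B u))) :=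
          mul_le_mul_of_nonneg_left (add_le_add t1 t2) (by positivity)
      _ = _ := by rw [hD2, hD3]; ring
  have hG0 := Ge_nonneg N (s + b) B u
  have hR0 := Rh_nonneg (M / 2) s B u
  have hR1 := Rh_nonneg N s B u
  have hX : 0 ≤ √E * Ge N (s + b) B u := mul_nonneg (Real.sqrt_nonneg _) hG0
  have hY : 0 ≤ ((N : ℝ) ^ (5 / 2 + δ) * √E + (N : ℝ) ^ (5 / 2 + δ - s) * √(Rh N s B u)) * Rh (M / 2) s B u := by
    positivity
  set X := √E * Ge N (s + b) B u
  set Y := ((N : ℝ) ^ (5 / 2 + δ) * √E + (N : ℝ) ^ (5 / 2 + δ - s) * √(Rh N s B u)) * Rh (M / 2) s B u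
  set x := ∑ k ∈ B, w2 N s k * (2 * (ipc (Bw φ u u k) (u k)).re)
  set x' := ∑ k ∈ B, w2 N s k * (2 * (ipc (Bw (ph a M φ) u u k) (u k)).re)
  have h1 : |x| ≤ |x - x'| + |x'| := by
    have := abs_add_le (x - x') x'
    rwa [sub_add_cancel] at this
  nlinarith [mul_nonneg hC1 hY, mul_nonneg hD20 hX, mul_nonneg hD30 hY]

end Pool.Agent.K1H54.RC
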