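import Pool.Agent.K1H54.RC.Flx
import Pool.Agent.K1H29.NC.W7

/-!
# Uniform bounds of the Galerkin trajectories and solutions on the Fourier side
-/

open Set ComplexConjugate MeasureTheory

namespace Pool.Agent.K1H54.RC

open Pool.Agent.H356R3.NS hiding Sol
open Pool.Agent.K1H29
open Pool.Agent.K1H29.SH (nn nn_nonneg nn_neg one_le_nn nn_eq_zero ipc en en_nonneg norm_sq_le_en)
open Pool.Agent.K1H29.NC (Tr n2 Wt Bw Btw Bw_zero GalW FSW exists_limitW Data)
open Pool.Agent.K1H29.RD (Es Es_nonneg dec)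

/-- interpolation between powers -/
lemma interp {p q ε : ℝ} (hp : 0 ≤ p) (hpq : p < q) (hε : 0 < ε) :
    ∃ C, 0 ≤ C ∧ ∀ x : ℝ, 1 ≤ x → x ^ p ≤ ε * x ^ q + C := by
  refine ⟨(1 / ε) ^ (p / (q - p)), by positivity, fun x hx => ?_⟩
  have hx0 : 0 < x := by linarith
  have hqp : 0 < q - p := by linarith
  have p1 : 0 ≤ x ^ q := Real.rpow_nonneg hx0.le _
  have p2 : 0 ≤ (1 / ε) ^ (p / (q - p)) := by positivity
  rcases le_total (1 / ε) (x ^ (q - p)) with h | h
  · have h1 : x ^ p ≤ ε * x ^ q := by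
      have h2 : x ^ q = x ^ p * x ^ (q - p) := by rw [← Real.rpow_add hx0]; congr 1; ring
      rw [h2]
      have h3 : 1 ≤ ε * x ^ (q - p) := by
        rw [div_le_iff₀ hε] at h
        linarith
      have h4 : 0 ≤ x ^ p := Real.rpow_nonneg hx0.le _
      nlinarith
    linarith
  · have h1 : x ≤ (1 / ε) ^ (1 / (q - p)) := by
      have h2 := Real.rpow_le_rpow (Real.rpow_nonneg hx0.le _) h (by positivity : 0 ≤ 1 / (q - p))
      rw [← Real.rpow_mul hx0.le, mul_one_div_cancel hqp.ne', Real.rpow_one] at h2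
      exact h2
    have h2 := Real.rpow_le_rpow hx0.le h1 hp
    rw [← Real.rpow_mul (by positivity), one_div_mul_eq_div] at h2
    have : 0 ≤ ε * x ^ q := by positivity
    linarith

variable {φ : K → K → ℝ} {m : K → ℝ} {V : K → C3}

theorem unifB (hφ : Wt φ) {b α : ℝ} (hF : FluxB φ b) (hb0 : 0 ≤ b) (hbα : b < α) {m0 : ℝ} (hm0 : 0 < m0)
    (hmn : ∀ k, 0 ≤ m k) (hm : ∀ k, m0 * nn k ^ (2 * α) ≤ m k)
    (hV : ∀ s : ℕ, ∃ C, ∀ B : Finset K, ∑ k ∈ B, nn k ^ (2 * s) * en (V k) ≤ C) (s : ℕ) :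
    ∃ C, ∀ (B : Finset K) (T : ℝ) (u : ℝ → K → C3), (0 : K) ∉ B → 0 ≤ T → GalW φ m B T V u →
      ∀ t ∈ Icc 0 T, Es s B (u t) ≤ C := by
  obtain ⟨V0, hV0⟩ := hV 0
  obtain ⟨Vs, hVs⟩ := hV s
  have hV00 : 0 ≤ V0 := (hV0 ∅).trans' (by simp)
  have hVs0 : 0 ≤ Vs := (hVs ∅).trans' (by simp)
  obtain ⟨C1, hC1, hC1'⟩ := hF s
  set G := C1 * √V0 with hG
  have hG0 : 0 ≤ G := mul_nonneg hC1 (Real.sqrt_nonneg _)
  obtain ⟨C2, hC2, hC2'⟩ := interp (p := 2 * ((s : ℝ) + b)) (q := 2 * ((s : ℝ) + α)) (ε := m0 / (G + 1))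
    (by positivity) (by linarith) (by positivity)
  set c := G * C2 * V0 / m0 with hc
  have hc0 : 0 ≤ c := by positivity
  refine ⟨Vs + c, fun B T u h0 hT0 h t ht => ?_⟩
  have hinit : ∀ s, Es s B (u 0) = ∑ k ∈ B, nn k ^ (2 * s) * en (V k) := fun s =>
    Finset.sum_congr rfl fun k hk => by rw [h.init k hk]
  have hen : ∀ r ∈ Icc 0 T, ∑ k ∈ B, en (u r k) ≤ V0 := by
    intro r hr
    refine (h.energy hφ hmn hr).trans ?_
    have := hV0 B
    simpa using this
  have hone : ∀ k ∈ B, 1 ≤ nn k := fun k hk => one_le_nn fun h => h0 (h ▸ hk)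
  have key : ∀ r ∈ Icc 0 T, -(2 * ∑ k ∈ B, nn k ^ (2 * s) * (m k * en (u r k))) +
        ∑ k ∈ B, nn k ^ (2 * s) * (2 * (ipc (Bw φ (u r) (u r) k) (u r k)).re) + m0 * (Es s B (u r) - c) ≤ 0 := by
    intro r hr
    set S := ∑ k ∈ B, nn k ^ (2 * ((s : ℝ) + α)) * en (u r k) with hS
    have hS0 : 0 ≤ S := Finset.sum_nonneg fun k _ => mul_nonneg (Real.rpow_nonneg (nn_nonneg k) _) (en_nonneg _)
    have f1 : m0 * S ≤ ∑ k ∈ B, nn k ^ (2 * s) * (m k * en (u r k)) := by
      rw [hS, Finset.mul_sum]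
      refine Finset.sum_le_sum fun k hk => ?_
      have h1 : 0 < nn k := lt_of_lt_of_le one_pos (hone k hk)
      have e : nn k ^ (2 * ((s : ℝ) + α)) = nn k ^ (2 * s) * nn k ^ (2 * α) := by
        rw [← Real.rpow_natCast (nn k) (2 * s), ← Real.rpow_add h1]
        congr 1
        push_cast
        ring
      rw [e]
      calc m0 * (nn k ^ (2 * s) * nn k ^ (2 * α) * en (u r k))
          = nn k ^ (2 * s) * ((m0 * nn k ^ (2 * α)) * en (u r k)) := by ring
        _ ≤ _ := mul_le_mul_of_nonneg_left (mul_le_mul_of_nonneg_right (hm k) (en_nonneg _))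
            (pow_nonneg h1.le _)
    have f2 : Es s B (u r) ≤ S := by
      refine Finset.sum_le_sum fun k hk => ?_
      apply mul_le_mul_of_nonneg_right _ (en_nonneg _)
      rw [← Real.rpow_natCast (nn k) (2 * s)]
      apply Real.rpow_le_rpow_of_exponent_le (hone k hk)
      push_cast
      linarith
    have hu0 : u r 0 = 0 := h.supp r hr 0 h0
    have f3 := hC1' B (u r) h.symB (h.supp r hr) (h.sym r hr) (h.div r hr) hu0
    have f4 : ∑ k ∈ B, nn k ^ (2 * ((s : ℝ) + b)) * en (u r k) ≤ m0 / (G + 1) * S + C2 * V0 := by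
      calc ∑ k ∈ B, nn k ^ (2 * ((s : ℝ) + b)) * en (u r k)
          ≤ ∑ k ∈ B, (m0 / (G + 1) * (nn k ^ (2 * ((s : ℝ) + α)) * en (u r k)) + C2 * en (u r k)) := by
            refine Finset.sum_le_sum fun k hk => ?_
            have := mul_le_mul_of_nonneg_right (hC2' (nn k) (hone k hk)) (en_nonneg (u r k))
            linarith
        _ = m0 / (G + 1) * S + C2 * ∑ k ∈ B, en (u r k) := by
            rw [Finset.sum_add_distrib, ← Finset.mul_sum, ← Finset.mul_sum]
        _ ≤ _ := by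
            have := mul_le_mul_of_nonneg_left (hen r hr) hC2
            linarith
    have f5 : ∑ k ∈ B, nn k ^ (2 * s) * (2 * (ipc (Bw φ (u r) (u r) k) (u r k)).re) ≤
        m0 * S + G * C2 * V0 := by
      refine (le_abs_self _).trans (f3.trans ?_)
      have g1 : √(∑ k ∈ B, en (u r k)) ≤ √V0 := Real.sqrt_le_sqrt (hen r hr)
      have g2 : 0 ≤ ∑ k ∈ B, nn k ^ (2 * ((s : ℝ) + b)) * en (u r k) :=
        Finset.sum_nonneg fun k _ => mul_nonneg (Real.rpow_nonneg (nn_nonneg k) _) (en_nonneg _)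
      calc C1 * (√(∑ k ∈ B, en (u r k)) * ∑ k ∈ B, nn k ^ (2 * ((s : ℝ) + b)) * en (u r k))
          ≤ C1 * (√V0 * (m0 / (G + 1) * S + C2 * V0)) := by
            apply mul_le_mul_of_nonneg_left _ hC1
            exact mul_le_mul g1 f4 g2 (Real.sqrt_nonneg _)
        _ = G / (G + 1) * (m0 * S) + G * C2 * V0 := by rw [hG]; field_simp
        _ ≤ 1 * (m0 * S) + G * C2 * V0 := by
            have : G / (G + 1) ≤ 1 := div_le_one_of_le₀ (by linarith) (by linarith)
            have h2 : 0 ≤ m0 * S := by positivity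
            have := mul_le_mul_of_nonneg_right this h2
            linarith
        _ = _ := by rw [one_mul]
    have f6 : m0 * c = G * C2 * V0 := by rw [hc]; field_simp
    have f7 : m0 * Es s B (u r) ≤ m0 * S := mul_le_mul_of_nonneg_left f2 hm0.le
    linarith
  have h5 := dec (T := T) (f := fun r => Es s B (u r) - c) (f' := fun r =>
      (-(2 * ∑ k ∈ B, nn k ^ (2 * s) * (m k * en (u r k))) +
        ∑ k ∈ B, nn k ^ (2 * s) * (2 * (ipc (Bw φ (u r) (u r) k) (u r k)).re)))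
    (g := fun r => m0 * r) (g' := fun _ => m0)
    (fun r hr => (h.dW (fun k => nn k ^ (2 * s)) hr).sub_const c)
    (fun r _ => by simpa using ((hasDerivWithinAt_id r (Icc 0 T)).const_mul m0)) key ht
  simp only [mul_zero, Real.exp_zero, mul_one] at h5
  have h6 : Es s B (u 0) ≤ Vs := by rw [hinit]; exact hVs B
  have h7 : 1 ≤ Real.exp (m0 * t) := Real.one_le_exp (mul_nonneg hm0.le ht.1)
  by_cases h8 : Es s B (u t) ≤ c
  · linarith
  · have h9 : Es s B (u t) - c ≤ (Es s B (u t) - c) * Real.exp (m0 * t) :=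
      le_mul_of_one_le_right (by linarith) h7
    linarith

/-- the mean-free part of the data on the Fourier side -/
noncomputable def Wz (v : R3 → R3) (k : K) : C3 := if k = 0 then 0 else fc v k

theorem exists_fsw (hφ : Wt φ) {b α : ℝ} (hF : FluxB φ b) (hb0 : 0 ≤ b) (hbα : b < α) {m0 : ℝ} (hm0 : 0 < m0)
    (hmn : ∀ k, 0 ≤ m k) (hme : ∀ k, m (-k) = m k) (hm : ∀ k, m0 * nn k ^ (2 * α) ≤ m k) {v : R3 → R3}
    (hv : Data v) : ∃ u, FSW φ m (Wz v) u := by
  have hv' : SH.Data v := ⟨hv.smooth, hv.periodic, hv.divFree⟩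
  have hWen : ∀ k, en (Wz v k) ≤ en (fc v k) := fun k => by
    unfold Wz
    split_ifs
    · unfold en; simp only [Pi.zero_apply, norm_zero]
      have := en_nonneg (fc v k)
      unfold en at this
      simpa using this
    · exact le_rfl
  have hVb : ∀ s : ℕ, ∃ C, ∀ B : Finset K, ∑ k ∈ B, nn k ^ (2 * s) * en (Wz v k) ≤ C := by
    intro s
    obtain ⟨C, hC⟩ := hv'.hV s
    refine ⟨C, fun B => (Finset.sum_le_sum fun k _ => ?_).trans (hC B)⟩
    exact mul_le_mul_of_nonneg_left (hWen k) (pow_nonneg (nn_nonneg k) _)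
  have hu := unifB (m := m) (V := Wz v) hφ hF hb0 hbα hm0 hmn hm hVb
  have hWs : Sym (Wz v) := by
    intro k i
    unfold Wz
    by_cases h : k = 0
    · rw [if_pos h, if_pos (by rw [h, neg_zero])]; simp
    · rw [if_neg h, if_neg (by simpa using h)]; exact fc_sym v k i
  have hWd : ∀ k, dt k (Wz v k) = 0 := by
    intro k
    unfold Wz
    split_ifs
    · simp [dt]
    · exact fc_div (hv.smooth.of_le (by norm_cast)) hv.periodic hv.divFree k
  set Λ : Set K := {k | k ≠ 0} with hΛ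
  have hΛn : ∀ k ∈ Λ, -k ∈ Λ := fun k hk => by
    simp only [hΛ, mem_ofPred_eq] at *
    simpa using hk
  have hVL : ∀ k, k ∉ Λ → Wz v k = 0 := by
    intro k hk
    have : k = 0 := by simpa [hΛ] using hk
    unfold Wz
    rw [if_pos this]
  have hbd' : ∀ p : ℕ, ∃ b : K → ℝ, Summable b ∧ ∀ (B : Finset K) (T : ℝ) (u : ℝ → K → C3),
      (∀ k ∈ B, k ∈ Λ) → 0 ≤ T → GalW φ m B T (Wz v) u → ∀ t ∈ Icc 0 T, ∀ k, pw k ^ p * ‖u t k‖ ≤ b k := by
    intro p
    obtain ⟨b, hb, hb'⟩ := SH.dom_of_bound (P := fun w => ∃ (B : Finset K) (T : ℝ) (u : ℝ → K → C3),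
      (∀ k ∈ B, k ∈ Λ) ∧ 0 ≤ T ∧ GalW φ m B T (Wz v) u ∧ ∃ t ∈ Icc 0 T, u t = w) (fun σ => by
        obtain ⟨C, hC⟩ := hu σ
        refine ⟨C, ?_⟩
        rintro w ⟨B, T, u, hB, hT, hu, t, ht, rfl⟩ k
        have h1 := hC B T u (fun h => hB 0 h rfl) hT hu t ht
        refine le_trans ?_ h1
        by_cases hk : k ∈ B
        · calc nn k ^ (2 * σ) * ‖u t k‖ ^ 2 ≤ nn k ^ (2 * σ) * en (u t k) :=
                mul_le_mul_of_nonneg_left (norm_sq_le_en _) (pow_nonneg (nn_nonneg k) _)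
            _ ≤ _ := Finset.single_le_sum (f := fun k => nn k ^ (2 * σ) * en (u t k))
                (fun k _ => mul_nonneg (pow_nonneg (nn_nonneg k) _) (en_nonneg _)) hk
        · rw [hu.supp t ht k hk, norm_zero]
          have := Es_nonneg σ B (u t)
          simpa using this) p
    exact ⟨b, hb, fun B T u hB hT hu t ht k => hb' _ ⟨B, T, u, hB, hT, hu, t, ht, rfl⟩ k⟩
  obtain ⟨u, h1, h2, h3, h4, h5, h6, h7⟩ := exists_limitW hφ hΛn hmn hme hWs hWd hVL hbd'
  refine ⟨u, h1, h2, h3, h4, h5, fun k t ht => ?_⟩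
  by_cases hk : k ∈ Λ
  · exact h6 k hk t ht
  · have hk0 : k = 0 := by simpa [hΛ] using hk
    have e1 : u k = fun _ => 0 := funext fun s => h7 k hk s
    have e2 : -(m k) • u k t + Btw φ u k t = 0 := by
      rw [h7 k hk t, smul_zero, zero_add, hk0]
      exact Bw_zero _ _
    rw [e2, e1]
    exact hasDerivAt_const _ _

/-- the Fourier series of the data -/
lemma Wz_inv {v : R3 → R3} (hv : Data v) (x : R3) (i : Fin 3) :
    (fc v 0 i).re + (∑' k, Wz v k i * ex k x).re = v x i := by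
  have hv' : SH.Data v := ⟨hv.smooth, hv.periodic, hv.divFree⟩
  have hs : Summable fun k => Wz v k i := by
    have h8 : Summable fun k => fc v k i := by
      have := (H459R3.NS.rap_fr (hv'.sp i)).summable
      refine Summable.of_norm (this.norm.congr fun k => ?_)
      rw [SH.fc_eq_fr]
    have h9 : (fun k => Wz v k i) = fun k => fc v k i - (if k = 0 then fc v 0 i else 0) := by
      funext k
      unfold Wz
      by_cases h : k = 0
      · subst h; simp
      · simp [h]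
    rw [h9]
    exact h8.sub (summable_of_ne_finset_zero (s := {0}) fun k hk => by rw [if_neg (by simpa using hk)])
  have him : (fc v 0 i).im = 0 := by
    have h10 := fc_sym v 0 i
    rw [neg_zero] at h10
    have h11 := congrArg Complex.im h10
    rw [Complex.star_def, Complex.conj_im] at h11
    linarith
  rw [NC.mean_series _ hs, ← hv'.inv x i]
  congr 1
  refine tsum_congr fun k => ?_
  congr 1
  unfold Wz
  by_cases h : k = 0
  · subst h
    simp only [if_true, Pi.zero_apply, zero_add]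
    exact Complex.ext (by simp) (by simp [him])
  · rw [if_neg h, if_neg h, add_zero]

end Pool.Agent.K1H54.RC
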