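import Pool.Agent.K1H54.RC.Flx4
import Pool.Agent.K1H54.RC.Gal

/-!
# Uniform bounds from good bands
-/

open Set ComplexConjugate MeasureTheory Filter Topology

namespace Pool.Agent.K1H54.RC

open Pool.Agent.H356R3.NS hiding Sol
open Pool.Agent.K1H29
open Pool.Agent.K1H29.SH (nn nn_nonneg nn_neg one_le_nn nn_eq_zero ipc en en_nonneg norm_sq_le_en)
open Pool.Agent.K1H29.NC (Tr n2 Wt Bw Btw Bw_zero GalW FSW exists_limitW Data)
open Pool.Agent.K1H29.RD (Es Es_nonneg dec)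

variable {φ : K → K → ℝ} {m : K → ℝ} {V : K → C3}

lemma ev_small (c : ℝ) {η ε : ℝ} (hη : 0 < η) (hε : 0 < ε) :
    ∀ᶠ N : ℕ in atTop, c * (N : ℝ) ^ (-η) < ε := by
  have h1 : Tendsto (fun N : ℕ => c * (N : ℝ) ^ (-η)) atTop (𝓝 (c * 0)) :=
    ((tendsto_rpow_neg_atTop hη).comp tendsto_natCast_atTop_atTop).const_mul c
  rw [mul_zero] at h1
  exact h1.eventually_lt_const hε

/-- the dissipation of the high frequencies -/
noncomputable def Dh (N a : ℝ) (B : Finset K) (u : K → C3) : ℝ :=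
  ∑ k ∈ B, if N < nn k then nn k ^ (2 * a) * en (u k) else 0

lemma Dh_nonneg (N a : ℝ) (B : Finset K) (u : K → C3) : 0 ≤ Dh N a B u :=
  Finset.sum_nonneg fun k _ => by
    split_ifs
    · exact mul_nonneg (Real.rpow_nonneg (nn_nonneg k) _) (en_nonneg _)
    · exact le_rfl

lemma Dh_ge {N : ℝ} (hN : 0 < N) (s : ℕ) {α : ℝ} (hα : 0 ≤ α) (B : Finset K) (u : K → C3) :
    N ^ (2 * α) * Rh N s B u ≤ Dh N (s + α) B u := by
  unfold Rh Dh wN
  rw [Finset.mul_sum]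
  refine Finset.sum_le_sum fun k _ => ?_
  split_ifs with h
  · have hk : 0 < nn k := hN.trans h
    have e : nn k ^ (2 * ((s : ℝ) + α)) = nn k ^ (2 * α) * nn k ^ (2 * s) := by
      rw [← Real.rpow_natCast (nn k) (2 * s), ← Real.rpow_add hk]
      congr 1
      push_cast
      ring
    rw [e, ← mul_assoc]
    apply mul_le_mul_of_nonneg_right _ (en_nonneg _)
    apply mul_le_mul_of_nonneg_right _ (pow_nonneg hk.le _)
    exact Real.rpow_le_rpow hN.le h.le (by linarith)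
  · simp

lemma Ge_le {N : ℝ} (hN : 0 < N) (s : ℕ) {b α : ℝ} (hb : 0 ≤ b) (hbα : b ≤ α) (B : Finset K) (u : K → C3) :
    Ge N (s + b) B u ≤ N ^ (2 * ((s : ℝ) + b)) * (∑ k ∈ B, en (u k))
      + N ^ (-(2 * (α - b))) * Dh N (s + α) B u := by
  unfold Ge Dh
  rw [Finset.mul_sum, Finset.mul_sum, ← Finset.sum_add_distrib]
  refine Finset.sum_le_sum fun k _ => ?_
  have he := en_nonneg (u k)
  have p1 : 0 ≤ N ^ (2 * ((s : ℝ) + b)) * en (u k) := mul_nonneg (by positivity) he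
  by_cases h : N < nn k
  · have hk : 0 < nn k := hN.trans h
    rw [if_pos (by linarith), if_pos h]
    have e : nn k ^ (2 * ((s : ℝ) + b)) = nn k ^ (-(2 * (α - b))) * nn k ^ (2 * ((s : ℝ) + α)) := by
      rw [← Real.rpow_add hk]
      congr 1
      ring
    have h1 : nn k ^ (-(2 * (α - b))) ≤ N ^ (-(2 * (α - b))) :=
      Real.rpow_le_rpow_of_nonpos hN h.le (by linarith)
    have h2 : 0 ≤ nn k ^ (2 * ((s : ℝ) + α)) * en (u k) := mul_nonneg (Real.rpow_nonneg hk.le _) he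
    calc nn k ^ (2 * ((s : ℝ) + b)) * en (u k)
        = nn k ^ (-(2 * (α - b))) * (nn k ^ (2 * ((s : ℝ) + α)) * en (u k)) := by rw [e]; ring
      _ ≤ N ^ (-(2 * (α - b))) * (nn k ^ (2 * ((s : ℝ) + α)) * en (u k)) :=
          mul_le_mul_of_nonneg_right h1 h2
      _ ≤ _ := by linarith
  · rw [if_neg h, mul_zero, add_zero]
    rw [not_lt] at h
    split_ifs with h1
    · apply mul_le_mul_of_nonneg_right _ he
      exact Real.rpow_le_rpow (nn_nonneg k) h (by positivity)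
    · exact p1

lemma Rh_le {N M : ℝ} (hN : 0 < N) (hNM : 2 * N ≤ M) (s : ℕ) {α : ℝ} (hα : 0 ≤ α) (B : Finset K)
    (u : K → C3) : Rh (M / 2) s B u ≤ 2 ^ (2 * α) * M ^ (-(2 * α)) * Dh N (s + α) B u := by
  have hM : 0 < M := by linarith
  unfold Rh Dh wN
  rw [Finset.mul_sum]
  refine Finset.sum_le_sum fun k _ => ?_
  have he := en_nonneg (u k)
  have p0 : (0 : ℝ) ≤ 2 ^ (2 * α) * M ^ (-(2 * α)) := by positivity
  by_cases h : M / 2 < nn k
  · have hk : 0 < nn k := by linarith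
    rw [if_pos h, if_pos (show N < nn k by linarith)]
    have e : nn k ^ (2 * s) = nn k ^ (-(2 * α)) * nn k ^ (2 * ((s : ℝ) + α)) := by
      rw [← Real.rpow_natCast (nn k) (2 * s), ← Real.rpow_add hk]
      congr 1
      push_cast
      ring
    have h1 : nn k ^ (-(2 * α)) ≤ (M / 2) ^ (-(2 * α)) :=
      Real.rpow_le_rpow_of_nonpos (by linarith) h.le (by linarith)
    have h3 : (M / 2) ^ (-(2 * α)) = 2 ^ (2 * α) * M ^ (-(2 * α)) := by
      rw [Real.div_rpow hM.le (by norm_num), Real.rpow_neg (by norm_num : (0 : ℝ) ≤ 2)]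
      field_simp
    have h2 : 0 ≤ nn k ^ (2 * ((s : ℝ) + α)) * en (u k) := mul_nonneg (Real.rpow_nonneg hk.le _) he
    calc nn k ^ (2 * s) * en (u k) = nn k ^ (-(2 * α)) * (nn k ^ (2 * ((s : ℝ) + α)) * en (u k)) := by
          rw [e]; ring
      _ ≤ (2 ^ (2 * α) * M ^ (-(2 * α))) * (nn k ^ (2 * ((s : ℝ) + α)) * en (u k)) :=
          mul_le_mul_of_nonneg_right (h1.trans (le_of_eq h3)) h2
  · rw [if_neg h, zero_mul]
    apply mul_nonneg p0
    split_ifs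
    · exact mul_nonneg (Real.rpow_nonneg (nn_nonneg k) _) he
    · exact le_rfl

theorem unifS (hφ : Wt φ) {S : Set ℕ} (hS : S.Infinite) {p b α : ℝ} (hBd : BandB φ S p b) (hb0 : 0 ≤ b)
    (hbα : b < α) (hp1 : 1 < p) (hpα : 5 / 4 < α * p) {m0 : ℝ} (hm0 : 0 < m0)
    (hmn : ∀ k, 0 ≤ m k) (hm : ∀ k, m0 * nn k ^ (2 * α) ≤ m k)
    (hV : ∀ s : ℕ, ∃ C, ∀ B : Finset K, ∑ k ∈ B, nn k ^ (2 * s) * en (V k) ≤ C) {s : ℕ} (hs : 3 ≤ s) :
    ∃ C, ∀ (B : Finset K) (T : ℝ) (u : ℝ → K → C3), (0 : K) ∉ B → 0 ≤ T → GalW φ m B T V u →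
      ∀ t ∈ Icc 0 T, Es s B (u t) ≤ C := by
  have hα0 : 0 < α := hb0.trans_lt hbα
  obtain ⟨V0, hV0⟩ := hV 0
  obtain ⟨Vs, hVs⟩ := hV s
  have hV00 : 0 ≤ V0 := (hV0 ∅).trans' (by simp)
  have hVs0 : 0 ≤ Vs := (hVs ∅).trans' (by simp)
  -- the parameters
  set δ : ℝ := min (1 / 2) (α * p - 5 / 4) with hδ
  have hδ0 : 0 < δ := lt_min (by norm_num) (by linarith)
  have hδ1 : δ ≤ 1 / 2 := min_le_left _ _
  have hδ2 : δ ≤ α * p - 5 / 4 := min_le_right _ _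
  set θ : ℝ := 2 * α * p - 5 / 2 - δ with hθ
  have hθ0 : 0 < θ := by rw [hθ]; nlinarith
  set ψ : ℝ := 2 * (α - b) with hψ
  have hψ0 : 0 < ψ := by rw [hψ]; linarith
  obtain ⟨C, hC, hflux⟩ := flux_band hφ hBd hs hδ0 hδ1
  set C2 : ℝ := C * 2 ^ (2 * α) with hC2
  have hC20 : 0 ≤ C2 := by positivity
  -- the choice of the scale
  have hm4 : 0 < m0 / 4 := by positivity
  obtain ⟨N, hNS, hN1, hNa, hNb, hNc, hNd, hNe, hNf⟩ : ∃ N ∈ S, 1 ≤ N ∧
      2 * (N : ℝ) ^ (-(p - 1)) < 1 ∧ C * √V0 * (N : ℝ) ^ (-ψ) < m0 / 4 ∧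
      C2 * √V0 * (N : ℝ) ^ (-θ) < m0 / 4 ∧ C2 * (N : ℝ) ^ (-(θ / 2)) < m0 / 4 ∧
      Vs * (N : ℝ) ^ (-(2 * s + θ)) < 1 ∧ C * (√V0 * V0) * (N : ℝ) ^ (-(ψ + θ)) < m0 := by
    have hev := (((((((eventually_ge_atTop 1).and (ev_small 2 (show 0 < p - 1 by linarith) one_pos)).and
      (ev_small (C * √V0) hψ0 hm4)).and (ev_small (C2 * √V0) hθ0 hm4)).and
      (ev_small C2 (half_pos hθ0) hm4)).and
      (ev_small Vs (show 0 < 2 * (s : ℝ) + θ by positivity) one_pos)).and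
      (ev_small (C * (√V0 * V0)) (show 0 < ψ + θ by positivity) hm0))
    obtain ⟨N, hN, h⟩ := ((Nat.frequently_atTop_iff_infinite.2 hS).and_eventually hev).exists
    exact ⟨N, hN, h.1.1.1.1.1.1, h.1.1.1.1.1.2, h.1.1.1.1.2, h.1.1.1.2, h.1.1.2, h.1.2, h.2⟩
  have hN1' : (1 : ℝ) ≤ N := by exact_mod_cast hN1
  have hN0 : (0 : ℝ) < N := by linarith
  set M : ℝ := (N : ℝ) ^ p with hM
  have hNM : 2 * (N : ℝ) ≤ M := by
    have h1 : M = (N : ℝ) ^ (p - 1) * N := by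
      rw [hM, ← Real.rpow_add_one hN0.ne']; ring_nf
    have h2 : (N : ℝ) ^ (-(p - 1)) * (N : ℝ) ^ (p - 1) = 1 := by rw [← Real.rpow_add hN0]; simp
    have h3 : 0 < (N : ℝ) ^ (p - 1) := by positivity
    have h4 : 2 ≤ (N : ℝ) ^ (p - 1) := by nlinarith
    rw [h1]
    exact mul_le_mul_of_nonneg_right h4 hN0.le
  set ρ : ℝ := (N : ℝ) ^ (2 * (s : ℝ) + θ) with hρ
  have hρ0 : 0 < ρ := by positivity
  have hVρ : Vs < ρ := by
    have h2 : (N : ℝ) ^ (-(2 * (s : ℝ) + θ)) * ρ = 1 := by rw [hρ, ← Real.rpow_add hN0]; simp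
    calc Vs = Vs * (N : ℝ) ^ (-(2 * (s : ℝ) + θ)) * ρ := by rw [mul_assoc, h2, mul_one]
      _ < 1 * ρ := mul_lt_mul_of_pos_right hNe hρ0
      _ = ρ := one_mul ρ
  have hsρ : √ρ = (N : ℝ) ^ ((s : ℝ) + θ / 2) := by
    rw [hρ, Real.sqrt_eq_rpow, ← Real.rpow_mul hN0.le]
    congr 1
    ring
  refine ⟨(N : ℝ) ^ (2 * s) * V0 + ρ, fun B T u h0 hT0 h t ht => ?_⟩
  have hinit : ∀ s, Es s B (u 0) = ∑ k ∈ B, nn k ^ (2 * s) * en (V k) := fun s =>
    Finset.sum_congr rfl fun k hk => by rw [h.init k hk]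
  have hen : ∀ r ∈ Icc 0 T, ∑ k ∈ B, en (u r k) ≤ V0 := by
    intro r hr
    refine (h.energy hφ hmn hr).trans ?_
    have := hV0 B
    simpa using this
  have hRE : ∀ r, Rh N s B (u r) ≤ Es s B (u r) := by
    intro r
    unfold Rh wN Es
    refine Finset.sum_le_sum fun k _ => mul_le_mul_of_nonneg_right ?_ (en_nonneg _)
    split_ifs
    · exact le_rfl
    · exact pow_nonneg (nn_nonneg k) _
  -- the differential inequality on the barrier
  set R' : ℝ → ℝ := fun r => -(2 * ∑ k ∈ B, wN N s k * (m k * en (u r k))) +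
        ∑ k ∈ B, wN N s k * (2 * (ipc (Bw φ (u r) (u r) k) (u r k)).re) with hR'
  have hRd : ∀ r ∈ Icc 0 T, HasDerivWithinAt (fun r => Rh N s B (u r)) (R' r) (Icc 0 T) r :=
    fun r hr => h.dW (wN N s) hr
  have key : ∀ r ∈ Icc 0 T, Rh N s B (u r) = ρ → R' r < 0 := by
    intro r hr hRr
    set D := Dh N (s + α) B (u r) with hD
    have hD0 : 0 ≤ D := Dh_nonneg _ _ _ _
    set E := ∑ k ∈ B, en (u r k) with hE
    have hE0 : 0 ≤ E := Finset.sum_nonneg fun k _ => en_nonneg _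
    have hEV := hen r hr
    have f1 : m0 * D ≤ ∑ k ∈ B, wN N s k * (m k * en (u r k)) := by
      rw [hD]
      unfold Dh wN
      rw [Finset.mul_sum]
      refine Finset.sum_le_sum fun k _ => ?_
      split_ifs with h1
      · have hk : 0 < nn k := hN0.trans h1
        have e : nn k ^ (2 * ((s : ℝ) + α)) = nn k ^ (2 * s) * nn k ^ (2 * α) := by
          rw [← Real.rpow_natCast (nn k) (2 * s), ← Real.rpow_add hk]
          congr 1
          push_cast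
          ring
        rw [e]
        calc m0 * (nn k ^ (2 * s) * nn k ^ (2 * α) * en (u r k))
            = nn k ^ (2 * s) * ((m0 * nn k ^ (2 * α)) * en (u r k)) := by ring
          _ ≤ _ := mul_le_mul_of_nonneg_left (mul_le_mul_of_nonneg_right (hm k) (en_nonneg _))
              (pow_nonneg hk.le _)
      · simp
    have hu0 : u r 0 = 0 := h.supp r hr 0 h0
    have f2 := hflux N hNS hN1 hNM B (u r) h.symB (h.supp r hr) (h.sym r hr) (h.div r hr) hu0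
    have f3 := Ge_le hN0 s hb0 hbα.le B (u r)
    have f4 := Rh_le hN0 hNM s hα0.le B (u r)
    have f5 := Dh_ge hN0 s hα0.le B (u r)
    rw [← hM] at f2
    rw [← hE, ← hD] at f3
    rw [← hE, hRr, hsρ] at f2
    rw [← hD] at f4
    rw [hRr, ← hD] at f5
    -- the four terms
    have q1 : √E ≤ √V0 := Real.sqrt_le_sqrt hEV
    have g1 : √E * Ge N (s + b) B (u r) ≤
        (√V0 * V0) * (N : ℝ) ^ (2 * ((s : ℝ) + b)) + √V0 * (N : ℝ) ^ (-ψ) * D := by
      calc √E * Ge N (s + b) B (u r) ≤ √V0 * ((N : ℝ) ^ (2 * ((s : ℝ) + b)) * V0 + (N : ℝ) ^ (-ψ) * D) := by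
            apply mul_le_mul q1 (f3.trans ?_) (Ge_nonneg _ _ _ _) (Real.sqrt_nonneg _)
            have := mul_le_mul_of_nonneg_left hEV (show 0 ≤ (N : ℝ) ^ (2 * ((s : ℝ) + b)) by positivity)
            linarith
        _ = _ := by ring
    have e1 : (N : ℝ) ^ (5 / 2 + δ) * M ^ (-(2 * α)) = (N : ℝ) ^ (-θ) := by
      rw [hM, ← Real.rpow_mul hN0.le, ← Real.rpow_add hN0]
      congr 1
      rw [hθ]; ring
    have e2 : (N : ℝ) ^ (5 / 2 + δ - s) * (N : ℝ) ^ ((s : ℝ) + θ / 2) * M ^ (-(2 * α)) = (N : ℝ) ^ (-(θ / 2)) := by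
      rw [hM, ← Real.rpow_mul hN0.le, ← Real.rpow_add hN0, ← Real.rpow_add hN0]
      congr 1
      rw [hθ]; ring
    have g2 : ((N : ℝ) ^ (5 / 2 + δ) * √E + (N : ℝ) ^ (5 / 2 + δ - s) * (N : ℝ) ^ ((s : ℝ) + θ / 2)) *
        Rh (M / 2) s B (u r) ≤ 2 ^ (2 * α) * (√V0 * (N : ℝ) ^ (-θ) + (N : ℝ) ^ (-(θ / 2))) * D := by
      calc _ ≤ ((N : ℝ) ^ (5 / 2 + δ) * √V0 + (N : ℝ) ^ (5 / 2 + δ - s) * (N : ℝ) ^ ((s : ℝ) + θ / 2)) *
            (2 ^ (2 * α) * M ^ (-(2 * α)) * D) := by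
            apply mul_le_mul _ f4 (Rh_nonneg _ _ _ _) (by positivity)
            have := mul_le_mul_of_nonneg_left q1 (show 0 ≤ (N : ℝ) ^ (5 / 2 + δ) by positivity)
            linarith
        _ = 2 ^ (2 * α) * (√V0 * ((N : ℝ) ^ (5 / 2 + δ) * M ^ (-(2 * α)))
            + (N : ℝ) ^ (5 / 2 + δ - s) * (N : ℝ) ^ ((s : ℝ) + θ / 2) * M ^ (-(2 * α))) * D := by ring
        _ = _ := by rw [e1, e2]
    have g3 := (le_abs_self _).trans (f2.trans (mul_le_mul_of_nonneg_left (add_le_add g1 g2) hC))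
    have g4 : C * ((√V0 * V0) * (N : ℝ) ^ (2 * ((s : ℝ) + b)) + √V0 * (N : ℝ) ^ (-ψ) * D +
        2 ^ (2 * α) * (√V0 * (N : ℝ) ^ (-θ) + (N : ℝ) ^ (-(θ / 2))) * D)
        = C * (√V0 * V0) * (N : ℝ) ^ (2 * ((s : ℝ) + b)) + (C * √V0 * (N : ℝ) ^ (-ψ)) * D
          + (C2 * √V0 * (N : ℝ) ^ (-θ)) * D + (C2 * (N : ℝ) ^ (-(θ / 2))) * D := by
      rw [hC2]; ring
    rw [g4] at g3
    have g5 : C * (√V0 * V0) * (N : ℝ) ^ (2 * ((s : ℝ) + b)) < m0 * ((N : ℝ) ^ (2 * α) * ρ) := by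
      have e3 : (N : ℝ) ^ (2 * ((s : ℝ) + b)) = (N : ℝ) ^ (-(ψ + θ)) * ((N : ℝ) ^ (2 * α) * ρ) := by
        rw [hρ, ← Real.rpow_add hN0, ← Real.rpow_add hN0]
        congr 1
        rw [hψ]; ring
      rw [e3, ← mul_assoc]
      exact mul_lt_mul_of_pos_right hNf (by positivity)
    have g6 := mul_le_mul_of_nonneg_left f5 hm0.le
    have k1 := mul_le_mul_of_nonneg_right hNb.le hD0
    have k2 := mul_le_mul_of_nonneg_right hNc.le hD0
    have k3 := mul_le_mul_of_nonneg_right hNd.le hD0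
    have k4 : 0 ≤ m0 * D := mul_nonneg hm0.le hD0
    simp only [hR']
    linarith
  -- the barrier
  have hbar : ∀ r ∈ Icc 0 T, Rh N s B (u r) ≤ ρ := by
    have hk := image_le_of_deriv_right_lt_deriv_boundary (f := fun r => Rh N s B (u r)) (f' := R')
      (a := 0) (b := T) (fun r hr => (hRd r hr).continuousWithinAt)
      (fun r hr => (hRd r (Ico_subset_Icc_self hr)).mono_of_mem_nhdsWithin
        (Icc_mem_nhdsGE_of_mem hr))
      (B := fun _ => ρ) (B' := fun _ => 0) (by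
        refine (hRE 0).trans ?_
        rw [hinit]
        exact (hVs B).trans hVρ.le) (fun r => hasDerivAt_const _ _)
      (fun r hr h1 => key r (Ico_subset_Icc_self hr) h1)
    exact fun r hr => hk hr
  have hfin := hbar t ht
  have hent := hen t ht
  have hsplit : Es s B (u t) ≤ (N : ℝ) ^ (2 * s) * (∑ k ∈ B, en (u t k)) + Rh N s B (u t) := by
    unfold Es Rh wN
    rw [Finset.mul_sum, ← Finset.sum_add_distrib]
    refine Finset.sum_le_sum fun k _ => ?_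
    have he := en_nonneg (u t k)
    split_ifs with h1
    · have : 0 ≤ (N : ℝ) ^ (2 * s) * en (u t k) := by positivity
      linarith
    · rw [not_lt] at h1
      rw [zero_mul, add_zero]
      exact mul_le_mul_of_nonneg_right (pow_le_pow_left₀ (nn_nonneg k) h1 _) he
  have := mul_le_mul_of_nonneg_left hent (show (0 : ℝ) ≤ (N : ℝ) ^ (2 * s) by positivity)
  linarith

end Pool.Agent.K1H54.RC
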