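import Pool.Agent.K1H54.RC.Flx5
import Pool.Agent.K1H54.RC.Gal3

/-!
# Uniform bounds from good local triads in sparse bands
-/

open Set ComplexConjugate MeasureTheory Filter Topology

namespace Pool.Agent.K1H54.RC

open Pool.Agent.H356R3.NS hiding Sol
open Pool.Agent.K1H29
open Pool.Agent.K1H29.SH (nn nn_nonneg nn_neg one_le_nn nn_eq_zero ipc en en_nonneg norm_sq_le_en)
open Pool.Agent.K1H29.NC (Tr n2 Wt Bw Btw Bw_zero GalW FSW exists_limitW Data)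
open Pool.Agent.K1H29.RD (Es Es_nonneg dec)

variable {φ : K → K → ℝ} {m : K → ℝ} {V : K → C3}

/-- the dissipation of the continuous weight -/
lemma w2_diss {N : ℝ} (hN : 0 < N) {s : ℕ} (hs : 1 ≤ s) {α : ℝ} (hα : 0 ≤ α) (B : Finset K) (u : K → C3) :
    1 / 2 * (Dh N (s + α) B u - (2 * N) ^ (2 * ((s : ℝ) + α)) * ∑ k ∈ B, en (u k)) ≤
      ∑ k ∈ B, w2 N s k * (nn k ^ (2 * α) * en (u k)) := by
  unfold Dh
  rw [Finset.mul_sum, ← Finset.sum_sub_distrib, Finset.mul_sum]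
  refine Finset.sum_le_sum fun k _ => ?_
  have he := en_nonneg (u k)
  have p0 : 0 ≤ (2 * N) ^ (2 * ((s : ℝ) + α)) * en (u k) := mul_nonneg (by positivity) he
  unfold w2
  split_ifs with h
  · have hk : 0 < nn k := hN.trans h
    have e : nn k ^ (2 * ((s : ℝ) + α)) = nn k ^ (2 * s) * nn k ^ (2 * α) := by
      rw [← Real.rpow_natCast (nn k) (2 * s), ← Real.rpow_add hk]
      congr 1
      push_cast
      ring
    have p1 : 0 ≤ nn k ^ (2 * α) * en (u k) := mul_nonneg (Real.rpow_nonneg hk.le _) he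
    rcases le_total (2 * N) (nn k) with h2 | h2
    · have h3 : N ^ (2 * s) ≤ 1 / 2 * nn k ^ (2 * s) := by
        have h4 : N ≤ nn k / 2 := by linarith
        have h5 : (1 / 2 : ℝ) ^ (2 * s) ≤ 1 / 2 := by
          calc (1 / 2 : ℝ) ^ (2 * s) ≤ (1 / 2 : ℝ) ^ 1 :=
                pow_le_pow_of_le_one (by norm_num) (by norm_num) (by omega)
            _ = 1 / 2 := pow_one _
        calc N ^ (2 * s) ≤ (nn k / 2) ^ (2 * s) := pow_le_pow_left₀ hN.le h4 _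
          _ = (1 / 2) ^ (2 * s) * nn k ^ (2 * s) := by rw [div_eq_mul_one_div, mul_pow, mul_comm]
          _ ≤ _ := mul_le_mul_of_nonneg_right h5 (pow_nonneg hk.le _)
      rw [e]
      have h6 : 1 / 2 * (nn k ^ (2 * s) * (nn k ^ (2 * α) * en (u k))) ≤
          (nn k ^ (2 * s) - N ^ (2 * s)) * (nn k ^ (2 * α) * en (u k)) := by
        rw [← mul_assoc]
        exact mul_le_mul_of_nonneg_right (by linarith) p1
      linarith
    · have h3 : nn k ^ (2 * ((s : ℝ) + α)) * en (u k) ≤ (2 * N) ^ (2 * ((s : ℝ) + α)) * en (u k) :=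
        mul_le_mul_of_nonneg_right (Real.rpow_le_rpow hk.le h2 (by positivity)) he
      have h4 : 0 ≤ nn k ^ (2 * s) - N ^ (2 * s) := by
        have := pow_le_pow_left₀ hN.le h.le (2 * s)
        linarith
      have := mul_nonneg h4 p1
      linarith
  · rw [zero_mul, zero_sub]
    linarith

lemma Rh_le_R2 {N : ℝ} (hN : 0 ≤ N) (s : ℕ) (B : Finset K) (u : K → C3) :
    Rh N s B u ≤ ∑ k ∈ B, w2 N s k * en (u k) + N ^ (2 * s) * ∑ k ∈ B, en (u k) := by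
  unfold Rh
  rw [Finset.mul_sum, ← Finset.sum_add_distrib]
  refine Finset.sum_le_sum fun k _ => ?_
  have he := en_nonneg (u k)
  have p : 0 ≤ N ^ (2 * s) * en (u k) := mul_nonneg (by positivity) he
  unfold wN w2
  split_ifs
  · linarith
  · linarith

lemma R2_le {N : ℝ} (hN : 0 ≤ N) (s : ℕ) (B : Finset K) (u : K → C3) :
    ∑ k ∈ B, w2 N s k * en (u k) ≤ Rh N s B u :=
  Finset.sum_le_sum fun k _ => mul_le_mul_of_nonneg_right (w2_le hN s k) (en_nonneg _)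

theorem unifL (hφ : Wt φ) {S : Set ℕ} (hS : S.Infinite) {p a b α : ℝ} (hBd : BandL φ S p a b) (ha : 0 ≤ a)
    (hab : a * (5 / 4) < b) (hb0 : 0 ≤ b)
    (hbα : b < α) (hp1 : 1 < p) (hpα : 5 / 4 < α * p) {m0 : ℝ} (hm0 : 0 < m0)
    (hmn : ∀ k, 0 ≤ m k) (hm : ∀ k, m0 * nn k ^ (2 * α) ≤ m k)
    (hV : ∀ s : ℕ, ∃ C, ∀ B : Finset K, ∑ k ∈ B, nn k ^ (2 * s) * en (V k) ≤ C) {s : ℕ} (hs : 3 ≤ s) :
    ∃ C, ∀ (B : Finset K) (T : ℝ) (u : ℝ → K → C3), (0 : K) ∉ B → 0 ≤ T → GalW φ m B T V u →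
      ∀ t ∈ Icc 0 T, Es s B (u t) ≤ C := by
  have hα0 : 0 < α := hb0.trans_lt hbα
  obtain ⟨V0, hV0⟩ := hV 0
  obtain ⟨Vs, hVs⟩ := hV s
  have hV00 : 0 ≤ V0 := (hV0 ∅).trans' (by simp)
  have hVs0 : 0 ≤ Vs := (hVs ∅).trans' (by simp)
  -- the parameters
  set δ : ℝ := min (1 / 2) (α * p - 5 / 4) with hδ
  have hδ0 : 0 < δ := lt_min (by norm_num) (by linarith)
  have hδ1 : δ ≤ 1 / 2 := min_le_left _ _
  have hδ2 : δ ≤ α * p - 5 / 4 := min_le_right _ _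
  set θ : ℝ := 2 * α * p - 5 / 2 - δ with hθ
  have hθ0 : 0 < θ := by rw [hθ]; nlinarith
  set ψ : ℝ := 2 * (α - b) with hψ
  have hψ0 : 0 < ψ := by rw [hψ]; linarith
  obtain ⟨C, hC, hflux⟩ := flux_band2 hφ hBd ha hab hs hδ0 hδ1
  set C2 : ℝ := C * 2 ^ (2 * α) with hC2
  have hC20 : 0 ≤ C2 := by positivity
  -- the choice of the scale
  have hm8 : 0 < m0 / 8 := by positivity
  have hm4 : 0 < m0 / 4 := by positivity
  obtain ⟨N, hNS, hN1, hNa, hNb, hNc, hNd, hNe, hNf, hNg, hNh⟩ : ∃ N ∈ S, 1 ≤ N ∧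
      2 * (N : ℝ) ^ (-(p - 1)) < 1 ∧ C * √V0 * (N : ℝ) ^ (-ψ) < m0 / 8 ∧
      C2 * √V0 * (N : ℝ) ^ (-θ) < m0 / 8 ∧ C2 * 2 * (N : ℝ) ^ (-(θ / 2)) < m0 / 8 ∧
      Vs * (N : ℝ) ^ (-(2 * s + θ)) < 1 ∧ C * (√V0 * V0) * (N : ℝ) ^ (-(ψ + θ)) < m0 / 4 ∧
      2 ^ (2 * ((s : ℝ) + α)) * V0 * (N : ℝ) ^ (-θ) < 1 / 4 ∧ V0 * (N : ℝ) ^ (-θ) < 1 := by
    have hev := (((((((((eventually_ge_atTop 1).and (ev_small 2 (show 0 < p - 1 by linarith) one_pos)).and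
      (ev_small (C * √V0) hψ0 hm8)).and (ev_small (C2 * √V0) hθ0 hm8)).and
      (ev_small (C2 * 2) (half_pos hθ0) hm8)).and
      (ev_small Vs (show 0 < 2 * (s : ℝ) + θ by positivity) one_pos)).and
      (ev_small (C * (√V0 * V0)) (show 0 < ψ + θ by positivity) hm4)).and
      (ev_small (2 ^ (2 * ((s : ℝ) + α)) * V0) hθ0 (show (0 : ℝ) < 1 / 4 by norm_num))).and
      (ev_small V0 hθ0 one_pos))
    obtain ⟨N, hN, h⟩ := ((Nat.frequently_atTop_iff_infinite.2 hS).and_eventually hev).exists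
    exact ⟨N, hN, h.1.1.1.1.1.1.1.1, h.1.1.1.1.1.1.1.2, h.1.1.1.1.1.1.2, h.1.1.1.1.1.2, h.1.1.1.1.2,
      h.1.1.1.2, h.1.1.2, h.1.2, h.2⟩
  have hN1' : (1 : ℝ) ≤ N := by exact_mod_cast hN1
  have hN0 : (0 : ℝ) < N := by linarith
  set M : ℝ := (N : ℝ) ^ p with hM
  have hNM : 2 * (N : ℝ) ≤ M := by
    have h1 : M = (N : ℝ) ^ (p - 1) * N := by
      rw [hM, ← Real.rpow_add_one hN0.ne']; ring_nf
    have h2 : (N : ℝ) ^ (-(p - 1)) * (N : ℝ) ^ (p - 1) = 1 := by rw [← Real.rpow_add hN0]; simp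
    have h3 : 0 < (N : ℝ) ^ (p - 1) := by positivity
    have h4 : 2 ≤ (N : ℝ) ^ (p - 1) := by nlinarith
    rw [h1]
    exact mul_le_mul_of_nonneg_right h4 hN0.le
  set ρ : ℝ := (N : ℝ) ^ (2 * (s : ℝ) + θ) with hρ
  have hρ0 : 0 < ρ := by positivity
  have hVρ : Vs < ρ := by
    have h2 : (N : ℝ) ^ (-(2 * (s : ℝ) + θ)) * ρ = 1 := by rw [hρ, ← Real.rpow_add hN0]; simp
    calc Vs = Vs * (N : ℝ) ^ (-(2 * (s : ℝ) + θ)) * ρ := by rw [mul_assoc, h2, mul_one]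
      _ < 1 * ρ := mul_lt_mul_of_pos_right hNe hρ0
      _ = ρ := one_mul ρ
  have hsρ : √ρ = (N : ℝ) ^ ((s : ℝ) + θ / 2) := by
    rw [hρ, Real.sqrt_eq_rpow, ← Real.rpow_mul hN0.le]
    congr 1
    ring
  have hNθ : (N : ℝ) ^ (-θ) * (N : ℝ) ^ θ = 1 := by rw [← Real.rpow_add hN0]; simp
  have hρ' : ρ = (N : ℝ) ^ (2 * s) * (N : ℝ) ^ θ := by
    rw [hρ, ← Real.rpow_natCast (N : ℝ) (2 * s), ← Real.rpow_add hN0]
    congr 1
    push_cast
    ring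
  have hV0ρ : (N : ℝ) ^ (2 * s) * V0 ≤ ρ := by
    rw [hρ']
    apply mul_le_mul_of_nonneg_left _ (by positivity)
    calc V0 = V0 * (N : ℝ) ^ (-θ) * (N : ℝ) ^ θ := by rw [mul_assoc, hNθ, mul_one]
      _ ≤ 1 * (N : ℝ) ^ θ := mul_le_mul_of_nonneg_right hNh.le (by positivity)
      _ = _ := one_mul _
  refine ⟨2 * ((N : ℝ) ^ (2 * s) * V0) + ρ, fun B T u h0 hT0 h t ht => ?_⟩
  have hinit : ∀ s, Es s B (u 0) = ∑ k ∈ B, nn k ^ (2 * s) * en (V k) := fun s =>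
    Finset.sum_congr rfl fun k hk => by rw [h.init k hk]
  have hen : ∀ r ∈ Icc 0 T, ∑ k ∈ B, en (u r k) ≤ V0 := by
    intro r hr
    refine (h.energy hφ hmn hr).trans ?_
    have := hV0 B
    simpa using this
  have hRE : ∀ r, Rh N s B (u r) ≤ Es s B (u r) := by
    intro r
    unfold Rh wN Es
    refine Finset.sum_le_sum fun k _ => mul_le_mul_of_nonneg_right ?_ (en_nonneg _)
    split_ifs
    · exact le_rfl
    · exact pow_nonneg (nn_nonneg k) _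
  -- the differential inequality on the barrier
  set R2 : ℝ → ℝ := fun r => ∑ k ∈ B, w2 N s k * en (u r k) with hR2
  set R' : ℝ → ℝ := fun r => -(2 * ∑ k ∈ B, w2 N s k * (m k * en (u r k))) +
        ∑ k ∈ B, w2 N s k * (2 * (ipc (Bw φ (u r) (u r) k) (u r k)).re) with hR'
  have hRd : ∀ r ∈ Icc 0 T, HasDerivWithinAt R2 (R' r) (Icc 0 T) r :=
    fun r hr => h.dW (w2 N s) hr
  have key : ∀ r ∈ Icc 0 T, R2 r = ρ → R' r < 0 := by
    intro r hr hRr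
    set D := Dh N (s + α) B (u r) with hD
    have hD0 : 0 ≤ D := Dh_nonneg _ _ _ _
    set E := ∑ k ∈ B, en (u r k) with hE
    have hE0 : 0 ≤ E := Finset.sum_nonneg fun k _ => en_nonneg _
    have hEV := hen r hr
    have f1 : m0 * (1 / 2 * (D - (2 * (N : ℝ)) ^ (2 * ((s : ℝ) + α)) * E)) ≤
        ∑ k ∈ B, w2 N s k * (m k * en (u r k)) := by
      refine (mul_le_mul_of_nonneg_left (w2_diss hN0 (show 1 ≤ s by omega) hα0.le B (u r)) hm0.le).trans ?_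
      rw [Finset.mul_sum]
      refine Finset.sum_le_sum fun k _ => ?_
      calc m0 * (w2 N s k * (nn k ^ (2 * α) * en (u r k)))
          = w2 N s k * ((m0 * nn k ^ (2 * α)) * en (u r k)) := by ring
        _ ≤ _ := mul_le_mul_of_nonneg_left (mul_le_mul_of_nonneg_right (hm k) (en_nonneg _))
            (w2_nonneg hN0.le s k)
    have hu0 : u r 0 = 0 := h.supp r hr 0 h0
    have f2 := hflux N hNS hN1 hNM B (u r) h.symB (h.supp r hr) (h.sym r hr) (h.div r hr) hu0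
    have f3 := Ge_le hN0 s hb0 hbα.le B (u r)
    have f4 := Rh_le hN0 hNM s hα0.le B (u r)
    have f5 := Dh_ge hN0 s hα0.le B (u r)
    have f6 : ρ ≤ Rh N s B (u r) := by
      rw [← hRr]; exact R2_le hN0.le s B (u r)
    have f7 : Rh N s B (u r) ≤ 2 * ρ := by
      have e1 := Rh_le_R2 hN0.le s B (u r)
      have e2 := mul_le_mul_of_nonneg_left hEV (show (0 : ℝ) ≤ (N : ℝ) ^ (2 * s) by positivity)
      have e3 : R2 r = ∑ k ∈ B, w2 N s k * en (u r k) := rfl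
      rw [← hE] at e1
      linarith
    have f8 : √(Rh N s B (u r)) ≤ 2 * (N : ℝ) ^ ((s : ℝ) + θ / 2) := by
      rw [← hsρ]
      calc √(Rh N s B (u r)) ≤ √(2 ^ 2 * ρ) := Real.sqrt_le_sqrt (by linarith)
        _ = 2 * √ρ := by rw [Real.sqrt_mul (by norm_num), Real.sqrt_sq (by norm_num)]
    rw [← hM] at f2
    rw [← hE, ← hD] at f3
    rw [← hE] at f2
    rw [← hD] at f4
    rw [← hD] at f5
    -- the four terms
    have q1 : √E ≤ √V0 := Real.sqrt_le_sqrt hEV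
    have g1 : √E * Ge N (s + b) B (u r) ≤
        (√V0 * V0) * (N : ℝ) ^ (2 * ((s : ℝ) + b)) + √V0 * (N : ℝ) ^ (-ψ) * D := by
      calc √E * Ge N (s + b) B (u r) ≤ √V0 * ((N : ℝ) ^ (2 * ((s : ℝ) + b)) * V0 + (N : ℝ) ^ (-ψ) * D) := by
            apply mul_le_mul q1 (f3.trans ?_) (Ge_nonneg _ _ _ _) (Real.sqrt_nonneg _)
            have := mul_le_mul_of_nonneg_left hEV (show 0 ≤ (N : ℝ) ^ (2 * ((s : ℝ) + b)) by positivity)
            linarith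
        _ = _ := by ring
    have e1 : (N : ℝ) ^ (5 / 2 + δ) * M ^ (-(2 * α)) = (N : ℝ) ^ (-θ) := by
      rw [hM, ← Real.rpow_mul hN0.le, ← Real.rpow_add hN0]
      congr 1
      rw [hθ]; ring
    have e2 : (N : ℝ) ^ (5 / 2 + δ - s) * (N : ℝ) ^ ((s : ℝ) + θ / 2) * M ^ (-(2 * α)) = (N : ℝ) ^ (-(θ / 2)) := by
      rw [hM, ← Real.rpow_mul hN0.le, ← Real.rpow_add hN0, ← Real.rpow_add hN0]
      congr 1
      rw [hθ]; ring
    have g2 : ((N : ℝ) ^ (5 / 2 + δ) * √E + (N : ℝ) ^ (5 / 2 + δ - s) * √(Rh N s B (u r))) *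
        Rh (M / 2) s B (u r) ≤ 2 ^ (2 * α) * (√V0 * (N : ℝ) ^ (-θ) + 2 * (N : ℝ) ^ (-(θ / 2))) * D := by
      calc _ ≤ ((N : ℝ) ^ (5 / 2 + δ) * √V0 + (N : ℝ) ^ (5 / 2 + δ - s) * (2 * (N : ℝ) ^ ((s : ℝ) + θ / 2))) *
            (2 ^ (2 * α) * M ^ (-(2 * α)) * D) := by
            apply mul_le_mul _ f4 (Rh_nonneg _ _ _ _) (by positivity)
            have h1 := mul_le_mul_of_nonneg_left q1 (show 0 ≤ (N : ℝ) ^ (5 / 2 + δ) by positivity)
            have h2 := mul_le_mul_of_nonneg_left f8 (show 0 ≤ (N : ℝ) ^ (5 / 2 + δ - s) by positivity)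
            linarith
        _ = 2 ^ (2 * α) * (√V0 * ((N : ℝ) ^ (5 / 2 + δ) * M ^ (-(2 * α)))
            + 2 * ((N : ℝ) ^ (5 / 2 + δ - s) * (N : ℝ) ^ ((s : ℝ) + θ / 2) * M ^ (-(2 * α)))) * D := by ring
        _ = _ := by rw [e1, e2]
    have g3 := (le_abs_self _).trans (f2.trans (mul_le_mul_of_nonneg_left (add_le_add g1 g2) hC))
    have g4 : C * ((√V0 * V0) * (N : ℝ) ^ (2 * ((s : ℝ) + b)) + √V0 * (N : ℝ) ^ (-ψ) * D +
        2 ^ (2 * α) * (√V0 * (N : ℝ) ^ (-θ) + 2 * (N : ℝ) ^ (-(θ / 2))) * D)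
        = C * (√V0 * V0) * (N : ℝ) ^ (2 * ((s : ℝ) + b)) + (C * √V0 * (N : ℝ) ^ (-ψ)) * D
          + (C2 * √V0 * (N : ℝ) ^ (-θ)) * D + (C2 * 2 * (N : ℝ) ^ (-(θ / 2))) * D := by
      rw [hC2]; ring
    rw [g4] at g3
    set Q : ℝ := (N : ℝ) ^ (2 * α) * ρ with hQ
    have hQ0 : 0 < Q := by positivity
    have hQD : Q ≤ D := (mul_le_mul_of_nonneg_left f6 (by positivity)).trans f5
    have g5 : C * (√V0 * V0) * (N : ℝ) ^ (2 * ((s : ℝ) + b)) < m0 / 4 * Q := by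
      have e3 : (N : ℝ) ^ (2 * ((s : ℝ) + b)) = (N : ℝ) ^ (-(ψ + θ)) * Q := by
        rw [hQ, hρ, ← Real.rpow_add hN0, ← Real.rpow_add hN0]
        congr 1
        rw [hψ]; ring
      rw [e3, ← mul_assoc]
      exact mul_lt_mul_of_pos_right hNf hQ0
    have g6 : (2 * (N : ℝ)) ^ (2 * ((s : ℝ) + α)) * E ≤ 1 / 4 * Q := by
      have e3 : (2 * (N : ℝ)) ^ (2 * ((s : ℝ) + α)) = 2 ^ (2 * ((s : ℝ) + α)) * (N : ℝ) ^ (-θ) * Q := by
        have e4 : (N : ℝ) ^ (2 * ((s : ℝ) + α)) = (N : ℝ) ^ (-θ) * Q := by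
          rw [hQ, hρ, ← Real.rpow_add hN0, ← Real.rpow_add hN0]
          congr 1
          ring
        rw [Real.mul_rpow (by norm_num) hN0.le, e4, mul_assoc]
      calc (2 * (N : ℝ)) ^ (2 * ((s : ℝ) + α)) * E ≤ (2 * (N : ℝ)) ^ (2 * ((s : ℝ) + α)) * V0 :=
            mul_le_mul_of_nonneg_left hEV (by positivity)
        _ = (2 ^ (2 * ((s : ℝ) + α)) * V0 * (N : ℝ) ^ (-θ)) * Q := by rw [e3]; ring
        _ ≤ _ := mul_le_mul_of_nonneg_right hNg.le hQ0.le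
    have k1 := mul_le_mul_of_nonneg_right hNb.le hD0
    have k2 := mul_le_mul_of_nonneg_right hNc.le hD0
    have k3 := mul_le_mul_of_nonneg_right hNd.le hD0
    have k4 : m0 * Q ≤ m0 * D := mul_le_mul_of_nonneg_left hQD hm0.le
    have k5 : m0 * ((2 * (N : ℝ)) ^ (2 * ((s : ℝ) + α)) * E) ≤ m0 * (1 / 4 * Q) :=
      mul_le_mul_of_nonneg_left g6 hm0.le
    have k6 : 0 < m0 * Q := mul_pos hm0 hQ0
    simp only [hR']
    linarith
  -- the barrier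
  have hbar : ∀ r ∈ Icc 0 T, R2 r ≤ ρ := by
    have hk := image_le_of_deriv_right_lt_deriv_boundary (f := R2) (f' := R')
      (a := 0) (b := T) (fun r hr => (hRd r hr).continuousWithinAt)
      (fun r hr => (hRd r (Ico_subset_Icc_self hr)).mono_of_mem_nhdsWithin
        (Icc_mem_nhdsGE_of_mem hr))
      (B := fun _ => ρ) (B' := fun _ => 0) (by
        refine (R2_le hN0.le s B (u 0)).trans ((hRE 0).trans ?_)
        rw [hinit]
        exact (hVs B).trans hVρ.le) (fun r => hasDerivAt_const _ _)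
      (fun r hr h1 => key r (Ico_subset_Icc_self hr) h1)
    exact fun r hr => hk hr
  have hfin := hbar t ht
  have hent := hen t ht
  have hsplit : Es s B (u t) ≤ (N : ℝ) ^ (2 * s) * (∑ k ∈ B, en (u t k)) + Rh N s B (u t) := by
    unfold Es Rh wN
    rw [Finset.mul_sum, ← Finset.sum_add_distrib]
    refine Finset.sum_le_sum fun k _ => ?_
    have he := en_nonneg (u t k)
    split_ifs with h1
    · have : 0 ≤ (N : ℝ) ^ (2 * s) * en (u t k) := by positivity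
      linarith
    · rw [not_lt] at h1
      rw [zero_mul, add_zero]
      exact mul_le_mul_of_nonneg_right (pow_le_pow_left₀ (nn_nonneg k) h1 _) he
  have hR := Rh_le_R2 hN0.le s B (u t)
  have hR2t : R2 t = ∑ k ∈ B, w2 N s k * en (u t k) := rfl
  have := mul_le_mul_of_nonneg_left hent (show (0 : ℝ) ≤ (N : ℝ) ^ (2 * s) by positivity)
  linarith

end Pool.Agent.K1H54.RC
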