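import Pool.Agent.K1H54.RC.Ten2
import Pool.Agent.K1H29.NC.TriOf

/-!
# Random trilinear forms: the weighted bound
-/

open MeasureTheory ProbabilityTheory Filter Topology Finset ComplexConjugate

namespace Pool.Agent.K1H54.RC

open Pool.Agent.K1H29.RD (bx)
open Pool.Agent.K1H29.SH (nn nn_nonneg one_le_nn)
open Pool.Agent.K1H29.NC (Tr n2 cl rs nn_le_cl cl_le_nn rs_supp n2_nonneg)

/-- complex from real -/
lemma norm_Tr_le {M : K → K → ℝ} {B : Finset K} {C : ℝ} (hC0 : 0 ≤ C)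
    (hC : ∀ x y z : K → ℝ, (∀ k, k ∉ B → x k = 0) → (∀ k, k ∉ B → y k = 0) → (∀ k, k ∉ B → z k = 0) →
      |Sf M B x y z| ≤ C * (√(∑ k ∈ B, x k ^ 2) * √(∑ k ∈ B, y k ^ 2) * √(∑ k ∈ B, z k ^ 2)))
    {x y z : K → ℂ} (hx : ∀ k, k ∉ B → x k = 0) (hy : ∀ k, k ∉ B → y k = 0)
    (hz : ∀ k, k ∉ B → z k = 0) :
    ‖Tr M B x y z‖ ≤ 8 * C * (n2 B x * n2 B y * n2 B z) := by
  have hre : ∀ {w : K → ℂ}, (∀ k, k ∉ B → w k = 0) → ∀ k, k ∉ B → (fun k => (w k).re) k = 0 :=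
    fun h k hk => by simp [h k hk]
  have him : ∀ {w : K → ℂ}, (∀ k, k ∉ B → w k = 0) → ∀ k, k ∉ B → (fun k => (w k).im) k = 0 :=
    fun h k hk => by simp [h k hk]
  have nre : ∀ w : K → ℂ, √(∑ k ∈ B, (fun k => (w k).re) k ^ 2) ≤ n2 B w := by
    intro w
    unfold n2
    apply Real.sqrt_le_sqrt
    refine Finset.sum_le_sum fun k _ => ?_
    rw [← sq_abs]
    exact pow_le_pow_left₀ (abs_nonneg _) (Complex.abs_re_le_norm _) 2
  have nim : ∀ w : K → ℂ, √(∑ k ∈ B, (fun k => (w k).im) k ^ 2) ≤ n2 B w := by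
    intro w
    unfold n2
    apply Real.sqrt_le_sqrt
    refine Finset.sum_le_sum fun k _ => ?_
    rw [← sq_abs]
    exact pow_le_pow_left₀ (abs_nonneg _) (Complex.abs_im_le_norm _) 2
  have hs : Tr M B x y z =
      ((Sf M B (fun k => (x k).re) (fun k => (y k).re) (fun k => (z k).re)
        - Sf M B (fun k => (x k).im) (fun k => (y k).im) (fun k => (z k).re)
        + Sf M B (fun k => (x k).im) (fun k => (y k).re) (fun k => (z k).im)
        + Sf M B (fun k => (x k).re) (fun k => (y k).im) (fun k => (z k).im) : ℝ) : ℂ)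
      + ((Sf M B (fun k => (x k).re) (fun k => (y k).im) (fun k => (z k).re)
        + Sf M B (fun k => (x k).im) (fun k => (y k).re) (fun k => (z k).re)
        - Sf M B (fun k => (x k).re) (fun k => (y k).re) (fun k => (z k).im)
        + Sf M B (fun k => (x k).im) (fun k => (y k).im) (fun k => (z k).im) : ℝ) : ℂ) * Complex.I := by
    unfold Tr Sf
    push_cast
    simp only [← Finset.sum_add_distrib, ← Finset.sum_sub_distrib, Finset.sum_mul]
    refine Finset.sum_congr rfl fun k _ => Finset.sum_congr rfl fun l _ => ?_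
    apply Complex.ext
    · simp
      ring
    · simp
      ring
  have bd : ∀ x' y' z' : K → ℝ, (∀ k, k ∉ B → x' k = 0) → (∀ k, k ∉ B → y' k = 0) →
      (∀ k, k ∉ B → z' k = 0) → √(∑ k ∈ B, x' k ^ 2) ≤ n2 B x → √(∑ k ∈ B, y' k ^ 2) ≤ n2 B y →
      √(∑ k ∈ B, z' k ^ 2) ≤ n2 B z → |Sf M B x' y' z'| ≤ C * (n2 B x * n2 B y * n2 B z) := by
    intro x' y' z' h1 h2 h3 h4 h5 h6
    refine (hC x' y' z' h1 h2 h3).trans ?_
    have := n2_nonneg B x
    have := n2_nonneg B y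
    gcongr
  have b1 := bd _ _ _ (hre hx) (hre hy) (hre hz) (nre x) (nre y) (nre z)
  have b2 := bd _ _ _ (him hx) (him hy) (hre hz) (nim x) (nim y) (nre z)
  have b3 := bd _ _ _ (him hx) (hre hy) (him hz) (nim x) (nre y) (nim z)
  have b4 := bd _ _ _ (hre hx) (him hy) (him hz) (nre x) (nim y) (nim z)
  have b5 := bd _ _ _ (hre hx) (him hy) (hre hz) (nre x) (nim y) (nre z)
  have b6 := bd _ _ _ (him hx) (hre hy) (hre hz) (nim x) (nre y) (nre z)
  have b7 := bd _ _ _ (hre hx) (hre hy) (him hz) (nre x) (nre y) (nim z)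
  have b8 := bd _ _ _ (him hx) (him hy) (him hz) (nim x) (nim y) (nim z)
  rw [hs]
  refine (norm_add_le _ _).trans ?_
  rw [norm_mul, Complex.norm_I, mul_one, Complex.norm_real, Complex.norm_real, Real.norm_eq_abs,
    Real.norm_eq_abs]
  rw [abs_le] at b1 b2 b3 b4 b5 b6 b7 b8
  have c1 : ∀ a b c d E : ℝ, (-E ≤ a ∧ a ≤ E) → (-E ≤ b ∧ b ≤ E) → (-E ≤ c ∧ c ≤ E) →
      (-E ≤ d ∧ d ≤ E) → |a - b + c + d| ≤ 4 * E ∧ |a + b - c + d| ≤ 4 * E := by
    intro a b c d E h1 h2 h3 h4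
    constructor <;> rw [abs_le] <;> constructor <;> linarith [h1.1, h1.2, h2.1, h2.2, h3.1, h3.2, h4.1, h4.2]
  have c2 := (c1 _ _ _ _ _ b1 b2 b3 b4).1
  have c3 := (c1 _ _ _ _ _ b5 b6 b7 b8).2
  linarith

lemma Tr_congr_set {M : K → K → ℝ} {B B' : Finset K} {x y z : K → ℂ} (hx : ∀ k, k ∉ B → x k = 0)
    (hx' : ∀ k, k ∉ B' → x k = 0) (hz : ∀ k, k ∉ B → z k = 0) (hz' : ∀ k, k ∉ B' → z k = 0) :
    Tr M B x y z = Tr M B' x y z := by
  classical
  unfold Tr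
  have h1 : ∀ (A : Finset K), (∀ k, k ∉ A → x k = 0) → (∀ k, k ∉ A → z k = 0) → (A ⊆ B ∪ B') →
      ∑ k ∈ A, ∑ l ∈ A, (M l k : ℂ) * (x l * y (k - l) * conj (z k)) =
      ∑ k ∈ B ∪ B', ∑ l ∈ B ∪ B', (M l k : ℂ) * (x l * y (k - l) * conj (z k)) := by
    intro A h1 h2 h3
    rw [← Finset.sum_subset h3]
    · refine Finset.sum_congr rfl fun k _ => ?_
      rw [← Finset.sum_subset h3]
      intro l _ hl
      rw [h1 l hl]; simp
    · intro k _ hk
      refine Finset.sum_eq_zero fun l _ => ?_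
      rw [h2 k hk]; simp
  rw [h1 B hx hz Finset.subset_union_left, h1 B' hx' hz' Finset.subset_union_right]

lemma n2_congr_set {B B' : Finset K} {x : K → ℂ} (hx : ∀ k, k ∉ B → x k = 0)
    (hx' : ∀ k, k ∉ B' → x k = 0) : n2 B x = n2 B' x := by
  classical
  unfold n2
  congr 1
  have h1 : ∀ (A : Finset K), (∀ k, k ∉ A → x k = 0) → (A ⊆ B ∪ B') →
      ∑ k ∈ A, ‖x k‖ ^ 2 = ∑ k ∈ B ∪ B', ‖x k‖ ^ 2 := by
    intro A h1 h3
    rw [← Finset.sum_subset h3]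
    intro k _ hk
    rw [h1 k hk]; simp
  rw [h1 B hx Finset.subset_union_left, h1 B' hx' Finset.subset_union_right]

lemma mem_bx {k : K} {n : ℕ} : k ∈ bx n ↔ nn k ≤ 2 ^ n := by
  have h : nn k ≤ 2 ^ n ↔ ∀ j, |k j| ≤ ((2 ^ n : ℕ) : ℤ) := by
    rw [← Pool.Agent.K1H29.SH.nn_le_iff (k := k) (r := 2 ^ n)]
    push_cast
    rfl
  rw [h]
  simp only [bx, Finset.mem_Icc, Pi.le_def, abs_le]
  push_cast
  exact ⟨fun h j => ⟨h.1 j, h.2 j⟩, fun h => ⟨fun j => (h j).1, fun j => (h j).2⟩⟩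

/-- The block bound with polynomial constants. -/
def Blog (M : K → K → ℝ) (C : ℝ) : Prop := ∀ (n : ℕ) (x y z : K → ℂ), (∀ k, k ∉ bx n → x k = 0) →
  (∀ k, k ∉ bx n → y k = 0) → (∀ k, k ∉ bx n → z k = 0) →
  ‖Tr M (bx n) x y z‖ ≤ C * ((n : ℝ) + 1) ^ 4 * (n2 (bx n) x * n2 (bx n) y * n2 (bx n) z)

lemma bx_mono {m n : ℕ} (h : m ≤ n) : bx m ⊆ bx n := by
  intro k hk
  rw [mem_bx] at *
  exact hk.trans (pow_le_pow_right₀ (by norm_num) h)

section prob

variable {Ω : Type*} [MeasurableSpace Ω] {P : Measure Ω} [IsProbabilityMeasure P]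
  {T : Type*} {X : T → Ω → ℝ}

/-- **Random trilinear forms are bounded by powers of the logarithm of the dimension.** -/
theorem ae_blog (hX : ∀ t, Measurable (X t)) (hb : ∀ t ω, |X t ω| ≤ 1) (hi : iIndepFun X P)
    {τ : K → K → T} {c : K → K → ℝ} (hc : ∀ l k, |c l k| ≤ 1)
    (hτ : ∀ t, ∃ F : Finset (K × K), F.card ≤ 36 ∧ ∀ l k, τ l k = t → (l, k) ∈ F) :
    ∀ᵐ ω ∂P, ∃ C, 0 ≤ C ∧ Blog (Mr P X τ c ω) C := by
  filter_upwards [ae_good hX hb hi hc hτ] with ω hω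
  obtain ⟨n0, hn0⟩ := hω.exists_forall_of_atTop
  refine ⟨8 * 810 * ((n0 : ℝ) + 1) ^ 4, by positivity, ?_⟩
  intro n x y z hx hy hz
  set N := max n n0 with hN
  have hsub : bx n ⊆ bx N := bx_mono (le_max_left _ _)
  have up' : ∀ {w : K → ℂ}, (∀ k, k ∉ bx n → w k = 0) → ∀ k, k ∉ bx N → w k = 0 :=
    fun h k hk => h k fun h2 => hk (hsub h2)
  have h1 : ∀ x y z : K → ℝ, (∀ k, k ∉ bx N → x k = 0) → (∀ k, k ∉ bx N → y k = 0) →
      (∀ k, k ∉ bx N → z k = 0) → |Sf (Mr P X τ c ω) (bx N) x y z| ≤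
      (810 * ((N : ℝ) + 1) ^ 4) *
        (√(∑ k ∈ bx N, x k ^ 2) * √(∑ k ∈ bx N, y k ^ 2) * √(∑ k ∈ bx N, z k ^ 2)) := by
    intro x y z hx hy hz
    have h2 : ω ∉ BadB P X τ c (bx N) (Ln N) := hn0 N (le_max_right _ _)
    refine (bound_of_goodB h2 hx hy hz).trans ?_
    exact mul_le_mul_of_nonneg_right (const_le N) (mul_nonneg (mul_nonneg (Real.sqrt_nonneg _)
      (Real.sqrt_nonneg _)) (Real.sqrt_nonneg _))
  have h2 := norm_Tr_le (M := Mr P X τ c ω) (B := bx N) (C := 810 * ((N : ℝ) + 1) ^ 4)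
    (mul_nonneg (by norm_num) (pow_nonneg (by linarith [Nat.cast_nonneg (α := ℝ) N]) 4)) h1
    (up' hx) (up' hy) (up' hz)
  rw [Tr_congr_set (up' hx) hx (up' hz) hz, n2_congr_set (up' hx) hx, n2_congr_set (up' hy) hy,
    n2_congr_set (up' hz) hz] at h2
  refine h2.trans ?_
  have hnn : (0 : ℝ) ≤ n := Nat.cast_nonneg n
  have hnn0 : (0 : ℝ) ≤ n0 := Nat.cast_nonneg n0
  have h3 : ((N : ℝ) + 1) ≤ ((n0 : ℝ) + 1) * ((n : ℝ) + 1) := by
    rcases le_total n n0 with h | h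
    · rw [hN, max_eq_right h]; nlinarith
    · rw [hN, max_eq_left h]; nlinarith
  have h4 : ((N : ℝ) + 1) ^ 4 ≤ ((n0 : ℝ) + 1) ^ 4 * ((n : ℝ) + 1) ^ 4 := by
    rw [← mul_pow]
    exact pow_le_pow_left₀ (by linarith [Nat.cast_nonneg (α := ℝ) N]) h3 4
  have h5 : 0 ≤ n2 (bx n) x * n2 (bx n) y * n2 (bx n) z :=
    mul_nonneg (mul_nonneg (n2_nonneg _ _) (n2_nonneg _ _)) (n2_nonneg _ _)
  apply mul_le_mul_of_nonneg_right _ h5
  linarith

end prob

/-! ### the weighted bound -/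

/-- weighted norm -/
noncomputable def wd (δ : ℝ) (B : Finset K) (x : K → ℂ) : ℝ := √(∑ k ∈ B, nn k ^ (2 * δ) * ‖x k‖ ^ 2)

lemma wd_nonneg (δ : ℝ) (B : Finset K) (x : K → ℂ) : 0 ≤ wd δ B x := Real.sqrt_nonneg _

/-- the constant -/
noncomputable def Kd (δ : ℝ) : ℝ := ∑' a : ℕ, ((a : ℝ) + 1) ^ 8 * ((4 : ℝ) ^ (-δ)) ^ a

lemma Kd_summable {δ : ℝ} (hδ : 0 < δ) :
    Summable fun a : ℕ => ((a : ℝ) + 1) ^ 8 * ((4 : ℝ) ^ (-δ)) ^ a := by
  have hr0 : (0 : ℝ) < 4 ^ (-δ) := by positivity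
  have hr1 : (4 : ℝ) ^ (-δ) < 1 := Real.rpow_lt_one_of_one_lt_of_neg (by norm_num) (by linarith)
  have h1 := summable_pow_mul_geometric_of_norm_lt_one 8 (r := (4 : ℝ) ^ (-δ))
    (by rw [Real.norm_eq_abs, abs_of_pos hr0]; exact hr1)
  have h2 := (summable_nat_add_iff 1).2 h1
  have h3 := h2.mul_right ((4 : ℝ) ^ (-δ))⁻¹
  refine h3.congr fun a => ?_
  push_cast
  rw [pow_succ ((4 : ℝ) ^ (-δ)) a]
  field_simp

lemma shell_sum {δ : ℝ} (hδ : 0 < δ) {B : Finset K} {x : K → ℂ} (hx0 : x 0 = 0) (N : ℕ) :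
    ∑ a ∈ range N, ((a : ℝ) + 1) ^ 4 * n2 B (rs (fun n => n = a) x) ≤
      √(Kd δ) * ((2 : ℝ) ^ δ * wd δ B x) := by
  have hr0 : (0 : ℝ) < 4 ^ (-δ) := by positivity
  have h1 : ∑ a ∈ range N, ((a : ℝ) + 1) ^ 4 * n2 B (rs (fun n => n = a) x) =
      ∑ a ∈ range N, (((a : ℝ) + 1) ^ 4 * √((4 : ℝ) ^ (-δ)) ^ a) *
        (√((4 : ℝ) ^ δ) ^ a * n2 B (rs (fun n => n = a) x)) := by
    refine Finset.sum_congr rfl fun a _ => ?_
    have h2 : √((4 : ℝ) ^ (-δ)) ^ a * √((4 : ℝ) ^ δ) ^ a = 1 := by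
      rw [← mul_pow, ← Real.sqrt_mul hr0.le, ← Real.rpow_add (by norm_num)]
      simp
    calc _ = (((a : ℝ) + 1) ^ 4 * n2 B (rs (fun n => n = a) x)) * 1 := by ring
      _ = _ := by rw [← h2]; ring
  rw [h1]
  have h2 := Finset.sum_mul_sq_le_sq_mul_sq (range N) (fun a : ℕ => ((a : ℝ) + 1) ^ 4 * √((4 : ℝ) ^ (-δ)) ^ a)
    (fun a : ℕ => √((4 : ℝ) ^ δ) ^ a * n2 B (rs (fun n => n = a) x))
  have h3 : ∑ a ∈ range N, (((a : ℝ) + 1) ^ 4 * √((4 : ℝ) ^ (-δ)) ^ a) ^ 2 ≤ Kd δ := by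
    have h4 : ∀ a : ℕ, (((a : ℝ) + 1) ^ 4 * √((4 : ℝ) ^ (-δ)) ^ a) ^ 2 =
        ((a : ℝ) + 1) ^ 8 * ((4 : ℝ) ^ (-δ)) ^ a := by
      intro a
      rw [mul_pow, ← pow_mul, ← pow_mul, mul_comm a 2, pow_mul √_, Real.sq_sqrt hr0.le]
    simp only [h4]
    exact (Kd_summable hδ).sum_le_tsum _ fun a _ => by positivity
  have h4 : ∑ a ∈ range N, (√((4 : ℝ) ^ δ) ^ a * n2 B (rs (fun n => n = a) x)) ^ 2 ≤
      ((2 : ℝ) ^ δ * wd δ B x) ^ 2 := by
    have h5 : ((2 : ℝ) ^ δ * wd δ B x) ^ 2 = (4 : ℝ) ^ δ * ∑ k ∈ B, nn k ^ (2 * δ) * ‖x k‖ ^ 2 := by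
      unfold wd
      rw [mul_pow, Real.sq_sqrt (Finset.sum_nonneg fun k _ => mul_nonneg
        (Real.rpow_nonneg (nn_nonneg k) _) (sq_nonneg _)), ← Real.rpow_natCast, ← Real.rpow_mul (by norm_num),
        show (4 : ℝ) = 2 ^ (2 : ℝ) by norm_num, ← Real.rpow_mul (by norm_num)]
      congr 2
      push_cast
      ring
    rw [h5]
    have h6 : ∀ a : ℕ, (√((4 : ℝ) ^ δ) ^ a * n2 B (rs (fun n => n = a) x)) ^ 2 =
        ∑ k ∈ B, if cl k = a then ((4 : ℝ) ^ δ) ^ a * ‖x k‖ ^ 2 else 0 := by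
      intro a
      unfold n2
      rw [mul_pow, Real.sq_sqrt (Finset.sum_nonneg fun _ _ => sq_nonneg _), ← pow_mul, mul_comm a 2,
        pow_mul, Real.sq_sqrt (by positivity), Finset.mul_sum]
      refine Finset.sum_congr rfl fun k _ => ?_
      unfold rs
      split_ifs <;> simp
    simp only [h6]
    rw [Finset.sum_comm, Finset.mul_sum]
    refine Finset.sum_le_sum fun k _ => ?_
    rw [Finset.sum_ite_eq]
    by_cases hk : k = 0
    · subst hk; rw [hx0]; simp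
    have h7 : ((4 : ℝ) ^ δ) ^ cl k * ‖x k‖ ^ 2 ≤ (4 : ℝ) ^ δ * (nn k ^ (2 * δ) * ‖x k‖ ^ 2) := by
      have h8 : ((4 : ℝ) ^ δ) ^ cl k = ((2 : ℝ) ^ cl k) ^ (2 * δ) := by
        rw [← Real.rpow_natCast, ← Real.rpow_natCast, ← Real.rpow_mul (by norm_num),
          ← Real.rpow_mul (by norm_num), show (4 : ℝ) = 2 ^ (2 : ℝ) by norm_num,
          ← Real.rpow_mul (by norm_num)]
        congr 1
        ring
      have h9 : ((2 : ℝ) ^ cl k) ^ (2 * δ) ≤ (2 * nn k) ^ (2 * δ) :=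
        Real.rpow_le_rpow (by positivity) (cl_le_nn hk) (by linarith)
      have h10 : (2 * nn k) ^ (2 * δ) = (4 : ℝ) ^ δ * nn k ^ (2 * δ) := by
        rw [Real.mul_rpow (by norm_num) (nn_nonneg k), show (4 : ℝ) = 2 ^ (2 : ℝ) by norm_num,
          ← Real.rpow_mul (by norm_num)]
      rw [h8]
      calc _ ≤ ((4 : ℝ) ^ δ * nn k ^ (2 * δ)) * ‖x k‖ ^ 2 :=
            mul_le_mul_of_nonneg_right (h9.trans (le_of_eq h10)) (sq_nonneg _)
        _ = _ := by ring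
    split_ifs
    · exact h7
    · exact mul_nonneg (by positivity) (mul_nonneg (Real.rpow_nonneg (nn_nonneg k) _) (sq_nonneg _))
  have h5 : 0 ≤ Kd δ := tsum_nonneg fun a => by positivity
  have h6 : 0 ≤ (2 : ℝ) ^ δ * wd δ B x := mul_nonneg (by positivity) (wd_nonneg _ _ _)
  have h7 := h2.trans (mul_le_mul h3 h4 (Finset.sum_nonneg fun _ _ => sq_nonneg _) h5)
  have h8 := Real.abs_le_sqrt h7
  rw [Real.sqrt_mul h5, Real.sqrt_sq h6] at h8
  exact (le_abs_self _).trans h8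

lemma one_eq {N a b d : ℕ} (ha : a < N) (hb : b < N) (hd : d < N) :
    ∑ i ∈ range N, ∑ j ∈ range N, ∑ m ∈ range N,
      ((if a = i then (1 : ℂ) else 0) * ((if b = j then 1 else 0) * (if d = m then 1 else 0))) = 1 := by
  simp only [← Finset.mul_sum]
  rw [Finset.sum_ite_eq, if_pos (Finset.mem_range.2 hd)]
  simp only [mul_one, Finset.sum_ite_eq, if_pos (Finset.mem_range.2 hb), if_pos (Finset.mem_range.2 ha)]

lemma Tr_split3 {M : K → K → ℝ} {B : Finset K} {f g h : K → ℂ} (hg : ∀ k, k ∉ B → g k = 0)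
    {N : ℕ} (hN : ∀ k ∈ B, cl k < N) :
    Tr M B f g h = ∑ i ∈ range N, ∑ j ∈ range N, ∑ m ∈ range N,
      Tr M B (rs (fun n => n = i) f) (rs (fun n => n = j) g) (rs (fun n => n = m) h) := by
  unfold Tr
  symm
  calc ∑ i ∈ range N, ∑ j ∈ range N, ∑ m ∈ range N, ∑ k ∈ B, ∑ l ∈ B, (M l k : ℂ) *
        (rs (fun n => n = i) f l * rs (fun n => n = j) g (k - l) * conj (rs (fun n => n = m) h k))
      = ∑ k ∈ B, ∑ l ∈ B, ∑ i ∈ range N, ∑ j ∈ range N, ∑ m ∈ range N, (M l k : ℂ) *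
        (rs (fun n => n = i) f l * rs (fun n => n = j) g (k - l) * conj (rs (fun n => n = m) h k)) := by
        have e1 : ∀ i j, ∑ m ∈ range N, ∑ k ∈ B, ∑ l ∈ B, (M l k : ℂ) *
            (rs (fun n => n = i) f l * rs (fun n => n = j) g (k - l) * conj (rs (fun n => n = m) h k))
            = ∑ k ∈ B, ∑ l ∈ B, ∑ m ∈ range N, (M l k : ℂ) *
            (rs (fun n => n = i) f l * rs (fun n => n = j) g (k - l) * conj (rs (fun n => n = m) h k)) := by
          intro i j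
          rw [Finset.sum_comm]
          exact Finset.sum_congr rfl fun k _ => Finset.sum_comm
        simp only [e1]
        have e2 : ∀ i, ∑ j ∈ range N, ∑ k ∈ B, ∑ l ∈ B, ∑ m ∈ range N, (M l k : ℂ) *
            (rs (fun n => n = i) f l * rs (fun n => n = j) g (k - l) * conj (rs (fun n => n = m) h k))
            = ∑ k ∈ B, ∑ l ∈ B, ∑ j ∈ range N, ∑ m ∈ range N, (M l k : ℂ) *
            (rs (fun n => n = i) f l * rs (fun n => n = j) g (k - l) * conj (rs (fun n => n = m) h k)) := by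
          intro i
          rw [Finset.sum_comm]
          exact Finset.sum_congr rfl fun k _ => Finset.sum_comm
        simp only [e2]
        rw [Finset.sum_comm]
        exact Finset.sum_congr rfl fun k _ => Finset.sum_comm
    _ = _ := by
        refine Finset.sum_congr rfl fun k hk => Finset.sum_congr rfl fun l hl => ?_
        by_cases hq : k - l ∈ B
        · have h1 := one_eq (hN l hl) (hN _ hq) (hN k hk)
          symm
          calc (M l k : ℂ) * (f l * g (k - l) * conj (h k))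
              = (M l k : ℂ) * (f l * g (k - l) * conj (h k)) * 1 := (mul_one _).symm
            _ = _ := by
              rw [← h1]
              simp only [Finset.mul_sum]
              refine Finset.sum_congr rfl fun i _ => Finset.sum_congr rfl fun j _ =>
                Finset.sum_congr rfl fun m _ => ?_
              unfold rs
              simp only [apply_ite conj, map_zero]
              split_ifs <;> ring
        · have h1 : ∀ (p : ℕ → Prop) [DecidablePred p], rs p g (k - l) = 0 := by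
            intro p _
            exact rs_supp hg p _ hq
          simp only [h1, hg _ hq]
          simp

/-- **The weighted bound.** -/
theorem wbound {M : K → K → ℝ} {C : ℝ} (hC : 0 ≤ C) (h : Blog M C) {δ : ℝ} (hδ : 0 < δ) :
    ∃ C', 0 ≤ C' ∧ ∀ (B : Finset K) (x y z : K → ℂ), (∀ k, k ∉ B → x k = 0) →
      (∀ k, k ∉ B → y k = 0) → (∀ k, k ∉ B → z k = 0) → x 0 = 0 → y 0 = 0 → z 0 = 0 →
      ‖Tr M B x y z‖ ≤ C' * (wd δ B x * wd δ B y * wd δ B z) := by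
  refine ⟨C * (√(Kd δ) * (2 : ℝ) ^ δ) ^ 3, by positivity, ?_⟩
  intro B x y z hx hy hz hx0 hy0 hz0
  set N := B.sup cl + 1 with hNd
  have hN : ∀ k ∈ B, cl k < N := fun k hk => Nat.lt_succ_of_le (Finset.le_sup (f := cl) hk)
  rw [Tr_split3 hy hN]
  -- each term
  have hterm : ∀ i j m : ℕ, ‖Tr M B (rs (fun n => n = i) x) (rs (fun n => n = j) y)
      (rs (fun n => n = m) z)‖ ≤ C * ((((i : ℝ) + 1) ^ 4 * n2 B (rs (fun n => n = i) x)) *
        ((((j : ℝ) + 1) ^ 4 * n2 B (rs (fun n => n = j) y)) *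
        (((m : ℝ) + 1) ^ 4 * n2 B (rs (fun n => n = m) z)))) := by
    intro i j m
    set n := max i (max j m) with hn
    have hsup : ∀ (w : K → ℂ) (a : ℕ), a ≤ n → ∀ k, k ∉ bx n → rs (fun n => n = a) w k = 0 := by
      intro w a ha k hk
      unfold rs
      rw [if_neg]
      intro h1
      apply hk
      rw [mem_bx]
      refine (nn_le_cl k).trans ?_
      rw [h1]
      exact pow_le_pow_right₀ (by norm_num) ha
    have hi : i ≤ n := le_max_left _ _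
    have hj : j ≤ n := (le_max_left _ _).trans (le_max_right _ _)
    have hm : m ≤ n := (le_max_right _ _).trans (le_max_right _ _)
    have h1 := h n _ _ _ (hsup x i hi) (hsup y j hj) (hsup z m hm)
    rw [Tr_congr_set (hsup x i hi) (rs_supp hx _) (hsup z m hm) (rs_supp hz _),
      n2_congr_set (hsup x i hi) (rs_supp hx _), n2_congr_set (hsup y j hj) (rs_supp hy _),
      n2_congr_set (hsup z m hm) (rs_supp hz _)] at h1
    refine h1.trans ?_
    have ci : (0 : ℝ) ≤ i := Nat.cast_nonneg i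
    have cj : (0 : ℝ) ≤ j := Nat.cast_nonneg j
    have cm : (0 : ℝ) ≤ m := Nat.cast_nonneg m
    have h2 : ((n : ℝ) + 1) ≤ ((i : ℝ) + 1) * (((j : ℝ) + 1) * ((m : ℝ) + 1)) := by
      have h3 : (n : ℝ) = max (i : ℝ) (max (j : ℝ) (m : ℝ)) := by
        rw [hn]; push_cast; rfl
      have p1 : 0 ≤ (i : ℝ) * j := by positivity
      have p2 : 0 ≤ (i : ℝ) * m := by positivity
      have p3 : 0 ≤ (j : ℝ) * m := by positivity
      have p4 : 0 ≤ (i : ℝ) * (j * m) := by positivity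
      rw [h3]
      rcases max_choice (i : ℝ) (max (j : ℝ) (m : ℝ)) with h4 | h4
      · rw [h4]; nlinarith
      · rw [h4]
        rcases max_choice (j : ℝ) (m : ℝ) with h5 | h5
        · rw [h5]; nlinarith
        · rw [h5]; nlinarith
    have h3 : ((n : ℝ) + 1) ^ 4 ≤ ((i : ℝ) + 1) ^ 4 * (((j : ℝ) + 1) ^ 4 * ((m : ℝ) + 1) ^ 4) := by
      rw [← mul_pow, ← mul_pow]
      exact pow_le_pow_left₀ (by positivity) h2 4
    have n1 := n2_nonneg B (rs (fun n => n = i) x)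
    have n2' := n2_nonneg B (rs (fun n => n = j) y)
    have n3 := n2_nonneg B (rs (fun n => n = m) z)
    calc C * ((n : ℝ) + 1) ^ 4 * (n2 B (rs (fun n => n = i) x) * n2 B (rs (fun n => n = j) y) *
          n2 B (rs (fun n => n = m) z))
        ≤ C * (((i : ℝ) + 1) ^ 4 * (((j : ℝ) + 1) ^ 4 * ((m : ℝ) + 1) ^ 4)) *
          (n2 B (rs (fun n => n = i) x) * n2 B (rs (fun n => n = j) y) *
          n2 B (rs (fun n => n = m) z)) := by gcongr
      _ = _ := by ring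
  refine (norm_sum_le _ _).trans ?_
  refine (Finset.sum_le_sum fun i _ => (norm_sum_le _ _).trans (Finset.sum_le_sum fun j _ =>
    (norm_sum_le _ _).trans (Finset.sum_le_sum fun m _ => hterm i j m))).trans ?_
  simp only [← Finset.mul_sum, ← Finset.sum_mul]
  have s1 := shell_sum hδ (B := B) hx0 N
  have s2 := shell_sum hδ (B := B) hy0 N
  have s3 := shell_sum hδ (B := B) hz0 N
  have t : ∀ w : K → ℂ, 0 ≤ ∑ a ∈ range N, ((a : ℝ) + 1) ^ 4 * n2 B (rs (fun n => n = a) w) :=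
    fun w => Finset.sum_nonneg fun a _ => mul_nonneg (by positivity) (n2_nonneg _ _)
  have w1 := wd_nonneg δ B x
  have w2 := wd_nonneg δ B y
  have w3 := wd_nonneg δ B z
  have t1 := t x
  have t2 := t y
  have t3 := t z
  calc _ ≤ C * ((√(Kd δ) * ((2 : ℝ) ^ δ * wd δ B x)) * ((√(Kd δ) * ((2 : ℝ) ^ δ * wd δ B y)) *
        (√(Kd δ) * ((2 : ℝ) ^ δ * wd δ B z)))) := by
        gcongr
    _ = _ := by ring

end Pool.Agent.K1H54.RC
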