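import Pool.Agent.K1H54.RC.Cpl
import Pool.Agent.K1H54.RC.Ten3
import Pool.Agent.K1H29.NC.W4

/-!
# The kernel of the flux of the Sobolev norms
-/

open Set ComplexConjugate MeasureTheory

namespace Pool.Agent.K1H54.RC

open Pool.Agent.H356R3.NS hiding Sol
open Pool.Agent.K1H29.SH (nn nn_nonneg nn_neg ipc abs_le_nn dt_sub tri mem_tri
  en en_nonneg norm_sq_le_en nn_sub_le nn_sub_le' one_le_nn nn_eq_zero)
open Pool.Agent.K1H29.NC (Wt Bw TT' flux_eq flux_two Tr Tr_tri n2)

variable {φ : K → K → ℝ} {B : Finset K} {u : K → C3}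

/-- the kernel of the flux -/
noncomputable def kap (s : ℕ) (j : Fin 3) (l k : K) : ℝ :=
  (nn k ^ (2 * s) - nn (k - l) ^ (2 * s)) * (if nn k ≤ nn (k - l) then (k j : ℝ) else ((k - l) j : ℝ))

lemma flux_kap (hφ : Wt φ) (hB : ∀ k ∈ B, -k ∈ B) (hs : ∀ k, k ∉ B → u k = 0) (hsym : Sym u)
    (hdiv : ∀ k, dt k (u k) = 0) (s : ℕ) :
    ∑ k ∈ B, nn k ^ (2 * s) * (2 * (ipc (Bw φ u u k) (u k)).re)
      = (-(2 * Real.pi * Complex.I) * ∑ j, ∑ i, Tr (fun l k => kap s j l k * φ l k) B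
          (fun k => u k j) (fun k => u k i) (fun k => u k i)).re := by
  rw [flux_eq hs hdiv]
  have h2 := flux_two hφ hB hsym hdiv (w := fun k => nn k ^ (2 * s)) (fun k => by rw [nn_neg])
  have e1 : ∀ S : ℂ, -(4 * Real.pi * Complex.I) * S = -(2 * Real.pi * Complex.I) * (2 * S) := by
    intro S; ring
  rw [e1, h2]
  congr 2
  have hg : ∀ i, ∀ k, k ∉ B → (fun k => u k i) k = 0 := fun i k hk => by simp [hs k hk]
  have e2 : ∀ j i, Tr (fun l k => kap s j l k * φ l k) B (fun k => u k j) (fun k => u k i) (fun k => u k i)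
      = ∑ p ∈ tri B, ((kap s j p.2 p.1 * φ p.2 p.1 : ℝ) : ℂ) *
        (u p.2 j * u (p.1 - p.2) i * conj (u p.1 i)) := by
    intro j i
    rw [Tr_tri (hg i)]
  simp only [e2]
  have e3 : ∀ j, ∑ i, ∑ p ∈ tri B, ((kap s j p.2 p.1 * φ p.2 p.1 : ℝ) : ℂ) *
        (u p.2 j * u (p.1 - p.2) i * conj (u p.1 i))
      = ∑ p ∈ tri B, ∑ i, ((kap s j p.2 p.1 * φ p.2 p.1 : ℝ) : ℂ) *
        (u p.2 j * u (p.1 - p.2) i * conj (u p.1 i)) := fun j => Finset.sum_comm
  simp only [e3]
  rw [Finset.sum_comm]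
  refine Finset.sum_congr rfl fun p _ => ?_
  obtain ⟨k, l⟩ := p
  simp only
  have h3 : ∑ j, ((kap s j l k : ℝ) : ℂ) * u l j
      = ((nn k ^ (2 * s) - nn (k - l) ^ (2 * s) : ℝ) : ℂ) * dt k (u l) := by
    unfold kap
    split_ifs with h
    · unfold dt
      rw [Finset.mul_sum]
      refine Finset.sum_congr rfl fun j _ => ?_
      push_cast
      ring
    · have h4 : dt k (u l) = dt (k - l) (u l) := by rw [dt_sub, hdiv l, sub_zero]
      rw [h4]
      unfold dt
      rw [Finset.mul_sum]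
      refine Finset.sum_congr rfl fun j _ => ?_
      push_cast
      ring
  have h4 : ∑ j, ∑ i, ((kap s j l k * φ l k : ℝ) : ℂ) * (u l j * u (k - l) i * conj (u k i))
      = (∑ j, ((kap s j l k : ℝ) : ℂ) * u l j) * ((φ l k : ℂ) * ipc (u (k - l)) (u k)) := by
    unfold ipc
    rw [Finset.mul_sum, Finset.sum_mul_sum]
    refine Finset.sum_congr rfl fun j _ => Finset.sum_congr rfl fun i _ => ?_
    push_cast
    ring
  rw [h4, h3]
  unfold TT'
  ring

/-! ### the size of the kernel -/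

/-- the largest of the three frequencies -/
noncomputable def hi (l k : K) : ℝ := max (nn l) (max (nn (k - l)) (nn k))

/-- the smallest of the three frequencies -/
noncomputable def lo (l k : K) : ℝ := min (nn l) (min (nn (k - l)) (nn k))

lemma hi_nonneg (l k : K) : 0 ≤ hi l k := (nn_nonneg l).trans (le_max_left _ _)

lemma kap_le (s : ℕ) (j : Fin 3) (l k : K) : |kap s j l k| ≤ 2 * s * (lo l k * hi l k ^ (2 * s)) := by
  set a := nn l with ha
  set b := nn (k - l) with hb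
  set c := nn k with hc
  have ha0 : 0 ≤ a := nn_nonneg l
  have hb0 : 0 ≤ b := nn_nonneg _
  have hc0 : 0 ≤ c := nn_nonneg k
  have h1 : c ≤ a + b := nn_sub_le k l
  have h2 : b ≤ c + a := nn_sub_le' k l
  have h3 : a ≤ c + b := by
    have := nn_sub_le' k (k - l)
    rwa [show k - (k - l) = l by abel] at this
  have hj : |if c ≤ b then (k j : ℝ) else ((k - l) j : ℝ)| ≤ min b c := by
    split_ifs with h
    · rw [min_eq_right h]; exact abs_le_nn k j
    · rw [min_eq_left (not_le.1 h).le]; exact abs_le_nn (k - l) j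
  unfold kap
  rw [abs_mul]
  have hhi : max b c ≤ hi l k := le_max_right _ _
  have hhi0 : 0 ≤ max b c := hb0.trans (le_max_left _ _)
  have hminmax : min b c ≤ max b c := min_le_max
  have hmin0 : 0 ≤ min b c := le_min hb0 hc0
  rcases Nat.eq_zero_or_pos s with hs | hs
  · subst hs; simp
  obtain ⟨n, rfl⟩ : ∃ n, s = n + 1 := ⟨s - 1, by omega⟩
  have h4 := abs_pow_sub_pow_le c b (2 * (n + 1))
  rw [abs_of_nonneg hc0, abs_of_nonneg hb0, max_comm] at h4
  have h5 : |c - b| ≤ a := by rw [abs_le]; constructor <;> linarith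
  have h6 : |c ^ (2 * (n + 1)) - b ^ (2 * (n + 1))| ≤ a * (2 * ((n : ℝ) + 1)) * max b c ^ (2 * n + 1) := by
    refine h4.trans ?_
    rw [show 2 * (n + 1) - 1 = 2 * n + 1 by omega]
    push_cast
    gcongr
  have h7 : a * min b c ≤ lo l k * hi l k := by
    show a * min b c ≤ min a (min b c) * max a (max b c)
    rcases le_total a (min b c) with h | h
    · rw [min_eq_left h]
      exact mul_le_mul_of_nonneg_left (hminmax.trans (le_max_right _ _)) ha0
    · rw [min_eq_right h, mul_comm]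
      exact mul_le_mul_of_nonneg_left (le_max_left _ _) hmin0
  have hlo0 : 0 ≤ lo l k := le_min ha0 (le_min hb0 hc0)
  calc |c ^ (2 * (n + 1)) - b ^ (2 * (n + 1))| * |if c ≤ b then (k j : ℝ) else ((k - l) j : ℝ)|
      ≤ (a * (2 * ((n : ℝ) + 1)) * max b c ^ (2 * n + 1)) * min b c :=
        mul_le_mul h6 hj (abs_nonneg _) (by positivity)
    _ = 2 * ((n : ℝ) + 1) * max b c ^ (2 * n + 1) * (a * min b c) := by ring
    _ ≤ 2 * ((n : ℝ) + 1) * hi l k ^ (2 * n + 1) * (lo l k * hi l k) := by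
        have h8 : 0 ≤ hi l k := hi_nonneg l k
        have h9 : 0 ≤ 2 * ((n : ℝ) + 1) * hi l k ^ (2 * n + 1) := by positivity
        gcongr
    _ = _ := by push_cast; ring

end Pool.Agent.K1H54.RC
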