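import Pool.Agent.K1H54.RC.Ker

/-!
# Decomposition of the kernel
-/

open Set ComplexConjugate MeasureTheory

namespace Pool.Agent.K1H54.RC

open Pool.Agent.H356R3.NS hiding Sol
open Pool.Agent.K1H29.SH (nn nn_nonneg nn_neg abs_le_nn nn_sub_le nn_sub_le' one_le_nn nn_eq_zero)
open Pool.Agent.K1H29.NC (Tr n2)

/-- the exponent of the two larger frequencies -/
noncomputable def xp (s : ℕ) (d g : ℝ) : ℝ := s + 1 / 2 + d / 2 - g / 2

/-- one inequality between the weights -/
lemma wt_ineq {a b c : ℝ} (ha : 1 ≤ a) (hab : a ≤ b) (hac : a ≤ c) (hb : b ≤ a + c) (hc : c ≤ a + b)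
    {s : ℕ} {d g : ℝ} (hd : 0 ≤ d) (he : 0 ≤ xp s d g) :
    a * (max b c) ^ (2 * s) * (max b c) ^ (-g) ≤
      (2 : ℝ) ^ xp s d g * (a ^ (-d) * (b ^ xp s d g * c ^ xp s d g)) := by
  set e := xp s d g with hee
  have ha0 : 0 < a := by linarith
  -- the case b ≤ c
  have key : ∀ x y : ℝ, a ≤ x → x ≤ y → y ≤ a + x →
      a * y ^ (2 * s) * y ^ (-g) ≤ (2 : ℝ) ^ e * (a ^ (-d) * (x ^ e * y ^ e)) := by
    intro x y h1 h2 h3
    have hx0 : 0 < x := by linarith
    have hy0 : 0 < y := by linarith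
    have e1 : a = a ^ (-d) * a ^ (1 + d) := by
      rw [← Real.rpow_add ha0]; simp
    have e2 : a ^ (1 + d) ≤ y ^ (1 + d) := Real.rpow_le_rpow ha0.le (h1.trans h2) (by linarith)
    have e3 : y ^ (1 + d) * y ^ (2 * s) * y ^ (-g) = y ^ e * y ^ e := by
      rw [← Real.rpow_natCast y (2 * s), ← Real.rpow_add hy0, ← Real.rpow_add hy0, ← Real.rpow_add hy0]
      congr 1
      rw [hee]
      unfold xp
      push_cast
      ring
    have e4 : y ^ e ≤ (2 : ℝ) ^ e * x ^ e := by
      rw [← Real.mul_rpow (by norm_num) hx0.le]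
      exact Real.rpow_le_rpow hy0.le (by linarith) he
    have p1 : 0 ≤ a ^ (-d) := Real.rpow_nonneg ha0.le _
    have p2 : 0 ≤ y ^ (2 * s) := pow_nonneg hy0.le _
    have p3 : 0 ≤ y ^ (-g) := Real.rpow_nonneg hy0.le _
    have p4 : 0 ≤ y ^ e := Real.rpow_nonneg hy0.le _
    calc a * y ^ (2 * s) * y ^ (-g) = (a ^ (-d) * a ^ (1 + d)) * y ^ (2 * s) * y ^ (-g) := by rw [← e1]
      _ ≤ (a ^ (-d) * y ^ (1 + d)) * y ^ (2 * s) * y ^ (-g) := by gcongr
      _ = a ^ (-d) * (y ^ (1 + d) * y ^ (2 * s) * y ^ (-g)) := by ring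
      _ = a ^ (-d) * (y ^ e * y ^ e) := by rw [e3]
      _ ≤ a ^ (-d) * (((2 : ℝ) ^ e * x ^ e) * y ^ e) := by gcongr
      _ = _ := by ring
  rcases le_total b c with h | h
  · rw [max_eq_right h]; exact key b c hab h hc
  · rw [max_eq_left h]
    have := key c b hac h hb
    rwa [mul_comm (c ^ e)] at this

/-- which of the three frequencies is the smallest -/
def Ir (r : Fin 3) (l k : K) : Prop :=
  if r = 0 then nn l ≤ nn (k - l) ∧ nn l ≤ nn k
  else if r = 1 then ¬ (nn l ≤ nn (k - l) ∧ nn l ≤ nn k) ∧ nn (k - l) ≤ nn k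
  else ¬ (nn l ≤ nn (k - l) ∧ nn l ≤ nn k) ∧ ¬ nn (k - l) ≤ nn k

/-- the exponents -/
noncomputable def wx (s : ℕ) (d g : ℝ) (r i : Fin 3) : ℝ := if i = r then -d else xp s d g

/-- the product weights -/
noncomputable def Wr (s : ℕ) (d g : ℝ) (r : Fin 3) (l k : K) : ℝ :=
  nn l ^ wx s d g r 0 * nn (k - l) ^ wx s d g r 1 * nn k ^ wx s d g r 2

/-- the constant -/
noncomputable def Kc (s : ℕ) (d g : ℝ) : ℝ := (2 * s + 1) * (2 : ℝ) ^ xp s d g

lemma Kc_pos (s : ℕ) (d g : ℝ) : 0 < Kc s d g := by unfold Kc; positivity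

open Classical in
/-- the bounded arrays -/
noncomputable def cc (s : ℕ) (j : Fin 3) (d g : ℝ) (r : Fin 3) (l k : K) : ℝ :=
  if l ≠ 0 ∧ k - l ≠ 0 ∧ k ≠ 0 ∧ Ir r l k then
    kap s j l k * hi l k ^ (-g) / (Kc s d g * Wr s d g r l k) else 0

lemma Wr_pos {s : ℕ} {d g : ℝ} {r : Fin 3} {l k : K} (hl : l ≠ 0) (hkl : k - l ≠ 0) (hk : k ≠ 0) :
    0 < Wr s d g r l k := by
  unfold Wr
  have h1 : 0 < nn l := lt_of_lt_of_le one_pos (one_le_nn hl)
  have h2 : 0 < nn (k - l) := lt_of_lt_of_le one_pos (one_le_nn hkl)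
  have h3 : 0 < nn k := lt_of_lt_of_le one_pos (one_le_nn hk)
  positivity

lemma main_ineq {s : ℕ} {d g : ℝ} (hd : 0 ≤ d) (he : 0 ≤ xp s d g) {r : Fin 3} {l k : K}
    (hl : l ≠ 0) (hkl : k - l ≠ 0) (hk : k ≠ 0) (hr : Ir r l k) (j : Fin 3) :
    |kap s j l k| * hi l k ^ (-g) ≤ Kc s d g * Wr s d g r l k := by
  have h1 := kap_le s j l k
  set a := nn l with ha
  set b := nn (k - l) with hb
  set c := nn k with hc
  have ha1 : 1 ≤ a := one_le_nn hl
  have hb1 : 1 ≤ b := one_le_nn hkl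
  have hc1 : 1 ≤ c := one_le_nn hk
  have t1 : c ≤ a + b := nn_sub_le k l
  have t2 : b ≤ c + a := nn_sub_le' k l
  have t3 : a ≤ c + b := by
    have := nn_sub_le' k (k - l)
    rwa [show k - (k - l) = l by abel] at this
  have hhi : hi l k = max a (max b c) := rfl
  have hlo : lo l k = min a (min b c) := rfl
  have hhi0 : 0 ≤ hi l k := hi_nonneg l k
  have hgp : 0 ≤ hi l k ^ (-g) := Real.rpow_nonneg hhi0 _
  have key : lo l k * hi l k ^ (2 * s) * hi l k ^ (-g) ≤ (2 : ℝ) ^ xp s d g * Wr s d g r l k := by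
    unfold Wr
    rw [← ha, ← hb, ← hc, hhi, hlo]
    unfold Ir at hr
    rw [← ha, ← hb, ← hc] at hr
    fin_cases r
    · simp only [Fin.zero_eta, if_true] at hr
      have h2 := wt_ineq ha1 hr.1 hr.2 (by linarith) (by linarith) (s := s) (d := d) (g := g) hd he
      have e1 : wx s d g 0 0 = -d := by simp [wx]
      have e2 : wx s d g 0 1 = xp s d g := by simp [wx]
      have e3 : wx s d g 0 2 = xp s d g := by simp [wx]
      have m1 : max a (max b c) = max b c := max_eq_right (hr.1.trans (le_max_left _ _))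
      have m2 : min a (min b c) = a := min_eq_left (le_min hr.1 hr.2)
      simp only [Fin.zero_eta, e1, e2, e3, m1, m2]
      refine h2.trans (le_of_eq ?_)
      ring
    · simp only [Fin.mk_one, Fin.isValue, one_ne_zero, if_false, if_true] at hr
      have hba : b ≤ a := by
        by_contra h
        exact hr.1 ⟨(not_le.1 h).le, (not_le.1 h).le.trans hr.2⟩
      have h2 := wt_ineq hb1 hba hr.2 (by linarith) (by linarith) (s := s) (d := d) (g := g) hd he
      have e1 : wx s d g 1 0 = xp s d g := by simp [wx]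
      have e2 : wx s d g 1 1 = -d := by simp [wx]
      have e3 : wx s d g 1 2 = xp s d g := by simp [wx]
      have m1 : max a (max b c) = max a c := by rw [max_eq_right hr.2]
      have m2 : min a (min b c) = b := by rw [min_eq_left hr.2, min_eq_right hba]
      simp only [Fin.mk_one, e1, e2, e3, m1, m2]
      refine h2.trans (le_of_eq ?_)
      ring
    · have n1 : ¬ ((⟨2, by norm_num⟩ : Fin 3) = 0) := by decide
      have n2 : ¬ ((⟨2, by norm_num⟩ : Fin 3) = 1) := by decide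
      rw [if_neg n1, if_neg n2] at hr
      have hcb : c ≤ b := (not_le.1 hr.2).le
      have hca : c ≤ a := by
        by_contra h
        exact hr.1 ⟨(not_le.1 h).le.trans hcb, (not_le.1 h).le⟩
      have h2 := wt_ineq hc1 hca hcb (by linarith) (by linarith) (s := s) (d := d) (g := g) hd he
      have e1 : wx s d g 2 0 = xp s d g := by simp [wx]
      have e2 : wx s d g 2 1 = xp s d g := by simp [wx]
      have e3 : wx s d g 2 2 = -d := by simp [wx]
      have m1 : max a (max b c) = max a b := by rw [max_eq_left hcb]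
      have m2 : min a (min b c) = c := by rw [min_eq_right hcb, min_eq_right hca]
      simp only [Fin.reduceFinMk, e1, e2, e3, m1, m2]
      refine h2.trans (le_of_eq ?_)
      ring
  have hW : 0 ≤ Wr s d g r l k := (Wr_pos hl hkl hk).le
  have hlo0 : 0 ≤ lo l k := le_min (by linarith) (le_min (by linarith) (by linarith))
  calc |kap s j l k| * hi l k ^ (-g) ≤ 2 * s * (lo l k * hi l k ^ (2 * s)) * hi l k ^ (-g) :=
        mul_le_mul_of_nonneg_right h1 hgp
    _ = 2 * s * (lo l k * hi l k ^ (2 * s) * hi l k ^ (-g)) := by ring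
    _ ≤ 2 * s * ((2 : ℝ) ^ xp s d g * Wr s d g r l k) := by gcongr
    _ ≤ (2 * s + 1) * ((2 : ℝ) ^ xp s d g * Wr s d g r l k) := by
        apply mul_le_mul_of_nonneg_right (by linarith)
        positivity
    _ = _ := by unfold Kc; ring

lemma cc_le {s : ℕ} {d g : ℝ} (hd : 0 ≤ d) (he : 0 ≤ xp s d g) (j r : Fin 3) (l k : K) :
    |cc s j d g r l k| ≤ 1 := by
  unfold cc
  split_ifs with h
  · obtain ⟨hl, hkl, hk, hr⟩ := h
    have h1 := main_ineq hd he hl hkl hk hr j
    have h2 : 0 < Kc s d g * Wr s d g r l k := mul_pos (Kc_pos _ _ _) (Wr_pos hl hkl hk)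
    rw [abs_div, abs_mul, abs_of_pos h2, abs_of_nonneg (Real.rpow_nonneg (hi_nonneg l k) _)]
    exact div_le_one_of_le₀ h1 h2.le
  · simp

lemma kap_dec (s : ℕ) (j : Fin 3) (d g : ℝ) {l k : K} (hl : l ≠ 0) (hkl : k - l ≠ 0) (hk : k ≠ 0) :
    kap s j l k = ∑ r, Kc s d g * (cc s j d g r l k * hi l k ^ g) * Wr s d g r l k := by
  have hex : ∀ r, Ir r l k → (∀ r', r' ≠ r → ¬ Ir r' l k) →
      kap s j l k = ∑ r, Kc s d g * (cc s j d g r l k * hi l k ^ g) * Wr s d g r l k := by
    intro r hr hr'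
    rw [Finset.sum_eq_single r]
    · unfold cc
      rw [if_pos ⟨hl, hkl, hk, hr⟩]
      have h2 : 0 < Wr s d g r l k := Wr_pos hl hkl hk
      have h3 := Kc_pos s d g
      have h4 : 0 < hi l k := lt_of_lt_of_le one_pos ((one_le_nn hl).trans (le_max_left _ _))
      have h5 : hi l k ^ (-g) * hi l k ^ g = 1 := by rw [← Real.rpow_add h4]; simp
      field_simp
      rw [mul_assoc, h5, mul_one]
    · intro r' _ h
      unfold cc
      rw [if_neg (fun h2 => hr' r' h h2.2.2.2)]
      ring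
    · simp
  by_cases h0 : nn l ≤ nn (k - l) ∧ nn l ≤ nn k
  · refine hex 0 (by unfold Ir; simpa using h0) ?_
    intro r' h
    unfold Ir
    rw [if_neg h]
    split_ifs
    · exact fun h2 => h2.1 h0
    · exact fun h2 => h2.1 h0
  · by_cases h1 : nn (k - l) ≤ nn k
    · refine hex 1 (by unfold Ir; simp only [one_ne_zero, if_false, if_true]; exact ⟨h0, h1⟩) ?_
      intro r' h
      unfold Ir
      split_ifs with h3
      · exact h0
      · exact fun h2 => h2.2 h1
    · refine hex 2 (by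
        unfold Ir
        rw [if_neg (by decide), if_neg (by decide)]
        exact ⟨h0, h1⟩) ?_
      intro r' h
      unfold Ir
      split_ifs with h3 h4
      · exact h0
      · exact fun h2 => h1 h2.2
      · exfalso; fin_cases r' <;> simp_all

/-- multiplication by a power of the frequency -/
noncomputable def mw (e : ℝ) (f : K → ℂ) (k : K) : ℂ := ((nn k ^ e : ℝ) : ℂ) * f k

lemma Tr_dec (s : ℕ) (j : Fin 3) (d g : ℝ) (M : K → K → ℝ) (B : Finset K) {x y z : K → ℂ}
    (hx : x 0 = 0) (hy : y 0 = 0) (hz : z 0 = 0) :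
    Tr (fun l k => kap s j l k * M l k) B x y z = ∑ r, ((Kc s d g : ℝ) : ℂ) *
      Tr (fun l k => cc s j d g r l k * (hi l k ^ g * M l k)) B (mw (wx s d g r 0) x)
        (mw (wx s d g r 1) y) (mw (wx s d g r 2) z) := by
  unfold Tr
  simp only [Finset.mul_sum]
  conv_rhs => rw [Finset.sum_comm]
  refine Finset.sum_congr rfl fun k _ => ?_
  conv_rhs => rw [Finset.sum_comm]
  refine Finset.sum_congr rfl fun l _ => ?_
  by_cases hl : l = 0
  · subst hl; simp [mw, hx]
  by_cases hkl : k - l = 0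
  · simp [mw, hkl, hy]
  by_cases hk : k = 0
  · subst hk; simp [mw, hz]
  have h1 := kap_dec s j d g hl hkl hk
  have h2 : ((kap s j l k : ℝ) : ℂ) =
      ∑ r : Fin 3, ((Kc s d g * (cc s j d g r l k * hi l k ^ g) * Wr s d g r l k : ℝ) : ℂ) := by
    rw [← Complex.ofReal_sum, ← h1]
  push_cast at h2 ⊢
  rw [h2, Finset.sum_mul, Finset.sum_mul]
  refine Finset.sum_congr rfl fun r _ => ?_
  unfold mw Wr
  simp only [map_mul, Complex.conj_ofReal]
  push_cast
  ring

end Pool.Agent.K1H54.RC
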