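import Pool.Agent.K1H54.RC.Ker2

/-!
# Decomposition of a general kernel of order `2 s + 1`
-/

open Set ComplexConjugate MeasureTheory

namespace Pool.Agent.K1H54.RC

open Pool.Agent.H356R3.NS hiding Sol
open Pool.Agent.K1H29.SH (nn nn_nonneg nn_neg abs_le_nn nn_sub_le nn_sub_le' one_le_nn nn_eq_zero)
open Pool.Agent.K1H29.NC (Tr n2)

/-- one inequality between the weights -/
lemma wt_ineq3 {a b c : ℝ} (ha : 1 ≤ a) (hab : a ≤ b) (hac : a ≤ c) (hb : b ≤ a + c) (hc : c ≤ a + b)
    {s : ℕ} {d g : ℝ} (hd : 0 ≤ d) (he : 0 ≤ xp s d g) :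
    (max b c) ^ (2 * s + 1) * (max b c) ^ (-g) ≤
      (2 : ℝ) ^ xp s d g * (a ^ (-d) * (b ^ xp s d g * c ^ xp s d g)) := by
  set e := xp s d g with hee
  have ha0 : 0 < a := by linarith
  -- the case b ≤ c
  have key : ∀ x y : ℝ, a ≤ x → x ≤ y → y ≤ a + x →
      y ^ (2 * s + 1) * y ^ (-g) ≤ (2 : ℝ) ^ e * (a ^ (-d) * (x ^ e * y ^ e)) := by
    intro x y h1 h2 h3
    have hx0 : 0 < x := by linarith
    have hy0 : 0 < y := by linarith
    have e1 : 1 = a ^ (-d) * a ^ d := by
      rw [← Real.rpow_add ha0]; simp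
    have e2 : a ^ d ≤ y ^ d := Real.rpow_le_rpow ha0.le (h1.trans h2) hd
    have e3 : y ^ d * (y ^ (2 * s + 1) * y ^ (-g)) = y ^ e * y ^ e := by
      rw [← Real.rpow_natCast y (2 * s + 1), ← Real.rpow_add hy0, ← Real.rpow_add hy0, ← Real.rpow_add hy0]
      congr 1
      rw [hee]
      unfold xp
      push_cast
      ring
    have e4 : y ^ e ≤ (2 : ℝ) ^ e * x ^ e := by
      rw [← Real.mul_rpow (by norm_num) hx0.le]
      exact Real.rpow_le_rpow hy0.le (by linarith) he
    have p1 : 0 ≤ a ^ (-d) := Real.rpow_nonneg ha0.le _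
    have p2 : 0 ≤ y ^ (2 * s + 1) := pow_nonneg hy0.le _
    have p3 : 0 ≤ y ^ (-g) := Real.rpow_nonneg hy0.le _
    have p4 : 0 ≤ y ^ e := Real.rpow_nonneg hy0.le _
    calc y ^ (2 * s + 1) * y ^ (-g) = (a ^ (-d) * a ^ d) * (y ^ (2 * s + 1) * y ^ (-g)) := by
          rw [← e1, one_mul]
      _ ≤ (a ^ (-d) * y ^ d) * (y ^ (2 * s + 1) * y ^ (-g)) := by gcongr
      _ = a ^ (-d) * (y ^ d * (y ^ (2 * s + 1) * y ^ (-g))) := by ring
      _ = a ^ (-d) * (y ^ e * y ^ e) := by rw [e3]
      _ ≤ a ^ (-d) * (((2 : ℝ) ^ e * x ^ e) * y ^ e) := by gcongr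
      _ = _ := by ring
  rcases le_total b c with h | h
  · rw [max_eq_right h]; exact key b c hab h hc
  · rw [max_eq_left h]
    have := key c b hac h hb
    rwa [mul_comm (c ^ e)] at this

/-- the sides of the triangle -/
lemma tri_ineqs (l k : K) : nn k ≤ nn l + nn (k - l) ∧ nn (k - l) ≤ nn k + nn l ∧
    nn l ≤ nn k + nn (k - l) := by
  refine ⟨nn_sub_le k l, nn_sub_le' k l, ?_⟩
  have := nn_sub_le' k (k - l)
  rwa [show k - (k - l) = l by abel] at this

/-- if one frequency is the lowest, the largest is at most twice the other two -/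
lemma Ir_hi {r : Fin 3} {l k : K} (hr : Ir r l k) :
    (r ≠ 0 → hi l k ≤ 2 * nn l) ∧ (r ≠ 1 → hi l k ≤ 2 * nn (k - l)) ∧ (r ≠ 2 → hi l k ≤ 2 * nn k) := by
  obtain ⟨t1, t2, t3⟩ := tri_ineqs l k
  have p1 := nn_nonneg l
  have p2 := nn_nonneg (k - l)
  have p3 := nn_nonneg k
  unfold Ir at hr
  unfold hi
  fin_cases r
  · simp only [Fin.zero_eta, if_true] at hr
    refine ⟨fun h => absurd rfl h, fun _ => ?_, fun _ => ?_⟩
    · exact max_le (by linarith) (max_le (by linarith) (by linarith))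
    · exact max_le (by linarith) (max_le (by linarith) (by linarith))
  · simp only [Fin.mk_one, Fin.isValue, one_ne_zero, if_false, if_true] at hr
    have hba : nn (k - l) ≤ nn l := by
      by_contra h
      exact hr.1 ⟨(not_le.1 h).le, (not_le.1 h).le.trans hr.2⟩
    refine ⟨fun _ => ?_, fun h => absurd rfl h, fun _ => ?_⟩
    · exact max_le (by linarith) (max_le (by linarith) (by linarith))
    · exact max_le (by linarith) (max_le (by linarith) (by linarith))
  · have n1 : ¬ ((⟨2, by norm_num⟩ : Fin 3) = 0) := by decide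
    have n2 : ¬ ((⟨2, by norm_num⟩ : Fin 3) = 1) := by decide
    rw [if_neg n1, if_neg n2] at hr
    have hcb : nn k ≤ nn (k - l) := (not_le.1 hr.2).le
    have hca : nn k ≤ nn l := by
      by_contra h
      exact hr.1 ⟨(not_le.1 h).le.trans hcb, (not_le.1 h).le⟩
    refine ⟨fun _ => ?_, fun _ => ?_, fun h => absurd rfl h⟩
    · exact max_le (by linarith) (max_le (by linarith) (by linarith))
    · exact max_le (by linarith) (max_le (by linarith) (by linarith))

lemma main_ineq3 {s : ℕ} {d g : ℝ} (hd : 0 ≤ d) (he : 0 ≤ xp s d g) {r : Fin 3} {l k : K}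
    (hl : l ≠ 0) (hkl : k - l ≠ 0) (hk : k ≠ 0) (hr : Ir r l k) :
    hi l k ^ (2 * s + 1) * hi l k ^ (-g) ≤ (2 : ℝ) ^ xp s d g * Wr s d g r l k := by
  obtain ⟨t1, t2, t3⟩ := tri_ineqs l k
  set a := nn l with ha
  set b := nn (k - l) with hb
  set c := nn k with hc
  have ha1 : 1 ≤ a := one_le_nn hl
  have hb1 : 1 ≤ b := one_le_nn hkl
  have hc1 : 1 ≤ c := one_le_nn hk
  have hhi : hi l k = max a (max b c) := rfl
  unfold Wr
  rw [← ha, ← hb, ← hc, hhi]
  unfold Ir at hr
  rw [← ha, ← hb, ← hc] at hr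
  fin_cases r
  · simp only [Fin.zero_eta, if_true] at hr
    have h2 := wt_ineq3 ha1 hr.1 hr.2 (by linarith) (by linarith) (s := s) (d := d) (g := g) hd he
    have e1 : wx s d g 0 0 = -d := by simp [wx]
    have e2 : wx s d g 0 1 = xp s d g := by simp [wx]
    have e3 : wx s d g 0 2 = xp s d g := by simp [wx]
    have m1 : max a (max b c) = max b c := max_eq_right (hr.1.trans (le_max_left _ _))
    simp only [Fin.zero_eta, e1, e2, e3, m1]
    refine h2.trans (le_of_eq ?_)
    ring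
  · simp only [Fin.mk_one, Fin.isValue, one_ne_zero, if_false, if_true] at hr
    have hba : b ≤ a := by
      by_contra h
      exact hr.1 ⟨(not_le.1 h).le, (not_le.1 h).le.trans hr.2⟩
    have h2 := wt_ineq3 hb1 hba hr.2 (by linarith) (by linarith) (s := s) (d := d) (g := g) hd he
    have e1 : wx s d g 1 0 = xp s d g := by simp [wx]
    have e2 : wx s d g 1 1 = -d := by simp [wx]
    have e3 : wx s d g 1 2 = xp s d g := by simp [wx]
    have m1 : max a (max b c) = max a c := by rw [max_eq_right hr.2]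
    simp only [Fin.mk_one, e1, e2, e3, m1]
    refine h2.trans (le_of_eq ?_)
    ring
  · have n1 : ¬ ((⟨2, by norm_num⟩ : Fin 3) = 0) := by decide
    have n2 : ¬ ((⟨2, by norm_num⟩ : Fin 3) = 1) := by decide
    rw [if_neg n1, if_neg n2] at hr
    have hcb : c ≤ b := (not_le.1 hr.2).le
    have hca : c ≤ a := by
      by_contra h
      exact hr.1 ⟨(not_le.1 h).le.trans hcb, (not_le.1 h).le⟩
    have h2 := wt_ineq3 hc1 hca hcb (by linarith) (by linarith) (s := s) (d := d) (g := g) hd he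
    have e1 : wx s d g 2 0 = xp s d g := by simp [wx]
    have e2 : wx s d g 2 1 = xp s d g := by simp [wx]
    have e3 : wx s d g 2 2 = -d := by simp [wx]
    have m1 : max a (max b c) = max a b := by rw [max_eq_left hcb]
    simp only [Fin.reduceFinMk, e1, e2, e3, m1]
    refine h2.trans (le_of_eq ?_)
    ring

open Classical in
/-- the bounded arrays -/
noncomputable def cg (κ : K → K → ℝ) (s : ℕ) (d g : ℝ) (r : Fin 3) (l k : K) : ℝ :=
  if l ≠ 0 ∧ k - l ≠ 0 ∧ k ≠ 0 ∧ Ir r l k then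
    κ l k * hi l k ^ (-g) / ((2 : ℝ) ^ xp s d g * Wr s d g r l k) else 0

/-- kernels of order `2 s + 1` -/
def Ord (κ : K → K → ℝ) (s : ℕ) : Prop := ∀ l k, |κ l k| ≤ hi l k ^ (2 * s + 1)

lemma cg_le {κ : K → K → ℝ} {s : ℕ} (hκ : Ord κ s) {d g : ℝ} (hd : 0 ≤ d) (he : 0 ≤ xp s d g)
    (r : Fin 3) (l k : K) : |cg κ s d g r l k| ≤ 1 := by
  unfold cg
  split_ifs with h
  · obtain ⟨hl, hkl, hk, hr⟩ := h
    have h1 := main_ineq3 (g := g) hd he hl hkl hk hr
    have h2 : 0 < (2 : ℝ) ^ xp s d g * Wr s d g r l k := mul_pos (by positivity) (Wr_pos hl hkl hk)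
    rw [abs_div, abs_mul, abs_of_pos h2, abs_of_nonneg (Real.rpow_nonneg (hi_nonneg l k) _)]
    apply div_le_one_of_le₀ _ h2.le
    exact (mul_le_mul_of_nonneg_right (hκ l k) (Real.rpow_nonneg (hi_nonneg l k) _)).trans h1
  · simp

lemma Ir_unique (l k : K) : ∃ r, Ir r l k ∧ ∀ r', r' ≠ r → ¬ Ir r' l k := by
  by_cases h0 : nn l ≤ nn (k - l) ∧ nn l ≤ nn k
  · refine ⟨0, by unfold Ir; simpa using h0, ?_⟩
    intro r' h
    unfold Ir
    rw [if_neg h]
    split_ifs
    · exact fun h2 => h2.1 h0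
    · exact fun h2 => h2.1 h0
  · by_cases h1 : nn (k - l) ≤ nn k
    · refine ⟨1, by unfold Ir; simp only [one_ne_zero, if_false, if_true]; exact ⟨h0, h1⟩, ?_⟩
      intro r' h
      unfold Ir
      split_ifs with h3
      · exact h0
      · exact fun h2 => h2.2 h1
    · refine ⟨2, by
        unfold Ir
        rw [if_neg (by decide), if_neg (by decide)]
        exact ⟨h0, h1⟩, ?_⟩
      intro r' h
      unfold Ir
      split_ifs with h3 h4
      · exact h0
      · exact fun h2 => h1 h2.2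
      · exfalso; fin_cases r' <;> simp_all

/-- the part of a function at the frequencies larger than `N` -/
noncomputable def hp (N : ℝ) (f : K → ℂ) (k : K) : ℂ := if N < nn k then f k else 0

/-- the projections of the decomposition -/
noncomputable def pj (N : ℝ) (r i : Fin 3) (f : K → ℂ) : K → ℂ := if i = r then f else hp (N / 2) f

lemma Tr_dec3 (κ : K → K → ℝ) (s : ℕ) (d g : ℝ) (M : K → K → ℝ) (B : Finset K) {x y z : K → ℂ}
    (hx : x 0 = 0) (hy : y 0 = 0) {N : ℝ} (hN : 0 ≤ N) (hz : ∀ k, nn k ≤ N → z k = 0) :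
    Tr (fun l k => κ l k * M l k) B x y z = ∑ r, (((2 : ℝ) ^ xp s d g : ℝ) : ℂ) *
      Tr (fun l k => cg κ s d g r l k * (hi l k ^ g * M l k)) B (mw (wx s d g r 0) (pj N r 0 x))
        (mw (wx s d g r 1) (pj N r 1 y)) (mw (wx s d g r 2) (pj N r 2 z)) := by
  have hpz : ∀ (r i : Fin 3) (w : K → ℂ) (k : K), w k = 0 → pj N r i w k = 0 := by
    intro r i w k h
    unfold pj
    split_ifs
    · exact h
    · unfold hp; split_ifs
      · exact h
      · rfl
  unfold Tr
  simp only [Finset.mul_sum]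
  conv_rhs => rw [Finset.sum_comm]
  refine Finset.sum_congr rfl fun k _ => ?_
  conv_rhs => rw [Finset.sum_comm]
  refine Finset.sum_congr rfl fun l _ => ?_
  by_cases hl : l = 0
  · subst hl; simp [mw, hx, hpz _ _ _ _ hx]
  by_cases hkl : k - l = 0
  · simp [mw, hkl, hy, hpz _ _ _ _ hy]
  by_cases hkN : nn k ≤ N
  · simp [mw, hz k hkN, hpz _ _ _ _ (hz k hkN)]
  rw [not_le] at hkN
  have hk : k ≠ 0 := by
    rintro rfl
    rw [nn_eq_zero.2 rfl] at hkN
    linarith
  obtain ⟨r, hr, hr'⟩ := Ir_unique l k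
  rw [Finset.sum_eq_single r]
  · have h2 : 0 < Wr s d g r l k := Wr_pos hl hkl hk
    have h4 : 0 < hi l k := lt_of_lt_of_le one_pos ((one_le_nn hl).trans (le_max_left _ _))
    have h5 : hi l k ^ (-g) * hi l k ^ g = 1 := by rw [← Real.rpow_add h4]; simp
    have h6 : κ l k = (2 : ℝ) ^ xp s d g * (cg κ s d g r l k * hi l k ^ g) * Wr s d g r l k := by
      unfold cg
      rw [if_pos ⟨hl, hkl, hk, hr⟩]
      have h3 : (0 : ℝ) < (2 : ℝ) ^ xp s d g := by positivity
      field_simp
      rw [mul_assoc, h5, mul_one]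
    have hhi : N < hi l k := hkN.trans_le ((le_max_right _ _).trans (le_max_right _ _))
    obtain ⟨i1, i2, i3⟩ := Ir_hi hr
    have q1 : pj N r 0 x l = x l := by
      unfold pj
      split_ifs with h
      · rfl
      · unfold hp
        rw [if_pos]
        have := i1 (fun h' => h h'.symm)
        linarith
    have q2 : pj N r 1 y (k - l) = y (k - l) := by
      unfold pj
      split_ifs with h
      · rfl
      · unfold hp
        rw [if_pos]
        have := i2 (fun h' => h h'.symm)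
        linarith
    have q3 : pj N r 2 z k = z k := by
      unfold pj
      split_ifs with h
      · rfl
      · unfold hp
        rw [if_pos]
        linarith
    have h7 : ((κ l k : ℝ) : ℂ) =
        (((2 : ℝ) ^ xp s d g * (cg κ s d g r l k * hi l k ^ g) * Wr s d g r l k : ℝ) : ℂ) := by rw [← h6]
    unfold mw
    rw [q1, q2, q3]
    unfold Wr at h7
    push_cast at h7 ⊢
    rw [h7]
    simp only [map_mul, Complex.conj_ofReal]
    ring
  · intro r' _ h
    have : cg κ s d g r' l k = 0 := by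
      unfold cg
      rw [if_neg (fun h2 => hr' r' h h2.2.2.2)]
    rw [this]
    simp
  · simp

end Pool.Agent.K1H54.RC
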