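import Pool.Agent.K1H54.RC.Flx4

/-!
# Local triads, and a continuous weight
-/

open Set ComplexConjugate MeasureTheory Finset

namespace Pool.Agent.K1H54.RC

open Pool.Agent.H356R3.NS hiding Sol
open Pool.Agent.K1H29.SH (nn nn_nonneg nn_neg one_le_nn nn_eq_zero abs_le_nn tri mem_tri conv1 conv2 conv3
  ipc en en_nonneg norm_sq_le_en)
open Pool.Agent.K1H29.NC (Tr n2 Wt Bw TT' Tr_tri flux_eq flux_two)

variable {φ : K → K → ℝ} {B : Finset K} {u : K → C3}

lemma hi_neg' (l k : K) : hi (-l) (-k) = hi l k := by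
  unfold hi; rw [show -k - -l = -(k - l) by abel]; simp only [nn_neg]

lemma hi_swap (l k : K) : hi (k - l) k = hi l k := by
  unfold hi; rw [show k - (k - l) = l by abel, max_left_comm]

lemma hi_sym (l k : K) : hi k l = hi l k := by
  unfold hi; rw [show l - k = -(k - l) by abel, nn_neg]
  rw [max_comm (nn (k - l)) (nn l), max_left_comm, max_comm (nn (k - l)) (nn k)]

lemma lo_neg' (l k : K) : lo (-l) (-k) = lo l k := by
  unfold lo; rw [show -k - -l = -(k - l) by abel]; simp only [nn_neg]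

lemma lo_swap (l k : K) : lo (k - l) k = lo l k := by
  unfold lo; rw [show k - (k - l) = l by abel, min_left_comm]

lemma lo_sym (l k : K) : lo k l = lo l k := by
  unfold lo; rw [show l - k = -(k - l) by abel, nn_neg]
  rw [min_comm (nn (k - l)) (nn l), min_left_comm, min_comm (nn (k - l)) (nn k)]

/-- the local triads with top frequency at most `M` -/
def lc (a M : ℝ) (l k : K) : Prop := hi l k ≤ M ∧ hi l k ^ a < lo l k

lemma lc_neg (a M : ℝ) (l k : K) : lc a M (-l) (-k) ↔ lc a M l k := by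
  unfold lc; rw [hi_neg', lo_neg']

lemma lc_swap (a M : ℝ) (l k : K) : lc a M (k - l) k ↔ lc a M l k := by
  unfold lc; rw [hi_swap, lo_swap]

lemma lc_sym (a M : ℝ) (l k : K) : lc a M k l ↔ lc a M l k := by
  unfold lc; rw [hi_sym, lo_sym]

open Classical in
/-- the local part of the weights -/
noncomputable def ph (a M : ℝ) (φ : K → K → ℝ) (l k : K) : ℝ :=
  if l = 0 ∨ k - l = 0 ∨ k = 0 ∨ lc a M l k then φ l k else 0

open Classical in
lemma ph_Wt (hφ : Wt φ) (a M : ℝ) : Wt (ph a M φ) where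
  bd l k := by
    unfold ph
    split_ifs
    · exact hφ.bd l k
    · simp
  zero k := by unfold ph; rw [if_pos (Or.inl rfl), hφ.zero]
  neg l k := by
    unfold ph
    have e : (-l = 0 ∨ -k - -l = 0 ∨ -k = 0 ∨ lc a M (-l) (-k)) ↔ (l = 0 ∨ k - l = 0 ∨ k = 0 ∨ lc a M l k) := by
      rw [lc_neg, neg_eq_zero, neg_eq_zero, show -k - -l = -(k - l) by abel, neg_eq_zero]
    rw [hφ.neg]
    exact if_congr e rfl rfl
  swap l k := by
    unfold ph
    have e : (k - l = 0 ∨ k - (k - l) = 0 ∨ k = 0 ∨ lc a M (k - l) k) ↔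
        (l = 0 ∨ k - l = 0 ∨ k = 0 ∨ lc a M l k) := by
      rw [lc_swap, show k - (k - l) = l by abel]; tauto
    rw [hφ.swap]
    exact if_congr e rfl rfl
  sym l k := by
    unfold ph
    have e : (k = 0 ∨ l - k = 0 ∨ l = 0 ∨ lc a M k l) ↔ (l = 0 ∨ k - l = 0 ∨ k = 0 ∨ lc a M l k) := by
      rw [lc_sym, show l - k = -(k - l) by abel, neg_eq_zero]; tauto
    rw [hφ.sym]
    exact if_congr e rfl rfl

/-! ### the continuous weight -/

/-- the weight `max(|k|, N)^(2s) - N^(2s)` -/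
noncomputable def w2 (N : ℝ) (s : ℕ) (k : K) : ℝ := if N < nn k then nn k ^ (2 * s) - N ^ (2 * s) else 0

lemma w2_nonneg {N : ℝ} (hN : 0 ≤ N) (s : ℕ) (k : K) : 0 ≤ w2 N s k := by
  unfold w2
  split_ifs with h
  · have := pow_le_pow_left₀ hN h.le (2 * s)
    linarith
  · exact le_rfl

lemma w2_le {N : ℝ} (hN : 0 ≤ N) (s : ℕ) (k : K) : w2 N s k ≤ wN N s k := by
  unfold w2 wN
  split_ifs
  · have : 0 ≤ N ^ (2 * s) := by positivity
    linarith
  · exact le_rfl

lemma w2_neg (N : ℝ) (s : ℕ) (k : K) : w2 N s (-k) = w2 N s k := by unfold w2; rw [nn_neg]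

lemma w2_eq (N : ℝ) (s : ℕ) (k : K) : w2 N s k = wN N s k - N ^ (2 * s) * wN N 0 k := by
  unfold w2 wN
  split_ifs <;> simp

lemma wN_eq (N : ℝ) (s : ℕ) (k : K) : wN N s k = w2 N s k + N ^ (2 * s) * wN N 0 k := by
  rw [w2_eq]; ring

lemma w2_low {N : ℝ} (s : ℕ) {k l : K} (h : hi l k ≤ N) : w2 N s k - w2 N s (k - l) = 0 := by
  have h1 : nn k ≤ N := ((le_max_right _ _).trans (le_max_right _ _)).trans h
  have h2 : nn (k - l) ≤ N := ((le_max_left _ _).trans (le_max_right _ _)).trans h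
  unfold w2
  rw [if_neg (not_lt.2 h1), if_neg (not_lt.2 h2), sub_zero]

lemma w2_diff {N : ℝ} (hN : 0 ≤ N) (s : ℕ) (k l : K) :
    |w2 N s k - w2 N s (k - l)| * min (nn (k - l)) (nn k) ≤ 2 * s * (lo l k * hi l k ^ (2 * s)) := by
  obtain ⟨t1, t2, t3⟩ := tri_ineqs l k
  have ha0 := nn_nonneg l
  have hb0 := nn_nonneg (k - l)
  have hc0 := nn_nonneg k
  have hp := pow_diff ha0 hb0 hc0 t1 t2 s
  have hm : 0 ≤ min (nn (k - l)) (nn k) := le_min hb0 hc0
  refine le_trans (mul_le_mul_of_nonneg_right ?_ hm) hp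
  unfold w2
  split_ifs with h1 h2 h2
  · rw [show nn k ^ (2 * s) - N ^ (2 * s) - (nn (k - l) ^ (2 * s) - N ^ (2 * s))
      = nn k ^ (2 * s) - nn (k - l) ^ (2 * s) by ring]
  · rw [not_lt] at h2
    have e1 := pow_le_pow_left₀ hN h1.le (2 * s)
    have e2 := pow_le_pow_left₀ hb0 h2 (2 * s)
    rw [sub_zero, abs_of_nonneg (by linarith), abs_of_nonneg (by linarith)]
    linarith
  · rw [not_lt] at h1
    have e1 := pow_le_pow_left₀ hN h2.le (2 * s)
    have e2 := pow_le_pow_left₀ hc0 h1 (2 * s)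
    rw [zero_sub, abs_neg, abs_of_nonneg (by linarith), abs_sub_comm, abs_of_nonneg (by linarith)]
    linarith
  · simp

/-! ### nonlocal triads -/

/-- the three products of a nonlocal triad -/
lemma triple2 {N a d : ℝ} (hd : 0 ≤ d) (ha : 0 ≤ a) (s : ℕ) {k l : K} (hl : l ≠ 0)
    (hkl : k - l ≠ 0) (hk : k ≠ 0) (hNh : N < hi l k) (hlo : lo l k ≤ hi l k ^ a) {F : K → ℝ}
    (hF : ∀ k, 0 ≤ F k) {f g : K → ℝ} (hf : ∀ k, f k = nn k ^ (-d) * F k)
    (hg : ∀ k, g k = if N / 2 < nn k then nn k ^ ((s : ℝ) + a * (1 + d) / 2) * F k else 0) :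
    lo l k * hi l k ^ (2 * s) * (F l * (F (k - l) * F k)) ≤
      2 ^ ((s : ℝ) + a * (1 + d) / 2) * (f l * (g k * g (k - l)) + f (k - l) * (g k * g l)
        + f k * (g (k - l) * g l)) := by
  obtain ⟨t1, t2, t3⟩ := tri_ineqs l k
  have hl1 := one_le_nn hl
  have hkl1 := one_le_nn hkl
  have hk1 := one_le_nn hk
  have hlod : lo l k = min (nn l) (min (nn (k - l)) (nn k)) := rfl
  have hhi : hi l k = max (nn l) (max (nn (k - l)) (nn k)) := rfl
  have f0 : ∀ k, 0 ≤ f k := fun k => by rw [hf]; exact mul_nonneg (Real.rpow_nonneg (nn_nonneg k) _) (hF k)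
  have g0 : ∀ k, 0 ≤ g k := fun k => by
    rw [hg]
    split_ifs
    · exact mul_nonneg (Real.rpow_nonneg (nn_nonneg k) _) (hF k)
    · exact le_rfl
  have key : ∀ x y z : K, lo l k = nn x → 1 ≤ nn x → nn x ≤ nn y → nn x ≤ nn z →
      hi l k = max (nn y) (nn z) → nn y ≤ nn x + nn z → nn z ≤ nn x + nn y →
      lo l k * hi l k ^ (2 * s) * (F x * (F y * F z)) ≤
        2 ^ ((s : ℝ) + a * (1 + d) / 2) * (f x * (g y * g z)) := by
    intro x y z e1 e2 e3 e4 e5 e6 e7
    have hx : 0 < nn x := by linarith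
    have hy : 0 < nn y := by linarith
    have hz : 0 < nn z := by linarith
    set H := max (nn y) (nn z) with hH
    have hH0 : 0 < H := lt_of_lt_of_le hy (le_max_left _ _)
    have hmax : H ≤ 2 * nn y ∧ H ≤ 2 * nn z :=
      ⟨max_le (by linarith) (by linarith), max_le (by linarith) (by linarith)⟩
    rw [e5] at hNh hlo
    rw [e1] at hlo
    rw [hf, hg, hg, if_pos (by linarith [hmax.1]), if_pos (by linarith [hmax.2]), e1, e5]
    set b := a * (1 + d) / 2 with hb
    have hb0 : 0 ≤ b := by rw [hb]; positivity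
    -- `|x| ≤ |x|^(-d) H^(2b)`
    have h1 : nn x ≤ nn x ^ (-d) * H ^ (2 * b) := by
      have e : nn x = nn x ^ (-d) * nn x ^ (1 + d) := by
        rw [← Real.rpow_add hx]; ring_nf; simp
      have h2 : nn x ^ (1 + d) ≤ H ^ (2 * b) := by
        calc nn x ^ (1 + d) ≤ (H ^ a) ^ (1 + d) := Real.rpow_le_rpow hx.le hlo (by linarith)
          _ = H ^ (2 * b) := by rw [← Real.rpow_mul hH0.le, hb]; congr 1; ring
      calc nn x = nn x ^ (-d) * nn x ^ (1 + d) := e
        _ ≤ _ := mul_le_mul_of_nonneg_left h2 (by positivity)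
    have h3 : H ^ (2 * b) * H ^ (2 * s) = (H * H) ^ ((s : ℝ) + b) := by
      rw [Real.mul_rpow hH0.le hH0.le, ← Real.rpow_natCast H (2 * s), ← Real.rpow_add hH0,
        ← Real.rpow_add hH0]
      congr 1
      push_cast
      ring
    have h4 : (H * H) ^ ((s : ℝ) + b) ≤ 2 ^ ((s : ℝ) + b) * (nn y ^ ((s : ℝ) + b) * nn z ^ ((s : ℝ) + b)) := by
      have h5 : H * H ≤ 2 * (nn y * nn z) := by
        rcases le_total (nn y) (nn z) with h | h
        · rw [hH, max_eq_right h] at *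
          nlinarith
        · rw [hH, max_eq_left h] at *
          nlinarith
      calc (H * H) ^ ((s : ℝ) + b) ≤ (2 * (nn y * nn z)) ^ ((s : ℝ) + b) :=
            Real.rpow_le_rpow (by positivity) h5 (by positivity)
        _ = _ := by rw [Real.mul_rpow (by norm_num) (by positivity), Real.mul_rpow hy.le hz.le]
    have p1 : 0 ≤ F x * (F y * F z) := mul_nonneg (hF x) (mul_nonneg (hF y) (hF z))
    calc nn x * H ^ (2 * s) * (F x * (F y * F z))
        ≤ (nn x ^ (-d) * H ^ (2 * b)) * H ^ (2 * s) * (F x * (F y * F z)) := by gcongr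
      _ = nn x ^ (-d) * (H * H) ^ ((s : ℝ) + b) * (F x * (F y * F z)) := by rw [mul_assoc (nn x ^ (-d)), h3]
      _ ≤ nn x ^ (-d) * (2 ^ ((s : ℝ) + b) * (nn y ^ ((s : ℝ) + b) * nn z ^ ((s : ℝ) + b))) *
          (F x * (F y * F z)) := by gcongr
      _ = _ := by ring
  have q1 : 0 ≤ f l * (g k * g (k - l)) := mul_nonneg (f0 _) (mul_nonneg (g0 _) (g0 _))
  have q2 : 0 ≤ f (k - l) * (g k * g l) := mul_nonneg (f0 _) (mul_nonneg (g0 _) (g0 _))
  have q3 : 0 ≤ f k * (g (k - l) * g l) := mul_nonneg (f0 _) (mul_nonneg (g0 _) (g0 _))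
  set c : ℝ := 2 ^ ((s : ℝ) + a * (1 + d) / 2) with hc
  have q0 : 0 ≤ c := by positivity
  by_cases c1 : nn l ≤ nn (k - l) ∧ nn l ≤ nn k
  · have := key l (k - l) k (by rw [hlod, min_eq_left (le_min c1.1 c1.2)]) hl1 c1.1 c1.2
      (by rw [hhi, max_eq_right (c1.1.trans (le_max_left _ _))]) (by linarith) (by linarith)
    nlinarith [mul_nonneg q0 q2, mul_nonneg q0 q3]
  · by_cases c2 : nn (k - l) ≤ nn k
    · have hba : nn (k - l) ≤ nn l := by
        by_contra h3
        exact c1 ⟨(not_le.1 h3).le, (not_le.1 h3).le.trans c2⟩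
      have := key (k - l) l k (by rw [hlod, min_eq_left c2, min_eq_right hba]) hkl1 hba c2
        (by rw [hhi, max_eq_right c2]) (by linarith) (by linarith)
      have e : F (k - l) * (F l * F k) = F l * (F (k - l) * F k) := by ring
      rw [e] at this
      nlinarith [mul_nonneg q0 q1, mul_nonneg q0 q3]
    · have hcb : nn k ≤ nn (k - l) := (not_le.1 c2).le
      have hca : nn k ≤ nn l := by
        by_contra h3
        exact c1 ⟨(not_le.1 h3).le.trans hcb, (not_le.1 h3).le⟩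
      have := key k l (k - l) (by rw [hlod, min_eq_right hcb, min_eq_right hca]) hk1 hca hcb
        (by rw [hhi, max_eq_left hcb]) (by linarith) (by linarith)
      have e : F k * (F l * F (k - l)) = F l * (F (k - l) * F k) := by ring
      rw [e] at this
      nlinarith [mul_nonneg q0 q1, mul_nonneg q0 q2]

end Pool.Agent.K1H54.RC
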