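import Pool.Agent.K1H54.RC.Uni

/-!
# Random couplings: global regularity
-/

open Set ComplexConjugate MeasureTheory ProbabilityTheory

namespace Pool.Agent.K1H54.RC

open Pool.Agent.H356R3.NS hiding Sol
open Pool.Agent.K1H29
open Pool.Agent.K1H29.SH (nn nn_nonneg nn_neg one_le_nn nn_eq_zero nn_le_nk nk_le_two_nn)
open Pool.Agent.K1H29.NC (Wt Data FSW)

/-- the symbol of the dissipation -/
noncomputable def sy (ν α : ℝ) (k : K) : ℝ := ν * ((2 * Real.pi) ^ 2 * ∑ j, (k j : ℝ) ^ 2) ^ α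

lemma sy_eq (ν α : ℝ) (k : K) : sy ν α k = ν * (((2 * Real.pi) ^ 2) ^ α * nk k ^ (2 * α)) := by
  unfold sy
  have h1 : ∑ j, (k j : ℝ) ^ 2 = nk k ^ 2 := by rw [nk_sq]; rfl
  rw [h1, Real.mul_rpow (by positivity) (by positivity), ← Real.rpow_natCast (nk k) 2,
    ← Real.rpow_mul (nk_nonneg k)]
  push_cast
  rfl

lemma sy_nonneg {ν : ℝ} (hν : 0 ≤ ν) (α : ℝ) (k : K) : 0 ≤ sy ν α k := by
  unfold sy; positivity

lemma sy_neg (ν α : ℝ) (k : K) : sy ν α (-k) = sy ν α k := by unfold sy; simp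

lemma sy_zero (ν : ℝ) {α : ℝ} (hα : α ≠ 0) : sy ν α 0 = 0 := by
  unfold sy; simp [Real.zero_rpow hα]

lemma sy_ge {ν α : ℝ} (hν : 0 ≤ ν) (hα : 0 ≤ α) (k : K) :
    (ν * ((2 * Real.pi) ^ 2) ^ α) * nn k ^ (2 * α) ≤ sy ν α k := by
  rw [sy_eq, mul_assoc]
  apply mul_le_mul_of_nonneg_left _ hν
  apply mul_le_mul_of_nonneg_left _ (by positivity)
  exact Real.rpow_le_rpow (nn_nonneg k) (nn_le_nk k) (by positivity)

lemma sy_le {ν α : ℝ} (hν : 0 ≤ ν) (hα : 0 < α) (k : K) :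
    |sy ν α k| ≤ (ν * ((2 * Real.pi) ^ 2) ^ α * 2 ^ (2 * α)) * nn k ^ ⌈2 * α⌉₊ := by
  rw [abs_of_nonneg (sy_nonneg hν α k)]
  by_cases hk : k = 0
  · subst hk
    rw [sy_zero ν hα.ne']
    have := nn_nonneg (0 : K)
    positivity
  rw [sy_eq]
  have h1 := one_le_nn hk
  have h2 : nk k ^ (2 * α) ≤ 2 ^ (2 * α) * nn k ^ (2 * α) := by
    rw [← Real.mul_rpow (by norm_num) (nn_nonneg k)]
    exact Real.rpow_le_rpow (nk_nonneg k) (nk_le_two_nn k) (by positivity)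
  have h3 : nn k ^ (2 * α) ≤ nn k ^ ⌈2 * α⌉₊ := by
    rw [← Real.rpow_natCast]
    exact Real.rpow_le_rpow_of_exponent_le h1 (Nat.le_ceil _)
  have p1 : 0 ≤ ν * ((2 * Real.pi) ^ 2) ^ α := by positivity
  calc ν * (((2 * Real.pi) ^ 2) ^ α * nk k ^ (2 * α))
      = (ν * ((2 * Real.pi) ^ 2) ^ α) * nk k ^ (2 * α) := by ring
    _ ≤ (ν * ((2 * Real.pi) ^ 2) ^ α) * (2 ^ (2 * α) * nn k ^ ⌈2 * α⌉₊) := by
        apply mul_le_mul_of_nonneg_left _ p1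
        exact h2.trans (mul_le_mul_of_nonneg_left h3 (by positivity))
    _ = _ := by ring

/-- solutions on the Fourier side -/
theorem fsw_of_fluxB {φ : K → K → ℝ} (hφ : Wt φ) {b α ν : ℝ} (hF : FluxB φ b) (hb0 : 0 ≤ b)
    (hbα : b < α) (hν : 0 < ν) {v : R3 → R3} (hv : Data v) : ∃ u, FSW φ (sy ν α) (Wz v) u := by
  have hα : 0 < α := hb0.trans_lt hbα
  exact exists_fsw hφ hF hb0 hbα (m0 := ν * ((2 * Real.pi) ^ 2) ^ α) (by positivity) (sy_nonneg hν.le α)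
    (sy_neg ν α) (sy_ge hν.le hα.le) hv

theorem solD_of_fluxB {φ : K → K → ℝ} (hφ : Wt φ) {b α ν : ℝ} (hF : FluxB φ b) (hb0 : 0 ≤ b)
    (hbα : b < α) (hν : 0 < ν) {v : R3 → R3} (hv : Data v) : ∃ u p, SolD φ (sy ν α) v u p ∧
      ∀ u' p', SolD φ (sy ν α) v u' p' → ∀ t, 0 ≤ t → u' t = u t := by
  have hα : 0 < α := hb0.trans_lt hbα
  obtain ⟨u, hu⟩ := fsw_of_fluxB hφ hF hb0 hbα hν hv
  have hd := sy_le hν.le hα
  have hd' : ∀ k, |sy ν α k| ≤ (ν * ((2 * Real.pi) ^ 2) ^ α * 2 ^ (2 * α)) * pw k ^ ⌈2 * α⌉₊ := by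
    intro k
    refine (hd k).trans ?_
    apply mul_le_mul_of_nonneg_left _ (by positivity)
    exact pow_le_pow_left₀ (nn_nonneg k) ((nn_le_nk k).trans (nk_le_pw k)) _
  have h1 := physicalD hφ hu hd' (sy_zero ν hα.ne') (fun i => (fc v 0 i).re) (Wz_inv hv)
  exact ⟨_, _, h1, fun u' p' h' t ht => uniqueD hφ (sy_nonneg hν.le α) hd h' h1 ht⟩

theorem sol_of_fluxB {φ : K → K → ℝ} (hφ : Wt φ) {b ν : ℝ} (hF : FluxB φ b) (hb0 : 0 ≤ b)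
    (hb1 : b < 1) (hν : 0 < ν) {v : R3 → R3} (hv : Data v) : ∃ u p, NC.Sol φ ν v u p ∧
      ∀ u' p', NC.Sol φ ν v u' p' → ∀ t, 0 ≤ t → u' t = u t := by
  obtain ⟨u, hu⟩ := fsw_of_fluxB hφ hF hb0 hb1 hν hv
  have e : sy ν 1 = fun k => 4 * Real.pi ^ 2 * ν * Pool.Agent.H356R3.NS.sq k := by
    funext k
    unfold sy
    rw [Real.rpow_one]
    have : ∑ j, (k j : ℝ) ^ 2 = Pool.Agent.H356R3.NS.sq k := rfl
    rw [this]
    ring
  rw [e] at hu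
  have h1 := hu.physical hφ (fun i => (fc v 0 i).re) (Wz_inv hv)
  exact ⟨_, _, h1, fun u' p' h' t ht => NC.unique hφ hν h' h1 ht⟩

variable {Ω : Type*} [MeasurableSpace Ω] {P : Measure Ω} [IsProbabilityMeasure P]
  {X : Sym2 (Multiset K) → Ω → ℝ}

theorem main (hX : ∀ t, Measurable (X t)) (hb : ∀ t ω, |X t ω| ≤ 1) (hI : iIndepFun X P)
    {γ C : ℝ} (hγ : 0 ≤ γ)
    (hE : ∀ l k, |∫ ω, X (trd l k) ω ∂P| ≤ C * (1 + ‖l‖ + ‖k‖) ^ (-γ)) :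
    ∀ᵐ ω ∂P, (∀ (α ν : ℝ) (v : R3 → R3), 1 / 2 < α → 5 / 4 - γ / 2 < α → 0 < ν → Data v →
      ∃ u p, SolD (cpl fun t => X t ω) (sy ν α) v u p ∧
        ∀ u' p', SolD (cpl fun t => X t ω) (sy ν α) v u' p' → ∀ t, 0 ≤ t → u' t = u t) ∧
      (1 / 2 < γ → ∀ (ν : ℝ) (v : R3 → R3), 0 < ν → Data v →
      ∃ u p, NC.Sol (cpl fun t => X t ω) ν v u p ∧
        ∀ u' p', NC.Sol (cpl fun t => X t ω) ν v u' p' → ∀ t, 0 ≤ t → u' t = u t) := by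
  filter_upwards [ae_fluxB hX hb hI hγ hE] with ω hω
  have hφ := cpl_Wt fun t => hb t ω
  refine ⟨fun α ν v h1 h2 hν hv => ?_, fun h1 ν v hν hv => ?_⟩
  · obtain ⟨b, hb1, hb2⟩ := exists_between (max_lt h1 h2)
    have b1 : 1 / 2 < b := (le_max_left _ _).trans_lt hb1
    have b2 : 5 / 4 - γ / 2 < b := (le_max_right _ _).trans_lt hb1
    exact solD_of_fluxB hφ (hω b b1 b2) (by linarith) hb2 hν hv
  · obtain ⟨b, hb1, hb2⟩ := exists_between (max_lt (show (1 : ℝ) / 2 < 1 by norm_num)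
      (show 5 / 4 - γ / 2 < 1 by linarith))
    have b1 : 1 / 2 < b := (le_max_left _ _).trans_lt hb1
    have b2 : 5 / 4 - γ / 2 < b := (le_max_right _ _).trans_lt hb1
    exact sol_of_fluxB hφ (hω b b1 b2) (by linarith) hb2 hν hv

end Pool.Agent.K1H54.RC
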