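import Pool.Agent.K1H54.RC.Prob3
import Pool.Agent.K1H54.RC.Gal3
import Pool.Agent.K1H54.RC.Main

/-!
# Random couplings in sparse bands: global regularity
-/

open Set ComplexConjugate MeasureTheory ProbabilityTheory

namespace Pool.Agent.K1H54.RC

open Pool.Agent.H356R3.NS hiding Sol
open Pool.Agent.K1H29
open Pool.Agent.K1H29.SH (nn nn_nonneg nn_neg one_le_nn nn_eq_zero nn_le_nk nk_le_two_nn ipc en en_nonneg
  norm_sq_le_en)
open Pool.Agent.K1H29.NC (Wt Data FSW Bw Btw Bw_zero GalW exists_limitW)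
open Pool.Agent.K1H29.RD (Es Es_nonneg)

variable {φ : K → K → ℝ} {m : K → ℝ}

lemma Wz_bd {v : R3 → R3} (hv : Data v) :
    ∀ s : ℕ, ∃ C, ∀ B : Finset K, ∑ k ∈ B, nn k ^ (2 * s) * en (Wz v k) ≤ C := by
  have hv' : SH.Data v := ⟨hv.smooth, hv.periodic, hv.divFree⟩
  have hWen : ∀ k, en (Wz v k) ≤ en (fc v k) := fun k => by
    unfold Wz
    split_ifs
    · unfold en; simp only [Pi.zero_apply, norm_zero]
      have := en_nonneg (fc v k)
      unfold en at this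
      simpa using this
    · exact le_rfl
  intro s
  obtain ⟨C, hC⟩ := hv'.hV s
  refine ⟨C, fun B => (Finset.sum_le_sum fun k _ => ?_).trans (hC B)⟩
  exact mul_le_mul_of_nonneg_left (hWen k) (pow_nonneg (nn_nonneg k) _)

theorem exists_fsw' (hφ : Wt φ) (hmn : ∀ k, 0 ≤ m k) (hme : ∀ k, m (-k) = m k) {v : R3 → R3}
    (hv : Data v) (hu : ∀ s : ℕ, ∃ C, ∀ (B : Finset K) (T : ℝ) (u : ℝ → K → C3), (0 : K) ∉ B → 0 ≤ T →
      GalW φ m B T (Wz v) u → ∀ t ∈ Icc 0 T, Es s B (u t) ≤ C) : ∃ u, FSW φ m (Wz v) u := by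
  have hWs : Sym (Wz v) := by
    intro k i
    unfold Wz
    by_cases h : k = 0
    · rw [if_pos h, if_pos (by rw [h, neg_zero])]; simp
    · rw [if_neg h, if_neg (by simpa using h)]; exact fc_sym v k i
  have hWd : ∀ k, dt k (Wz v k) = 0 := by
    intro k
    unfold Wz
    split_ifs
    · simp [dt]
    · exact fc_div (hv.smooth.of_le (by norm_cast)) hv.periodic hv.divFree k
  set Λ : Set K := {k | k ≠ 0} with hΛ
  have hΛn : ∀ k ∈ Λ, -k ∈ Λ := fun k hk => by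
    simp only [hΛ, mem_ofPred_eq] at *
    simpa using hk
  have hVL : ∀ k, k ∉ Λ → Wz v k = 0 := by
    intro k hk
    have : k = 0 := by simpa [hΛ] using hk
    unfold Wz
    rw [if_pos this]
  have hbd' : ∀ p : ℕ, ∃ b : K → ℝ, Summable b ∧ ∀ (B : Finset K) (T : ℝ) (u : ℝ → K → C3),
      (∀ k ∈ B, k ∈ Λ) → 0 ≤ T → GalW φ m B T (Wz v) u → ∀ t ∈ Icc 0 T, ∀ k, pw k ^ p * ‖u t k‖ ≤ b k := by
    intro p
    obtain ⟨b, hb, hb'⟩ := SH.dom_of_bound (P := fun w => ∃ (B : Finset K) (T : ℝ) (u : ℝ → K → C3),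
      (∀ k ∈ B, k ∈ Λ) ∧ 0 ≤ T ∧ GalW φ m B T (Wz v) u ∧ ∃ t ∈ Icc 0 T, u t = w) (fun σ => by
        obtain ⟨C, hC⟩ := hu σ
        refine ⟨C, ?_⟩
        rintro w ⟨B, T, u, hB, hT, hu, t, ht, rfl⟩ k
        have h1 := hC B T u (fun h => hB 0 h rfl) hT hu t ht
        refine le_trans ?_ h1
        by_cases hk : k ∈ B
        · calc nn k ^ (2 * σ) * ‖u t k‖ ^ 2 ≤ nn k ^ (2 * σ) * en (u t k) :=
                mul_le_mul_of_nonneg_left (norm_sq_le_en _) (pow_nonneg (nn_nonneg k) _)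
            _ ≤ _ := Finset.single_le_sum (f := fun k => nn k ^ (2 * σ) * en (u t k))
                (fun k _ => mul_nonneg (pow_nonneg (nn_nonneg k) _) (en_nonneg _)) hk
        · rw [hu.supp t ht k hk, norm_zero]
          have := Es_nonneg σ B (u t)
          simpa using this) p
    exact ⟨b, hb, fun B T u hB hT hu t ht k => hb' _ ⟨B, T, u, hB, hT, hu, t, ht, rfl⟩ k⟩
  obtain ⟨u, h1, h2, h3, h4, h5, h6, h7⟩ := exists_limitW hφ hΛn hmn hme hWs hWd hVL hbd'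
  refine ⟨u, h1, h2, h3, h4, h5, fun k t ht => ?_⟩
  by_cases hk : k ∈ Λ
  · exact h6 k hk t ht
  · have hk0 : k = 0 := by simpa [hΛ] using hk
    have e1 : u k = fun _ => 0 := funext fun s => h7 k hk s
    have e2 : -(m k) • u k t + NC.Btw φ u k t = 0 := by
      rw [h7 k hk t, smul_zero, zero_add, hk0]
      exact Bw_zero _ _
    rw [e2, e1]
    exact hasDerivAt_const _ _

/-- solutions on the Fourier side -/
theorem fsw_of_band (hφ : Wt φ) {S : Set ℕ} (hS : S.Infinite) {p b α ν : ℝ} (hBd : BandB φ S p b)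
    (hb0 : 0 ≤ b) (hbα : b < α) (hp1 : 1 < p) (hpα : 5 / 4 < α * p) (hν : 0 < ν) {v : R3 → R3}
    (hv : Data v) : ∃ u, FSW φ (sy ν α) (Wz v) u := by
  have hα : 0 < α := hb0.trans_lt hbα
  refine exists_fsw' hφ (sy_nonneg hν.le α) (sy_neg ν α) hv fun s => ?_
  have h3 := fun (r : ℕ) (hr : 3 ≤ r) => unifS (m := sy ν α) (V := Wz v) hφ hS hBd hb0 hbα hp1 hpα
    (m0 := ν * ((2 * Real.pi) ^ 2) ^ α) (by positivity) (sy_nonneg hν.le α) (sy_ge hν.le hα.le)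
    (Wz_bd hv) hr
  obtain ⟨C, hC⟩ := h3 (s + 3) (by omega)
  refine ⟨C, fun B T u h0 hT h t ht => le_trans ?_ (hC B T u h0 hT h t ht)⟩
  unfold Es
  refine Finset.sum_le_sum fun k hk => mul_le_mul_of_nonneg_right ?_ (en_nonneg _)
  have hk0 : k ≠ 0 := fun h => h0 (h ▸ hk)
  exact pow_le_pow_right₀ (one_le_nn hk0) (by omega)

theorem solD_of_fsw (hφ : Wt φ) {α ν : ℝ} (hα : 0 < α) (hν : 0 < ν) {v : R3 → R3} (hv : Data v)
    (h : ∃ u, FSW φ (sy ν α) (Wz v) u) : ∃ u p, SolD φ (sy ν α) v u p ∧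
      ∀ u' p', SolD φ (sy ν α) v u' p' → ∀ t, 0 ≤ t → u' t = u t := by
  obtain ⟨u, hu⟩ := h
  have hd := sy_le hν.le hα
  have hd' : ∀ k, |sy ν α k| ≤ (ν * ((2 * Real.pi) ^ 2) ^ α * 2 ^ (2 * α)) * pw k ^ ⌈2 * α⌉₊ := by
    intro k
    refine (hd k).trans ?_
    apply mul_le_mul_of_nonneg_left _ (by positivity)
    exact pow_le_pow_left₀ (nn_nonneg k) ((nn_le_nk k).trans (nk_le_pw k)) _
  have h1 := physicalD hφ hu hd' (sy_zero ν hα.ne') (fun i => (fc v 0 i).re) (Wz_inv hv)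
  exact ⟨_, _, h1, fun u' p' h' t ht => uniqueD hφ (sy_nonneg hν.le α) hd h' h1 ht⟩

theorem sol_of_fsw (hφ : Wt φ) {ν : ℝ} (hν : 0 < ν) {v : R3 → R3} (hv : Data v)
    (h : ∃ u, FSW φ (sy ν 1) (Wz v) u) : ∃ u p, NC.Sol φ ν v u p ∧
      ∀ u' p', NC.Sol φ ν v u' p' → ∀ t, 0 ≤ t → u' t = u t := by
  obtain ⟨u, hu⟩ := h
  have e : sy ν 1 = fun k => 4 * Real.pi ^ 2 * ν * Pool.Agent.H356R3.NS.sq k := by
    funext k
    unfold sy
    rw [Real.rpow_one]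
    have : ∑ j, (k j : ℝ) ^ 2 = Pool.Agent.H356R3.NS.sq k := rfl
    rw [this]
    ring
  rw [e] at hu
  have h1 := hu.physical hφ (fun i => (fc v 0 i).re) (Wz_inv hv)
  exact ⟨_, _, h1, fun u' p' h' t ht => NC.unique hφ hν h' h1 ht⟩

variable {Ω : Type*} [MeasurableSpace Ω] {P : Measure Ω} [IsProbabilityMeasure P]
  {X : Sym2 (Multiset K) → Ω → ℝ}

theorem main3 (hX : ∀ t, Measurable (X t)) (hb : ∀ t ω, |X t ω| ≤ 1) (hI : iIndepFun X P)
    {S : Set ℕ} (hS : S.Infinite) {p γ C : ℝ} (hp : 1 < p) (hγ : 0 ≤ γ)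
    (hE : ∀ N ∈ S, ∀ l k, (N : ℝ) < hi l k → hi l k ≤ (N : ℝ) ^ p →
      |∫ ω, X (trd l k) ω ∂P| ≤ C * hi l k ^ (-γ)) :
    ∀ᵐ ω ∂P, (∀ (α ν : ℝ) (v : R3 → R3), 1 / 2 < α → 5 / 4 - γ / 2 < α → 5 / 4 < α * p → 0 < ν → Data v →
      ∃ u q, SolD (cpl fun t => X t ω) (sy ν α) v u q ∧
        ∀ u' q', SolD (cpl fun t => X t ω) (sy ν α) v u' q' → ∀ t, 0 ≤ t → u' t = u t) ∧
      (1 / 2 < γ → 5 / 4 < p → ∀ (ν : ℝ) (v : R3 → R3), 0 < ν → Data v →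
      ∃ u q, NC.Sol (cpl fun t => X t ω) ν v u q ∧
        ∀ u' q', NC.Sol (cpl fun t => X t ω) ν v u' q' → ∀ t, 0 ≤ t → u' t = u t) := by
  filter_upwards [ae_bandB hX hb hI hγ hE] with ω hω
  have hφ := cpl_Wt fun t => hb t ω
  have key : ∀ (α ν : ℝ) (v : R3 → R3), 1 / 2 < α → 5 / 4 - γ / 2 < α → 5 / 4 < α * p → 0 < ν → Data v →
      ∃ u, FSW (cpl fun t => X t ω) (sy ν α) (Wz v) u := by
    intro α ν v h1 h2 h3 hν hv
    obtain ⟨b, hb1, hb2⟩ := exists_between (max_lt h1 h2)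
    have b1 : 1 / 2 < b := (le_max_left _ _).trans_lt hb1
    have b2 : 5 / 4 - γ / 2 < b := (le_max_right _ _).trans_lt hb1
    exact fsw_of_band hφ hS (hω b b1 b2) (by linarith) hb2 hp h3 hν hv
  refine ⟨fun α ν v h1 h2 h3 hν hv => ?_, fun h1 h3 ν v hν hv => ?_⟩
  · exact solD_of_fsw hφ (by linarith) hν hv (key α ν v h1 h2 h3 hν hv)
  · exact sol_of_fsw hφ hν hv (key 1 ν v (by norm_num) (by linarith) (by linarith) hν hv)

end Pool.Agent.K1H54.RC
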