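import Pool.Agent.K1H54.RC.Prob4
import Pool.Agent.K1H54.RC.Gal4
import Pool.Agent.K1H54.RC.Main3

/-!
# Random couplings of the local triads in sparse bands: global regularity
-/

open Set ComplexConjugate MeasureTheory ProbabilityTheory

namespace Pool.Agent.K1H54.RC

open Pool.Agent.H356R3.NS hiding Sol
open Pool.Agent.K1H29
open Pool.Agent.K1H29.SH (nn nn_nonneg nn_neg one_le_nn nn_eq_zero nn_le_nk nk_le_two_nn ipc en en_nonneg
  norm_sq_le_en)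
open Pool.Agent.K1H29.NC (Wt Data FSW Bw Btw Bw_zero GalW exists_limitW)
open Pool.Agent.K1H29.RD (Es Es_nonneg)

variable {φ : K → K → ℝ} {m : K → ℝ}

/-- solutions on the Fourier side -/
theorem fsw_of_bandL (hφ : Wt φ) {S : Set ℕ} (hS : S.Infinite) {p a b α ν : ℝ} (hBd : BandL φ S p a b)
    (ha : 0 ≤ a) (hab : a * (5 / 4) < b) (hb0 : 0 ≤ b) (hbα : b < α) (hp1 : 1 < p) (hpα : 5 / 4 < α * p)
    (hν : 0 < ν) {v : R3 → R3} (hv : Data v) : ∃ u, FSW φ (sy ν α) (Wz v) u := by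
  have hα : 0 < α := hb0.trans_lt hbα
  refine exists_fsw' hφ (sy_nonneg hν.le α) (sy_neg ν α) hv fun s => ?_
  have h3 := fun (r : ℕ) (hr : 3 ≤ r) => unifL (m := sy ν α) (V := Wz v) hφ hS hBd ha hab hb0 hbα hp1 hpα
    (m0 := ν * ((2 * Real.pi) ^ 2) ^ α) (by positivity) (sy_nonneg hν.le α) (sy_ge hν.le hα.le)
    (Wz_bd hv) hr
  obtain ⟨C, hC⟩ := h3 (s + 3) (by omega)
  refine ⟨C, fun B T u h0 hT h t ht => le_trans ?_ (hC B T u h0 hT h t ht)⟩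
  unfold Es
  refine Finset.sum_le_sum fun k hk => mul_le_mul_of_nonneg_right ?_ (en_nonneg _)
  have hk0 : k ≠ 0 := fun h => h0 (h ▸ hk)
  exact pow_le_pow_right₀ (one_le_nn hk0) (by omega)

variable {Ω : Type*} [MeasurableSpace Ω] {P : Measure Ω} [IsProbabilityMeasure P]
  {X : Sym2 (Multiset K) → Ω → ℝ}

theorem main4 (hX : ∀ t, Measurable (X t)) (hb : ∀ t ω, |X t ω| ≤ 1) (hI : iIndepFun X P)
    {S : Set ℕ} (hS : S.Infinite) {p a γ C : ℝ} (hp : 1 < p) (ha : 0 ≤ a) (hγ : 0 ≤ γ)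
    (hE : ∀ N ∈ S, ∀ l k, (N : ℝ) < hi l k → hi l k ≤ (N : ℝ) ^ p → hi l k ^ a < lo l k →
      |∫ ω, X (trd l k) ω ∂P| ≤ C * hi l k ^ (-γ)) :
    ∀ᵐ ω ∂P, ∀ (α ν : ℝ) (v : R3 → R3), 1 / 2 < α → 5 / 4 - γ / 2 < α → 5 / 4 < α * p →
      a * (5 / 4) < α → 0 < ν → Data v → ∃ u, FSW (cpl fun t => X t ω) (sy ν α) (Wz v) u := by
  filter_upwards [ae_bandL hX hb hI (a := a) hγ hE] with ω hω
  intro α ν v h1 h2 h3 h4 hν hv
  obtain ⟨b, hb1, hb2⟩ := exists_between (show max (max (1 / 2) (5 / 4 - γ / 2)) (a * (5 / 4)) < α from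
    max_lt (max_lt h1 h2) h4)
  have b1 : 1 / 2 < b := ((le_max_left _ _).trans (le_max_left _ _)).trans_lt hb1
  have b2 : 5 / 4 - γ / 2 < b := ((le_max_right _ _).trans (le_max_left _ _)).trans_lt hb1
  have b3 : a * (5 / 4) < b := (le_max_right _ _).trans_lt hb1
  exact fsw_of_bandL (cpl_Wt fun t => hb t ω) hS (hω b b1 b2) ha b3 (by linarith) hb2 hp h3 hν hv

end Pool.Agent.K1H54.RC
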