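import Pool.Agent.K1H54.RC.Gal

/-!
# From the Fourier side to smooth periodic solutions, for general dissipation
-/

open Set ComplexConjugate Filter Topology MeasureTheory
open scoped ContDiff

namespace Pool.Agent.K1H54.RC

open Pool.Agent.H356R3.NS hiding Sol
open Pool.Agent.K1H29
open Pool.Agent.K1H29.NC (Wt prod cvw dUw PFw TT_PFw TT_dUw RDconv TTconv FSW fourier_eqW Btw Bw cw
  prod_GS GS_eq summ_mul_ex ex_sub_smul mean_series)

variable {φ : K → K → ℝ} {d : K → ℝ} {V : K → C3} {u : Fam}

/-- the time derivative -/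
noncomputable def dD (φ : K → K → ℝ) (d : K → ℝ) (u : Fam) (i : Fin 3) : SFam := fun k t =>
  dUw φ (4 * Real.pi ^ 2 * 0) u i k t + (-(d k) : ℂ) * cf' u i k t

lemma deriD (h : FSW φ d V u) (i : Fin 3) (k : K)
    {t : ℝ} (ht : 0 < t) : HasDerivAt (cf' u i k) (dD φ d u i k t) t := by
  have h5 := (hasDerivAt_pi.1 (h.der k t ht)) i
  refine h5.congr_deriv ?_
  unfold dD dUw NC.Btw Bw cvw cw at' cf'
  simp only [Pi.add_apply, Pi.smul_apply, Complex.real_smul]
  push_cast
  ring

lemma TT_dD (hφ : Wt φ) {n : ℕ} {C : ℝ} {r : ℕ} (hd : ∀ k, |d k| ≤ C * pw k ^ r)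
    (h : ∀ i, TT n (cf' u i)) (i : Fin 3) : TT n (dD φ d u i) := by
  unfold dD
  refine TT.add (TT_dUw hφ h i) (TT.mul (C := C) (r := r) (fun k => ?_) (h i))
  rw [norm_neg, Complex.norm_real, Real.norm_eq_abs]
  exact hd k

lemma ttD (hφ : Wt φ) (h : FSW φ d V u) {C : ℝ} {r : ℕ}
    (hd : ∀ k, |d k| ≤ C * pw k ^ r) (n : ℕ) : ∀ i : Fin 3, TT n (cf' u i) := by
  have hc : ∀ i k, Continuous fun t => u k t i := fun i k => (continuous_apply i).comp (h.cf k)
  induction n with
  | zero => intro i; exact ⟨h.rdi i, hc i⟩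
  | succ n ih =>
    intro i
    exact ⟨h.rdi i, hc i, dD φ d u i, fun k t ht => deriD h i k ht, TT_dD hφ hd ih i⟩

/-- multipliers in the shifted frame -/
lemma mult_GS (m : E3) (a : ℝ) {C : ℝ} {r : ℕ} (hd : ∀ k, |d k| ≤ C * pw k ^ r) (hd0 : d 0 = 0) {c : SFam}
    (hc : RD c) (t : ℝ) (hcs : ∀ k, c (-k) t = star (c k t)) (x : R3) :
    mult d (fun y => a + (GS m c t y).re) x = (GS m (fun k t => (d k : ℂ) * c k t) t x).re := by
  obtain ⟨b, hb, hb'⟩ := hc.summ
  have hcsum : Summable fun k => c k t := Summable.of_norm_bounded hb fun k => hb' k t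
  have hsh : Summable fun k => c k t * ex k (-(t • m)) := summ_mul_ex hcsum _
  set c1 : K → ℂ := fun k => c k t * ex k (-(t • m)) + (if k = 0 then (a : ℂ) else 0) with hc1
  have hc1s : Summable c1 := hsh.add
    (summable_of_ne_finset_zero (s := {0}) fun k hk => by rw [if_neg (by simpa using hk)])
  have hc1y : ∀ k, c1 (-k) = star (c1 k) := by
    intro k
    simp only [hc1, star_add]
    rw [hcs, ex_neg, star_mul']
    congr 1
    by_cases h : k = 0
    · subst h
      simp only [neg_zero, if_true, Complex.star_def, Complex.conj_ofReal]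
    · rw [if_neg h, if_neg (by simpa using h), star_zero]
  have e1 : (fun y => a + (GS m c t y).re) = fun y => (∑' l, c1 l * ex l y).re := by
    funext y
    rw [GS_eq, mean_series a hsh]
  rw [e1]
  unfold mult
  have h1 : ∀ k, NC.four (fun y => (∑' l, c1 l * ex l y).re) k = c1 k := fun k =>
    SH.four_series hc1s hc1y k
  simp only [h1]
  rw [GS_eq]
  congr 1
  refine tsum_congr fun k => ?_
  by_cases h : k = 0
  · subst h
    simp [hd0]
  · simp only [hc1, if_neg h, add_zero]
    show (d k : ℂ) * (c k t * ex k (-(t • m))) * ex k x = (d k : ℂ) * c k t * ex k (-(t • m)) * ex k x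
    ring

theorem physicalD (hφ : Wt φ) (h : FSW φ d V u) {C : ℝ} {r : ℕ} (hd : ∀ k, |d k| ≤ C * pw k ^ r)
    (hd0 : d 0 = 0) (m : E3) {v : R3 → R3} (hv : ∀ x i, m i + (∑' k, V k i * ex k x).re = v x i) :
    SolD φ d v (fun t x i => m i + (GS m (cf' u i) t x).re) (fun t x => (GS m (PFw φ u) t x).re) := by
  have hT : ∀ n i, TT n (cf' u i) := fun n i => ttD hφ h hd n i
  have hP : ∀ n, TT n (PFw φ u) := fun n => TT_PFw hφ (hT n)
  have hdT : ∀ n i, TT n (dD φ d u i) := fun n i => TT_dD hφ hd (hT n) i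
  have hsym : ∀ i k t, cf' u i (-k) t = star (cf' u i k t) := fun i k t => h.sym t k i
  have hre : ∀ i t x, (GS m (cf' u i) t x).im = 0 := fun i t x => SF_real (hsym i) _
  have hsymd : ∀ i j k t, dS j (cf' u i) (-k) t = star (dS j (cf' u i) k t) := by
    intro i j k t
    unfold dS
    rw [hsym, star_mul']
    congr 1
    unfold fj
    simp only [Pi.neg_apply, Int.cast_neg, Complex.star_def, map_mul, Complex.conj_I, Complex.conj_ofReal,
      map_ofNat, map_intCast]
    ring
  refine ⟨?_, ?_, ?_, ?_, ?_, ?_, ?_⟩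
  · rw [contDiffOn_pi]
    intro i
    exact contDiffOn_const.add (GS_smooth_re m fun n => hT n i)
  · exact GS_smooth_re m hP
  · intro t _ x j
    funext i
    simp only [GS_periodic]
  · intro t _ x j
    simp only [GS_periodic]
  · intro t ht x i
    have hd0' : HasDerivWithinAt (fun s => m i + (GS m (cf' u i) s x).re)
        (GS m (dD φ d u i) t x
          + ∑ j, GS m (dS j (cf' u i)) t x * (-(m j) : ℝ)).re (Ici 0) t := by
      have h1 := GS_dt m (hT 1 i) (fun k t ht => deriD h i k ht) (hdT 0 i) ht x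
      have h2 := (Complex.reCLM.hasFDerivAt.comp_hasDerivWithinAt t h1).const_add (m i)
      exact h2
    have hdw := hd0'.derivWithin (uniqueDiffOn_Ici (0 : ℝ) t ht)
    have e1 : ∀ j, pd j (fun y => m i + (GS m (cf' u i) t y).re) = fun x => (GS m (dS j (cf' u i)) t x).re :=
      fun j => funext fun x => pd_GS m (hT 1 i) ht (m i) j x
    have e3 : pd i (fun x => (GS m (PFw φ u) t x).re) x = (GS m (dS i (PFw φ u)) t x).re := pd_GS' m (hP 1) ht i x
    have hU : ∀ i, RD (cf' u i) := fun i => (hT 0 i).rd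
    have hdS : ∀ j, RD (dS j (cf' u i)) := fun j => ((hT 0 i).dS j).rd
    have e4 : ∀ j, prod φ (fun y => m j + (GS m (cf' u j) t y).re) (fun x => (GS m (dS j (cf' u i)) t x).re) x
        = m j * (GS m (dS j (cf' u i)) t x).re + (GS m (cvw φ (cf' u j) (dS j (cf' u i))) t x).re :=
      fun j => prod_GS hφ m j (hU j) (hdS j) t (fun k => hsym j k t) (fun k => hsymd i j k t) x
    have e5 : mult d (fun y => m i + (GS m (cf' u i) t y).re) x
        = (GS m (fun k t => (d k : ℂ) * cf' u i k t) t x).re :=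
      mult_GS m (m i) hd hd0 (hU i) t (fun k => hsym i k t) x
    rw [hdw]
    simp only [e1, e3, e4, e5]
    have hRDd : RD (fun k t => (d k : ℂ) * cf' u i k t) :=
      (h.rdi i).mul (C := C) (r := r) (fun k => by
        rw [Complex.norm_real, Real.norm_eq_abs]; exact hd k)
    have key : GS m (dD φ d u i) t x
          + ∑ j, GS m (cvw φ (cf' u j) (dS j (cf' u i))) t x
        = (-1) * GS m (fun k t => (d k : ℂ) * cf' u i k t) t x + (-1) * GS m (dS i (PFw φ u)) t x := by
      have hdP : RD (dS i (PFw φ u)) := ((hP 0).dS i).rd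
      have hcv : ∀ j, RD (cvw φ (cf' u j) (dS j (cf' u i))) := fun j => RDconv hφ (hU j) (hdS j)
      have hsum1 : RD fun k t => ∑ j, cvw φ (cf' u j) (dS j (cf' u i)) k t :=
        (TT.sum (n := 0) Finset.univ fun j _ => TTconv hφ (hT 0 j) ((hT 0 i).dS j)).rd
      have hone : ∀ (z : ℂ) {c : SFam}, RD c → RD fun k t => z * c k t := fun z c hc =>
        hc.mul (C := ‖z‖) (r := 0) (p := fun _ => z) fun k => by simp
      unfold GS
      rw [← SF_sum hcv, ← SF_const_mul, ← SF_const_mul, ← SF_add (hdT 0 i).rd hsum1,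
        ← SF_add (hone _ hRDd) (hone _ hdP)]
      congr 1
      funext k t
      have := fourier_eqW (ν := 0) hφ hU h.div i k t
      unfold dD
      rw [Complex.ofReal_zero, zero_mul, zero_add] at this
      linear_combination this
    have keyre := congrArg Complex.re key
    simp only [Complex.add_re, Complex.re_sum, Complex.mul_re, Complex.ofReal_re, Complex.ofReal_im,
      Complex.neg_re, Complex.one_re, Complex.neg_im, Complex.one_im] at keyre ⊢
    have e5 : ∑ j, ((GS m (dS j (cf' u i)) t x).re * -m j - (GS m (dS j (cf' u i)) t x).im * 0)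
        = -∑ j, m j * (GS m (dS j (cf' u i)) t x).re := by
      rw [← Finset.sum_neg_distrib]; exact Finset.sum_congr rfl fun j _ => by ring
    rw [e5, Finset.sum_add_distrib]
    simp only [zero_mul, sub_zero, neg_zero] at keyre
    linarith
  · intro t ht x
    have e1 : ∀ i, pd i (fun y => m i + (GS m (cf' u i) t y).re) x = (GS m (dS i (cf' u i)) t x).re :=
      fun i => pd_GS m (hT 1 i) ht (m i) i x
    simp only [e1]
    rw [← Complex.re_sum]
    have : ∑ i, GS m (dS i (cf' u i)) t x = 0 := by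
      unfold GS
      rw [← SF_sum fun i => ((hT 0 i).dS i).rd]
      have h0 : (fun k t => ∑ j, dS j (cf' u j) k t) = fun _ _ => (0 : ℂ) := by
        funext k t
        have := h.div k t
        unfold dt at this
        unfold dS fj cf'
        calc ∑ j, 2 * Real.pi * Complex.I * (k j : ℂ) * u k t j
            = 2 * Real.pi * Complex.I * ∑ j, (k j : ℂ) * u k t j := by
              rw [Finset.mul_sum]; exact Finset.sum_congr rfl fun j _ => by ring
          _ = 0 := by rw [this, mul_zero]
      rw [h0]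
      simp [SF]
    rw [this]; rfl
  · funext x i
    rw [← hv x i]
    show m i + (GS m (cf' u i) 0 x).re = m i + (∑' k, V k i * ex k x).re
    unfold GS SF
    simp only [zero_smul, sub_zero, cf', h.init]

end Pool.Agent.K1H54.RC
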