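import Pool.Agent.K1H54.RC.Main4
import Pool.Agent.K1H54.RC.Uni

/-!
# For exponent one the dissipation is the Laplacian
-/

open MeasureTheory Set

namespace Pool.Agent.K1H54.RC

open H459R3.NS
open Pool.Agent.K1H29
open Pool.Agent.K1H29.NC (four_eq_fr')

theorem mult_one {f : V → ℝ} (hf : SP f) (ν : ℝ) (x : V) :
    mult (sy ν 1) f x = -(ν * ∑ j, pd j (pd j f) x) := by
  have h2 : ∀ j, SP (pd j (pd j f)) := fun j => (hf.pd j).pd j
  have h3 : ∀ j k, fr (pd j (pd j f)) k = -((((2 * Real.pi) ^ 2 * (k j : ℝ) ^ 2 : ℝ) : ℂ) * fr f k) := by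
    intro j k
    rw [fr_pd (hf.pd j), fr_pd hf]
    unfold D
    have := Complex.I_sq
    push_cast
    linear_combination (4 * (Real.pi : ℂ) ^ 2 * (k j : ℂ) ^ 2 * fr f k) * this
  have h4 : ∀ j, ((pd j (pd j f) x : ℝ) : ℂ) = S (fr (pd j (pd j f))) x := fun j => (S_fr (h2 j) x).symm
  have hs : ∀ j, Summable fun k => fr (pd j (pd j f)) k * ee k x := fun j =>
    Summable.of_norm (by simpa only [norm_term] using (rap_fr (h2 j)).summable.norm)
  have h5 : ((-(ν * ∑ j, pd j (pd j f) x) : ℝ) : ℂ) = S (fun k => (sy ν 1 k : ℂ) * fr f k) x := by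
    push_cast
    simp only [h4]
    unfold S
    rw [← Summable.tsum_finsetSum fun j _ => hs j, ← neg_mul, ← tsum_mul_left]
    refine tsum_congr fun k => ?_
    simp only [h3]
    have e : ((sy ν 1 k : ℝ) : ℂ) = (ν : ℂ) * ∑ j, (((2 * Real.pi) ^ 2 * (k j : ℝ) ^ 2 : ℝ) : ℂ) := by
      unfold sy
      rw [Real.rpow_one, Finset.mul_sum]
      push_cast
      rfl
    rw [e, Finset.mul_sum, Finset.mul_sum, Finset.sum_mul, Finset.sum_mul]
    refine Finset.sum_congr rfl fun j _ => ?_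
    ring
  rw [mult_eq_S, ← h5, Complex.ofReal_re]

end Pool.Agent.K1H54.RC
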