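import Pool.Agent.K1H54.RC.Flx4
import Pool.Agent.K1H54.RC.Flx

/-!
# Random couplings in sparse bands
-/

open Set ComplexConjugate MeasureTheory ProbabilityTheory Finset

namespace Pool.Agent.K1H54.RC

open Pool.Agent.H356R3.NS hiding Sol
open Pool.Agent.K1H29.SH (nn nn_nonneg nn_neg one_le_nn nn_eq_zero)
open Pool.Agent.K1H29.NC (Tr n2 Wt)

lemma Gbd.mono {M : K → K → ℝ} {s : ℕ} {b b' : ℝ} (h : Gbd M s b) (hb : b ≤ b') : Gbd M s b' := by
  obtain ⟨C, hC, h⟩ := h
  refine ⟨C, hC, fun N B x y z F hN hF hF0 hx hy hz hzN =>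
    (h N B x y z F hN hF hF0 hx hy hz hzN).trans ?_⟩
  apply mul_le_mul_of_nonneg_left _ hC
  apply mul_le_mul_of_nonneg_left _ (Real.sqrt_nonneg _)
  unfold Sh
  refine Finset.sum_le_sum fun k _ => ?_
  split_ifs
  · by_cases hk : k = 0
    · subst hk; simp [hF0]
    · apply mul_le_mul_of_nonneg_right _ (sq_nonneg _)
      exact Real.rpow_le_rpow_of_exponent_le (one_le_nn hk) (by linarith)
  · exact le_rfl

lemma Gbd.add {M M' : K → K → ℝ} {s : ℕ} {b : ℝ} (h : Gbd M s b) (h' : Gbd M' s b) :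
    Gbd (fun l k => M l k + M' l k) s b := by
  obtain ⟨C, hC, h⟩ := h
  obtain ⟨C', hC', h'⟩ := h'
  refine ⟨C + C', by positivity, fun N B x y z F hN hF hF0 hx hy hz hzN => ?_⟩
  have h1 : Tr (fun l k => M l k + M' l k) B x y z = Tr M B x y z + Tr M' B x y z := by
    unfold Tr
    simp only [← Finset.sum_add_distrib]
    refine Finset.sum_congr rfl fun k _ => Finset.sum_congr rfl fun l _ => ?_
    push_cast
    ring
  rw [h1, add_mul]
  exact (norm_add_le _ _).trans (add_le_add (h N B x y z F hN hF hF0 hx hy hz hzN)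
    (h' N B x y z F hN hF hF0 hx hy hz hzN))

section prob

variable {Ω : Type*} [MeasurableSpace Ω] {P : Measure Ω} [IsProbabilityMeasure P]
  {X : Sym2 (Multiset K) → Ω → ℝ}

open Classical in
theorem ae_bandB (hX : ∀ t, Measurable (X t)) (hb : ∀ t ω, |X t ω| ≤ 1) (hI : iIndepFun X P)
    {S : Set ℕ} {p γ C : ℝ} (hγ : 0 ≤ γ)
    (hE : ∀ N ∈ S, ∀ l k, (N : ℝ) < hi l k → hi l k ≤ (N : ℝ) ^ p →
      |∫ ω, X (trd l k) ω ∂P| ≤ C * hi l k ^ (-γ)) :
    ∀ᵐ ω ∂P, ∀ b : ℝ, 1 / 2 < b → 5 / 4 - γ / 2 < b → BandB (cpl fun t => X t ω) S p b := by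
  have h1 : ∀ᵐ ω ∂P, ∀ (n s : ℕ) (j r : Fin 3), ∃ C, 0 ≤ C ∧
      Blog (Mr P X trd (cg (kl s j) s (1 / ((n : ℝ) + 1)) 0 r) ω) C := by
    rw [ae_all_iff]; intro n
    rw [ae_all_iff]; intro s
    rw [ae_all_iff]; intro j
    rw [ae_all_iff]; intro r
    have hδ : 0 ≤ 1 / ((n : ℝ) + 1) := by positivity
    have hxp : 0 ≤ xp s (1 / ((n : ℝ) + 1)) 0 := by
      unfold xp
      have : (0 : ℝ) ≤ s := Nat.cast_nonneg s
      linarith
    exact ae_blog hX hb hI (fun l k => cg_le (kl_ord s j) hδ hxp r l k) trd_fib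
  filter_upwards [h1] with ω hω b hb1 hb2 s j
  -- choice of the parameters
  set g := min γ (3 / 2) with hg
  have hg0 : 0 ≤ g := le_min hγ (by norm_num)
  have hbg : 5 / 4 - g / 2 < b := by
    rcases min_choice γ (3 / 2) with h | h
    · rw [hg, h]; exact hb2
    · rw [hg, h]; linarith
  obtain ⟨n, hn⟩ := exists_nat_one_div_lt (show 0 < min ((b - 1 / 2) / 2) (b - (5 / 4 - g / 2)) from
    lt_min (by linarith) (by linarith))
  set δ : ℝ := 1 / ((n : ℝ) + 1) with hδ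
  have hδ0 : 0 < δ := by positivity
  have hδ1 : δ < (b - 1 / 2) / 2 := hn.trans_le (min_le_left _ _)
  have hδ2 : δ < b - (5 / 4 - g / 2) := hn.trans_le (min_le_right _ _)
  -- the random part
  have r1 : Gbd (fun l k => kl s j l k * Yc P X (trd l k) ω) s (1 / 2 + 3 / 2 * δ) :=
    rand_bd3 hδ0 fun r => hω n s j r
  have r2 := r1.mono (b' := b) (by linarith)
  -- the mean part
  set μ : K → K → ℝ := fun l k => if ∃ N ∈ S, (N : ℝ) < hi l k ∧ hi l k ≤ (N : ℝ) ^ p then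
    ∫ ω', X (trd l k) ω' ∂P else 0 with hμ
  have hxp : 0 ≤ xp s (3 / 2 + δ) g := by
    unfold xp
    have : g ≤ 3 / 2 := min_le_right _ _
    have hs : (0 : ℝ) ≤ s := Nat.cast_nonneg s
    linarith
  have m1 : Gbd (fun l k => kl s j l k * μ l k) s (xp s (3 / 2 + δ) g - s) := by
    refine abs_bd3 (A := |C|) (kl_ord s j) (by linarith) hxp (abs_nonneg _) fun l k hl hkl hk => ?_
    simp only [hμ]
    split_ifs with hband
    · obtain ⟨N, hN, hN1, hN2⟩ := hband
      have h2 := hE N hN l k hN1 hN2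
      have h3 : 1 ≤ hi l k := (one_le_nn hl).trans (le_max_left _ _)
      rw [abs_mul, abs_of_nonneg (Real.rpow_nonneg (hi_nonneg l k) _)]
      have h6 : hi l k ^ g * hi l k ^ (-γ) ≤ 1 := by
        rw [← Real.rpow_add (by linarith)]
        exact Real.rpow_le_one_of_one_le_of_nonpos h3 (by linarith [min_le_left γ (3 / 2)])
      have p1 : 0 ≤ hi l k ^ g := Real.rpow_nonneg (hi_nonneg l k) _
      have p2 : 0 ≤ hi l k ^ (-γ) := Real.rpow_nonneg (hi_nonneg l k) _
      calc hi l k ^ g * |∫ ω', X (trd l k) ω' ∂P| ≤ hi l k ^ g * (|C| * hi l k ^ (-γ)) := by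
            apply mul_le_mul_of_nonneg_left _ p1
            exact h2.trans (mul_le_mul_of_nonneg_right (le_abs_self C) p2)
        _ = |C| * (hi l k ^ g * hi l k ^ (-γ)) := by ring
        _ ≤ |C| * 1 := mul_le_mul_of_nonneg_left h6 (abs_nonneg _)
        _ = |C| := mul_one _
    · simp
  have m2 := m1.mono (b' := b) (by unfold xp; linarith)
  obtain ⟨C', hC', hbd⟩ := r2.add m2
  refine ⟨C', hC', ?_⟩
  intro N hN B x y z F hF hF0 hFN hx hy hz hzN
  have v : ∀ {w : K → ℂ}, (∀ k, ‖w k‖ ≤ F k) → ∀ k, F k = 0 → w k = 0 := fun hw k hk =>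
    norm_le_zero_iff.1 ((hw k).trans (le_of_eq hk))
  have e : Tr (fun l k => kl s j l k * cpl (fun t => X t ω) l k) B x y z =
      Tr (fun l k => kl s j l k * Yc P X (trd l k) ω + kl s j l k * μ l k) B x y z := by
    unfold Tr
    refine Finset.sum_congr rfl fun k _ => Finset.sum_congr rfl fun l _ => ?_
    by_cases hl : l = 0
    · rw [hl, v hx 0 hF0]; simp
    by_cases hkl : k - l = 0
    · rw [hkl, v hy 0 hF0]; simp
    by_cases hkN : nn k ≤ N
    · rw [hzN k hkN]; simp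
    by_cases hlM : (N : ℝ) ^ p < nn l
    · rw [v hx l (hFN l hlM)]; simp
    by_cases hklM : (N : ℝ) ^ p < nn (k - l)
    · rw [v hy _ (hFN _ hklM)]; simp
    by_cases hkM : (N : ℝ) ^ p < nn k
    · rw [v hz k (hFN k hkM)]; simp
    have hk : k ≠ 0 := by
      rintro rfl
      rw [nn_eq_zero.2 rfl] at hkN
      exact hkN (Nat.cast_nonneg N)
    have h2 : (N : ℝ) < hi l k := (not_le.1 hkN).trans_le ((le_max_right _ _).trans (le_max_right _ _))
    have h3 : hi l k ≤ (N : ℝ) ^ p := max_le (not_lt.1 hlM) (max_le (not_lt.1 hklM) (not_lt.1 hkM))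
    have h4 : cpl (fun t => X t ω) l k = Yc P X (trd l k) ω + μ l k := by
      simp only [hμ]
      rw [if_pos ⟨N, hN, h2, h3⟩]
      unfold cpl Yc
      rw [if_neg (by tauto)]
      ring
    beta_reduce
    rw [h4, mul_add]
  rw [e]
  exact hbd N B x y z F (Nat.cast_nonneg N) hF hF0 hx hy hz hzN

end prob

end Pool.Agent.K1H54.RC
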