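import Pool.Agent.K1H54.RC.Flx5
import Pool.Agent.K1H54.RC.Prob3

/-!
# Random couplings of the local triads in sparse bands
-/

open Set ComplexConjugate MeasureTheory ProbabilityTheory Finset

namespace Pool.Agent.K1H54.RC

open Pool.Agent.H356R3.NS hiding Sol
open Pool.Agent.K1H29.SH (nn nn_nonneg nn_neg one_le_nn nn_eq_zero)
open Pool.Agent.K1H29.NC (Tr n2 Wt)

open Classical in
/-- the kernel restricted to local triads -/
noncomputable def kla (a : ℝ) (s : ℕ) (j : Fin 3) (l k : K) : ℝ :=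
  if hi l k ^ a < lo l k then kl s j l k else 0

lemma kla_ord (a : ℝ) (s : ℕ) (j : Fin 3) : Ord (kla a s j) s := by
  intro l k
  unfold kla
  split_ifs
  · exact kl_ord s j l k
  · rw [abs_zero]; exact pow_nonneg (hi_nonneg l k) _

section prob

variable {Ω : Type*} [MeasurableSpace Ω] {P : Measure Ω} [IsProbabilityMeasure P]
  {X : Sym2 (Multiset K) → Ω → ℝ}

open Classical in
theorem ae_bandL (hX : ∀ t, Measurable (X t)) (hb : ∀ t ω, |X t ω| ≤ 1) (hI : iIndepFun X P)
    {S : Set ℕ} {p a γ C : ℝ} (hγ : 0 ≤ γ)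
    (hE : ∀ N ∈ S, ∀ l k, (N : ℝ) < hi l k → hi l k ≤ (N : ℝ) ^ p → hi l k ^ a < lo l k →
      |∫ ω, X (trd l k) ω ∂P| ≤ C * hi l k ^ (-γ)) :
    ∀ᵐ ω ∂P, ∀ b : ℝ, 1 / 2 < b → 5 / 4 - γ / 2 < b → BandL (cpl fun t => X t ω) S p a b := by
  have h1 : ∀ᵐ ω ∂P, ∀ (n s : ℕ) (j r : Fin 3), ∃ C, 0 ≤ C ∧
      Blog (Mr P X trd (cg (kla a s j) s (1 / ((n : ℝ) + 1)) 0 r) ω) C := by
    rw [ae_all_iff]; intro n
    rw [ae_all_iff]; intro s
    rw [ae_all_iff]; intro j
    rw [ae_all_iff]; intro r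
    have hδ : 0 ≤ 1 / ((n : ℝ) + 1) := by positivity
    have hxp : 0 ≤ xp s (1 / ((n : ℝ) + 1)) 0 := by
      unfold xp
      have : (0 : ℝ) ≤ s := Nat.cast_nonneg s
      linarith
    exact ae_blog hX hb hI (fun l k => cg_le (kla_ord a s j) hδ hxp r l k) trd_fib
  filter_upwards [h1] with ω hω b hb1 hb2 s j
  -- choice of the parameters
  set g := min γ (3 / 2) with hg
  have hg0 : 0 ≤ g := le_min hγ (by norm_num)
  have hbg : 5 / 4 - g / 2 < b := by
    rcases min_choice γ (3 / 2) with h | h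
    · rw [hg, h]; exact hb2
    · rw [hg, h]; linarith
  obtain ⟨n, hn⟩ := exists_nat_one_div_lt (show 0 < min ((b - 1 / 2) / 2) (b - (5 / 4 - g / 2)) from
    lt_min (by linarith) (by linarith))
  set δ : ℝ := 1 / ((n : ℝ) + 1) with hδ
  have hδ0 : 0 < δ := by positivity
  have hδ1 : δ < (b - 1 / 2) / 2 := hn.trans_le (min_le_left _ _)
  have hδ2 : δ < b - (5 / 4 - g / 2) := hn.trans_le (min_le_right _ _)
  -- the random part
  have r1 : Gbd (fun l k => kla a s j l k * Yc P X (trd l k) ω) s (1 / 2 + 3 / 2 * δ) :=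
    rand_bd3 hδ0 fun r => hω n s j r
  have r2 := r1.mono (b' := b) (by linarith)
  -- the mean part
  set μ : K → K → ℝ := fun l k => if ∃ N ∈ S, (N : ℝ) < hi l k ∧ hi l k ≤ (N : ℝ) ^ p ∧
    hi l k ^ a < lo l k then ∫ ω', X (trd l k) ω' ∂P else 0 with hμ
  have hxp : 0 ≤ xp s (3 / 2 + δ) g := by
    unfold xp
    have : g ≤ 3 / 2 := min_le_right _ _
    have hs : (0 : ℝ) ≤ s := Nat.cast_nonneg s
    linarith
  have m1 : Gbd (fun l k => kla a s j l k * μ l k) s (xp s (3 / 2 + δ) g - s) := by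
    refine abs_bd3 (A := |C|) (kla_ord a s j) (by linarith) hxp (abs_nonneg _) fun l k hl hkl hk => ?_
    simp only [hμ]
    split_ifs with hband
    · obtain ⟨N, hN, hN1, hN2, hN3⟩ := hband
      have h2 := hE N hN l k hN1 hN2 hN3
      have h3 : 1 ≤ hi l k := (one_le_nn hl).trans (le_max_left _ _)
      rw [abs_mul, abs_of_nonneg (Real.rpow_nonneg (hi_nonneg l k) _)]
      have h6 : hi l k ^ g * hi l k ^ (-γ) ≤ 1 := by
        rw [← Real.rpow_add (by linarith)]
        exact Real.rpow_le_one_of_one_le_of_nonpos h3 (by linarith [min_le_left γ (3 / 2)])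
      have p1 : 0 ≤ hi l k ^ g := Real.rpow_nonneg (hi_nonneg l k) _
      have p2 : 0 ≤ hi l k ^ (-γ) := Real.rpow_nonneg (hi_nonneg l k) _
      calc hi l k ^ g * |∫ ω', X (trd l k) ω' ∂P| ≤ hi l k ^ g * (|C| * hi l k ^ (-γ)) := by
            apply mul_le_mul_of_nonneg_left _ p1
            exact h2.trans (mul_le_mul_of_nonneg_right (le_abs_self C) p2)
        _ = |C| * (hi l k ^ g * hi l k ^ (-γ)) := by ring
        _ ≤ |C| * 1 := mul_le_mul_of_nonneg_left h6 (abs_nonneg _)
        _ = |C| := mul_one _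
    · simp
  have m2 := m1.mono (b' := b) (by unfold xp; linarith)
  obtain ⟨C', hC', hbd⟩ := r2.add m2
  refine ⟨C', hC', ?_⟩
  intro N hN B x y z F hF hF0 hx hy hz hzN
  have v : ∀ {w : K → ℂ}, (∀ k, ‖w k‖ ≤ F k) → ∀ k, F k = 0 → w k = 0 := fun hw k hk =>
    norm_le_zero_iff.1 ((hw k).trans (le_of_eq hk))
  have hFn : ∀ k, 0 ≤ F k := fun k => (norm_nonneg _).trans (hx k)
  set M : ℝ := (N : ℝ) ^ p with hM
  set ct : (K → ℂ) → K → ℂ := fun w k => if nn k ≤ M then w k else 0 with hct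
  set F' : K → ℝ := fun k => if nn k ≤ M then F k else 0 with hF'
  have hctb : ∀ {w : K → ℂ}, (∀ k, ‖w k‖ ≤ F k) → ∀ k, ‖ct w k‖ ≤ F' k := by
    intro w hw k
    simp only [hct, hF']
    split_ifs
    · exact hw k
    · simp
  have e : Tr (fun l k => kl s j l k * ph a M (cpl fun t => X t ω) l k) B x y z =
      Tr (fun l k => kla a s j l k * Yc P X (trd l k) ω + kla a s j l k * μ l k) B (ct x) (ct y) (ct z) := by
    unfold Tr
    refine Finset.sum_congr rfl fun k _ => Finset.sum_congr rfl fun l _ => ?_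
    by_cases hl : l = 0
    · have : ct x 0 = 0 := by simp only [hct]; rw [v hx 0 hF0]; simp
      rw [hl, v hx 0 hF0, this]; simp
    by_cases hkl : k - l = 0
    · have : ct y 0 = 0 := by simp only [hct]; rw [v hy 0 hF0]; simp
      rw [hkl, v hy 0 hF0, this]; simp
    by_cases hkN : nn k ≤ N
    · have : ct z k = 0 := by simp only [hct]; rw [hzN k hkN]; simp
      rw [hzN k hkN, this]; simp
    have hk : k ≠ 0 := by
      rintro rfl
      rw [nn_eq_zero.2 rfl] at hkN
      exact hkN (Nat.cast_nonneg N)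
    have hph : ∀ q : Prop, (¬ q → ¬ lc a M l k) → ¬ q →
        ph a M (cpl fun t => X t ω) l k = 0 := by
      intro q h1 h2
      unfold ph
      rw [if_neg]
      rintro (h | h | h | h)
      · exact hl h
      · exact hkl h
      · exact hk h
      · exact h1 h2 h
    by_cases hlM : nn l ≤ M
    swap
    · have e1 : ct x l = 0 := by simp only [hct]; rw [if_neg hlM]
      beta_reduce
      rw [hph (nn l ≤ M) (fun h h2 => h ((le_max_left _ _).trans h2.1)) hlM, e1]; simp
    by_cases hklM : nn (k - l) ≤ M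
    swap
    · have e1 : ct y (k - l) = 0 := by simp only [hct]; rw [if_neg hklM]
      beta_reduce
      rw [hph (nn (k - l) ≤ M) (fun h h2 => h (((le_max_left _ _).trans (le_max_right _ _)).trans h2.1))
        hklM, e1]; simp
    by_cases hkM : nn k ≤ M
    swap
    · have e1 : ct z k = 0 := by simp only [hct]; rw [if_neg hkM]
      beta_reduce
      rw [hph (nn k ≤ M) (fun h h2 => h (((le_max_right _ _).trans (le_max_right _ _)).trans h2.1))
        hkM, e1]; simp
    have h2 : (N : ℝ) < hi l k := (not_le.1 hkN).trans_le ((le_max_right _ _).trans (le_max_right _ _))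
    have h3 : hi l k ≤ M := max_le hlM (max_le hklM hkM)
    have ex : ct x l = x l := by simp only [hct]; rw [if_pos hlM]
    have ey : ct y (k - l) = y (k - l) := by simp only [hct]; rw [if_pos hklM]
    have ez : ct z k = z k := by simp only [hct]; rw [if_pos hkM]
    rw [ex, ey, ez]
    by_cases hloc : hi l k ^ a < lo l k
    · have h4 : ph a M (cpl fun t => X t ω) l k = Yc P X (trd l k) ω + μ l k := by
        simp only [hμ]
        rw [if_pos ⟨N, hN, h2, h3, hloc⟩]
        unfold ph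
        rw [if_pos (Or.inr (Or.inr (Or.inr ⟨h3, hloc⟩)))]
        unfold cpl Yc
        rw [if_neg (by tauto)]
        ring
      have h5 : kla a s j l k = kl s j l k := by unfold kla; rw [if_pos hloc]
      beta_reduce
      rw [h4, h5, mul_add]
    · have h5 : kla a s j l k = 0 := by unfold kla; rw [if_neg hloc]
      beta_reduce
      rw [hph (hi l k ^ a < lo l k) (fun h h2 => h h2.2) hloc, h5]
      simp
  rw [e]
  have h7 := hbd N B (ct x) (ct y) (ct z) F' (Nat.cast_nonneg N)
    (fun k hk => by simp only [hF']; rw [hF k hk]; simp) (by simp only [hF']; rw [hF0]; simp)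
    (hctb hx) (hctb hy) (hctb hz) (fun k hk => by simp only [hct]; rw [hzN k hk]; simp)
  refine h7.trans (mul_le_mul_of_nonneg_left ?_ hC')
  have hF'F : ∀ k, F' k ^ 2 ≤ F k ^ 2 := by
    intro k
    simp only [hF']
    split_ifs
    · exact le_rfl
    · simpa using sq_nonneg (F k)
  apply mul_le_mul
  · exact Real.sqrt_le_sqrt (Finset.sum_le_sum fun k _ => hF'F k)
  · unfold Sh
    refine Finset.sum_le_sum fun k _ => ?_
    split_ifs
    · exact mul_le_mul_of_nonneg_left (hF'F k) (Real.rpow_nonneg (nn_nonneg k) _)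
    · exact le_rfl
  · exact Sh_nonneg _ _ _ _
  · exact Real.sqrt_nonneg _

end prob

end Pool.Agent.K1H54.RC
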