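import Pool.Agent.K1H54.RC.Up
import Pool.Agent.K1H29.RD.Prob

/-!
# Random trilinear forms on boxes of frequencies
-/

open MeasureTheory ProbabilityTheory Filter Topology Finset

namespace Pool.Agent.K1H54.RC

open Pool.Agent.K1H29.RD (bx card_bx card_bx_pos)

/-- frequencies -/
abbrev K := Fin 3 → ℤ

/-- trilinear sum with coefficients `M` -/
noncomputable def Sf (M : K → K → ℝ) (B : Finset K) (x y z : K → ℝ) : ℝ :=
  ∑ k ∈ B, ∑ l ∈ B, M l k * (x l * y (k - l) * z k)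

lemma Sf_lin1 (M : K → K → ℝ) (B : Finset K) (y z : K → ℝ) : IsLinearMap ℝ fun x => Sf M B x y z := by
  constructor
  · intro a b
    unfold Sf
    simp only [← Finset.sum_add_distrib]
    refine Finset.sum_congr rfl fun k _ => Finset.sum_congr rfl fun l _ => ?_
    simp only [Pi.add_apply]; ring
  · intro c a
    unfold Sf
    simp only [smul_eq_mul, Finset.mul_sum]
    refine Finset.sum_congr rfl fun k _ => Finset.sum_congr rfl fun l _ => ?_
    simp only [Pi.smul_apply, smul_eq_mul]; ring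

lemma Sf_lin2 (M : K → K → ℝ) (B : Finset K) (x z : K → ℝ) : IsLinearMap ℝ fun y => Sf M B x y z := by
  constructor
  · intro a b
    unfold Sf
    simp only [← Finset.sum_add_distrib]
    refine Finset.sum_congr rfl fun k _ => Finset.sum_congr rfl fun l _ => ?_
    simp only [Pi.add_apply]; ring
  · intro c a
    unfold Sf
    simp only [smul_eq_mul, Finset.mul_sum]
    refine Finset.sum_congr rfl fun k _ => Finset.sum_congr rfl fun l _ => ?_
    simp only [Pi.smul_apply, smul_eq_mul]; ring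

lemma Sf_lin3 (M : K → K → ℝ) (B : Finset K) (x y : K → ℝ) : IsLinearMap ℝ fun z => Sf M B x y z := by
  constructor
  · intro a b
    unfold Sf
    simp only [← Finset.sum_add_distrib]
    refine Finset.sum_congr rfl fun k _ => Finset.sum_congr rfl fun l _ => ?_
    simp only [Pi.add_apply]; ring
  · intro c a
    unfold Sf
    simp only [smul_eq_mul, Finset.mul_sum]
    refine Finset.sum_congr rfl fun k _ => Finset.sum_congr rfl fun l _ => ?_
    simp only [Pi.smul_apply, smul_eq_mul]; ring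

section prob

variable {Ω : Type*} [MeasurableSpace Ω] {P : Measure Ω} [IsProbabilityMeasure P]
  {T : Type*} {X : T → Ω → ℝ}

/-- centred variables -/
noncomputable def Yc (P : Measure Ω) (X : T → Ω → ℝ) (t : T) (ω : Ω) : ℝ := X t ω - ∫ ω', X t ω' ∂P

lemma hoeff (hX : ∀ t, Measurable (X t)) (hb : ∀ t ω, |X t ω| ≤ 1) (hi : iIndepFun X P)
    (s : Finset T) (a : T → ℝ) {ε : ℝ} (hε : 0 ≤ ε) :
    P.real {ω | ε ≤ ∑ t ∈ s, a t * Yc P X t ω} ≤ Real.exp (-ε ^ 2 / (2 * ∑ t ∈ s, a t ^ 2)) := by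
  have hJ : iIndepFun (fun t => (fun ω => a t * Yc P X t ω)) P :=
    hi.comp (fun t => fun r : ℝ => a t * (r - ∫ ω', X t ω' ∂P)) (fun t => by fun_prop)
  have hs : ∀ t ∈ s, HasSubgaussianMGF (fun ω => a t * Yc P X t ω)
      ((fun t => Real.toNNReal (a t ^ 2)) t) P := by
    intro t _
    have h1 := hasSubgaussianMGF_of_mem_Icc (μ := P) (hX t).aemeasurable
      (Eventually.of_forall fun ω => ⟨(abs_le.1 (hb t ω)).1, (abs_le.1 (hb t ω)).2⟩ :
        ∀ᵐ ω ∂P, X t ω ∈ Set.Icc (-1 : ℝ) 1)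
    have h3 : ((‖(1 : ℝ) - -1‖₊ / 2) ^ 2 : NNReal) = 1 := by
      have : (‖(1 : ℝ) - -1‖₊ : NNReal) = 2 := by
        apply NNReal.eq
        simp only [coe_nnnorm, Real.norm_eq_abs, NNReal.coe_ofNat]; norm_num
      rw [this]; simp
    rw [h3] at h1
    obtain ⟨q, hq, h4⟩ : ∃ q : NNReal, (q : ℝ) = a t ^ 2 ∧
        HasSubgaussianMGF (fun ω => a t * (X t ω - ∫ ω', X t ω' ∂P)) q P :=
      ⟨_, mul_one (a t ^ 2), h1.const_mul (a t)⟩
    have h6 : ∀ q : NNReal, (q : ℝ) = a t ^ 2 → q = Real.toNNReal (a t ^ 2) := by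
      intro q hq
      apply NNReal.eq
      rw [hq, Real.coe_toNNReal _ (sq_nonneg (a t))]
    show HasSubgaussianMGF (fun ω => a t * (X t ω - ∫ ω', X t ω' ∂P)) (Real.toNNReal (a t ^ 2)) P
    rw [← h6 q hq]
    exact h4
  have h4 := HasSubgaussianMGF.measure_sum_ge_le_of_iIndepFun hJ hs hε
  refine h4.trans (le_of_eq ?_)
  congr 3
  push_cast
  exact Finset.sum_congr rfl fun t _ => Real.coe_toNNReal _ (sq_nonneg (a t))

lemma hoeff2 (hX : ∀ t, Measurable (X t)) (hb : ∀ t ω, |X t ω| ≤ 1) (hi : iIndepFun X P)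
    (s : Finset T) (a : T → ℝ) {ε : ℝ} (hε : 0 ≤ ε) :
    P.real {ω | ε < |∑ t ∈ s, a t * Yc P X t ω|} ≤
      2 * Real.exp (-ε ^ 2 / (2 * ∑ t ∈ s, a t ^ 2)) := by
  have h1 := hoeff hX hb hi s a hε
  have h2 := hoeff hX hb hi s (fun t => -a t) hε
  simp only [neg_sq] at h2
  have h3 : {ω | ε < |∑ t ∈ s, a t * Yc P X t ω|} ⊆
      {ω | ε ≤ ∑ t ∈ s, a t * Yc P X t ω} ∪ {ω | ε ≤ ∑ t ∈ s, -a t * Yc P X t ω} := by
    intro ω hω
    simp only [Set.mem_ofPred_eq, Set.mem_union] at hω ⊢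
    rcases lt_abs.1 hω with h | h
    · left; exact h.le
    · right
      simp only [neg_mul, Finset.sum_neg_distrib]
      exact h.le
  have h4 := (measureReal_mono (μ := P) h3).trans (measureReal_union_le _ _)
  linarith

/-- random coefficients -/
noncomputable def Mr (P : Measure Ω) (X : T → Ω → ℝ) (τ : K → K → T) (c : K → K → ℝ) (ω : Ω)
    (l k : K) : ℝ := c l k * Yc P X (τ l k) ω

lemma shift_sum {B : Finset K} {g : K → ℝ} (hg : ∀ k, 0 ≤ g k) (hB : ∀ k, k ∉ B → g k = 0)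
    (e : K → K) (he : Function.Injective e) : ∑ k ∈ B, g (e k) ≤ ∑ k ∈ B, g k := by
  classical
  calc ∑ k ∈ B, g (e k) = ∑ k ∈ B.filter (fun k => e k ∈ B), g (e k) := by
        rw [Finset.sum_filter]
        refine Finset.sum_congr rfl fun k _ => ?_
        split_ifs with h
        · rfl
        · exact hB _ h
    _ = ∑ q ∈ (B.filter (fun k => e k ∈ B)).image e, g q :=
        (Finset.sum_image (f := g) (fun x _ y _ h => he h)).symm
    _ ≤ _ := by
        apply Finset.sum_le_sum_of_subset_of_nonneg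
        · intro q hq
          obtain ⟨k, hk, rfl⟩ := Finset.mem_image.1 hq
          exact (Finset.mem_filter.1 hk).2
        · intro q _ _; exact hg q

lemma Sgn.abs_le {B : Finset K} {σ : K → ℝ} (h : Sgn B σ) (k : K) : |σ k| ≤ 1 := by
  rcases h.1 k with h | h | h <;> rw [h] <;> norm_num

lemma Sgn.sq {B : Finset K} {σ : K → ℝ} (h : Sgn B σ) (k : K) : σ k ^ 2 = |σ k| := by
  rcases h.1 k with h | h | h <;> rw [h] <;> norm_num

lemma pairs {B : Finset K} {σ₁ σ₂ σ₃ : K → ℝ} (h1 : Sgn B σ₁) (h2 : Sgn B σ₂) (h3 : Sgn B σ₃) :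
    (∑ k ∈ B, ∑ l ∈ B, |σ₁ l| * |σ₂ (k - l)| * |σ₃ k|) *
      (∑ k ∈ B, |σ₁ k| + ∑ k ∈ B, |σ₂ k| + ∑ k ∈ B, |σ₃ k|) ≤
      3 * ((∑ k ∈ B, |σ₁ k|) * (∑ k ∈ B, |σ₂ k|) * ∑ k ∈ B, |σ₃ k|) := by
  set s1 := ∑ k ∈ B, |σ₁ k| with hs1
  set s2 := ∑ k ∈ B, |σ₂ k| with hs2
  set s3 := ∑ k ∈ B, |σ₃ k| with hs3
  have n1 : 0 ≤ s1 := Finset.sum_nonneg fun _ _ => abs_nonneg _
  have n2 : 0 ≤ s2 := Finset.sum_nonneg fun _ _ => abs_nonneg _
  have n3 : 0 ≤ s3 := Finset.sum_nonneg fun _ _ => abs_nonneg _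
  set Q := ∑ k ∈ B, ∑ l ∈ B, |σ₁ l| * |σ₂ (k - l)| * |σ₃ k| with hQ
  have sh : ∀ e : K → K, Function.Injective e → ∑ k ∈ B, |σ₂ (e k)| ≤ s2 := fun e he =>
    shift_sum (g := fun k => |σ₂ k|) (fun k => abs_nonneg _) (fun k hk => by simp [h2.2 k hk]) e he
  have q13 : Q ≤ s1 * s3 := by
    rw [hQ, hs1, hs3, Finset.sum_mul_sum, Finset.sum_comm]
    refine Finset.sum_le_sum fun l _ => Finset.sum_le_sum fun k _ => ?_
    have := h2.abs_le (k - l)
    have := abs_nonneg (σ₁ l)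
    have := abs_nonneg (σ₃ k)
    calc |σ₁ l| * |σ₂ (k - l)| * |σ₃ k| ≤ |σ₁ l| * 1 * |σ₃ k| := by gcongr
      _ = _ := by ring
  have q12 : Q ≤ s1 * s2 := by
    rw [hQ, Finset.sum_comm]
    calc ∑ l ∈ B, ∑ k ∈ B, |σ₁ l| * |σ₂ (k - l)| * |σ₃ k|
        ≤ ∑ l ∈ B, |σ₁ l| * ∑ k ∈ B, |σ₂ (k - l)| := by
          refine Finset.sum_le_sum fun l _ => ?_
          rw [Finset.mul_sum]
          refine Finset.sum_le_sum fun k _ => ?_
          have := h3.abs_le k
          have h4 : 0 ≤ |σ₁ l| * |σ₂ (k - l)| := by positivity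
          nlinarith
      _ ≤ ∑ l ∈ B, |σ₁ l| * s2 := by
          refine Finset.sum_le_sum fun l _ => mul_le_mul_of_nonneg_left ?_ (abs_nonneg _)
          exact sh (fun k => k - l) (fun a b h => sub_left_injective h)
      _ = s1 * s2 := by rw [← Finset.sum_mul]
  have q23 : Q ≤ s2 * s3 := by
    calc Q ≤ ∑ k ∈ B, |σ₃ k| * ∑ l ∈ B, |σ₂ (k - l)| := by
          refine Finset.sum_le_sum fun k _ => ?_
          rw [Finset.mul_sum]
          refine Finset.sum_le_sum fun l _ => ?_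
          have := h1.abs_le l
          have h4 : 0 ≤ |σ₂ (k - l)| * |σ₃ k| := by positivity
          nlinarith
      _ ≤ ∑ k ∈ B, |σ₃ k| * s2 := by
          refine Finset.sum_le_sum fun k _ => mul_le_mul_of_nonneg_left ?_ (abs_nonneg _)
          exact sh (fun l => k - l) (fun a b h => sub_right_injective h)
      _ = s2 * s3 := by rw [← Finset.sum_mul, mul_comm]
  nlinarith [mul_le_mul_of_nonneg_right q13 n2, mul_le_mul_of_nonneg_right q12 n3,
    mul_le_mul_of_nonneg_right q23 n1]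

/-- the tail for one triple of sign patterns -/
lemma tail (hX : ∀ t, Measurable (X t)) (hb : ∀ t ω, |X t ω| ≤ 1) (hi : iIndepFun X P)
    {τ : K → K → T} {c : K → K → ℝ} (hc : ∀ l k, |c l k| ≤ 1) {B : Finset K}
    (hτ : ∀ t, ∃ F : Finset (K × K), F.card ≤ 36 ∧ ∀ l k, τ l k = t → (l, k) ∈ F)
    {σ₁ σ₂ σ₃ : K → ℝ} (h1 : Sgn B σ₁) (h2 : Sgn B σ₂) (h3 : Sgn B σ₃) {L : ℝ} (hL : 0 ≤ L) :
    P.real {ω | √(216 * L) * (√(∑ k ∈ B, |σ₁ k|) * √(∑ k ∈ B, |σ₂ k|) * √(∑ k ∈ B, |σ₃ k|)) <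
      |Sf (Mr P X τ c ω) B σ₁ σ₂ σ₃|} ≤
      2 * (Real.exp (-(L * ∑ k ∈ B, |σ₁ k|)) * Real.exp (-(L * ∑ k ∈ B, |σ₂ k|)) *
        Real.exp (-(L * ∑ k ∈ B, |σ₃ k|))) := by
  classical
  set s1 := ∑ k ∈ B, |σ₁ k| with hs1
  set s2 := ∑ k ∈ B, |σ₂ k| with hs2
  set s3 := ∑ k ∈ B, |σ₃ k| with hs3
  have n1 : 0 ≤ s1 := Finset.sum_nonneg fun _ _ => abs_nonneg _
  have n2 : 0 ≤ s2 := Finset.sum_nonneg fun _ _ => abs_nonneg _
  have n3 : 0 ≤ s3 := Finset.sum_nonneg fun _ _ => abs_nonneg _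
  set b : K × K → ℝ := fun p => c p.1 p.2 * (σ₁ p.1 * σ₂ (p.2 - p.1) * σ₃ p.2) with hbdef
  set S : Finset T := (B ×ˢ B).image (fun p => τ p.1 p.2) with hS
  set a : T → ℝ := fun t => ∑ p ∈ (B ×ˢ B).filter (fun p => τ p.1 p.2 = t), b p with ha
  have hmaps : ∀ p ∈ B ×ˢ B, (fun p : K × K => τ p.1 p.2) p ∈ S := fun p hp =>
    Finset.mem_image_of_mem _ hp
  set ε := √(216 * L) * (√s1 * √s2 * √s3) with hε
  have hε0 : 0 ≤ ε := by positivity
  have e1 : ∀ ω, Sf (Mr P X τ c ω) B σ₁ σ₂ σ₃ = ∑ t ∈ S, a t * Yc P X t ω := by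
    intro ω
    have f1 : ∑ t ∈ S, a t * Yc P X t ω = ∑ t ∈ S, ∑ p ∈ (B ×ˢ B).filter (fun p => τ p.1 p.2 = t),
        b p * Yc P X (τ p.1 p.2) ω := by
      refine Finset.sum_congr rfl fun t _ => ?_
      simp only [ha]
      rw [Finset.sum_mul]
      refine Finset.sum_congr rfl fun p hp => ?_
      rw [(Finset.mem_filter.1 hp).2]
    rw [f1, Finset.sum_fiberwise_of_maps_to hmaps (fun p => b p * Yc P X (τ p.1 p.2) ω)]
    unfold Sf Mr
    rw [Finset.sum_product_right]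
    refine Finset.sum_congr rfl fun k _ => Finset.sum_congr rfl fun l _ => ?_
    simp only [hbdef]
    ring
  set Q := ∑ k ∈ B, ∑ l ∈ B, |σ₁ l| * |σ₂ (k - l)| * |σ₃ k| with hQ
  have e2 : ∑ t ∈ S, a t ^ 2 ≤ 36 * Q := by
    calc ∑ t ∈ S, a t ^ 2 ≤ ∑ t ∈ S, 36 * ∑ p ∈ (B ×ˢ B).filter (fun p => τ p.1 p.2 = t), b p ^ 2 := by
          refine Finset.sum_le_sum fun t _ => ?_
          simp only [ha]
          have h4 := sq_sum_le_card_mul_sum_sq (s := (B ×ˢ B).filter (fun p => τ p.1 p.2 = t)) (f := b)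
          refine h4.trans (mul_le_mul_of_nonneg_right ?_ (Finset.sum_nonneg fun _ _ => sq_nonneg _))
          obtain ⟨F, hF, hF'⟩ := hτ t
          have h5 : ((B ×ˢ B).filter (fun p : K × K => τ p.1 p.2 = t)).card ≤ F.card :=
            Finset.card_le_card fun p hp => hF' _ _ (Finset.mem_filter.1 hp).2
          exact_mod_cast h5.trans hF
      _ = 36 * ∑ p ∈ B ×ˢ B, b p ^ 2 := by
          rw [← Finset.mul_sum, Finset.sum_fiberwise_of_maps_to hmaps (fun p => b p ^ 2)]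
      _ ≤ 36 * Q := by
          apply mul_le_mul_of_nonneg_left _ (by norm_num)
          rw [Finset.sum_product_right, hQ]
          refine Finset.sum_le_sum fun k _ => Finset.sum_le_sum fun l _ => ?_
          simp only [hbdef]
          rw [mul_pow, mul_pow, mul_pow, h1.sq, h2.sq, h3.sq]
          have h5 : c l k ^ 2 ≤ 1 := by
            have := abs_le.1 (hc l k)
            nlinarith
          have h6 : 0 ≤ |σ₁ l| * |σ₂ (k - l)| * |σ₃ k| := by positivity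
          nlinarith
  have e3 := pairs h1 h2 h3
  rw [← hs1, ← hs2, ← hs3, ← hQ] at e3
  have e4 : 2 * (Real.exp (-(L * s1)) * Real.exp (-(L * s2)) * Real.exp (-(L * s3)))
      = 2 * Real.exp (-(L * (s1 + s2 + s3))) := by
    rw [← Real.exp_add, ← Real.exp_add]
    congr 2
    ring
  rw [e4]
  have hV0 : 0 ≤ ∑ t ∈ S, a t ^ 2 := Finset.sum_nonneg fun _ _ => sq_nonneg _
  rcases hV0.eq_or_lt with hV | hV
  · have f1 : ∀ t ∈ S, a t = 0 := by
      intro t ht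
      have := (Finset.sum_eq_zero_iff_of_nonneg (fun t _ => sq_nonneg (a t))).1 hV.symm t ht
      exact pow_eq_zero_iff (two_ne_zero) |>.1 this
    have f2 : {ω | ε < |Sf (Mr P X τ c ω) B σ₁ σ₂ σ₃|} = ∅ := by
      ext ω
      simp only [Set.mem_ofPred_eq, Set.mem_empty_iff_false, iff_false, not_lt]
      rw [e1 ω, Finset.sum_eq_zero fun t ht => by rw [f1 t ht, zero_mul], abs_zero]
      exact hε0
    rw [f2, measureReal_empty]
    positivity
  · have f1 := hoeff2 hX hb hi S a hε0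
    simp only [e1]
    refine f1.trans (mul_le_mul_of_nonneg_left (Real.exp_le_exp.2 ?_) (by norm_num))
    rw [neg_div, neg_le_neg_iff, le_div_iff₀ (by positivity)]
    have f2 : ε ^ 2 = 216 * L * (s1 * s2 * s3) := by
      rw [hε, mul_pow, mul_pow, mul_pow, Real.sq_sqrt (by positivity), Real.sq_sqrt n1,
        Real.sq_sqrt n2, Real.sq_sqrt n3]
    rw [f2]
    have f3 : 0 ≤ s1 + s2 + s3 := by positivity
    have f4 : (s1 + s2 + s3) * (2 * ∑ t ∈ S, a t ^ 2) ≤ 216 * (s1 * s2 * s3) := by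
      calc (s1 + s2 + s3) * (2 * ∑ t ∈ S, a t ^ 2) ≤ (s1 + s2 + s3) * (2 * (36 * Q)) := by gcongr
        _ = 72 * (Q * (s1 + s2 + s3)) := by ring
        _ ≤ 72 * (3 * (s1 * s2 * s3)) := by gcongr
        _ = _ := by ring
    calc L * (s1 + s2 + s3) * (2 * ∑ t ∈ S, a t ^ 2)
        = L * ((s1 + s2 + s3) * (2 * ∑ t ∈ S, a t ^ 2)) := by ring
      _ ≤ L * (216 * (s1 * s2 * s3)) := mul_le_mul_of_nonneg_left f4 hL
      _ = _ := by ring

end prob

end Pool.Agent.K1H54.RC
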