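import Pool.Agent.K1H54.RC.Ten

/-!
# Random trilinear forms on boxes: the union bound
-/

open MeasureTheory ProbabilityTheory Filter Topology Finset

namespace Pool.Agent.K1H54.RC

open Pool.Agent.K1H29.RD (bx card_bx card_bx_pos)

/-- the sign pattern given by a function on `B` -/
noncomputable def ext (B : Finset K) (s : B → SignType) (k : K) : ℝ :=
  if h : k ∈ B then ((s ⟨k, h⟩ : SignType) : ℝ) else 0

lemma sgn_cast (j : SignType) : (j : ℝ) = -1 ∨ (j : ℝ) = 0 ∨ (j : ℝ) = 1 := by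
  cases j
  · right; left; rfl
  · left; rfl
  · right; right; rfl

lemma ext_sgn (B : Finset K) (s : B → SignType) : Sgn B (ext B s) := by
  refine ⟨fun k => ?_, fun k hk => ?_⟩
  · unfold ext
    split_ifs
    · exact sgn_cast _
    · right; left; rfl
  · unfold ext
    rw [dif_neg hk]

lemma ext_surj {B : Finset K} {σ : K → ℝ} (h : Sgn B σ) : ∃ s, ext B s = σ := by
  refine ⟨fun k => SignType.sign (σ k), ?_⟩
  funext k
  unfold ext
  split_ifs with hk
  · show ((SignType.sign (σ k) : SignType) : ℝ) = σ k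
    rcases h.1 k with h1 | h1 | h1 <;> rw [h1] <;> simp
  · rw [h.2 k hk]

lemma ext_sum (B : Finset K) (s : B → SignType) :
    ∑ k ∈ B, |ext B s k| = ∑ k : B, |((s k : SignType) : ℝ)| := by
  rw [← Finset.sum_coe_sort B]
  refine Finset.sum_congr rfl fun k _ => ?_
  unfold ext
  rw [dif_pos k.2]

/-- the weight of a pattern -/
noncomputable def gw (B : Finset K) (L : ℝ) (s : B → SignType) : ℝ :=
  if s = 0 then 0 else Real.exp (-(L * ∑ k ∈ B, |ext B s k|))

lemma gw_sum (B : Finset K) (L : ℝ) :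
    ∑ s : B → SignType, gw B L s ≤ Real.exp (2 * Real.exp (-L) * B.card) - 1 := by
  classical
  have h1 : ∑ s : B → SignType, Real.exp (-(L * ∑ k ∈ B, |ext B s k|)) =
      (1 + 2 * Real.exp (-L)) ^ B.card := by
    have h2 : ∀ s : B → SignType, Real.exp (-(L * ∑ k ∈ B, |ext B s k|)) =
        ∏ k : B, Real.exp (-(L * |((s k : SignType) : ℝ)|)) := by
      intro s
      rw [ext_sum, ← Real.exp_sum, Finset.sum_neg_distrib, Finset.mul_sum]
    simp only [h2]
    have h3 := Finset.prod_univ_sum (ι := B) (κ := fun _ => SignType) (fun _ => Finset.univ)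
      (fun _ j => Real.exp (-(L * |((j : SignType) : ℝ)|)))
    rw [Fintype.piFinset_univ] at h3
    rw [← h3]
    have h4 : ∑ j : SignType, Real.exp (-(L * |((j : SignType) : ℝ)|)) = 1 + 2 * Real.exp (-L) := by
      have h5 : (Finset.univ : Finset SignType) = {0, -1, 1} := rfl
      rw [h5, Finset.sum_insert (by decide), Finset.sum_insert (by decide), Finset.sum_singleton]
      simp
      ring
    simp only [h4]
    rw [Finset.prod_const, Finset.card_univ, Fintype.card_coe]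
  have h2 : ∑ s : B → SignType, gw B L s =
      ∑ s : B → SignType, Real.exp (-(L * ∑ k ∈ B, |ext B s k|)) - 1 := by
    have h3 : ∀ s : B → SignType, gw B L s = Real.exp (-(L * ∑ k ∈ B, |ext B s k|)) -
        (if s = 0 then 1 else 0) := by
      intro s
      unfold gw
      split_ifs with h
      · subst h
        have : ∑ k ∈ B, |ext B (0 : B → SignType) k| = 0 := by
          rw [ext_sum]; simp
        rw [this]; simp
      · simp
    simp only [h3, Finset.sum_sub_distrib]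
    simp
  rw [h2, h1]
  have h3 : 1 + 2 * Real.exp (-L) ≤ Real.exp (2 * Real.exp (-L)) := by
    have := Real.add_one_le_exp (2 * Real.exp (-L))
    linarith
  have h4 : (1 + 2 * Real.exp (-L)) ^ B.card ≤ Real.exp (2 * Real.exp (-L)) ^ B.card :=
    pow_le_pow_left₀ (by positivity) h3 _
  rw [← Real.exp_nat_mul] at h4
  rw [mul_comm (2 * Real.exp (-L)) (B.card : ℝ)]
  linarith

section prob

variable {Ω : Type*} [MeasurableSpace Ω] {P : Measure Ω} [IsProbabilityMeasure P]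
  {T : Type*} {X : T → Ω → ℝ}

/-- the entropy -/
noncomputable def Ln (n : ℕ) : ℝ := Real.log (2 * (bx n).card) + n * Real.log 2

lemma one_le_card (n : ℕ) : (1 : ℝ) ≤ ((bx n).card : ℝ) := by
  have := card_bx_pos n
  have h : 0 < (bx n).card := by exact_mod_cast this
  exact_mod_cast h

lemma Ln_nonneg (n : ℕ) : 0 ≤ Ln n := by
  unfold Ln
  have h1 := one_le_card n
  have h2 : 0 ≤ Real.log (2 * (bx n).card) := Real.log_nonneg (by linarith)
  have h3 : 0 ≤ Real.log 2 := Real.log_nonneg (by norm_num)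
  positivity

lemma exp_Ln (n : ℕ) : 2 * Real.exp (-Ln n) * (bx n).card = (1 / 2) ^ n := by
  unfold Ln
  have h1 := card_bx_pos n
  rw [neg_add, Real.exp_add, Real.exp_neg, Real.exp_log (by positivity), Real.exp_neg,
    Real.exp_nat_mul, Real.exp_log (by norm_num)]
  rw [one_div, inv_pow]
  field_simp

lemma Ln_le (n : ℕ) : Ln n ≤ 4 * ((n : ℝ) + 1) := by
  unfold Ln
  have h1 := card_bx n
  have h2 := card_bx_pos n
  have h3 : Real.log (2 * (bx n).card) ≤ Real.log (54 * 8 ^ n) := by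
    apply Real.log_le_log (by positivity)
    linarith
  rw [Real.log_mul (x := 54) (y := 8 ^ n) (by norm_num) (by positivity), Real.log_pow] at h3
  have h4 : Real.log 54 ≤ 4 := by
    rw [Real.log_le_iff_le_exp (by norm_num)]
    have := Real.exp_one_gt_d9
    have h5 : Real.exp 4 = Real.exp 1 ^ 4 := by rw [← Real.exp_nat_mul]; norm_num
    rw [h5]
    calc (54 : ℝ) ≤ 2.718 ^ 4 := by norm_num
      _ ≤ _ := pow_le_pow_left₀ (by norm_num) (by linarith) 4
  have h5 := Real.log_two_lt_d9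
  have h6 : Real.log 8 = 3 * Real.log 2 := by
    rw [show (8 : ℝ) = 2 ^ 3 by norm_num, Real.log_pow]; norm_num
  rw [h6] at h3
  have hn : (0 : ℝ) ≤ n := Nat.cast_nonneg n
  nlinarith

/-- the bad event for `B` -/
def BadB (P : Measure Ω) (X : T → Ω → ℝ) (τ : K → K → T) (c : K → K → ℝ) (B : Finset K) (L : ℝ) :
    Set Ω :=
  ⋃ p : (B → SignType) × (B → SignType) × (B → SignType),
    {ω | √(216 * L) * (√(∑ k ∈ B, |ext B p.1 k|) * √(∑ k ∈ B, |ext B p.2.1 k|) *
      √(∑ k ∈ B, |ext B p.2.2 k|)) <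
      |Sf (Mr P X τ c ω) B (ext B p.1) (ext B p.2.1) (ext B p.2.2)|}

lemma sum_prod3 {S : Type*} [Fintype S] (f : S → ℝ) :
    ∑ p : S × S × S, 2 * (f p.1 * (f p.2.1 * f p.2.2)) = 2 * ((∑ s, f s) * ((∑ s, f s) * ∑ s, f s)) := by
  rw [← Finset.mul_sum, Fintype.sum_prod_type]
  congr 1
  simp only [← Finset.mul_sum]
  rw [← Finset.sum_mul, Fintype.sum_prod_type]
  congr 1
  simp only [← Finset.mul_sum]
  rw [← Finset.sum_mul]

lemma ext_zero (B : Finset K) : ext B 0 = fun _ => 0 := by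
  funext k
  unfold ext
  split_ifs <;> simp

lemma gw_nonneg (B : Finset K) (L : ℝ) (s : B → SignType) : 0 ≤ gw B L s := by
  unfold gw
  split_ifs
  · exact le_rfl
  · exact (Real.exp_pos _).le

lemma badB_le (hX : ∀ t, Measurable (X t)) (hb : ∀ t ω, |X t ω| ≤ 1) (hi : iIndepFun X P)
    {τ : K → K → T} {c : K → K → ℝ} (hc : ∀ l k, |c l k| ≤ 1)
    (hτ : ∀ t, ∃ F : Finset (K × K), F.card ≤ 36 ∧ ∀ l k, τ l k = t → (l, k) ∈ F) (B : Finset K)
    {L : ℝ} (hL : 0 ≤ L) :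
    P.real (BadB P X τ c B L) ≤ 2 * ((∑ s, gw B L s) * ((∑ s, gw B L s) * ∑ s, gw B L s)) := by
  unfold BadB
  refine (measureReal_iUnion_fintype_le _).trans ?_
  have h1 : ∀ p : (B → SignType) × (B → SignType) × (B → SignType),
      P.real {ω | √(216 * L) * (√(∑ k ∈ B, |ext B p.1 k|) *
        √(∑ k ∈ B, |ext B p.2.1 k|) * √(∑ k ∈ B, |ext B p.2.2 k|)) <
        |Sf (Mr P X τ c ω) B (ext B p.1) (ext B p.2.1) (ext B p.2.2)|} ≤
      2 * (gw B L p.1 * (gw B L p.2.1 * gw B L p.2.2)) := by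
    rintro ⟨s1, s2, s3⟩
    simp only
    by_cases h0 : s1 = 0 ∨ s2 = 0 ∨ s3 = 0
    · have h2 : ∀ ω, Sf (Mr P X τ c ω) B (ext B s1) (ext B s2) (ext B s3) = 0 := by
        intro ω
        unfold Sf
        refine Finset.sum_eq_zero fun k _ => Finset.sum_eq_zero fun l _ => ?_
        rcases h0 with h0 | h0 | h0 <;> rw [h0, ext_zero] <;> simp
      have h3 : {ω | √(216 * L) * (√(∑ k ∈ B, |ext B s1 k|) *
          √(∑ k ∈ B, |ext B s2 k|) * √(∑ k ∈ B, |ext B s3 k|)) <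
          |Sf (Mr P X τ c ω) B (ext B s1) (ext B s2) (ext B s3)|} = ∅ := by
        ext ω
        simp only [Set.mem_ofPred_eq, Set.mem_empty_iff_false, iff_false, not_lt]
        rw [h2 ω, abs_zero]
        positivity
      rw [h3, measureReal_empty]
      have := gw_nonneg B L s1
      have := gw_nonneg B L s2
      have := gw_nonneg B L s3
      positivity
    · push Not at h0
      have h2 := tail hX hb hi hc hτ (ext_sgn B s1) (ext_sgn B s2) (ext_sgn B s3) hL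
      refine h2.trans (le_of_eq ?_)
      unfold gw
      rw [if_neg h0.1, if_neg h0.2.1, if_neg h0.2.2]
      ring
  refine (Finset.sum_le_sum fun p _ => h1 p).trans ?_
  rw [sum_prod3 (gw B L)]

/-- the bad event for the box `n` -/
def Bad (P : Measure Ω) (X : T → Ω → ℝ) (τ : K → K → T) (c : K → K → ℝ) (n : ℕ) : Set Ω :=
  BadB P X τ c (bx n) (Ln n)

lemma bad_le (hX : ∀ t, Measurable (X t)) (hb : ∀ t ω, |X t ω| ≤ 1) (hi : iIndepFun X P)
    {τ : K → K → T} {c : K → K → ℝ} (hc : ∀ l k, |c l k| ≤ 1)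
    (hτ : ∀ t, ∃ F : Finset (K × K), F.card ≤ 36 ∧ ∀ l k, τ l k = t → (l, k) ∈ F) (n : ℕ) :
    P.real (Bad P X τ c n) ≤ 16 * (1 / 8) ^ n := by
  unfold Bad
  refine (badB_le hX hb hi hc hτ (bx n) (Ln_nonneg n)).trans ?_
  obtain ⟨G, hG⟩ : ∃ G, G = ∑ s : bx n → SignType, gw (bx n) (Ln n) s := ⟨_, rfl⟩
  rw [← hG]
  have hG0 : 0 ≤ G := by
    rw [hG]
    exact Finset.sum_nonneg fun s _ => gw_nonneg _ _ s
  have hG1 : G ≤ 2 * (1 / 2) ^ n := by
    have h2 := gw_sum (bx n) (Ln n)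
    rw [exp_Ln, ← hG] at h2
    have h3 : (0 : ℝ) ≤ (1 / 2) ^ n := by positivity
    have h4 : ((1 : ℝ) / 2) ^ n ≤ 1 := pow_le_one₀ (by norm_num) (by norm_num)
    have h5 := Real.abs_exp_sub_one_le (x := (1 / 2 : ℝ) ^ n) (by rw [abs_of_nonneg h3]; exact h4)
    rw [abs_of_nonneg h3] at h5
    exact h2.trans ((le_abs_self _).trans h5)
  have h6 : ((1 : ℝ) / 8) ^ n = (1 / 2) ^ n * ((1 / 2) ^ n * (1 / 2) ^ n) := by
    rw [← mul_pow, ← mul_pow]; norm_num
  calc 2 * (G * (G * G)) ≤ 2 * ((2 * (1 / 2) ^ n) * ((2 * (1 / 2) ^ n) * (2 * (1 / 2) ^ n))) := by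
        gcongr
    _ = _ := by rw [h6]; ring

/-- almost surely no bad event happens for large boxes -/
lemma ae_good (hX : ∀ t, Measurable (X t)) (hb : ∀ t ω, |X t ω| ≤ 1) (hi : iIndepFun X P)
    {τ : K → K → T} {c : K → K → ℝ} (hc : ∀ l k, |c l k| ≤ 1)
    (hτ : ∀ t, ∃ F : Finset (K × K), F.card ≤ 36 ∧ ∀ l k, τ l k = t → (l, k) ∈ F) :
    ∀ᵐ ω ∂P, ∀ᶠ n in atTop, ω ∉ Bad P X τ c n := by
  apply ae_eventually_notMem
  have h1 : ∀ n, P (Bad P X τ c n) ≤ ENNReal.ofReal (16 * (1 / 8) ^ n) := by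
    intro n
    rw [← ofReal_measureReal]
    exact ENNReal.ofReal_le_ofReal (bad_le hX hb hi hc hτ n)
  refine ne_top_of_le_ne_top ?_ (ENNReal.tsum_le_tsum h1)
  have h2 : Summable fun n : ℕ => 16 * ((1 : ℝ) / 8) ^ n :=
    (summable_geometric_of_lt_one (by norm_num) (by norm_num)).mul_left _
  exact h2.tsum_ofReal_ne_top

omit [IsProbabilityMeasure P] in
/-- the bound on a box from the absence of the bad event -/
lemma bound_of_goodB {τ : K → K → T} {c : K → K → ℝ} {B : Finset K} {L : ℝ} {ω : Ω}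
    (h : ω ∉ BadB P X τ c B L) {x y z : K → ℝ} (hx : ∀ k, k ∉ B → x k = 0)
    (hy : ∀ k, k ∉ B → y k = 0) (hz : ∀ k, k ∉ B → z k = 0) :
    |Sf (Mr P X τ c ω) B x y z| ≤ √(216 * L) * √((harmonic B.card : ℚ) : ℝ) ^ 3 *
      (√(∑ k ∈ B, x k ^ 2) * √(∑ k ∈ B, y k ^ 2) * √(∑ k ∈ B, z k ^ 2)) := by
  have h1 : ∀ σ₁ σ₂ σ₃, Sgn B σ₁ → Sgn B σ₂ → Sgn B σ₃ →
      |Sf (Mr P X τ c ω) B σ₁ σ₂ σ₃| ≤ √(216 * L) *
        (√(∑ k ∈ B, |σ₁ k|) * √(∑ k ∈ B, |σ₂ k|) * √(∑ k ∈ B, |σ₃ k|)) := by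
    intro σ₁ σ₂ σ₃ hs1 hs2 hs3
    obtain ⟨s1, rfl⟩ := ext_surj hs1
    obtain ⟨s2, rfl⟩ := ext_surj hs2
    obtain ⟨s3, rfl⟩ := ext_surj hs3
    by_contra hcon
    apply h
    unfold BadB
    rw [Set.mem_iUnion]
    exact ⟨(s1, s2, s3), not_le.1 hcon⟩
  exact up (Sf_lin1 (Mr P X τ c ω) B) (Sf_lin2 (Mr P X τ c ω) B)
    (Sf_lin3 (Mr P X τ c ω) B) (Real.sqrt_nonneg _) h1 hx hy hz

lemma const_le (n : ℕ) : √(216 * Ln n) * √((harmonic (bx n).card : ℚ) : ℝ) ^ 3 ≤
    810 * ((n : ℝ) + 1) ^ 4 := by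
  have hn : (0 : ℝ) ≤ n := Nat.cast_nonneg n
  have h3 : √(216 * Ln n) ≤ 30 * ((n : ℝ) + 1) := by
    rw [Real.sqrt_le_left (by positivity)]
    have := Ln_le n
    nlinarith
  have h4 : √((harmonic (bx n).card : ℚ) : ℝ) ≤ 3 * ((n : ℝ) + 1) := by
    rw [Real.sqrt_le_left (by positivity)]
    have h5 := harmonic_le_one_add_log (bx n).card
    have h6 : Real.log ((bx n).card : ℝ) ≤ Real.log (27 * 8 ^ n) :=
      Real.log_le_log (card_bx_pos n) (card_bx n)
    rw [Real.log_mul (x := 27) (y := 8 ^ n) (by norm_num) (by positivity), Real.log_pow] at h6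
    have h7 : Real.log 27 ≤ 4 := by
      rw [Real.log_le_iff_le_exp (by norm_num)]
      have := Real.exp_one_gt_d9
      have h5 : Real.exp 4 = Real.exp 1 ^ 4 := by rw [← Real.exp_nat_mul]; norm_num
      rw [h5]
      calc (27 : ℝ) ≤ 2.718 ^ 4 := by norm_num
        _ ≤ _ := pow_le_pow_left₀ (by norm_num) (by linarith) 4
    have h8 := Real.log_two_lt_d9
    have h9 : Real.log 8 = 3 * Real.log 2 := by
      rw [show (8 : ℝ) = 2 ^ 3 by norm_num, Real.log_pow]; norm_num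
    rw [h9] at h6
    nlinarith
  have h5 : 0 ≤ √((harmonic (bx n).card : ℚ) : ℝ) := Real.sqrt_nonneg _
  obtain ⟨q, hq⟩ : ∃ q, q = √((harmonic (bx n).card : ℚ) : ℝ) := ⟨_, rfl⟩
  rw [← hq] at h4 h5 ⊢
  calc √(216 * Ln n) * q ^ 3
      ≤ (30 * ((n : ℝ) + 1)) * (3 * ((n : ℝ) + 1)) ^ 3 := by gcongr
    _ = _ := by ring

end prob

end Pool.Agent.K1H54.RC
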