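import Mathlib

/-!
# From sign patterns to all vectors

A trilinear form which is bounded by `D √(|σ₁| |σ₂| |σ₃|)` on all sign patterns `σ₁, σ₂, σ₃` is bounded by
`D H^(3/2) |x| |y| |z|` for all vectors, where `H` is the harmonic number of the dimension.
-/

namespace Pool.Agent.K1H54.RC

open Finset

variable {ι : Type*} [DecidableEq ι]

/-- sign patterns on `B` -/
def Sgn (B : Finset ι) (σ : ι → ℝ) : Prop :=
  (∀ k, σ k = -1 ∨ σ k = 0 ∨ σ k = 1) ∧ ∀ k, k ∉ B → σ k = 0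

lemma l2_of_l1 {D : ℝ} (c : ι → ℝ) : ∀ (n : ℕ) (B : Finset ι), B.card = n →
    (∀ A ⊆ B, ∑ k ∈ A, |c k| ≤ D * √(A.card : ℝ)) →
    ∑ k ∈ B, c k ^ 2 ≤ D ^ 2 * ((harmonic n : ℚ) : ℝ) := by
  intro n
  induction n with
  | zero =>
    intro B hB _
    rw [Finset.card_eq_zero.1 hB]
    simp
  | succ n ih =>
    intro B hB h
    have hne : B.Nonempty := by
      rw [← Finset.card_pos, hB]; exact Nat.succ_pos n
    obtain ⟨k0, hk0, hmin⟩ := Finset.exists_min_image B (fun k => |c k|) hne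
    have h1 : ((n : ℝ) + 1) * |c k0| ≤ D * √((n : ℝ) + 1) := by
      calc ((n : ℝ) + 1) * |c k0| = ∑ k ∈ B, |c k0| := by
            rw [Finset.sum_const, hB, nsmul_eq_mul]; push_cast; ring
        _ ≤ ∑ k ∈ B, |c k| := Finset.sum_le_sum fun k hk => hmin k hk
        _ ≤ D * √(B.card : ℝ) := h B (Finset.Subset.refl B)
        _ = _ := by rw [hB]; push_cast; rfl
    have hn : (0 : ℝ) < (n : ℝ) + 1 := by positivity
    have h2 : c k0 ^ 2 ≤ D ^ 2 * ((n : ℝ) + 1)⁻¹ := by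
      have h3 : (((n : ℝ) + 1) * |c k0|) ^ 2 ≤ (D * √((n : ℝ) + 1)) ^ 2 :=
        pow_le_pow_left₀ (by positivity) h1 2
      rw [mul_pow, mul_pow, Real.sq_sqrt hn.le, sq_abs] at h3
      rw [← div_eq_mul_inv, le_div_iff₀ hn]
      have h4 : ((n : ℝ) + 1) * (c k0 ^ 2 * ((n : ℝ) + 1)) ≤ ((n : ℝ) + 1) * D ^ 2 := by
        calc _ = ((n : ℝ) + 1) ^ 2 * c k0 ^ 2 := by ring
          _ ≤ D ^ 2 * ((n : ℝ) + 1) := h3
          _ = _ := by ring
      exact le_of_mul_le_mul_left h4 hn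
    have h3 := ih (B.erase k0) (by rw [Finset.card_erase_of_mem hk0, hB]; rfl)
      (fun A hA => h A (hA.trans (Finset.erase_subset _ _)))
    rw [← Finset.add_sum_erase B _ hk0, harmonic_succ]
    push_cast
    rw [mul_add]
    linarith

lemma lin_up {ℓ : (ι → ℝ) →ₗ[ℝ] ℝ} {B : Finset ι} {D : ℝ} (hD : 0 ≤ D)
    (h : ∀ σ, Sgn B σ → |ℓ σ| ≤ D * √(∑ k ∈ B, |σ k|)) {x : ι → ℝ} (hx : ∀ k, k ∉ B → x k = 0) :
    |ℓ x| ≤ D * √((harmonic B.card : ℚ) : ℝ) * √(∑ k ∈ B, x k ^ 2) := by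
  set c : ι → ℝ := fun k => ℓ (Pi.single k 1) with hc
  have hrep : ∀ y : ι → ℝ, (∀ k, k ∉ B → y k = 0) → ℓ y = ∑ k ∈ B, y k * c k := by
    intro y hy
    have h1 : y = ∑ k ∈ B, y k • (Pi.single k (1 : ℝ) : ι → ℝ) := by
      funext j
      rw [Finset.sum_apply]
      by_cases hj : j ∈ B
      · rw [Finset.sum_eq_single j]
        · simp
        · intro k _ hk
          simp [Pi.single_eq_of_ne (Ne.symm hk)]
        · intro h2; exact absurd hj h2
      · rw [hy j hj]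
        symm
        refine Finset.sum_eq_zero fun k hk => ?_
        have : j ≠ k := fun h2 => hj (h2 ▸ hk)
        simp [Pi.single_eq_of_ne this]
    conv_lhs => rw [h1]
    rw [map_sum]
    refine Finset.sum_congr rfl fun k _ => ?_
    rw [map_smul, smul_eq_mul]
  have h1 : ∀ A ⊆ B, ∑ k ∈ A, |c k| ≤ D * √(A.card : ℝ) := by
    intro A hA
    set σ : ι → ℝ := fun k => if k ∈ A then (SignType.sign (c k) : ℝ) else 0 with hσ
    have hs : Sgn B σ := by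
      refine ⟨fun k => ?_, fun k hk => ?_⟩
      · simp only [hσ]
        split_ifs
        · rcases lt_trichotomy (c k) 0 with h2 | h2 | h2
          · left; rw [sign_neg h2]; simp
          · right; left; rw [h2]; simp
          · right; right; rw [sign_pos h2]; simp
        · right; left; rfl
      · simp only [hσ]
        rw [if_neg (fun h2 => hk (hA h2))]
    have h2 := h σ hs
    rw [hrep σ hs.2] at h2
    have h3 : ∑ k ∈ B, σ k * c k = ∑ k ∈ A, |c k| := by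
      rw [← Finset.sum_subset hA]
      · refine Finset.sum_congr rfl fun k hk => ?_
        simp only [hσ, if_pos hk]
        exact sign_mul_self (c k)
      · intro k _ hk
        simp only [hσ, if_neg hk, zero_mul]
    rw [h3] at h2
    have h4 : ∑ k ∈ B, |σ k| ≤ (A.card : ℝ) := by
      rw [← Finset.sum_subset hA (f := fun k => |σ k|)]
      · calc ∑ k ∈ A, |σ k| ≤ ∑ k ∈ A, (1 : ℝ) := by
              refine Finset.sum_le_sum fun k _ => ?_
              rcases hs.1 k with h5 | h5 | h5 <;> rw [h5] <;> norm_num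
          _ = _ := by simp
      · intro k _ hk
        simp only [hσ, if_neg hk, abs_zero]
    exact (le_abs_self _).trans (h2.trans (mul_le_mul_of_nonneg_left (Real.sqrt_le_sqrt h4) hD))
  have h2 := l2_of_l1 c B.card B rfl h1
  rw [hrep x hx]
  have hH : (0 : ℝ) ≤ ((harmonic B.card : ℚ) : ℝ) := by
    have : (0 : ℚ) ≤ harmonic B.card := by
      unfold harmonic
      exact Finset.sum_nonneg fun i _ => by positivity
    exact_mod_cast this
  have h3 := Finset.sum_mul_sq_le_sq_mul_sq B x c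
  have h4 : |∑ k ∈ B, x k * c k| ≤ √((∑ k ∈ B, x k ^ 2) * ∑ k ∈ B, c k ^ 2) :=
    Real.abs_le_sqrt h3
  refine h4.trans ?_
  have h5 : 0 ≤ ∑ k ∈ B, x k ^ 2 := Finset.sum_nonneg fun _ _ => sq_nonneg _
  rw [Real.sqrt_mul h5, mul_comm]
  apply mul_le_mul_of_nonneg_right _ (Real.sqrt_nonneg _)
  calc √(∑ k ∈ B, c k ^ 2) ≤ √(D ^ 2 * ((harmonic B.card : ℚ) : ℝ)) := Real.sqrt_le_sqrt h2
    _ = D * √((harmonic B.card : ℚ) : ℝ) := by rw [Real.sqrt_mul (by positivity), Real.sqrt_sq hD]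

/-- **From sign patterns to all vectors.** -/
theorem up {S : (ι → ℝ) → (ι → ℝ) → (ι → ℝ) → ℝ} (h1 : ∀ y z, IsLinearMap ℝ fun x => S x y z)
    (h2 : ∀ x z, IsLinearMap ℝ fun y => S x y z) (h3 : ∀ x y, IsLinearMap ℝ fun z => S x y z)
    {B : Finset ι} {D : ℝ} (hD : 0 ≤ D)
    (h : ∀ σ₁ σ₂ σ₃, Sgn B σ₁ → Sgn B σ₂ → Sgn B σ₃ →
      |S σ₁ σ₂ σ₃| ≤ D * (√(∑ k ∈ B, |σ₁ k|) * √(∑ k ∈ B, |σ₂ k|) * √(∑ k ∈ B, |σ₃ k|)))
    {x y z : ι → ℝ} (hx : ∀ k, k ∉ B → x k = 0) (hy : ∀ k, k ∉ B → y k = 0)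
    (hz : ∀ k, k ∉ B → z k = 0) :
    |S x y z| ≤ D * √((harmonic B.card : ℚ) : ℝ) ^ 3 *
      (√(∑ k ∈ B, x k ^ 2) * √(∑ k ∈ B, y k ^ 2) * √(∑ k ∈ B, z k ^ 2)) := by
  set H := √((harmonic B.card : ℚ) : ℝ) with hH
  have hH0 : 0 ≤ H := Real.sqrt_nonneg _
  have s1 : ∀ σ₂ σ₃, Sgn B σ₂ → Sgn B σ₃ → |S x σ₂ σ₃| ≤
      (D * H * √(∑ k ∈ B, x k ^ 2)) * (√(∑ k ∈ B, |σ₂ k|) * √(∑ k ∈ B, |σ₃ k|)) := by
    intro σ₂ σ₃ hs2 hs3
    have := lin_up (ℓ := (h1 σ₂ σ₃).mk') (B := B)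
      (D := D * (√(∑ k ∈ B, |σ₂ k|) * √(∑ k ∈ B, |σ₃ k|))) (by positivity)
      (fun σ₁ hs1 => by
        have := h σ₁ σ₂ σ₃ hs1 hs2 hs3
        simp only [IsLinearMap.mk'_apply]
        refine this.trans (le_of_eq ?_)
        ring) hx
    simp only [IsLinearMap.mk'_apply] at this
    refine this.trans (le_of_eq ?_)
    ring
  have s2 : ∀ σ₃, Sgn B σ₃ → |S x y σ₃| ≤
      (D * H ^ 2 * (√(∑ k ∈ B, x k ^ 2) * √(∑ k ∈ B, y k ^ 2))) * √(∑ k ∈ B, |σ₃ k|) := by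
    intro σ₃ hs3
    have := lin_up (ℓ := (h2 x σ₃).mk') (B := B)
      (D := (D * H * √(∑ k ∈ B, x k ^ 2)) * √(∑ k ∈ B, |σ₃ k|)) (by positivity)
      (fun σ₂ hs2 => by
        have := s1 σ₂ σ₃ hs2 hs3
        simp only [IsLinearMap.mk'_apply]
        refine this.trans (le_of_eq ?_)
        ring) hy
    simp only [IsLinearMap.mk'_apply] at this
    refine this.trans (le_of_eq ?_)
    ring
  have := lin_up (ℓ := (h3 x y).mk') (B := B)
    (D := D * H ^ 2 * (√(∑ k ∈ B, x k ^ 2) * √(∑ k ∈ B, y k ^ 2))) (by positivity)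
    (fun σ₃ hs3 => by
      simp only [IsLinearMap.mk'_apply]
      exact s2 σ₃ hs3) hz
  simp only [IsLinearMap.mk'_apply] at this
  refine this.trans (le_of_eq ?_)
  ring

end Pool.Agent.K1H54.RC
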